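import Mathlib
import Pool.Agent.Helper50_Stretch.Cube

set_option autoImplicit false

/-!
# Projections and random sign vectors in a subspace
-/

namespace Pool.Agent.Helper50_RIP

open Pool.Agent.Helper50_Stretch Module
open scoped InnerProductSpace

/-- the Euclidean space `ℝ^d` -/
abbrev V (d : ℕ) := EuclideanSpace ℝ (Fin d)

variable {d : ℕ}

/-- squared distance of `x` to `F` -/
noncomputable def pi2 (F : Submodule ℝ (V d)) (x : V d) : ℝ := ‖Fᗮ.starProjection x‖ ^ 2

theorem pi2_nonneg (F : Submodule ℝ (V d)) (x : V d) : 0 ≤ pi2 F x := sq_nonneg _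

theorem pi2_le_norm_sq (F : Submodule ℝ (V d)) (x : V d) : pi2 F x ≤ ‖x‖ ^ 2 := by
  unfold pi2
  exact pow_le_pow_left₀ (norm_nonneg _) (Submodule.norm_starProjection_apply_le _ _) 2

theorem pi2_bot (x : V d) : pi2 (⊥ : Submodule ℝ (V d)) x = ‖x‖ ^ 2 := by
  unfold pi2
  rw [Submodule.starProjection_orthogonal]
  simp

theorem inner_proj (F : Submodule ℝ (V d)) (x : V d) {v : V d} (hv : v ∈ Fᗮ) :
    ⟪Fᗮ.starProjection x, v⟫_ℝ = ⟪x, v⟫_ℝ := by
  have h := Submodule.starProjection_inner_eq_zero (K := Fᗮ) x v hv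
  rw [inner_sub_left] at h
  linarith

theorem inner_sq_le_pi2 (F : Submodule ℝ (V d)) (x : V d) {v : V d} (hv : v ∈ Fᗮ)
    (hv1 : ‖v‖ = 1) : ⟪x, v⟫_ℝ ^ 2 ≤ pi2 F x := by
  rw [← inner_proj F x hv]
  unfold pi2
  have h := abs_real_inner_le_norm (Fᗮ.starProjection x) v
  rw [hv1, mul_one] at h
  rw [← sq_abs]
  exact pow_le_pow_left₀ (abs_nonneg _) h 2

theorem pi2_sup_span (F : Submodule ℝ (V d)) (x : V d) {v : V d} (hv : v ∈ Fᗮ)
    (hv1 : ‖v‖ = 1) : pi2 (F ⊔ Submodule.span ℝ {v}) x = pi2 F x - ⟪x, v⟫_ℝ ^ 2 := by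
  have hK : ∀ w : V d, w ∈ (F ⊔ Submodule.span ℝ {v})ᗮ ↔ w ∈ Fᗮ ∧ ⟪v, w⟫_ℝ = 0 := by
    intro w
    rw [← Submodule.inf_orthogonal, Submodule.mem_inf, Submodule.mem_orthogonal_singleton_iff_inner_right]
  have hvv : ⟪v, v⟫_ℝ = 1 := by rw [real_inner_self_eq_norm_sq, hv1]; norm_num
  have hproj : (F ⊔ Submodule.span ℝ {v})ᗮ.starProjection x
      = Fᗮ.starProjection x - ⟪x, v⟫_ℝ • v := by
    apply Submodule.eq_starProjection_of_mem_of_inner_eq_zero
    · rw [hK]
      refine ⟨Submodule.sub_mem _ (Submodule.starProjection_apply_mem _ _)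
        (Submodule.smul_mem _ _ hv), ?_⟩
      rw [inner_sub_right, inner_smul_right, hvv, real_inner_comm, inner_proj F x hv]
      ring
    · intro w hw
      rw [hK] at hw
      have h1 := Submodule.starProjection_inner_eq_zero (K := Fᗮ) x w hw.1
      rw [sub_sub_eq_add_sub, add_sub_right_comm, inner_add_left, inner_smul_left, h1, hw.2]
      simp
  unfold pi2
  rw [hproj, norm_sub_sq_real, inner_smul_right, inner_proj F x hv, norm_smul, hv1, mul_one,
    Real.norm_eq_abs, sq_abs]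
  ring

/-- `pi2` is the minimal squared distance -/
theorem pi2_le_of_mem (F : Submodule ℝ (V d)) (x w : V d) (hw : w ∈ F) :
    pi2 F x ≤ ‖x - w‖ ^ 2 := by
  have h : Fᗮ.starProjection (x - w) = Fᗮ.starProjection x := by
    rw [map_sub]
    have : Fᗮ.starProjection w = 0 := by
      rw [Submodule.starProjection_orthogonal]
      simp [Submodule.starProjection_eq_self_iff.mpr hw]
    rw [this, sub_zero]
  unfold pi2
  rw [← h]
  exact pow_le_pow_left₀ (norm_nonneg _) (Submodule.norm_starProjection_apply_le _ _) 2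

theorem exists_mem_pi2 (F : Submodule ℝ (V d)) (x : V d) :
    ∃ w ∈ F, pi2 F x = ‖x - w‖ ^ 2 := by
  refine ⟨F.starProjection x, Submodule.starProjection_apply_mem _ _, ?_⟩
  unfold pi2
  rw [Submodule.starProjection_orthogonal]
  simp

theorem pi2_smul (F : Submodule ℝ (V d)) (c : ℝ) (x : V d) : pi2 F (c • x) = c ^ 2 * pi2 F x := by
  unfold pi2
  rw [map_smul, norm_smul, mul_pow, Real.norm_eq_abs, sq_abs]

/-! ### padded orthonormal bases and sign vectors -/

theorem finrank_le (E : Submodule ℝ (V d)) : finrank ℝ E ≤ d := by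
  have := Submodule.finrank_le E
  simpa using this

/-- orthonormal basis of `E`, padded by zeros -/
noncomputable def pb (E : Submodule ℝ (V d)) (i : Fin d) : V d :=
  if h : (i : ℕ) < finrank ℝ E then ((stdOrthonormalBasis ℝ E) ⟨i, h⟩ : E) else 0

theorem pb_mem (E : Submodule ℝ (V d)) (i : Fin d) : pb E i ∈ E := by
  unfold pb
  split_ifs
  · exact Submodule.coe_mem _
  · exact E.zero_mem

theorem sum_padded {M : Type*} [AddCommMonoid M] {n : ℕ} (hn : n ≤ d) (g : Fin n → M) :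
    ∑ i : Fin d, (if h : (i : ℕ) < n then g ⟨i, h⟩ else 0) = ∑ i : Fin n, g i := by
  have h1 : ∑ i : Fin d, (if h : (i : ℕ) < n then g ⟨i, h⟩ else 0)
      = ∑ i ∈ Finset.range d, (if h : i < n then g ⟨i, h⟩ else 0) :=
    Fin.sum_univ_eq_sum_range (fun i => if h : i < n then g ⟨i, h⟩ else 0) d
  have h2 : ∑ i : Fin n, g i = ∑ i ∈ Finset.range n, (if h : i < n then g ⟨i, h⟩ else 0) := by
    rw [← Fin.sum_univ_eq_sum_range (fun i => if h : i < n then g ⟨i, h⟩ else 0) n]
    apply Finset.sum_congr rfl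
    intro i _
    rw [dif_pos i.isLt]
  rw [h1, h2]
  symm
  apply Finset.sum_subset (Finset.range_mono hn)
  intro i _ hi
  rw [Finset.mem_range] at hi
  rw [dif_neg hi]

theorem sum_inner_pb_sq (E : Submodule ℝ (V d)) (x : V d) :
    ∑ i, ⟪x, pb E i⟫_ℝ ^ 2 = ‖E.starProjection x‖ ^ 2 := by
  have h1 : ∀ i : Fin d, ⟪x, pb E i⟫_ℝ ^ 2 = (if h : (i : ℕ) < finrank ℝ E then
      ⟪E.starProjection x, ((stdOrthonormalBasis ℝ E) ⟨i, h⟩ : V d)⟫_ℝ ^ 2 else 0) := by
    intro i
    unfold pb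
    split_ifs with h
    · congr 1
      have h := Submodule.starProjection_inner_eq_zero (K := E) x
        ((stdOrthonormalBasis ℝ E) ⟨i, h⟩ : V d) (Submodule.coe_mem _)
      rw [inner_sub_left] at h
      linarith
    · simp
  rw [Finset.sum_congr rfl (fun i _ => h1 i),
    sum_padded (finrank_le E) (fun i => ⟪E.starProjection x, ((stdOrthonormalBasis ℝ E) i : V d)⟫_ℝ ^ 2)]
  have h2 := (stdOrthonormalBasis ℝ E).sum_sq_inner_left
    (⟨E.starProjection x, Submodule.starProjection_apply_mem _ _⟩ : E)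
  exact h2

/-- random sign vector of `E` -/
noncomputable def signVec (E : Submodule ℝ (V d)) (ε : Fin d → Bool) : V d :=
  ∑ i, sg (ε i) • pb E i

theorem signVec_mem (E : Submodule ℝ (V d)) (ε : Fin d → Bool) : signVec E ε ∈ E :=
  Submodule.sum_mem _ (fun i _ => Submodule.smul_mem _ _ (pb_mem E i))

theorem inner_signVec (E : Submodule ℝ (V d)) (ε : Fin d → Bool) (x : V d) :
    ⟪x, signVec E ε⟫_ℝ = ∑ i, ⟪x, pb E i⟫_ℝ * sg (ε i) := by
  unfold signVec
  rw [inner_sum]
  apply Finset.sum_congr rfl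
  intro i _
  rw [inner_smul_right]; ring

theorem norm_signVec (E : Submodule ℝ (V d)) (ε : Fin d → Bool) :
    ‖signVec E ε‖ ^ 2 = finrank ℝ E := by
  have h0 : signVec E ε = ((∑ i : Fin (finrank ℝ E),
      sg (ε (Fin.castLE (finrank_le E) i)) • (stdOrthonormalBasis ℝ E) i : E) : V d) := by
    unfold signVec
    have h1 : ∀ i : Fin d, sg (ε i) • pb E i = (if h : (i : ℕ) < finrank ℝ E then
        (sg (ε (Fin.castLE (finrank_le E) ⟨i, h⟩)) • ((stdOrthonormalBasis ℝ E) ⟨i, h⟩ : V d))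
        else 0) := by
      intro i
      unfold pb
      split_ifs with h
      · rfl
      · simp
    rw [Finset.sum_congr rfl (fun i _ => h1 i), sum_padded (finrank_le E)
      (fun i => sg (ε (Fin.castLE (finrank_le E) i)) • ((stdOrthonormalBasis ℝ E) i : V d))]
    push_cast
    rfl
  rw [h0, Submodule.norm_coe, ← real_inner_self_eq_norm_sq]
  rw [(stdOrthonormalBasis ℝ E).orthonormal.inner_sum]
  simp only [conj_trivial, sg_mul_self]
  simp

/-! ### Rademacher sums -/

theorem avg_pi_prod {ι : Type*} [Fintype ι] [DecidableEq ι] {W : Type*} [Fintype W]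
    (φ : ι → W → ℝ) :
    avg (fun ω : ι → W => ∏ i, φ i (ω i)) = ∏ i, avg (φ i) := by
  unfold avg
  rw [Finset.prod_div_distrib, Finset.prod_univ_sum, Fintype.piFinset_univ,
    Finset.prod_const, Finset.card_univ, Fintype.card_fun]
  push_cast
  rfl

theorem avg_exp_rademacher {ι : Type*} [Fintype ι] [DecidableEq ι] (c : ι → ℝ) :
    avg (fun ε : ι → Bool => Real.exp (∑ i, c i * sg (ε i))) ≤ Real.exp ((∑ i, c i ^ 2) / 2) := by
  have h1 : ∀ ε : ι → Bool, Real.exp (∑ i, c i * sg (ε i))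
      = ∏ i, (fun (i : ι) (b : Bool) => Real.exp (c i * sg b)) i (ε i) := by
    intro ε
    rw [Real.exp_sum]
  rw [avg_congr h1, avg_pi_prod (fun (i : ι) (b : Bool) => Real.exp (c i * sg b)),
    Finset.sum_div, Real.exp_sum]
  apply Finset.prod_le_prod
  · intro i _
    exact avg_nonneg (fun b => (Real.exp_pos _).le)
  · intro i _
    have h2 : avg (fun b : Bool => Real.exp (c i * sg b)) = Real.cosh (c i) := by
      unfold avg sg
      rw [Real.cosh_eq]
      simp
    rw [h2]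
    exact Real.cosh_le_exp_half_sq (c i)

theorem avg_sg_mul_sg {ι : Type*} [Fintype ι] [DecidableEq ι] {i j : ι} (h : i ≠ j) :
    avg (fun ε : ι → Bool => sg (ε i) * sg (ε j)) = 0 := by
  apply avg_eq_zero_of_odd (flip i) (flip_invol i)
  intro ε
  rw [flip_same, flip_ne (Ne.symm h), sg_not]
  ring

theorem avg_sq_rademacher {ι : Type*} [Fintype ι] [DecidableEq ι] (c : ι → ℝ) :
    avg (fun ε : ι → Bool => (∑ i, c i * sg (ε i)) ^ 2) = ∑ i, c i ^ 2 := by
  have h1 : ∀ ε : ι → Bool, (∑ i, c i * sg (ε i)) ^ 2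
      = ∑ i, ∑ j, c i * c j * (sg (ε i) * sg (ε j)) := by
    intro ε
    rw [sq, Finset.sum_mul_sum]
    apply Finset.sum_congr rfl
    intro i _
    apply Finset.sum_congr rfl
    intro j _
    ring
  rw [avg_congr h1, avg_sum]
  apply Finset.sum_congr rfl
  intro i _
  rw [avg_sum, Finset.sum_eq_single i]
  · rw [avg_const_mul]
    have : avg (fun ε : ι → Bool => sg (ε i) * sg (ε i)) = 1 :=
      (avg_congr (fun ε : ι → Bool => sg_mul_self (ε i))).trans (avg_const 1)
    rw [this]; ring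
  · intro j _ hj
    rw [avg_const_mul, avg_sg_mul_sg (Ne.symm hj), mul_zero]
  · simp

theorem avg_rademacher {ι : Type*} [Fintype ι] [DecidableEq ι] (c : ι → ℝ) :
    avg (fun ε : ι → Bool => ∑ i, c i * sg (ε i)) = 0 := by
  rw [avg_sum]
  apply Finset.sum_eq_zero
  intro i _
  rw [avg_const_mul]
  have : avg (fun ε : ι → Bool => sg (ε i)) = 0 := by
    apply avg_eq_zero_of_odd (flip i) (flip_invol i)
    intro ε
    rw [flip_same, sg_not]
  rw [this, mul_zero]

theorem avg_exp_signVec (E : Submodule ℝ (V d)) (x : V d) (s : ℝ) :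
    avg (fun ε : Fin d → Bool => Real.exp (s * ⟪x, signVec E ε⟫_ℝ))
      ≤ Real.exp (s ^ 2 * ‖E.starProjection x‖ ^ 2 / 2) := by
  have h1 : ∀ ε : Fin d → Bool, Real.exp (s * ⟪x, signVec E ε⟫_ℝ)
      = Real.exp (∑ i, (s * ⟪x, pb E i⟫_ℝ) * sg (ε i)) := by
    intro ε
    rw [inner_signVec, Finset.mul_sum]
    congr 1
    apply Finset.sum_congr rfl
    intro i _
    ring
  rw [avg_congr h1]
  refine (avg_exp_rademacher _).trans (le_of_eq ?_)
  congr 2
  simp_rw [mul_pow]
  rw [← Finset.mul_sum, sum_inner_pb_sq]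

theorem avg_inner_signVec (E : Submodule ℝ (V d)) (x : V d) :
    avg (fun ε : Fin d → Bool => ⟪x, signVec E ε⟫_ℝ) = 0 := by
  rw [avg_congr (fun ε => inner_signVec E ε x)]
  exact avg_rademacher _

theorem avg_inner_signVec_sq (E : Submodule ℝ (V d)) (x : V d) :
    avg (fun ε : Fin d → Bool => ⟪x, signVec E ε⟫_ℝ ^ 2) = ‖E.starProjection x‖ ^ 2 := by
  rw [avg_congr (fun ε => by rw [inner_signVec E ε x])]
  rw [avg_sq_rademacher, sum_inner_pb_sq]

end Pool.Agent.Helper50_RIP
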