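import Mathlib
import Pool.Agent.Helper50_Stretch.Cube

set_option autoImplicit false
set_option linter.unusedSectionVars false

/-!
# Adapted processes on finite product spaces
-/

namespace Pool.Agent.Helper50_RIP

open Pool.Agent.Helper50_Stretch

section
variable {W S : Type*} [Fintype W] [Nonempty W] {n : ℕ}

/-- `l`-th coordinate -/
noncomputable def coord (ω : Fin n → W) (l : ℕ) : W :=
  if h : l < n then ω ⟨l, h⟩ else Classical.arbitrary W

/-- the state after `l` steps -/
noncomputable def run (st : ℕ → S → W → S) (s0 : S) (ω : Fin n → W) : ℕ → S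
  | 0 => s0
  | l + 1 => st l (run st s0 ω l) (coord ω l)

theorem coord_update_ne (ω : Fin n → W) (i : Fin n) (w : W) {l : ℕ} (hl : l ≠ i) :
    coord (Function.update ω i w) l = coord ω l := by
  unfold coord
  split_ifs with h
  · rw [Function.update_of_ne]
    intro h'
    exact hl (by rw [← h'])
  · rfl

theorem coord_update_same (ω : Fin n → W) (i : Fin n) (w : W) :
    coord (Function.update ω i w) i = w := by
  unfold coord
  rw [dif_pos i.isLt]
  simp

theorem run_update (st : ℕ → S → W → S) (s0 : S) (ω : Fin n → W) (i : Fin n) (w : W) :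
    ∀ l : ℕ, l ≤ i → run st s0 (Function.update ω i w) l = run st s0 ω l
  | 0, _ => rfl
  | l + 1, hl => by
    show st l (run st s0 (Function.update ω i w) l) (coord (Function.update ω i w) l) = _
    rw [run_update st s0 ω i w l (by omega), coord_update_ne ω i w (by omega)]
    rfl

theorem avg_run_succ (st : ℕ → S → W → S) (s0 : S) {l : ℕ} (hl : l < n) (F : S → ℝ) :
    avg (fun ω : Fin n → W => F (run st s0 ω (l + 1)))
      = avg (fun ω : Fin n → W => avg (fun w => F (st l (run st s0 ω l) w))) := by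
  rw [avg_update ⟨l, hl⟩ (fun ω : Fin n → W => F (run st s0 ω (l + 1)))]
  apply avg_congr
  intro ω
  apply avg_congr
  intro w
  show F (st l (run st s0 (Function.update ω ⟨l, hl⟩ w) l)
    (coord (Function.update ω ⟨l, hl⟩ w) l)) = _
  rw [run_update st s0 ω ⟨l, hl⟩ w l (le_refl _)]
  have := coord_update_same ω ⟨l, hl⟩ w
  simp only at this
  rw [this]

theorem run_inv (st : ℕ → S → W → S) (s0 : S) (ω : Fin n → W) (Inv : ℕ → S → Prop)
    (h0 : Inv 0 s0) (hs : ∀ l s w, Inv l s → Inv (l + 1) (st l s w)) :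
    ∀ l, Inv l (run st s0 ω l)
  | 0 => h0
  | l + 1 => hs _ _ _ (run_inv st s0 ω Inv h0 hs l)

theorem run_inv' (st : ℕ → S → W → S) (s0 : S) (ω : Fin n → W) (Inv : ℕ → S → Prop)
    (h0 : Inv 0 s0) (m : ℕ) (hs : ∀ l s w, l < m → Inv l s → Inv (l + 1) (st l s w)) :
    ∀ l, l ≤ m → Inv l (run st s0 ω l)
  | 0, _ => h0
  | l + 1, hl => hs _ _ _ (by omega) (run_inv' st s0 ω Inv h0 m hs l (by omega))

/-- multiplicative supermartingale bound -/
theorem avg_run_le (st : ℕ → S → W → S) (s0 : S) (Inv : ℕ → S → Prop) (m : ℕ) (hm : m ≤ n)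
    (h0 : Inv 0 s0) (hs : ∀ l s w, l < m → Inv l s → Inv (l + 1) (st l s w))
    (Φ : ℕ → S → ℝ) (c : ℕ → ℝ) (hc : ∀ l, 0 ≤ c l)
    (hΦ : ∀ l s, l < m → Inv l s → avg (fun w => Φ (l + 1) (st l s w)) ≤ c l * Φ l s) :
    ∀ l, l ≤ m → avg (fun ω : Fin n → W => Φ l (run st s0 ω l))
      ≤ (∏ i ∈ Finset.range l, c i) * Φ 0 s0
  | 0, _ => by
    have : avg (fun ω : Fin n → W => Φ 0 (run st s0 ω 0)) = Φ 0 s0 := by
      show avg (fun _ : Fin n → W => Φ 0 s0) = _
      exact avg_const _
    rw [this]; simp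
  | l + 1, hl => by
    have ih := avg_run_le st s0 Inv m hm h0 hs Φ c hc hΦ l (by omega)
    rw [avg_run_succ st s0 (by omega : l < n)]
    have h1 : avg (fun ω : Fin n → W => avg (fun w => Φ (l + 1) (st l (run st s0 ω l) w)))
        ≤ avg (fun ω : Fin n → W => c l * Φ l (run st s0 ω l)) := by
      apply avg_mono
      intro ω
      exact hΦ l _ (by omega) (run_inv' st s0 ω Inv h0 m hs l (by omega))
    refine h1.trans ?_
    rw [avg_const_mul, Finset.prod_range_succ]
    calc c l * avg (fun ω : Fin n → W => Φ l (run st s0 ω l))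
        ≤ c l * ((∏ i ∈ Finset.range l, c i) * Φ 0 s0) := mul_le_mul_of_nonneg_left ih (hc l)
      _ = _ := by ring

end

end Pool.Agent.Helper50_RIP
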