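import Mathlib
import Pool.Agent.Helper50_Stretch.Cube

set_option autoImplicit false

/-!
# Sub-Gaussian bounds in finite probability spaces
-/

namespace Pool.Agent.Helper50_RIP

open Pool.Agent.Helper50_Stretch MeasureTheory

/-- Gaussian linearisation of a square -/
theorem gauss_lin (r z : ℝ) (hr : 0 ≤ r) :
    ∫ g : ℝ, Real.exp (Real.sqrt (2 * r) * z * g - g ^ 2 / 2)
      = Real.exp (r * z ^ 2) * Real.sqrt (2 * Real.pi) := by
  have h1 : ∀ g : ℝ, Real.exp (Real.sqrt (2 * r) * z * g - g ^ 2 / 2)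
      = Real.exp (r * z ^ 2) * Real.exp (-(1/2) * (g - Real.sqrt (2 * r) * z) ^ 2) := by
    intro g
    rw [← Real.exp_add]
    congr 1
    have h2 : Real.sqrt (2 * r) ^ 2 = 2 * r := Real.sq_sqrt (by linarith)
    have : (Real.sqrt (2 * r) * z) ^ 2 = 2 * r * z ^ 2 := by rw [mul_pow, h2]
    nlinarith
  rw [integral_congr_ae (Filter.Eventually.of_forall h1), integral_const_mul]
  congr 1
  have h3 := integral_sub_right_eq_self (μ := volume)
    (fun g : ℝ => Real.exp (-(1/2) * g ^ 2)) (Real.sqrt (2 * r) * z)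
  rw [h3, integral_gaussian]
  congr 1
  ring

theorem integrable_gauss_lin (c : ℝ) :
    Integrable (fun g : ℝ => Real.exp (c * g - g ^ 2 / 2)) := by
  have h1 : (fun g : ℝ => Real.exp (c * g - g ^ 2 / 2))
      = fun g : ℝ => Real.exp (c ^ 2 / 2) * Real.exp (-(1/2) * (g - c) ^ 2) := by
    funext g
    rw [← Real.exp_add]
    congr 1
    ring
  rw [h1]
  apply Integrable.const_mul
  have h2 : Integrable (fun g : ℝ => Real.exp (-(1/2) * g ^ 2)) :=
    integrable_exp_neg_mul_sq (by norm_num)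
  exact h2.comp_sub_right c

/-- `(1-x)^{-1/2} ≤ exp x` for `0 ≤ x ≤ 1/2` in the form we need -/
theorem sqrt_bound {x : ℝ} (hx0 : 0 ≤ x) (hx : x ≤ 1/2) :
    Real.sqrt (Real.pi / ((1 - x) / 2)) ≤ Real.exp x * Real.sqrt (2 * Real.pi) := by
  have h1 : (0:ℝ) < 1 - x := by linarith
  have hpi := Real.pi_pos
  have h2 : 1 ≤ (1 - x) * (1 + 2 * x) := by nlinarith
  have h3 : 1 + 2 * x ≤ Real.exp (2 * x) := by
    have := Real.add_one_le_exp (2 * x); linarith
  have h4 : 1 / (1 - x) ≤ Real.exp (2 * x) := by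
    rw [div_le_iff₀ h1]
    nlinarith
  have h5 : Real.pi / ((1 - x) / 2) = (1 / (1 - x)) * (2 * Real.pi) := by
    field_simp
  rw [h5]
  have h6 : Real.sqrt (1 / (1 - x) * (2 * Real.pi)) ≤ Real.sqrt ((Real.exp x) ^ 2 * (2 * Real.pi)) := by
    apply Real.sqrt_le_sqrt
    apply mul_le_mul_of_nonneg_right _ (by positivity)
    rw [← Real.exp_nat_mul]
    simpa using h4
  refine h6.trans (le_of_eq ?_)
  rw [Real.sqrt_mul (sq_nonneg _), Real.sqrt_sq (Real.exp_pos x).le]

section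
variable {Ω : Type*} [Fintype Ω] {J : Type*} [Fintype J]

/-- exponential moment of a sum of squares of a jointly sub-Gaussian vector -/
theorem avg_exp_sum_sq_le (Z : Ω → J → ℝ) (B : ℝ) (hB : 0 ≤ B)
    (h : ∀ a : J → ℝ, avg (fun ω => Real.exp (∑ j, a j * Z ω j)) ≤ Real.exp (B * ∑ j, a j ^ 2))
    (r : ℝ) (hr : 0 ≤ r) (hrB : 4 * r * B ≤ 1/2) :
    avg (fun ω => Real.exp (r * ∑ j, Z ω j ^ 2)) ≤ Real.exp (4 * r * B * Fintype.card J) := by
  classical
  have hx0 : 0 ≤ 4 * r * B := by positivity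
  have hs : (0:ℝ) < Real.sqrt (2 * Real.pi) := Real.sqrt_pos.mpr (by positivity)
  have hsq : Real.sqrt (2 * r) ^ 2 = 2 * r := Real.sq_sqrt (by linarith)
  -- the product of Gaussian integrals
  have h1 : ∀ ω, Real.exp (r * ∑ j, Z ω j ^ 2) * Real.sqrt (2 * Real.pi) ^ Fintype.card J
      = ∫ g : J → ℝ, ∏ j, Real.exp (Real.sqrt (2 * r) * Z ω j * g j - g j ^ 2 / 2) := by
    intro ω
    rw [integral_fintype_prod_volume_eq_prod
      (fun (j : J) (x : ℝ) => Real.exp (Real.sqrt (2 * r) * Z ω j * x - x ^ 2 / 2))]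
    simp_rw [gauss_lin _ _ hr]
    rw [Finset.prod_mul_distrib, Finset.prod_const, Finset.card_univ, ← Real.exp_sum,
      Finset.mul_sum]
  have hint : ∀ ω, Integrable (fun g : J → ℝ =>
      ∏ j, Real.exp (Real.sqrt (2 * r) * Z ω j * g j - g j ^ 2 / 2)) := by
    intro ω
    exact Integrable.fintype_prod (fun j => integrable_gauss_lin (Real.sqrt (2 * r) * Z ω j))
  -- integrate the average
  have h2 : avg (fun ω => Real.exp (r * ∑ j, Z ω j ^ 2)) * Real.sqrt (2 * Real.pi) ^ Fintype.card J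
      = ∫ g : J → ℝ, avg (fun ω =>
        ∏ j, Real.exp (Real.sqrt (2 * r) * Z ω j * g j - g j ^ 2 / 2)) := by
    rw [← avg_mul_const, avg_congr h1]
    unfold avg
    rw [integral_div, integral_finset_sum _ (fun ω _ => hint ω)]
  have h3 : ∀ g : J → ℝ, avg (fun ω =>
        ∏ j, Real.exp (Real.sqrt (2 * r) * Z ω j * g j - g j ^ 2 / 2))
      ≤ ∏ j, Real.exp (-((1 - 4 * r * B) / 2) * g j ^ 2) := by
    intro g
    have e1 : ∀ ω, ∏ j, Real.exp (Real.sqrt (2 * r) * Z ω j * g j - g j ^ 2 / 2)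
        = Real.exp (∑ j, (Real.sqrt (2 * r) * g j) * Z ω j) * Real.exp (- ∑ j, g j ^ 2 / 2) := by
      intro ω
      rw [← Real.exp_sum, ← Real.exp_add, ← Finset.sum_neg_distrib, ← Finset.sum_add_distrib]
      congr 1
      apply Finset.sum_congr rfl
      intro j _
      ring
    rw [avg_congr e1, avg_mul_const]
    have e2 := h (fun j => Real.sqrt (2 * r) * g j)
    refine (mul_le_mul_of_nonneg_right e2 (Real.exp_pos _).le).trans (le_of_eq ?_)
    rw [← Real.exp_add, ← Real.exp_sum, Finset.mul_sum, ← Finset.sum_neg_distrib,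
      ← Finset.sum_add_distrib]
    congr 1
    apply Finset.sum_congr rfl
    intro j _
    rw [mul_pow, hsq]
    ring
  have hb : 0 < (1 - 4 * r * B) / 2 := by linarith
  have h4 : (∫ g : J → ℝ, avg (fun ω =>
        ∏ j, Real.exp (Real.sqrt (2 * r) * Z ω j * g j - g j ^ 2 / 2)))
      ≤ ∫ g : J → ℝ, ∏ j, Real.exp (-((1 - 4 * r * B) / 2) * g j ^ 2) := by
    apply integral_mono
    · unfold avg
      apply Integrable.div_const
      exact integrable_finset_sum _ (fun ω _ => hint ω)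
    · exact Integrable.fintype_prod (fun j => integrable_exp_neg_mul_sq hb)
    · exact h3
  have h5 : (∫ g : J → ℝ, ∏ j, Real.exp (-((1 - 4 * r * B) / 2) * g j ^ 2))
      = Real.sqrt (Real.pi / ((1 - 4 * r * B) / 2)) ^ Fintype.card J := by
    rw [integral_fintype_prod_volume_eq_prod
      (fun (j : J) (x : ℝ) => Real.exp (-((1 - 4 * r * B) / 2) * x ^ 2))]
    simp_rw [integral_gaussian]
    rw [Finset.prod_const, Finset.card_univ]
  have h6 : Real.sqrt (Real.pi / ((1 - 4 * r * B) / 2)) ^ Fintype.card J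
      ≤ (Real.exp (4 * r * B) * Real.sqrt (2 * Real.pi)) ^ Fintype.card J :=
    pow_le_pow_left₀ (Real.sqrt_nonneg _) (sqrt_bound hx0 hrB) _
  have h7 : avg (fun ω => Real.exp (r * ∑ j, Z ω j ^ 2)) * Real.sqrt (2 * Real.pi) ^ Fintype.card J
      ≤ Real.exp (4 * r * B * Fintype.card J) * Real.sqrt (2 * Real.pi) ^ Fintype.card J := by
    rw [h2]
    refine h4.trans ?_
    rw [h5]
    refine h6.trans (le_of_eq ?_)
    rw [mul_pow, ← Real.exp_nat_mul]
    congr 2
    ring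
  exact le_of_mul_le_mul_right h7 (pow_pos hs _)

/-- one variable version -/
theorem avg_exp_sq_le (Y : Ω → ℝ) (B : ℝ) (hB : 0 ≤ B)
    (h : ∀ s : ℝ, avg (fun ω => Real.exp (s * Y ω)) ≤ Real.exp (B * s ^ 2))
    (r : ℝ) (hr : 0 ≤ r) (hrB : 4 * r * B ≤ 1/2) :
    avg (fun ω => Real.exp (r * Y ω ^ 2)) ≤ Real.exp (4 * r * B) := by
  have h1 := avg_exp_sum_sq_le (J := Unit) (fun ω _ => Y ω) B hB (by
    intro a
    have := h (a ())
    simpa using this) r hr hrB
  simpa using h1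

/-- fourth moment -/
theorem avg_pow_four_le [Nonempty Ω] (Y : Ω → ℝ) (B : ℝ) (hB : 0 ≤ B)
    (h : ∀ s : ℝ, avg (fun ω => Real.exp (s * Y ω)) ≤ Real.exp (B * s ^ 2)) :
    avg (fun ω => Y ω ^ 4) ≤ 84 * B ^ 2 := by
  rcases hB.eq_or_lt with hB0 | hB0
  · -- B = 0
    have h0 : ∀ r : ℝ, 0 ≤ r → avg (fun ω => Real.exp (r * Y ω ^ 2)) ≤ 1 := by
      intro r hr
      have := avg_exp_sq_le Y B hB h r hr (by rw [← hB0]; norm_num)
      rw [← hB0] at this
      simpa using this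
    have h1 := h0 2 (by norm_num)
    have h2 : ∀ ω, 1 + 2 * Y ω ^ 2 + 2 * Y ω ^ 4 ≤ Real.exp (2 * Y ω ^ 2) := by
      intro ω
      have := Real.quadratic_le_exp_of_nonneg (x := 2 * Y ω ^ 2) (by positivity)
      nlinarith
    have h3 : avg (fun ω => Y ω ^ 4) ≤ 0 := by
      have h4 : avg (fun ω => 1 + 2 * Y ω ^ 4) ≤ avg (fun ω => Real.exp (2 * Y ω ^ 2)) :=
        avg_mono (fun ω => by have := h2 ω; nlinarith [sq_nonneg (Y ω)])
      rw [avg_add, avg_const, avg_const_mul] at h4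
      linarith
    rw [← hB0]; simpa using h3
  · set r := 1 / (8 * B) with hr
    have hr0 : 0 < r := by positivity
    have h1 := avg_exp_sq_le Y B hB h r hr0.le (by rw [hr]; field_simp; norm_num)
    have h2 : 4 * r * B = 1/2 := by rw [hr]; field_simp; norm_num
    rw [h2] at h1
    have h3 : ∀ ω, 1 + (r ^ 2 / 2) * Y ω ^ 4 ≤ Real.exp (r * Y ω ^ 2) := by
      intro ω
      have := Real.quadratic_le_exp_of_nonneg (x := r * Y ω ^ 2) (by positivity)
      have h4 : 0 ≤ r * Y ω ^ 2 := by positivity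
      nlinarith
    have h4 : avg (fun ω => 1 + (r ^ 2 / 2) * Y ω ^ 4) ≤ Real.exp (1/2) :=
      (avg_mono h3).trans h1
    rw [avg_add, avg_const, avg_const_mul] at h4
    have h5 : Real.exp (1/2) ≤ 1.65 := by
      have h6 : Real.exp (1/2) ^ 2 ≤ 1.65 ^ 2 := by
        rw [← Real.exp_nat_mul]
        norm_num
        have := Real.exp_one_lt_d9
        linarith
      exact (pow_le_pow_iff_left₀ (Real.exp_pos _).le (by norm_num) two_ne_zero).mp h6
    have h6 : r ^ 2 / 2 * avg (fun ω => Y ω ^ 4) ≤ 0.65 := by linarith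
    have h7 : r ^ 2 / 2 = 1 / (128 * B ^ 2) := by rw [hr]; field_simp; norm_num
    rw [h7, one_div, inv_mul_le_iff₀ (by positivity)] at h6
    refine h6.trans ?_
    nlinarith [sq_nonneg B]

end

end Pool.Agent.Helper50_RIP
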