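import Mathlib
import Pool.Agent.Helper50_RIP.Lin
import Pool.Agent.Helper50_RIP.Proc
import Pool.Agent.Helper50_RIP.SubG

set_option autoImplicit false
set_option linter.unusedSectionVars false

/-!
# A frozen random walk in the section of the cube by a subspace
-/

namespace Pool.Agent.Helper50_RIP

open Pool.Agent.Helper50_Stretch Module
open scoped InnerProductSpace

variable {d : ℕ}

/-- coordinate vector -/
noncomputable def ee (j : Fin d) : V d := EuclideanSpace.single j 1

theorem inner_ee (x : V d) (j : Fin d) : ⟪x, ee j⟫_ℝ = x j := by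
  unfold ee
  rw [EuclideanSpace.inner_single_right]
  simp

theorem inner_ee' (x : V d) (j : Fin d) : ⟪ee j, x⟫_ℝ = x j := by
  rw [real_inner_comm, inner_ee]

theorem norm_ee (j : Fin d) : ‖(ee j : V d)‖ = 1 := by
  unfold ee; simp

/-- the coordinate subspace of `A` -/
noncomputable def cspan (A : Finset (Fin d)) : Submodule ℝ (V d) :=
  Submodule.span ℝ (ee '' (A : Set (Fin d)))

theorem finrank_cspan_le (A : Finset (Fin d)) : finrank ℝ (cspan A) ≤ A.card := by
  classical
  unfold cspan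
  have h := finrank_span_finset_le_card (R := ℝ) (A.image (ee : Fin d → V d))
  rw [Finset.coe_image] at h
  exact h.trans Finset.card_image_le

theorem mem_cspan {A : Finset (Fin d)} {z : V d} (hz : z ∈ cspan A) (j : Fin d) (hj : j ∉ A) :
    z j = 0 := by
  unfold cspan at hz
  induction hz using Submodule.span_induction with
  | mem x hx =>
    obtain ⟨i, hi, rfl⟩ := hx
    unfold ee
    rw [PiLp.single_apply, if_neg]
    intro h; subst h; exact hj hi
  | zero => rfl
  | add x y _ _ hx hy => rw [PiLp.add_apply, hx, hy, add_zero]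
  | smul c x _ hx => rw [PiLp.smul_apply, hx, smul_zero]

/-- constraint space of the state `(v, A)` -/
noncomputable def cons (F : Submodule ℝ (V d)) (v : V d) (A : Finset (Fin d)) :
    Submodule ℝ (V d) := (F ⊔ Submodule.span ℝ {v}) ⊔ cspan A

theorem finrank_cons_le (F : Submodule ℝ (V d)) (v : V d) (A : Finset (Fin d)) :
    finrank ℝ (cons F v A) ≤ finrank ℝ F + 1 + A.card := by
  unfold cons
  have h1 := Submodule.finrank_add_le_finrank_add_finrank (F ⊔ Submodule.span ℝ {v}) (cspan A)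
  have h2 := Submodule.finrank_add_le_finrank_add_finrank F (Submodule.span ℝ {v})
  have h3 := finrank_cspan_le A
  have h4 : finrank ℝ (Submodule.span ℝ {v}) ≤ 1 := by
    have := finrank_span_finset_le_card (R := ℝ) ({v} : Finset (V d))
    rw [Finset.coe_singleton] at this
    exact this.trans (by simp)
  omega

theorem finrank_orth (F : Submodule ℝ (V d)) : finrank ℝ F + finrank ℝ Fᗮ = d := by
  have := Submodule.finrank_add_finrank_orthogonal F
  simpa using this

theorem mem_cons_orth {F : Submodule ℝ (V d)} {v : V d} {A : Finset (Fin d)} {y : V d}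
    (hy : y ∈ (cons F v A)ᗮ) : y ∈ Fᗮ ∧ ⟪v, y⟫_ℝ = 0 ∧ ∀ j ∈ A, y j = 0 := by
  unfold cons at hy
  rw [← Submodule.inf_orthogonal, Submodule.mem_inf, ← Submodule.inf_orthogonal,
    Submodule.mem_inf, Submodule.mem_orthogonal_singleton_iff_inner_right] at hy
  refine ⟨hy.1.1, hy.1.2, ?_⟩
  intro j hj
  rw [← inner_ee' y j]
  exact Submodule.inner_right_of_mem_orthogonal
    (Submodule.subset_span ⟨j, hj, rfl⟩ : ee j ∈ cspan A) hy.2

/-- set of large coordinates -/
noncomputable def big (κ : ℝ) (v : V d) : Finset (Fin d) := Finset.univ.filter (fun j => κ ≤ |v j|)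

theorem mem_big {κ : ℝ} {v : V d} {j : Fin d} : j ∈ big κ v ↔ κ ≤ |v j| := by
  unfold big; simp

open Classical in
/-- update of the frozen set -/
noncomputable def nextA (a : ℕ) (A C : Finset (Fin d)) : Finset (Fin d) :=
  if C.card ≤ a then C else if h : ∃ B, A ⊆ B ∧ B ⊆ C ∧ B.card = a then h.choose else A

/-- increment of the walk -/
noncomputable def incr (F : Submodule ℝ (V d)) (θ : ℝ) (v : V d) (A : Finset (Fin d))
    (ε : Fin d → Bool) : V d :=
  Real.sqrt (θ / finrank ℝ (cons F v A)ᗮ) • signVec (cons F v A)ᗮ ε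

/-- one step of the walk -/
noncomputable def wstep (F : Submodule ℝ (V d)) (θ κ : ℝ) (a : ℕ) (_t : ℕ)
    (S : V d × Finset (Fin d)) (ε : Fin d → Bool) : V d × Finset (Fin d) :=
  (S.1 + incr F θ S.1 S.2 ε, nextA a S.2 (big κ (S.1 + incr F θ S.1 S.2 ε)))

/-- invariants of the walk -/
structure WInv (F : Submodule ℝ (V d)) (θ κ : ℝ) (a : ℕ) (t : ℕ)
    (S : V d × Finset (Fin d)) : Prop where
  orth : S.1 ∈ Fᗮ
  norm : ‖S.1‖ ^ 2 = t * θ
  card : S.2.card ≤ a
  low : ∀ j ∈ S.2, κ ≤ |S.1 j|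
  high : ∀ j ∈ S.2, |S.1 j| ≤ κ + Real.sqrt θ
  full : S.2 = big κ S.1 ∨ S.2.card = a

theorem incr_mem (F : Submodule ℝ (V d)) (θ : ℝ) (v : V d) (A : Finset (Fin d))
    (ε : Fin d → Bool) : incr F θ v A ε ∈ (cons F v A)ᗮ :=
  Submodule.smul_mem _ _ (signVec_mem _ _)

theorem norm_incr (F : Submodule ℝ (V d)) {θ : ℝ} (hθ : 0 ≤ θ) (v : V d) (A : Finset (Fin d))
    (ε : Fin d → Bool) (hE : 0 < finrank ℝ (cons F v A)ᗮ) : ‖incr F θ v A ε‖ ^ 2 = θ := by
  unfold incr
  have h1 : (0:ℝ) < finrank ℝ (cons F v A)ᗮ := by exact_mod_cast hE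
  rw [norm_smul, mul_pow, norm_signVec, Real.norm_eq_abs, sq_abs, Real.sq_sqrt (by positivity)]
  field_simp

theorem abs_apply_le_norm (y : V d) (j : Fin d) : |y j| ≤ ‖y‖ := by
  rw [← inner_ee y j]
  have := abs_real_inner_le_norm y (ee j)
  rwa [norm_ee, mul_one] at this

theorem winv_zero (F : Submodule ℝ (V d)) {θ κ : ℝ} (hκ : 0 < κ) (a : ℕ) :
    WInv F θ κ a 0 (0, ∅) := by
  refine ⟨Submodule.zero_mem _, by simp, by simp, by simp, by simp, Or.inl ?_⟩
  symm
  rw [Finset.eq_empty_iff_forall_notMem]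
  intro j hj
  rw [mem_big] at hj
  simp at hj
  linarith

theorem winv_step (F : Submodule ℝ (V d)) {θ κ : ℝ} (hθ : 0 ≤ θ) (a : ℕ)
    (ha : a + 2 ≤ finrank ℝ Fᗮ) (t : ℕ) (S : V d × Finset (Fin d)) (ε : Fin d → Bool)
    (h : WInv F θ κ a t S) : WInv F θ κ a (t + 1) (wstep F θ κ a t S ε) := by
  obtain ⟨v, A⟩ := S
  obtain ⟨h1, h2, h3, h4, h5, h6⟩ := h
  simp only at h1 h2 h3 h4 h5 h6
  set y := incr F θ v A ε with hy
  have hym := incr_mem F θ v A ε
  rw [← hy] at hym
  obtain ⟨hyF, hyv, hyA⟩ := mem_cons_orth hym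
  have hE : 0 < finrank ℝ (cons F v A)ᗮ := by
    have e1 := finrank_orth (cons F v A)
    have e2 := finrank_cons_le F v A
    have e3 := finrank_orth F
    omega
  have hyn := norm_incr F hθ v A ε hE
  rw [← hy] at hyn
  have hyn' : ‖y‖ = Real.sqrt θ := by
    rw [← hyn, Real.sqrt_sq (norm_nonneg _)]
  have hAval : ∀ j ∈ A, (v + y) j = v j := by
    intro j hj
    rw [PiLp.add_apply, hyA j hj, add_zero]
  have hAC : A ⊆ big κ (v + y) := by
    intro j hj
    rw [mem_big, hAval j hj]
    exact h4 j hj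
  have hnew : ∀ j, j ∉ big κ v → |(v + y) j| ≤ κ + Real.sqrt θ := by
    intro j hj
    rw [mem_big, not_le] at hj
    rw [PiLp.add_apply]
    have e1 := abs_add_le (v j) (y j)
    have e2 := abs_apply_le_norm y j
    rw [hyn'] at e2
    linarith
  -- structure of the new set
  have hA' : (wstep F θ κ a t (v, A) ε).2 = nextA a A (big κ (v + y)) := rfl
  have hv' : (wstep F θ κ a t (v, A) ε).1 = v + y := rfl
  have hkey : nextA a A (big κ (v + y)) ⊆ big κ (v + y) ∧
      (nextA a A (big κ (v + y)) = big κ (v + y) ∨ (nextA a A (big κ (v + y))).card = a) ∧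
      (nextA a A (big κ (v + y))).card ≤ a ∧ A ⊆ nextA a A (big κ (v + y)) := by
    unfold nextA
    split_ifs with c1 c2
    · exact ⟨Finset.Subset.refl _, Or.inl rfl, c1, hAC⟩
    · obtain ⟨e1, e2, e3⟩ := c2.choose_spec
      exact ⟨e2, Or.inr e3, e3.le, e1⟩
    · exfalso
      apply c2
      exact Finset.exists_subsuperset_card_eq hAC h3 (by omega)
  obtain ⟨k1, k2, k3, k4⟩ := hkey
  refine ⟨?_, ?_, ?_, ?_, ?_, ?_⟩
  · rw [hv']; exact Submodule.add_mem _ h1 hyF
  · rw [hv', norm_add_sq_real, hyv, h2, hyn]; push_cast; ring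
  · rw [hA']; exact k3
  · rw [hA', hv']
    intro j hj
    exact mem_big.mp (k1 hj)
  · rw [hA', hv']
    intro j hj
    by_cases hjA : j ∈ A
    · rw [hAval j hjA]; exact h5 j hjA
    · apply hnew
      rcases h6 with h6 | h6
      · rw [← h6]; exact hjA
      · exfalso
        have e1 : A = nextA a A (big κ (v + y)) :=
          Finset.eq_of_subset_of_card_le k4 (by omega)
        rw [← e1] at hj
        exact hjA hj
  · rw [hA', hv']; exact k2

end Pool.Agent.Helper50_RIP
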