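import Mathlib
import Pool.Agent.Helper50_RIP.Walk

set_option autoImplicit false
set_option linter.unusedSectionVars false

/-!
# Analysis of the frozen walk
-/

namespace Pool.Agent.Helper50_RIP

open Pool.Agent.Helper50_Stretch Module
open scoped InnerProductSpace

open Classical in
/-- indicator -/
noncomputable def ind (p : Prop) : ℝ := if p then 1 else 0

theorem ind_nonneg (p : Prop) : 0 ≤ ind p := by unfold ind; split_ifs <;> norm_num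
theorem ind_le_one (p : Prop) : ind p ≤ 1 := by unfold ind; split_ifs <;> norm_num
theorem ind_true {p : Prop} (h : p) : ind p = 1 := by unfold ind; rw [if_pos h]
theorem ind_false {p : Prop} (h : ¬ p) : ind p = 0 := by unfold ind; rw [if_neg h]
theorem ind_le {p : Prop} {x : ℝ} (hx : 0 ≤ x) (h : p → 1 ≤ x) : ind p ≤ x := by
  by_cases hp : p
  · rw [ind_true hp]; exact h hp
  · rw [ind_false hp]; exact hx

theorem ind_mono {p q : Prop} (h : p → q) : ind p ≤ ind q :=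
  ind_le (ind_nonneg _) (fun hp => by rw [ind_true (h hp)])

section
variable {Ω : Type*} [Fintype Ω]

/-- Gaussian tail from the exponential moments -/
theorem avg_ind_le_of_sg (Y : Ω → ℝ) {B κ : ℝ} (hB : 0 < B) (hκ : 0 ≤ κ)
    (h : ∀ s : ℝ, avg (fun ω => Real.exp (s * Y ω)) ≤ Real.exp (B * s ^ 2)) :
    avg (fun ω => ind (κ ≤ Y ω)) ≤ Real.exp (-(κ ^ 2 / (4 * B))) := by
  set s := κ / (2 * B) with hs
  have hs0 : 0 ≤ s := by positivity
  have h1 : ∀ ω, ind (κ ≤ Y ω) ≤ Real.exp (s * Y ω) * Real.exp (-(s * κ)) := by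
    intro ω
    apply ind_le (by positivity)
    intro hω
    rw [← Real.exp_add]
    apply Real.one_le_exp
    nlinarith
  refine (avg_mono h1).trans ?_
  rw [avg_mul_const]
  refine (mul_le_mul_of_nonneg_right (h s) (Real.exp_pos _).le).trans (le_of_eq ?_)
  rw [← Real.exp_add]
  congr 1
  rw [hs]
  field_simp
  ring

theorem avg_ind_abs_le_of_sg (Y : Ω → ℝ) {B κ : ℝ} (hB : 0 < B) (hκ : 0 ≤ κ)
    (h : ∀ s : ℝ, avg (fun ω => Real.exp (s * Y ω)) ≤ Real.exp (B * s ^ 2)) :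
    avg (fun ω => ind (κ ≤ |Y ω|)) ≤ 2 * Real.exp (-(κ ^ 2 / (4 * B))) := by
  have h1 := avg_ind_le_of_sg Y hB hκ h
  have h2 := avg_ind_le_of_sg (fun ω => - Y ω) hB hκ (by
    intro s
    have := h (-s)
    rw [neg_sq] at this
    refine le_trans (le_of_eq ?_) this
    apply avg_congr
    intro ω
    ring_nf)
  have h3 : ∀ ω, ind (κ ≤ |Y ω|) ≤ ind (κ ≤ Y ω) + ind (κ ≤ - Y ω) := by
    intro ω
    apply ind_le (add_nonneg (ind_nonneg _) (ind_nonneg _))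
    intro hω
    rcases le_abs.mp hω with h | h
    · rw [ind_true h]; linarith [ind_nonneg (κ ≤ - Y ω)]
    · rw [ind_true h]; linarith [ind_nonneg (κ ≤ Y ω)]
  refine (avg_mono h3).trans ?_
  rw [avg_add]
  linarith

end

variable {d : ℕ}

theorem pi2_anti {F G : Submodule ℝ (V d)} (h : F ≤ G) (x : V d) : pi2 G x ≤ pi2 F x := by
  obtain ⟨w, hw, he⟩ := exists_mem_pi2 F x
  rw [he]
  exact pi2_le_of_mem G x w (h hw)

theorem le_cons (F : Submodule ℝ (V d)) (v : V d) (A : Finset (Fin d)) : F ≤ cons F v A :=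
  le_sup_of_le_left le_sup_left

theorem finrank_consorth (F : Submodule ℝ (V d)) (v : V d) {A : Finset (Fin d)} {a : ℕ}
    (ha : 2 * (a + 1) ≤ finrank ℝ Fᗮ) (hA : A.card ≤ a) :
    finrank ℝ Fᗮ ≤ 2 * finrank ℝ (cons F v A)ᗮ ∧ finrank ℝ (cons F v A)ᗮ ≤ finrank ℝ Fᗮ := by
  have e1 := finrank_orth (cons F v A)
  have e2 := finrank_cons_le F v A
  have e3 := finrank_orth F
  have e4 := Submodule.finrank_mono (le_cons F v A)
  omega

theorem alg_k1 {lam p X I1 : ℝ} (hlam : 0 < lam) (hp0 : 0 ≤ p) (hX0 : 0 ≤ X)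
    (hxz : I1 ^ 2 ≤ X * p ^ 2) : 2 * I1 ≤ lam * p ^ 2 / 2 + 2 / lam * X := by
  have e1 : |I1| ≤ Real.sqrt X * p := by
    apply abs_le_of_sq_le_sq _ (by positivity)
    rw [mul_pow, Real.sq_sqrt hX0]; exact hxz
  have e2 : I1 ≤ |I1| := le_abs_self _
  have e3 : 0 ≤ (lam * p / 2 - Real.sqrt X) ^ 2 * (2 / lam) := by positivity
  have e4 : (lam * p / 2 - Real.sqrt X) ^ 2 * (2 / lam)
      = lam * p ^ 2 / 2 - 2 * (Real.sqrt X * p) + 2 / lam * X := by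
    have h : Real.sqrt X ^ 2 = X := Real.sq_sqrt hX0
    have h2 : (lam * p / 2 - Real.sqrt X) ^ 2
        = lam ^ 2 * p ^ 2 / 4 - lam * p * Real.sqrt X + X := by
      rw [sub_sq, h]; ring
    rw [h2]
    field_simp
    ring
  linarith

theorem alg_k2 {lam p β I2 : ℝ} (hlam : 0 < lam) (hp0 : 0 ≤ p)
    (hvz2 : I2 ^ 2 ≤ lam / 8 * p ^ 2) : -(β ^ 2 / 4 + lam * p ^ 2 / 2) ≤ 2 * (β * I2) := by
  have e1 : |I2| ≤ Real.sqrt (lam / 8) * p := by
    apply abs_le_of_sq_le_sq _ (by positivity)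
    rw [mul_pow, Real.sq_sqrt (by positivity)]; exact hvz2
  have e2 : |β * I2| ≤ |β| * (Real.sqrt (lam / 8) * p) := by
    rw [abs_mul]; exact mul_le_mul_of_nonneg_left e1 (abs_nonneg _)
  have e3 := neg_abs_le (β * I2)
  have e5 : 0 ≤ (|β| / 2 - 2 * (Real.sqrt (lam / 8) * p)) ^ 2 := sq_nonneg _
  have e6 : Real.sqrt (lam / 8) ^ 2 = lam / 8 := Real.sq_sqrt (by positivity)
  have e7 : |β| ^ 2 = β ^ 2 := sq_abs _
  have e8 : (|β| / 2 - 2 * (Real.sqrt (lam / 8) * p)) ^ 2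
      = β ^ 2 / 4 - 2 * (|β| * (Real.sqrt (lam / 8) * p)) + lam * p ^ 2 / 2 := by
    rw [sub_sq, div_pow, e7, mul_pow 2, mul_pow, e6]; ring
  linarith

theorem alg_fin {lam p β Y I1 I2 X π Pz tθ : ℝ} (k1 : 2 * I1 ≤ lam * p ^ 2 / 2 + 2 / lam * X)
    (k2 : -(β ^ 2 / 4 + lam * p ^ 2 / 2) ≤ 2 * (β * I2)) (ht : 1 / 2 ≤ tθ)
    (hPz : lam * p ^ 2 ≤ Pz) :
    π - 2 / lam * X - 4 * Y ^ 2 ≤ π - 2 * (β * Y + I1) + (β ^ 2 * tθ + 2 * (β * I2) + Pz) := by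
  have k3 : β ^ 2 / 2 ≤ β ^ 2 * tθ := by nlinarith [sq_nonneg β]
  have k4 : 0 ≤ (β / 2 - 2 * Y) ^ 2 := sq_nonneg _
  have k5 : (β / 2 - 2 * Y) ^ 2 = β ^ 2 / 4 - 2 * (β * Y) + 4 * Y ^ 2 := by ring
  linarith

/-- deterministic lower bound for the projection -/
theorem pi2_cons_ge (F : Submodule ℝ (V d)) {θ κ lam : ℝ} {a t : ℕ}
    (hlam : 0 < lam) (haκ : a * (κ + Real.sqrt θ) ^ 2 ≤ lam / 8) (hκ : 0 < κ)
    (hsp : ∀ A : Finset (Fin d), A.card ≤ a → ∀ z ∈ cspan A, lam * ‖z‖ ^ 2 ≤ pi2 F z)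
    (S : V d × Finset (Fin d)) (hS : WInv F θ κ a t S) (ht : 1/2 ≤ t * θ) (x : V d) :
    pi2 F x - 2 / lam * ∑ j ∈ S.2, (Fᗮ.starProjection x) j ^ 2 - 4 * ⟪x, S.1⟫_ℝ ^ 2
      ≤ pi2 (cons F S.1 S.2) x := by
  obtain ⟨v, A⟩ := S
  obtain ⟨h1, h2, h3, h4, h5, h6⟩ := hS
  simp only at h1 h2 h3 h4 h5 h6 ⊢
  set P := Fᗮ.starProjection with hP
  obtain ⟨w, hw, he⟩ := exists_mem_pi2 (cons F v A) x
  rw [he]
  unfold cons at hw
  obtain ⟨w1, hw1, z, hz, hwz⟩ := Submodule.mem_sup.mp hw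
  obtain ⟨f, hf, w2, hw2, hfw⟩ := Submodule.mem_sup.mp hw1
  obtain ⟨β, hβ⟩ := Submodule.mem_span_singleton.mp hw2
  have hPf : P f = 0 := by
    rw [hP, Submodule.starProjection_orthogonal]
    simp [Submodule.starProjection_eq_self_iff.mpr hf]
  have hPv : P v = v := Submodule.starProjection_eq_self_iff.mpr h1
  have hPw : P (x - w) = P x - (β • v + P z) := by
    rw [map_sub, ← hwz, ← hfw, ← hβ, map_add, map_add, hPf, map_smul, hPv, zero_add]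
  have hn1 : ‖P x - (β • v + P z)‖ ^ 2 ≤ ‖x - w‖ ^ 2 := by
    rw [← hPw]
    exact pow_le_pow_left₀ (norm_nonneg _) (Submodule.norm_starProjection_apply_le _ _) 2
  refine le_trans ?_ hn1
  rw [norm_sub_sq_real, norm_add_sq_real]
  -- inner products
  have hPself : ∀ y u : V d, ⟪P y, P u⟫_ℝ = ⟪P y, u⟫_ℝ := by
    intro y u
    have h := Submodule.starProjection_inner_eq_zero (K := Fᗮ) u (P y)
      (Submodule.starProjection_apply_mem _ _)
    rw [inner_sub_left, real_inner_comm, real_inner_comm (P y) ] at h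
    linarith
  have hxv : ⟪P x, v⟫_ℝ = ⟪x, v⟫_ℝ := inner_proj F x h1
  have hvz : ⟪v, P z⟫_ℝ = ⟪v, z⟫_ℝ := by
    have := hPself v z
    rwa [hPv] at this
  have hsum : ∀ y : V d, ⟪y, z⟫_ℝ = ∑ j ∈ A, y j * z j := by
    intro y
    rw [PiLp.inner_apply]
    symm
    rw [← Finset.sum_subset (Finset.subset_univ A)]
    · apply Finset.sum_congr rfl
      intro j _
      simp [mul_comm]
    · intro j _ hj
      rw [mem_cspan hz j hj]
      simp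
  have hznorm : ∑ j ∈ A, z j ^ 2 ≤ ‖z‖ ^ 2 := by
    rw [EuclideanSpace.real_norm_sq_eq]
    exact Finset.sum_le_sum_of_subset_of_nonneg (Finset.subset_univ _) (fun j _ _ => sq_nonneg _)
  have hcs : ∀ y : V d, ⟪y, z⟫_ℝ ^ 2 ≤ (∑ j ∈ A, y j ^ 2) * ‖z‖ ^ 2 := by
    intro y
    rw [hsum y]
    refine (Finset.sum_mul_sq_le_sq_mul_sq A _ _).trans ?_
    exact mul_le_mul_of_nonneg_left hznorm (Finset.sum_nonneg (fun j _ => sq_nonneg _))
  have hvA : ∑ j ∈ A, v j ^ 2 ≤ lam / 8 := by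
    refine le_trans ?_ haκ
    calc ∑ j ∈ A, v j ^ 2 ≤ ∑ _j ∈ A, (κ + Real.sqrt θ) ^ 2 := by
          apply Finset.sum_le_sum
          intro j hj
          rw [← sq_abs]
          exact pow_le_pow_left₀ (abs_nonneg _) (h5 j hj) 2
      _ = A.card * (κ + Real.sqrt θ) ^ 2 := by rw [Finset.sum_const, nsmul_eq_mul]
      _ ≤ a * (κ + Real.sqrt θ) ^ 2 := by
          apply mul_le_mul_of_nonneg_right _ (sq_nonneg _)
          exact_mod_cast h3
  have hPz : lam * ‖z‖ ^ 2 ≤ ‖P z‖ ^ 2 := hsp A h3 z hz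
  set X := ∑ j ∈ A, (P x) j ^ 2 with hX
  have hX0 : 0 ≤ X := Finset.sum_nonneg (fun j _ => sq_nonneg _)
  have hxz : ⟪P x, P z⟫_ℝ ^ 2 ≤ X * ‖z‖ ^ 2 := by
    rw [hPself x z]; exact hcs (P x)
  have hvz2 : ⟪v, z⟫_ℝ ^ 2 ≤ lam / 8 * ‖z‖ ^ 2 :=
    (hcs v).trans (mul_le_mul_of_nonneg_right hvA (sq_nonneg _))
  have hpi : pi2 F x = ‖P x‖ ^ 2 := rfl
  have k1 := alg_k1 hlam (norm_nonneg z) hX0 hxz
  have k2 := alg_k2 (β := β) hlam (norm_nonneg z) hvz2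
  have k3 := alg_fin (Y := ⟪x, v⟫_ℝ) (π := ‖P x‖ ^ 2) k1 k2 ht hPz
  have k4 : ⟪P x, β • v + P z⟫_ℝ = β * ⟪x, v⟫_ℝ + ⟪P x, P z⟫_ℝ := by
    rw [inner_add_right, inner_smul_right, hxv]
  have k5 : ⟪β • v, P z⟫_ℝ = β * ⟪v, z⟫_ℝ := by
    rw [inner_smul_left, hvz]; rfl
  have k6 : ‖β • v‖ ^ 2 = β ^ 2 * (t * θ) := by
    rw [norm_smul, mul_pow, h2, Real.norm_eq_abs, sq_abs]
  rw [hpi, k4, k5, k6]
  exact k3

end Pool.Agent.Helper50_RIP
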