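import Mathlib
import Pool.Agent.Helper50_RIP.Walk2

set_option autoImplicit false
set_option linter.unusedSectionVars false
set_option linter.unusedVariables false

/-!
# Moments of the frozen walk
-/

namespace Pool.Agent.Helper50_RIP

open Pool.Agent.Helper50_Stretch Module
open scoped InnerProductSpace

variable {d : ℕ}

theorem avg_exp_incr (F : Submodule ℝ (V d)) {θ : ℝ} (hθ : 0 ≤ θ) {a : ℕ}
    (ha : 2 * (a + 1) ≤ finrank ℝ Fᗮ) (v : V d) {A : Finset (Fin d)} (hA : A.card ≤ a)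
    (x : V d) (s : ℝ) :
    avg (fun ε : Fin d → Bool => Real.exp (s * ⟪x, incr F θ v A ε⟫_ℝ))
      ≤ Real.exp (s ^ 2 * (θ * pi2 F x / finrank ℝ Fᗮ)) := by
  obtain ⟨h1, h2⟩ := finrank_consorth F v ha hA
  set D := finrank ℝ Fᗮ with hD
  set E := (cons F v A)ᗮ with hE
  have hE0 : 0 < finrank ℝ E := by omega
  have hE1 : (0:ℝ) < finrank ℝ E := by exact_mod_cast hE0
  have hD1 : (0:ℝ) < D := by exact_mod_cast (by omega : 0 < D)
  have h3 : ∀ ε : Fin d → Bool, Real.exp (s * ⟪x, incr F θ v A ε⟫_ℝ)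
      = Real.exp ((s * Real.sqrt (θ / finrank ℝ E)) * ⟪x, signVec E ε⟫_ℝ) := by
    intro ε
    unfold incr
    rw [inner_smul_right, ← hE, mul_assoc]
  rw [avg_congr h3]
  refine (avg_exp_signVec E x _).trans ?_
  apply Real.exp_le_exp.mpr
  have h4 : ‖E.starProjection x‖ ^ 2 ≤ pi2 F x := pi2_anti (le_cons F v A) x
  have h5 : (s * Real.sqrt (θ / finrank ℝ E)) ^ 2 = s ^ 2 * (θ / finrank ℝ E) := by
    rw [mul_pow, Real.sq_sqrt (by positivity)]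
  rw [h5]
  have h6 : θ / finrank ℝ E ≤ 2 * θ / D := by
    rw [div_le_div_iff₀ hE1 hD1]
    have : (D:ℝ) ≤ 2 * finrank ℝ E := by exact_mod_cast h1
    nlinarith
  have h7 : s ^ 2 * (θ / finrank ℝ E) * ‖E.starProjection x‖ ^ 2 / 2
      ≤ s ^ 2 * (2 * θ / D) * pi2 F x / 2 := by
    have := pi2_nonneg F x
    gcongr
  refine h7.trans (le_of_eq ?_)
  ring

theorem avg_inner_incr (F : Submodule ℝ (V d)) (θ : ℝ) (v : V d) (A : Finset (Fin d)) (x : V d) :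
    avg (fun ε : Fin d → Bool => ⟪x, incr F θ v A ε⟫_ℝ) = 0 := by
  unfold incr
  simp_rw [inner_smul_right]
  rw [avg_const_mul, avg_inner_signVec, mul_zero]

theorem avg_inner_incr_sq (F : Submodule ℝ (V d)) {θ : ℝ} (hθ : 0 ≤ θ) (v : V d)
    (A : Finset (Fin d)) (x : V d) :
    avg (fun ε : Fin d → Bool => ⟪x, incr F θ v A ε⟫_ℝ ^ 2)
      = θ / finrank ℝ (cons F v A)ᗮ * pi2 (cons F v A) x := by
  unfold incr
  simp_rw [inner_smul_right, mul_pow]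
  rw [avg_const_mul, avg_inner_signVec_sq, Real.sq_sqrt (by positivity)]
  rfl

theorem avg_sq_step (F : Submodule ℝ (V d)) {θ : ℝ} (hθ : 0 ≤ θ) (v : V d)
    (A : Finset (Fin d)) (x : V d) :
    avg (fun ε : Fin d → Bool => ⟪x, v + incr F θ v A ε⟫_ℝ ^ 2)
      = ⟪x, v⟫_ℝ ^ 2 + θ / finrank ℝ (cons F v A)ᗮ * pi2 (cons F v A) x := by
  have h1 : ∀ ε : Fin d → Bool, ⟪x, v + incr F θ v A ε⟫_ℝ ^ 2
      = ⟪x, v⟫_ℝ ^ 2 + (2 * ⟪x, v⟫_ℝ * ⟪x, incr F θ v A ε⟫_ℝ + ⟪x, incr F θ v A ε⟫_ℝ ^ 2) := by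
    intro ε
    rw [inner_add_right]; ring
  rw [avg_congr h1, avg_add, avg_add, avg_const, avg_const_mul, avg_inner_incr,
    avg_inner_incr_sq F hθ]
  ring

/-- state of the walk -/
noncomputable def wst (F : Submodule ℝ (V d)) (θ κ : ℝ) (a : ℕ) {M : ℕ}
    (ω : Fin M → Fin d → Bool) (t : ℕ) : V d × Finset (Fin d) :=
  run (wstep F θ κ a) (0, ∅) ω t

section
variable {F : Submodule ℝ (V d)} {θ κ : ℝ} {a M : ℕ}

theorem winv_wst (hθ : 0 ≤ θ) (hκ : 0 < κ) (ha : 2 * (a + 1) ≤ finrank ℝ Fᗮ)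
    (ω : Fin M → Fin d → Bool) (t : ℕ) : WInv F θ κ a t (wst F θ κ a ω t) :=
  run_inv (wstep F θ κ a) (0, ∅) ω (WInv F θ κ a) (winv_zero F hκ a)
    (fun l S w h => winv_step F hθ a (by omega) l S w h) t

theorem avg_exp_wst (hθ : 0 ≤ θ) (hκ : 0 < κ) (ha : 2 * (a + 1) ≤ finrank ℝ Fᗮ)
    (x : V d) (s : ℝ) (t : ℕ) (ht : t ≤ M) :
    avg (fun ω : Fin M → Fin d → Bool => Real.exp (s * ⟪x, (wst F θ κ a ω t).1⟫_ℝ))
      ≤ Real.exp (s ^ 2 * (t * θ * pi2 F x / finrank ℝ Fᗮ)) := by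
  have h := avg_run_le (n := M) (wstep F θ κ a) (0, ∅) (WInv F θ κ a) M (le_refl _)
    (winv_zero F hκ a) (fun l S w _ h => winv_step F hθ a (by omega) l S w h)
    (fun _ S => Real.exp (s * ⟪x, S.1⟫_ℝ))
    (fun _ => Real.exp (s ^ 2 * (θ * pi2 F x / finrank ℝ Fᗮ)))
    (fun _ => (Real.exp_pos _).le) ?_ t ht
  · refine h.trans (le_of_eq ?_)
    simp only [Finset.prod_const, Finset.card_range, inner_zero_right, mul_zero, Real.exp_zero,
      mul_one]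
    rw [← Real.exp_nat_mul]
    congr 1
    ring
  · intro l S _ hS
    have h1 : ∀ ε : Fin d → Bool, Real.exp (s * ⟪x, (wstep F θ κ a l S ε).1⟫_ℝ)
        = Real.exp (s * ⟪x, S.1⟫_ℝ) * Real.exp (s * ⟪x, incr F θ S.1 S.2 ε⟫_ℝ) := by
      intro ε
      show Real.exp (s * ⟪x, S.1 + incr F θ S.1 S.2 ε⟫_ℝ) = _
      rw [inner_add_right, mul_add, Real.exp_add]
    rw [avg_congr h1, avg_const_mul, mul_comm]
    exact mul_le_mul_of_nonneg_right (avg_exp_incr F hθ ha S.1 hS.card x s) (Real.exp_pos _).le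

/-- second moment of the walk -/
noncomputable def wm (F : Submodule ℝ (V d)) (θ κ : ℝ) (a M : ℕ) (x : V d) (t : ℕ) : ℝ :=
  avg (fun ω : Fin M → Fin d → Bool => ⟪x, (wst F θ κ a ω t).1⟫_ℝ ^ 2)

theorem wm_succ (hθ : 0 ≤ θ) (x : V d) (t : ℕ) (ht : t < M) :
    wm F θ κ a M x (t + 1) = wm F θ κ a M x t
      + avg (fun ω : Fin M → Fin d → Bool => θ / finrank ℝ (cons F (wst F θ κ a ω t).1
          (wst F θ κ a ω t).2)ᗮ * pi2 (cons F (wst F θ κ a ω t).1 (wst F θ κ a ω t).2) x) := by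
  unfold wm
  have h := avg_run_succ (n := M) (wstep F θ κ a) ((0 : V d), (∅ : Finset (Fin d))) ht
    (fun S => ⟪x, S.1⟫_ℝ ^ 2)
  unfold wst
  rw [h, ← avg_add]
  apply avg_congr
  intro ω
  exact avg_sq_step F hθ _ _ x

theorem wm_zero (x : V d) : wm F θ κ a M x 0 = 0 := by
  unfold wm wst run
  simp only [inner_zero_right]
  norm_num
  exact avg_zero

theorem wm_le (hθ : 0 ≤ θ) (hκ : 0 < κ) (ha : 2 * (a + 1) ≤ finrank ℝ Fᗮ) (x : V d) :
    ∀ t : ℕ, t ≤ M → wm F θ κ a M x t ≤ t * (2 * θ * pi2 F x / finrank ℝ Fᗮ)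
  | 0, _ => by rw [wm_zero]; simp
  | t + 1, ht => by
    have ih := wm_le hθ hκ ha x t (by omega)
    rw [wm_succ hθ x t (by omega)]
    have h1 : avg (fun ω : Fin M → Fin d → Bool => θ / finrank ℝ (cons F (wst F θ κ a ω t).1
          (wst F θ κ a ω t).2)ᗮ * pi2 (cons F (wst F θ κ a ω t).1 (wst F θ κ a ω t).2) x)
        ≤ 2 * θ * pi2 F x / finrank ℝ Fᗮ := by
      have h2 := avg_mono (f := fun ω : Fin M → Fin d → Bool => θ / finrank ℝ (cons F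
        (wst F θ κ a ω t).1 (wst F θ κ a ω t).2)ᗮ * pi2 (cons F (wst F θ κ a ω t).1
        (wst F θ κ a ω t).2) x) (g := fun _ => 2 * θ * pi2 F x / finrank ℝ Fᗮ) ?_
      · rwa [avg_const] at h2
      · intro ω
        have hI := winv_wst (M := M) hθ hκ ha ω t
        obtain ⟨h3, h4⟩ := finrank_consorth F (wst F θ κ a ω t).1 ha hI.card
        have h5 := pi2_anti (le_cons F (wst F θ κ a ω t).1 (wst F θ κ a ω t).2) x
        have hE0 : 0 < finrank ℝ (cons F (wst F θ κ a ω t).1 (wst F θ κ a ω t).2)ᗮ := by omega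
        have hE1 : (0:ℝ) < finrank ℝ (cons F (wst F θ κ a ω t).1 (wst F θ κ a ω t).2)ᗮ := by
          exact_mod_cast hE0
        have hD1 : (0:ℝ) < finrank ℝ Fᗮ := by exact_mod_cast (by omega : 0 < finrank ℝ Fᗮ)
        have h6 : θ / finrank ℝ (cons F (wst F θ κ a ω t).1 (wst F θ κ a ω t).2)ᗮ
            ≤ 2 * θ / finrank ℝ Fᗮ := by
          rw [div_le_div_iff₀ hE1 hD1]
          have : (finrank ℝ Fᗮ : ℝ) ≤ 2 * finrank ℝ (cons F (wst F θ κ a ω t).1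
            (wst F θ κ a ω t).2)ᗮ := by exact_mod_cast h3
          nlinarith
        have h7 := pi2_nonneg F x
        have h8 := pi2_nonneg (cons F (wst F θ κ a ω t).1 (wst F θ κ a ω t).2) x
        calc _ ≤ 2 * θ / finrank ℝ Fᗮ * pi2 F x := by gcongr
          _ = _ := by ring
    push_cast
    linarith

theorem avg_ind_big_le (hθ : 0 ≤ θ) (hκ : 0 < κ) (ha : 2 * (a + 1) ≤ finrank ℝ Fᗮ)
    {Lam : ℝ} (hLam : 0 < Lam) (hup : ∀ j, pi2 F (ee j) ≤ Lam) (t : ℕ) (ht : t ≤ M)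
    (htθ : t * θ ≤ 1) (j : Fin d) :
    avg (fun ω : Fin M → Fin d → Bool => ind (κ ≤ |(wst F θ κ a ω t).1 j|))
      ≤ 2 * Real.exp (-(κ ^ 2 * finrank ℝ Fᗮ / (4 * Lam))) := by
  have hD1 : (0:ℝ) < finrank ℝ Fᗮ := by exact_mod_cast (by omega : 0 < finrank ℝ Fᗮ)
  have h := avg_ind_abs_le_of_sg (fun ω : Fin M → Fin d → Bool => (wst F θ κ a ω t).1 j)
    (B := Lam / finrank ℝ Fᗮ) (κ := κ) (by positivity) hκ.le ?_
  · refine h.trans (le_of_eq ?_)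
    congr 3
    field_simp
  · intro s
    have h1 := avg_exp_wst (M := M) hθ hκ ha (ee j) s t ht
    have h2 : ∀ ω : Fin M → Fin d → Bool, Real.exp (s * (wst F θ κ a ω t).1 j)
        = Real.exp (s * ⟪ee j, (wst F θ κ a ω t).1⟫_ℝ) := by
      intro ω; rw [inner_ee']
    rw [avg_congr h2]
    refine h1.trans ?_
    apply Real.exp_le_exp.mpr
    rw [mul_comm]
    apply mul_le_mul_of_nonneg_right _ (sq_nonneg s)
    have h3 := hup j
    have h4 := pi2_nonneg F (ee j)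
    have h5 : t * θ * pi2 F (ee j) ≤ Lam := by
      have : 0 ≤ t * θ := by positivity
      nlinarith
    gcongr

theorem wm_ge_step (hθ : 0 ≤ θ) (hκ : 0 < κ) (ha : 2 * (a + 1) ≤ finrank ℝ Fᗮ)
    {lam Lam : ℝ} (hlam : 0 < lam) (haκ : a * (κ + Real.sqrt θ) ^ 2 ≤ lam / 8)
    (hsp : ∀ A : Finset (Fin d), A.card ≤ a → ∀ z ∈ cspan A, lam * ‖z‖ ^ 2 ≤ pi2 F z)
    (hLam : 0 < Lam) (hup : ∀ j, pi2 F (ee j) ≤ Lam)
    (hp : 2 * Real.exp (-(κ ^ 2 * finrank ℝ Fᗮ / (4 * Lam))) ≤ lam / 8)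
    (hD : 32 ≤ finrank ℝ Fᗮ)
    (x : V d) (t : ℕ) (ht : t < M) (htθ : t * θ ≤ 1) (htθ' : 1/2 ≤ t * θ) :
    wm F θ κ a M x t + θ * pi2 F x / (2 * finrank ℝ Fᗮ) ≤ wm F θ κ a M x (t + 1) := by
  have hD1 : (0:ℝ) < finrank ℝ Fᗮ := by exact_mod_cast (by omega : 0 < finrank ℝ Fᗮ)
  rw [wm_succ hθ x t ht]
  have hπ := pi2_nonneg F x
  -- pointwise lower bound
  set P := Fᗮ.starProjection x with hP
  have h1 : ∀ ω : Fin M → Fin d → Bool,
      θ / finrank ℝ Fᗮ * (pi2 F x - 2 / lam * ∑ j, P j ^ 2 * ind (κ ≤ |(wst F θ κ a ω t).1 j|)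
        - 4 * ⟪x, (wst F θ κ a ω t).1⟫_ℝ ^ 2)
      ≤ θ / finrank ℝ (cons F (wst F θ κ a ω t).1 (wst F θ κ a ω t).2)ᗮ
        * pi2 (cons F (wst F θ κ a ω t).1 (wst F θ κ a ω t).2) x := by
    intro ω
    have hI := winv_wst (M := M) hθ hκ ha ω t
    obtain ⟨h3, h4⟩ := finrank_consorth F (wst F θ κ a ω t).1 ha hI.card
    have hE0 : 0 < finrank ℝ (cons F (wst F θ κ a ω t).1 (wst F θ κ a ω t).2)ᗮ := by omega
    have hE1 : (0:ℝ) < finrank ℝ (cons F (wst F θ κ a ω t).1 (wst F θ κ a ω t).2)ᗮ := by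
      exact_mod_cast hE0
    have h5 := pi2_cons_ge F hlam haκ hκ hsp _ hI htθ' x
    have h6 : ∑ j ∈ (wst F θ κ a ω t).2, P j ^ 2
        ≤ ∑ j, P j ^ 2 * ind (κ ≤ |(wst F θ κ a ω t).1 j|) := by
      calc ∑ j ∈ (wst F θ κ a ω t).2, P j ^ 2
          = ∑ j ∈ (wst F θ κ a ω t).2, P j ^ 2 * ind (κ ≤ |(wst F θ κ a ω t).1 j|) := by
            apply Finset.sum_congr rfl
            intro j hj
            rw [ind_true (hI.low j hj), mul_one]
        _ ≤ _ := Finset.sum_le_sum_of_subset_of_nonneg (Finset.subset_univ _)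
            (fun j _ _ => mul_nonneg (sq_nonneg _) (ind_nonneg _))
    have h7 : pi2 F x - 2 / lam * ∑ j, P j ^ 2 * ind (κ ≤ |(wst F θ κ a ω t).1 j|)
        - 4 * ⟪x, (wst F θ κ a ω t).1⟫_ℝ ^ 2
        ≤ pi2 (cons F (wst F θ κ a ω t).1 (wst F θ κ a ω t).2) x := by
      refine le_trans ?_ h5
      have : 0 ≤ 2 / lam := by positivity
      have := mul_le_mul_of_nonneg_left h6 this
      linarith
    have h8 := pi2_nonneg (cons F (wst F θ κ a ω t).1 (wst F θ κ a ω t).2) x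
    have h9 : θ / finrank ℝ Fᗮ
        ≤ θ / finrank ℝ (cons F (wst F θ κ a ω t).1 (wst F θ κ a ω t).2)ᗮ := by
      have : (finrank ℝ (cons F (wst F θ κ a ω t).1 (wst F θ κ a ω t).2)ᗮ : ℝ)
        ≤ finrank ℝ Fᗮ := by exact_mod_cast h4
      gcongr
    calc _ ≤ θ / finrank ℝ Fᗮ * pi2 (cons F (wst F θ κ a ω t).1 (wst F θ κ a ω t).2) x :=
          mul_le_mul_of_nonneg_left h7 (by positivity)
      _ ≤ _ := mul_le_mul_of_nonneg_right h9 h8
  have h2 := avg_mono h1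
  refine le_trans ?_ (add_le_add_right h2 _)
  have h3 : avg (fun ω : Fin M → Fin d → Bool => θ / finrank ℝ Fᗮ * (pi2 F x
      - 2 / lam * ∑ j, P j ^ 2 * ind (κ ≤ |(wst F θ κ a ω t).1 j|)
        - 4 * ⟪x, (wst F θ κ a ω t).1⟫_ℝ ^ 2))
      = θ / finrank ℝ Fᗮ * (pi2 F x - 2 / lam * ∑ j, P j ^ 2 *
        avg (fun ω : Fin M → Fin d → Bool => ind (κ ≤ |(wst F θ κ a ω t).1 j|))
        - 4 * wm F θ κ a M x t) := by
    rw [avg_const_mul, avg_sub, avg_sub, avg_const, avg_const_mul, avg_const_mul, avg_sum]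
    simp_rw [avg_const_mul]
    rfl
  rw [h3]
  have h4 : ∑ j, P j ^ 2 *
      avg (fun ω : Fin M → Fin d → Bool => ind (κ ≤ |(wst F θ κ a ω t).1 j|))
      ≤ pi2 F x * (lam / 8) := by
    calc _ ≤ ∑ j, P j ^ 2 * (lam / 8) := by
          apply Finset.sum_le_sum
          intro j _
          exact mul_le_mul_of_nonneg_left
            ((avg_ind_big_le hθ hκ ha hLam hup t ht.le htθ j).trans hp) (sq_nonneg _)
      _ = _ := by
          rw [← Finset.sum_mul, ← EuclideanSpace.real_norm_sq_eq]; rfl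
  have h5 : wm F θ κ a M x t ≤ pi2 F x / 16 := by
    have e1 := wm_le (M := M) hθ hκ ha x t ht.le
    refine e1.trans ?_
    have e2 : (t:ℝ) * (2 * θ * pi2 F x / finrank ℝ Fᗮ)
        = (t * θ) * (2 * pi2 F x / finrank ℝ Fᗮ) := by ring
    rw [e2]
    have e3 : 2 * pi2 F x / finrank ℝ Fᗮ ≤ pi2 F x / 16 := by
      rw [div_le_div_iff₀ hD1 (by norm_num)]
      have : (32:ℝ) ≤ finrank ℝ Fᗮ := by exact_mod_cast hD
      nlinarith
    have e4 : 0 ≤ 2 * pi2 F x / finrank ℝ Fᗮ := by positivity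
    nlinarith
  have h6 : 2 / lam * ∑ j, P j ^ 2 *
      avg (fun ω : Fin M → Fin d → Bool => ind (κ ≤ |(wst F θ κ a ω t).1 j|))
      ≤ pi2 F x / 4 := by
    calc _ ≤ 2 / lam * (pi2 F x * (lam / 8)) := mul_le_mul_of_nonneg_left h4 (by positivity)
      _ = _ := by field_simp; ring
  have h7 : θ / finrank ℝ Fᗮ * (pi2 F x / 2) ≤ θ / finrank ℝ Fᗮ * (pi2 F x - 2 / lam * ∑ j, P j ^ 2 *
        avg (fun ω : Fin M → Fin d → Bool => ind (κ ≤ |(wst F θ κ a ω t).1 j|))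
        - 4 * wm F θ κ a M x t) := by
    apply mul_le_mul_of_nonneg_left _ (by positivity)
    linarith
  have h8 : θ * pi2 F x / (2 * finrank ℝ Fᗮ) = θ / finrank ℝ Fᗮ * (pi2 F x / 2) := by
    field_simp
  linarith

end

end Pool.Agent.Helper50_RIP
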