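import Mathlib
import Pool.Agent.Helper50_RIP.Walk3

set_option autoImplicit false
set_option linter.unusedSectionVars false
set_option linter.unusedVariables false

/-!
# The walk as a random unit vector
-/

namespace Pool.Agent.Helper50_RIP

open Pool.Agent.Helper50_Stretch Module
open scoped InnerProductSpace

variable {d : ℕ}

theorem wm_ge {F : Submodule ℝ (V d)} {θ κ : ℝ} {a N : ℕ} (hN : 0 < N)
    (hθ : θ = 1 / (2 * N)) (hκ : 0 < κ) (ha : 2 * (a + 1) ≤ finrank ℝ Fᗮ)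
    {lam Lam : ℝ} (hlam : 0 < lam) (haκ : a * (κ + Real.sqrt θ) ^ 2 ≤ lam / 8)
    (hsp : ∀ A : Finset (Fin d), A.card ≤ a → ∀ z ∈ cspan A, lam * ‖z‖ ^ 2 ≤ pi2 F z)
    (hLam : 0 < Lam) (hup : ∀ j, pi2 F (ee j) ≤ Lam)
    (hp : 2 * Real.exp (-(κ ^ 2 * finrank ℝ Fᗮ / (4 * Lam))) ≤ lam / 8)
    (hD : 32 ≤ finrank ℝ Fᗮ) (x : V d) :
    pi2 F x / (4 * finrank ℝ Fᗮ) ≤ wm F θ κ a (2 * N) x (2 * N) := by
  have hN1 : (0:ℝ) < N := by exact_mod_cast hN
  have hθ0 : 0 ≤ θ := by rw [hθ]; positivity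
  have hD1 : (0:ℝ) < finrank ℝ Fᗮ := by exact_mod_cast (by omega : 0 < finrank ℝ Fᗮ)
  have key : ∀ i : ℕ, i ≤ N → i * (θ * pi2 F x / (2 * finrank ℝ Fᗮ))
      ≤ wm F θ κ a (2 * N) x (N + i) := by
    intro i
    induction i with
    | zero =>
      intro _
      have : 0 ≤ wm F θ κ a (2 * N) x (N + 0) := avg_nonneg (fun _ => sq_nonneg _)
      simpa using this
    | succ i ih =>
      intro hi
      have h1 := ih (by omega)
      have h2 := wm_ge_step (M := 2 * N) hθ0 hκ ha hlam haκ hsp hLam hup hp hD x (N + i)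
        (by omega) ?_ ?_
      · rw [← add_assoc]
        push_cast
        linarith
      · rw [hθ]
        have : ((N + i : ℕ) : ℝ) ≤ 2 * N := by exact_mod_cast (by omega : N + i ≤ 2 * N)
        rw [mul_one_div, div_le_one (by positivity)]
        exact this
      · rw [hθ]
        have : (N : ℝ) ≤ ((N + i : ℕ) : ℝ) := by exact_mod_cast (by omega : N ≤ N + i)
        rw [mul_one_div, div_le_div_iff₀ (by norm_num) (by positivity)]
        linarith
  have h := key N (le_refl _)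
  rw [← two_mul] at h
  refine le_trans (le_of_eq ?_) h
  rw [hθ]
  field_simp
  ring

/-- flat sign vector on `A`, positive exactly on `B` -/
noncomputable def flat (A B : Finset (Fin d)) : V d := ∑ j ∈ A, (if j ∈ B then (1:ℝ) else -1) • ee j

theorem inner_flat (A B : Finset (Fin d)) (y : V d) :
    ⟪flat A B, y⟫_ℝ = ∑ j ∈ A, (if j ∈ B then (1:ℝ) else -1) * y j := by
  unfold flat
  rw [sum_inner]
  apply Finset.sum_congr rfl
  intro j _
  rw [inner_smul_left, inner_ee']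
  rfl

theorem ind_exists_le {ι : Type*} (s : Finset ι) (p : ι → Prop) :
    ind (∃ i ∈ s, p i) ≤ ∑ i ∈ s, ind (p i) := by
  apply ind_le (Finset.sum_nonneg (fun i _ => ind_nonneg _))
  rintro ⟨i, hi, hp⟩
  calc (1:ℝ) = ind (p i) := (ind_true hp).symm
    _ ≤ _ := Finset.single_le_sum (f := fun i => ind (p i)) (fun i _ => ind_nonneg _) hi

theorem avg_ind_exists_le {Ω ι : Type*} [Fintype Ω] (s : Finset ι) (p : Ω → ι → Prop) {c : ℝ}
    (h : ∀ i ∈ s, avg (fun ω => ind (p ω i)) ≤ c) :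
    avg (fun ω => ind (∃ i ∈ s, p ω i)) ≤ s.card * c := by
  refine (avg_mono (fun ω => ind_exists_le s (p ω))).trans ?_
  rw [avg_sum]
  refine (Finset.sum_le_sum h).trans (le_of_eq ?_)
  rw [Finset.sum_const, nsmul_eq_mul]

/-- index set of the flat vectors -/
noncomputable def flatIdx (d a : ℕ) : Finset (Finset (Fin d) × Finset (Fin d)) :=
  ((Finset.powersetCard a (Finset.univ : Finset (Fin d))).sigma
    (fun A => A.powerset)).map (Equiv.sigmaEquivProd _ _).toEmbedding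

theorem mem_flatIdx {a : ℕ} {p : Finset (Fin d) × Finset (Fin d)} :
    p ∈ flatIdx d a ↔ p.1.card = a ∧ p.2 ⊆ p.1 := by
  unfold flatIdx
  obtain ⟨A, B⟩ := p
  simp [Finset.mem_powersetCard]

theorem card_flatIdx (a : ℕ) : (flatIdx d a).card = d.choose a * 2 ^ a := by
  unfold flatIdx
  rw [Finset.card_map, Finset.card_sigma]
  rw [Finset.sum_congr rfl (g := fun _ => 2 ^ a)]
  · rw [Finset.sum_const, Finset.card_powersetCard, Finset.card_univ, Fintype.card_fin,
      smul_eq_mul]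
  · intro A hA
    rw [Finset.mem_powersetCard] at hA
    rw [Finset.card_powerset, hA.2]

theorem exists_flat_of_large {a : ℕ} {κ : ℝ} {v : V d} {A : Finset (Fin d)} (hA : A.card = a)
    (h : ∀ j ∈ A, κ ≤ |v j|) : ∃ p ∈ flatIdx d a, a * κ ≤ ⟪flat p.1 p.2, v⟫_ℝ := by
  classical
  refine ⟨(A, A.filter (fun j => 0 ≤ v j)), ?_, ?_⟩
  · rw [mem_flatIdx]; exact ⟨hA, Finset.filter_subset _ _⟩
  · rw [inner_flat]
    calc (a:ℝ) * κ = ∑ _j ∈ A, κ := by rw [Finset.sum_const, hA, nsmul_eq_mul]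
      _ ≤ ∑ j ∈ A, |v j| := Finset.sum_le_sum h
      _ = _ := by
        apply Finset.sum_congr rfl
        intro j hj
        simp only [Finset.mem_filter, hj, true_and]
        split_ifs with c
        · rw [abs_of_nonneg c, one_mul]
        · rw [abs_of_neg (not_le.mp c)]; ring

theorem walk_sup {F : Submodule ℝ (V d)} {θ κ : ℝ} {a M : ℕ} (hθ : 0 ≤ θ) (hκ : 0 < κ)
    (ha1 : 1 ≤ a) (ha : 2 * (a + 1) ≤ finrank ℝ Fᗮ) {Lam : ℝ} (hLam : 0 < Lam)
    (hup : ∀ p ∈ flatIdx d a, pi2 F (flat p.1 p.2) ≤ a * Lam) (hMθ : M * θ ≤ 1) :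
    avg (fun ω : Fin M → Fin d → Bool => ind (∃ j, κ + Real.sqrt θ < |(wst F θ κ a ω M).1 j|))
      ≤ d.choose a * 2 ^ a * Real.exp (-(a * κ ^ 2 * finrank ℝ Fᗮ / (4 * Lam))) := by
  have hD1 : (0:ℝ) < finrank ℝ Fᗮ := by exact_mod_cast (by omega : 0 < finrank ℝ Fᗮ)
  have ha0 : (0:ℝ) < a := by exact_mod_cast ha1
  have h1 : ∀ ω : Fin M → Fin d → Bool,
      ind (∃ j, κ + Real.sqrt θ < |(wst F θ κ a ω M).1 j|)
      ≤ ind (∃ p ∈ flatIdx d a, a * κ ≤ ⟪flat p.1 p.2, (wst F θ κ a ω M).1⟫_ℝ) := by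
    intro ω
    apply ind_mono
    rintro ⟨j, hj⟩
    have hI := winv_wst (M := M) hθ hκ ha ω M
    rcases hI.full with hf | hf
    · exfalso
      have hjA : j ∈ (wst F θ κ a ω M).2 := by
        rw [hf, mem_big]
        have := Real.sqrt_nonneg θ
        linarith
      have := hI.high j hjA
      linarith
    · exact exists_flat_of_large hf hI.low
  refine (avg_mono h1).trans ?_
  have h2 := avg_ind_exists_le (Ω := Fin M → Fin d → Bool) (flatIdx d a)
    (fun ω p => a * κ ≤ ⟪flat p.1 p.2, (wst F θ κ a ω M).1⟫_ℝ)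
    (c := Real.exp (-(a * κ ^ 2 * finrank ℝ Fᗮ / (4 * Lam)))) ?_
  · refine h2.trans (le_of_eq ?_)
    rw [card_flatIdx]
    push_cast
    ring
  · intro p hp
    have h3 := avg_ind_le_of_sg (fun ω : Fin M → Fin d → Bool =>
      ⟪flat p.1 p.2, (wst F θ κ a ω M).1⟫_ℝ) (B := a * Lam / finrank ℝ Fᗮ) (κ := a * κ)
      (by positivity) (by positivity) ?_
    · refine h3.trans (le_of_eq ?_)
      congr 2
      field_simp
    · intro s
      refine (avg_exp_wst (M := M) hθ hκ ha (flat p.1 p.2) s M (le_refl _)).trans ?_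
      apply Real.exp_le_exp.mpr
      rw [mul_comm]
      apply mul_le_mul_of_nonneg_right _ (sq_nonneg s)
      have h3 := hup p hp
      have h4 := pi2_nonneg F (flat p.1 p.2)
      have h5 : M * θ * pi2 F (flat p.1 p.2) ≤ a * Lam := by
        have : 0 ≤ M * θ := by positivity
        nlinarith
      gcongr

end Pool.Agent.Helper50_RIP
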