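import Mathlib
import Pool.Agent.Helper50_RIP.Walk4

set_option autoImplicit false
set_option linter.unusedSectionVars false
set_option linter.unusedVariables false

/-!
# Lattice nets for sparse vectors
-/

namespace Pool.Agent.Helper50_RIP

open Pool.Agent.Helper50_Stretch Module
open scoped InnerProductSpace

variable {d : ℕ}

theorem mem_cspan_iff {A : Finset (Fin d)} {z : V d} : z ∈ cspan A ↔ ∀ j, j ∉ A → z j = 0 := by
  constructor
  · intro hz j hj; exact mem_cspan hz j hj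
  · intro h
    have h1 : z = ∑ j ∈ A, z j • ee j := by
      ext i
      rw [WithLp.ofLp_sum, Finset.sum_apply]
      have h2 : ∀ j ∈ A, (z j • ee j : V d) i = if i = j then z j else 0 := by
        intro j _
        rw [PiLp.smul_apply]
        unfold ee
        rw [PiLp.single_apply]
        split_ifs <;> simp
      rw [Finset.sum_congr rfl h2, Finset.sum_ite_eq]
      split_ifs with hi
      · rfl
      · exact h i hi
    rw [h1]
    apply Submodule.sum_mem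
    intro j hj
    exact Submodule.smul_mem _ _ (Submodule.subset_span ⟨j, hj, rfl⟩)

theorem cspan_mono {A B : Finset (Fin d)} (h : A ⊆ B) : cspan A ≤ cspan B := by
  intro z hz
  rw [mem_cspan_iff] at hz ⊢
  intro j hj
  exact hz j (fun hA => hj (h hA))

/-- one dimensional lattice sum -/
theorem sum_lattice_le {δ : ℝ} (hδ0 : 0 < δ) (hδ1 : δ ≤ 1) (R : ℕ) :
    ∑ n ∈ Finset.Icc (-(R:ℤ)) R, Real.exp (-(δ ^ 2 * (n:ℝ) ^ 2)) ≤ 4 / δ ^ 2 := by
  set r := Real.exp (-(δ ^ 2)) with hr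
  have hr0 : 0 < r := Real.exp_pos _
  have hx0 : 0 < δ ^ 2 := by positivity
  have hx1 : δ ^ 2 ≤ 1 := pow_le_one₀ hδ0.le hδ1
  have hr1 : δ ^ 2 / 2 ≤ 1 - r := by
    have h1 : (1:ℝ) + δ ^ 2 ≤ Real.exp (δ ^ 2) := by
      have := Real.add_one_le_exp (δ ^ 2); linarith
    have h2 : r ≤ (1 + δ ^ 2)⁻¹ := by
      rw [hr, Real.exp_neg]; exact inv_anti₀ (by positivity) h1
    have h3 : (1 + δ ^ 2)⁻¹ ≤ 1 - δ ^ 2 / 2 := by
      rw [inv_le_iff_one_le_mul₀ (by positivity)]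
      nlinarith
    linarith
  have hrlt : r < 1 := by linarith
  set g : ℤ → ℝ := fun n => r ^ n.natAbs with hg
  have h1 : ∀ n ∈ Finset.Icc (-(R:ℤ)) R, Real.exp (-(δ ^ 2 * (n:ℝ) ^ 2)) ≤ g n := by
    intro n _
    rw [hg, hr]
    simp only
    rw [← Real.exp_nat_mul]
    apply Real.exp_le_exp.mpr
    have e1 : ((n.natAbs : ℕ) : ℝ) ≤ (n:ℝ) ^ 2 := by
      have h2 : ((n.natAbs : ℕ) : ℤ) ≤ n ^ 2 := by
        rw [← Int.natAbs_sq]
        have h3 := Nat.le_self_pow (two_ne_zero) n.natAbs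
        calc ((n.natAbs : ℕ) : ℤ) ≤ ((n.natAbs ^ 2 : ℕ) : ℤ) := Int.ofNat_le.mpr h3
          _ = (n.natAbs : ℤ) ^ 2 := by push_cast; rfl
      have h3 : (((n.natAbs : ℕ) : ℤ) : ℝ) ≤ ((n ^ 2 : ℤ) : ℝ) := Int.cast_le.mpr h2
      rw [Int.cast_pow, Int.cast_natCast] at h3
      exact h3
    nlinarith
  refine (Finset.sum_le_sum h1).trans ?_
  have hsub : Finset.Icc (-(R:ℤ)) R ⊆ (Finset.range (R + 1)).image (fun k : ℕ => (k:ℤ))
      ∪ (Finset.range (R + 1)).image (fun k : ℕ => -(k:ℤ)) := by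
    intro n hn
    rw [Finset.mem_Icc] at hn
    rw [Finset.mem_union, Finset.mem_image, Finset.mem_image]
    rcases le_or_gt 0 n with h | h
    · left
      refine ⟨n.natAbs, ?_, ?_⟩
      · rw [Finset.mem_range]; omega
      · omega
    · right
      refine ⟨n.natAbs, ?_, ?_⟩
      · rw [Finset.mem_range]; omega
      · omega
  have hgn : ∀ n, 0 ≤ g n := fun n => by rw [hg]; positivity
  refine (Finset.sum_le_sum_of_subset_of_nonneg hsub (fun n _ _ => hgn n)).trans ?_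
  have h2 := Finset.sum_union_inter (s₁ := (Finset.range (R + 1)).image (fun k : ℕ => (k:ℤ)))
    (s₂ := (Finset.range (R + 1)).image (fun k : ℕ => -(k:ℤ))) (f := g)
  have h3 : 0 ≤ ∑ n ∈ (Finset.range (R + 1)).image (fun k : ℕ => (k:ℤ))
      ∩ (Finset.range (R + 1)).image (fun k : ℕ => -(k:ℤ)), g n :=
    Finset.sum_nonneg (fun n _ => hgn n)
  have hgeo : ∑ k ∈ Finset.range (R + 1), r ^ k ≤ 2 / δ ^ 2 := by
    have e1 := geom_sum_eq hrlt.ne (R + 1)
    rw [e1, ← neg_div_neg_eq, neg_sub, neg_sub, div_le_div_iff₀ (by linarith) hx0]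
    have e2 : 0 < r ^ (R + 1) := by positivity
    nlinarith
  have h4 : ∑ n ∈ (Finset.range (R + 1)).image (fun k : ℕ => (k:ℤ)), g n
      = ∑ k ∈ Finset.range (R + 1), r ^ k := by
    rw [Finset.sum_image (by intro a _ b _ h; exact Int.ofNat_inj.mp h)]
    apply Finset.sum_congr rfl
    intro k _
    simp [hg]
  have h5 : ∑ n ∈ (Finset.range (R + 1)).image (fun k : ℕ => -(k:ℤ)), g n
      = ∑ k ∈ Finset.range (R + 1), r ^ k := by
    rw [Finset.sum_image (by intro a _ b _ h; simpa using h)]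
    apply Finset.sum_congr rfl
    intro k _
    simp [hg]
  rw [h4, h5] at h2
  have h6 : 4 / δ ^ 2 = 2 / δ ^ 2 + 2 / δ ^ 2 := by ring
  linarith

/-- lattice vector -/
noncomputable def latV (s : ℝ) (n : Fin d → ℤ) : V d := WithLp.toLp 2 (fun j => s * (n j : ℝ))

/-- lattice points of a coordinate subspace in a ball -/
noncomputable def latN (A : Finset (Fin d)) (a R : ℕ) (δ : ℝ) : Finset (Fin d → ℤ) :=
  (Fintype.piFinset (fun j => if j ∈ A then Finset.Icc (-(R:ℤ)) R else {0})).filter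
    (fun n => δ ^ 2 * ∑ j, (n j : ℝ) ^ 2 ≤ a)

theorem card_latN_le (A : Finset (Fin d)) (R : ℕ) {δ : ℝ} (hδ0 : 0 < δ) (hδ1 : δ ≤ 1) :
    ((latN A A.card R δ).card : ℝ) ≤ (11 / δ ^ 2) ^ A.card := by
  set S : Fin d → Finset ℤ := fun j => if j ∈ A then Finset.Icc (-(R:ℤ)) R else {0} with hS
  have h1 : ((latN A A.card R δ).card : ℝ)
      ≤ ∑ n ∈ Fintype.piFinset S, Real.exp A.card * ∏ j, Real.exp (-(δ ^ 2 * (n j : ℝ) ^ 2)) := by
    calc ((latN A A.card R δ).card : ℝ) = ∑ n ∈ latN A A.card R δ, (1:ℝ) := by simp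
      _ ≤ ∑ n ∈ latN A A.card R δ, Real.exp A.card
            * ∏ j, Real.exp (-(δ ^ 2 * (n j : ℝ) ^ 2)) := by
          apply Finset.sum_le_sum
          intro n hn
          unfold latN at hn
          rw [Finset.mem_filter] at hn
          rw [← Real.exp_sum, ← Real.exp_add]
          apply Real.one_le_exp
          rw [Finset.sum_neg_distrib, ← Finset.mul_sum]
          linarith [hn.2]
      _ ≤ _ := by
          apply Finset.sum_le_sum_of_subset_of_nonneg (Finset.filter_subset _ _)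
          intro n _ _
          positivity
  refine h1.trans ?_
  rw [← Finset.mul_sum, ← Finset.prod_univ_sum S
    (fun _ (n : ℤ) => Real.exp (-(δ ^ 2 * (n : ℝ) ^ 2)))]
  have h2 : ∏ j, ∑ n ∈ S j, Real.exp (-(δ ^ 2 * (n : ℝ) ^ 2)) ≤ (4 / δ ^ 2) ^ A.card := by
    have h3 : ∀ j, ∑ n ∈ S j, Real.exp (-(δ ^ 2 * (n : ℝ) ^ 2))
        ≤ if j ∈ A then 4 / δ ^ 2 else 1 := by
      intro j
      simp only [hS]
      split_ifs with hj
      · exact sum_lattice_le hδ0 hδ1 R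
      · simp
    calc _ ≤ ∏ j, (if j ∈ A then 4 / δ ^ 2 else 1) :=
          Finset.prod_le_prod (fun j _ => Finset.sum_nonneg (fun n _ => (Real.exp_pos _).le))
            (fun j _ => h3 j)
      _ = _ := by
          rw [Finset.prod_ite_mem, Finset.univ_inter, Finset.prod_const]
  have h4 : Real.exp A.card = Real.exp 1 ^ A.card := by
    rw [← Real.exp_nat_mul, mul_one]
  rw [h4]
  calc _ ≤ Real.exp 1 ^ A.card * (4 / δ ^ 2) ^ A.card :=
        mul_le_mul_of_nonneg_left h2 (by positivity)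
    _ = (Real.exp 1 * (4 / δ ^ 2)) ^ A.card := by rw [mul_pow]
    _ ≤ _ := by
        apply pow_le_pow_left₀ (by positivity)
        have := Real.exp_one_lt_d9
        rw [mul_div_assoc']
        gcongr
        linarith

theorem exists_lat_near (A : Finset (Fin d)) (hA : 1 ≤ A.card) {δ : ℝ} (hδ0 : 0 < δ)
    (hδ1 : δ ≤ 1) (z : V d) (hz : z ∈ cspan A) (hz1 : ‖z‖ ≤ 1) :
    ∃ n ∈ latN A A.card ⌈A.card / δ ^ 2⌉₊ δ, latV (2 * δ / Real.sqrt A.card) n ∈ cspan A ∧
      ‖z - latV (2 * δ / Real.sqrt A.card) n‖ ≤ δ := by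
  have ha : (0:ℝ) < A.card := by exact_mod_cast hA
  have hsa : 0 < Real.sqrt A.card := Real.sqrt_pos.mpr ha
  set s := 2 * δ / Real.sqrt A.card with hs
  have hs0 : 0 < s := by positivity
  have hs2 : s ^ 2 * A.card = 4 * δ ^ 2 := by
    rw [hs, div_pow, Real.sq_sqrt ha.le]; field_simp; ring
  set n : Fin d → ℤ := fun j => round (z j / s) with hn
  have hn0 : ∀ j, j ∉ A → n j = 0 := by
    intro j hj
    rw [hn]; simp only
    rw [mem_cspan hz j hj, zero_div, round_zero]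
  have hmem : latV s n ∈ cspan A := by
    rw [mem_cspan_iff]
    intro j hj
    show s * (n j : ℝ) = 0
    rw [hn0 j hj]; simp
  have hcoord : ∀ j, (z - latV s n) j ^ 2 ≤ if j ∈ A then s ^ 2 / 4 else 0 := by
    intro j
    split_ifs with hj
    · have h1 : (z - latV s n) j = s * (z j / s - n j) := by
        show z j - s * (n j : ℝ) = _
        field_simp
      rw [h1, mul_pow]
      have h2 : |z j / s - n j| ≤ 1 / 2 := abs_sub_round (z j / s)
      have h3 : (z j / s - n j) ^ 2 ≤ (1 / 2) ^ 2 := by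
        rw [← sq_abs]; exact pow_le_pow_left₀ (abs_nonneg _) h2 2
      nlinarith [sq_nonneg s]
    · have h1 : (z - latV s n) j = 0 := by
        show z j - s * (n j : ℝ) = 0
        rw [mem_cspan hz j hj, hn0 j hj]; simp
      rw [h1]; norm_num
  have hnorm : ‖z - latV s n‖ ^ 2 ≤ δ ^ 2 := by
    rw [EuclideanSpace.real_norm_sq_eq]
    calc _ ≤ ∑ j, (if j ∈ A then s ^ 2 / 4 else 0) := Finset.sum_le_sum (fun j _ => hcoord j)
      _ = A.card * (s ^ 2 / 4) := by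
        rw [Finset.sum_ite_mem, Finset.univ_inter, Finset.sum_const, nsmul_eq_mul]
      _ = δ ^ 2 := by nlinarith
  have hnorm' : ‖z - latV s n‖ ≤ δ :=
    (pow_le_pow_iff_left₀ (norm_nonneg _) hδ0.le two_ne_zero).mp hnorm
  have hlat : ‖latV s n‖ ≤ 2 := by
    have h1 : latV s n = z - (z - latV s n) := by abel
    rw [h1]
    refine (norm_sub_le _ _).trans ?_
    linarith
  have hlat2 : ‖latV s n‖ ^ 2 = s ^ 2 * ∑ j, (n j : ℝ) ^ 2 := by
    rw [EuclideanSpace.real_norm_sq_eq, Finset.mul_sum]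
    apply Finset.sum_congr rfl
    intro j _
    show (s * (n j : ℝ)) ^ 2 = _
    ring
  have hsum : δ ^ 2 * ∑ j, (n j : ℝ) ^ 2 ≤ A.card := by
    have h1 : ‖latV s n‖ ^ 2 ≤ 2 ^ 2 := pow_le_pow_left₀ (norm_nonneg _) hlat 2
    rw [hlat2] at h1
    have h2 : 4 * (δ ^ 2 * ∑ j, (n j : ℝ) ^ 2) = (s ^ 2 * ∑ j, (n j : ℝ) ^ 2) * A.card := by
      calc _ = (4 * δ ^ 2) * ∑ j, (n j : ℝ) ^ 2 := by ring
        _ = (s ^ 2 * A.card) * ∑ j, (n j : ℝ) ^ 2 := by rw [hs2]
        _ = _ := by ring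
    nlinarith
  refine ⟨n, ?_, hmem, hnorm'⟩
  unfold latN
  rw [Finset.mem_filter]
  refine ⟨?_, hsum⟩
  rw [Fintype.mem_piFinset]
  intro j
  split_ifs with hj
  · have h1 : (n j : ℝ) ^ 2 ≤ ∑ j, (n j : ℝ) ^ 2 :=
      Finset.single_le_sum (f := fun j => (n j : ℝ) ^ 2) (fun i _ => sq_nonneg _)
        (Finset.mem_univ j)
    have h2 : (n j : ℝ) ^ 2 ≤ A.card / δ ^ 2 := by
      rw [le_div_iff₀ (by positivity)]
      nlinarith [sq_nonneg δ]
    have h3 : (n j : ℝ) ^ 2 ≤ (⌈(A.card:ℝ) / δ ^ 2⌉₊ : ℝ) := h2.trans (Nat.le_ceil _)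
    have h4 : (n j) ^ 2 ≤ (⌈(A.card:ℝ) / δ ^ 2⌉₊ : ℤ) := by exact_mod_cast h3
    have h5 : |n j| ≤ (⌈(A.card:ℝ) / δ ^ 2⌉₊ : ℤ) := by
      refine le_trans ?_ h4
      rw [← sq_abs]
      have := abs_nonneg (n j)
      rcases this.eq_or_lt with h | h
      · rw [← h]; norm_num
      · nlinarith
    rw [Finset.mem_Icc]
    exact ⟨by linarith [neg_abs_le (n j)], (le_abs_self _).trans h5⟩
  · rw [hn0 j hj]; exact Finset.mem_singleton_self _

open Classical in
/-- existence of the net -/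
theorem exists_net (d a : ℕ) (ha : 1 ≤ a) {δ : ℝ} (hδ0 : 0 < δ) (hδ1 : δ ≤ 1) :
    ∃ N : Finset (V d), (N.card : ℝ) ≤ d.choose a * (11 / δ ^ 2) ^ a ∧
      ∀ A : Finset (Fin d), A.card = a → ∀ z ∈ cspan A, ‖z‖ ≤ 1 →
        ∃ z' ∈ N, z' ∈ cspan A ∧ ‖z - z'‖ ≤ δ := by
  refine ⟨(Finset.powersetCard a (Finset.univ : Finset (Fin d))).biUnion (fun A =>
    (latN A A.card ⌈A.card / δ ^ 2⌉₊ δ).image (latV (2 * δ / Real.sqrt A.card))), ?_, ?_⟩
  · have h1 := Finset.card_biUnion_le (s := Finset.powersetCard a (Finset.univ : Finset (Fin d)))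
      (t := fun A => (latN A A.card ⌈A.card / δ ^ 2⌉₊ δ).image (latV (2 * δ / Real.sqrt A.card)))
    have h2 : ((∑ A ∈ Finset.powersetCard a (Finset.univ : Finset (Fin d)),
        ((latN A A.card ⌈A.card / δ ^ 2⌉₊ δ).image (latV (2 * δ / Real.sqrt A.card))).card : ℕ) : ℝ)
        ≤ ∑ A ∈ Finset.powersetCard a (Finset.univ : Finset (Fin d)), (11 / δ ^ 2) ^ a := by
      push_cast
      apply Finset.sum_le_sum
      intro A hA
      rw [Finset.mem_powersetCard] at hA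
      have h3 := card_latN_le A ⌈A.card / δ ^ 2⌉₊ hδ0 hδ1
      have h4 : (((latN A A.card ⌈A.card / δ ^ 2⌉₊ δ).image
          (latV (2 * δ / Real.sqrt A.card))).card : ℝ) ≤ (latN A A.card ⌈A.card / δ ^ 2⌉₊ δ).card := by
        exact_mod_cast Finset.card_image_le
      rw [hA.2] at h3 h4
      rw [hA.2]
      exact h4.trans h3
    rw [Finset.sum_const, Finset.card_powersetCard, Finset.card_univ, Fintype.card_fin,
      nsmul_eq_mul] at h2
    refine le_trans ?_ h2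
    exact_mod_cast h1
  · intro A hA z hz hz1
    obtain ⟨n, hn, h1, h2⟩ := exists_lat_near A (by omega) hδ0 hδ1 z hz hz1
    refine ⟨latV (2 * δ / Real.sqrt A.card) n, ?_, h1, h2⟩
    rw [Finset.mem_biUnion]
    refine ⟨A, ?_, Finset.mem_image_of_mem _ hn⟩
    rw [Finset.mem_powersetCard]
    exact ⟨Finset.subset_univ _, hA⟩

/-- lower bounds on the net give lower bounds for all sparse vectors -/
theorem sp_of_net {a : ℕ} (had : a ≤ d) (F : Submodule ℝ (V d)) {lam0 δ : ℝ} (hl0 : 0 < lam0)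
    (hl1 : lam0 ≤ 1) (hδ0 : 0 < δ) (hδ : 16 * δ ^ 2 ≤ lam0) (N : Finset (V d))
    (hN : ∀ A : Finset (Fin d), A.card = a → ∀ z ∈ cspan A, ‖z‖ ≤ 1 →
        ∃ z' ∈ N, z' ∈ cspan A ∧ ‖z - z'‖ ≤ δ)
    (h : ∀ z ∈ N, lam0 * ‖z‖ ^ 2 ≤ pi2 F z) :
    ∀ A : Finset (Fin d), A.card ≤ a → ∀ z ∈ cspan A, lam0 / 4 * ‖z‖ ^ 2 ≤ pi2 F z := by
  -- unit vectors first
  have hunit : ∀ A : Finset (Fin d), A.card ≤ a → ∀ z ∈ cspan A, ‖z‖ = 1 →
      lam0 / 4 ≤ pi2 F z := by
    intro A hA z hz hz1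
    obtain ⟨B, hAB, -, hB⟩ := Finset.exists_subsuperset_card_eq (Finset.subset_univ A) hA
      (by rw [Finset.card_univ, Fintype.card_fin]; exact had)
    obtain ⟨z', hz', -, hd⟩ := hN B hB z (cspan_mono hAB hz) hz1.le
    have h1 := h z' hz'
    set P := Fᗮ.starProjection with hP
    have h2 : Real.sqrt lam0 * ‖z'‖ ≤ ‖P z'‖ := by
      apply le_of_sq_le_sq _ (norm_nonneg _)
      rw [mul_pow, Real.sq_sqrt hl0.le]
      exact h1
    have h3 : ‖P z'‖ ≤ ‖P z‖ + ‖z - z'‖ := by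
      have e1 : P z' = P z - P (z - z') := by rw [map_sub]; abel
      rw [e1]
      refine (norm_sub_le _ _).trans ?_
      have := Submodule.norm_starProjection_apply_le Fᗮ (z - z')
      linarith
    have h4 : 1 - δ ≤ ‖z'‖ := by
      have := norm_sub_norm_le z z'
      linarith
    set q := Real.sqrt lam0 with hq
    have hq0 : 0 < q := Real.sqrt_pos.mpr hl0
    have hq2 : q ^ 2 = lam0 := Real.sq_sqrt hl0.le
    have hq1 : q ≤ 1 := by
      rw [hq]; exact Real.sqrt_le_one.mpr hl1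
    have h5 : 4 * δ ≤ q := by
      apply le_of_sq_le_sq _ hq0.le
      nlinarith
    have h6 : q / 2 ≤ ‖P z‖ := by nlinarith
    have h7 : (q / 2) ^ 2 ≤ ‖P z‖ ^ 2 := pow_le_pow_left₀ (by positivity) h6 2
    have h8 : pi2 F z = ‖P z‖ ^ 2 := rfl
    rw [h8]
    nlinarith
  intro A hA z hz
  rcases eq_or_ne z 0 with h0 | h0
  · rw [h0, norm_zero]
    simpa using pi2_nonneg F (0 : V d)
  · have hz0 : 0 < ‖z‖ := norm_pos_iff.mpr h0
    have h1 := hunit A hA (‖z‖⁻¹ • z) (Submodule.smul_mem _ _ hz) (by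
      rw [norm_smul, norm_inv, norm_norm, inv_mul_cancel₀ hz0.ne'])
    rw [pi2_smul, inv_pow, inv_mul_eq_div, le_div_iff₀ (by positivity)] at h1
    exact h1

end Pool.Agent.Helper50_RIP
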