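import Mathlib
import Pool.Agent.Helper50_RIP.Walk4

set_option autoImplicit false
set_option linter.unusedSectionVars false
set_option linter.unusedVariables false

/-!
# The kernel: a random unit vector orthogonal to a subspace
-/

namespace Pool.Agent.Helper50_RIP

open Pool.Agent.Helper50_Stretch Module
open scoped InnerProductSpace

/-- parameters of one kernel -/
structure KP where
  a : ℕ
  κ : ℝ
  lam : ℝ
  Lam : ℝ

/-- seed space of one kernel -/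
abbrev Wd (d : ℕ) := Fin (2 * d) → Fin d → Bool

variable {d : ℕ}

/-- the geometric part of the good event -/
structure GoodF (P : KP) (F : Submodule ℝ (V d)) : Prop where
  sp : ∀ A : Finset (Fin d), A.card ≤ P.a → ∀ z ∈ cspan A, P.lam * ‖z‖ ^ 2 ≤ pi2 F z
  up : ∀ j, pi2 F (ee j) ≤ P.Lam
  upf : ∀ p ∈ flatIdx d P.a, pi2 F (flat p.1 p.2) ≤ P.a * P.Lam

/-- the numerical conditions on the parameters -/
structure GoodP (P : KP) (d D : ℕ) : Prop where
  a1 : 1 ≤ P.a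
  aD : 2 * (P.a + 1) ≤ D
  D32 : 32 ≤ D
  κpos : 0 < P.κ
  lampos : 0 < P.lam
  Lampos : 0 < P.Lam
  aκ : P.a * (P.κ + Real.sqrt (1 / (2 * d))) ^ 2 ≤ P.lam / 8
  p : 2 * Real.exp (-(P.κ ^ 2 * D / (4 * P.Lam))) ≤ P.lam / 8

open Classical in
/-- the kernel -/
noncomputable def ker (P : KP) (F : Submodule ℝ (V d)) (ω : Wd d) : V d :=
  if GoodP P d (finrank ℝ Fᗮ) ∧ GoodF P F then (wst F (1 / (2 * d)) P.κ P.a ω (2 * d)).1
  else (Real.sqrt (finrank ℝ Fᗮ))⁻¹ • signVec Fᗮ (coord ω 0)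

theorem ker_mem (P : KP) (F : Submodule ℝ (V d)) (ω : Wd d) : ker P F ω ∈ Fᗮ := by
  unfold ker
  split_ifs with h
  · exact (winv_wst (M := 2 * d) (by positivity) h.1.κpos h.1.aD ω (2 * d)).orth
  · exact Submodule.smul_mem _ _ (signVec_mem _ _)

theorem norm_ker (P : KP) (F : Submodule ℝ (V d)) (ω : Wd d) (hF : 0 < finrank ℝ Fᗮ) :
    ‖ker P F ω‖ = 1 := by
  have hd : 0 < d := lt_of_lt_of_le hF (finrank_le _)
  have hd1 : (0:ℝ) < d := by exact_mod_cast hd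
  have h2 : ‖ker P F ω‖ ^ 2 = 1 := by
    unfold ker
    split_ifs with h
    · rw [(winv_wst (M := 2 * d) (by positivity) h.1.κpos h.1.aD ω (2 * d)).norm]
      push_cast
      field_simp
    · have h1 : (0:ℝ) < finrank ℝ Fᗮ := by exact_mod_cast hF
      rw [norm_smul, mul_pow, norm_signVec, Real.norm_eq_abs, sq_abs, inv_pow,
        Real.sq_sqrt h1.le]
      field_simp
  rw [← Real.sqrt_sq (norm_nonneg (ker P F ω)), h2, Real.sqrt_one]

theorem avg_coord {α : Type*} [Fintype α] [Nonempty α] {n : ℕ} {l : ℕ} (hl : l < n) (f : α → ℝ) :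
    avg (fun ω : Fin n → α => f (coord ω l)) = avg f := by
  have h := avg_update (γ := Fin n) (W := α) ⟨l, hl⟩ (fun ω : Fin n → α => f (coord ω l))
  rw [h]
  have h2 : ∀ ω : Fin n → α, avg (fun w => f (coord (Function.update ω ⟨l, hl⟩ w) l)) = avg f := by
    intro ω
    apply avg_congr
    intro w
    have := coord_update_same ω ⟨l, hl⟩ w
    simp only at this
    rw [this]
  rw [avg_congr h2, avg_const]

theorem avg_exp_ker (P : KP) (F : Submodule ℝ (V d)) (hF : 0 < finrank ℝ Fᗮ) (x : V d) (s : ℝ) :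
    avg (fun ω : Wd d => Real.exp (s * ⟪x, ker P F ω⟫_ℝ))
      ≤ Real.exp (s ^ 2 * (pi2 F x / finrank ℝ Fᗮ)) := by
  have hd : 0 < d := lt_of_lt_of_le hF (finrank_le _)
  have hd1 : (0:ℝ) < d := by exact_mod_cast hd
  have h1 : (0:ℝ) < finrank ℝ Fᗮ := by exact_mod_cast hF
  unfold ker
  split_ifs with h
  · refine (avg_exp_wst (M := 2 * d) (by positivity) h.1.κpos h.1.aD x s (2 * d)
      (le_refl _)).trans (le_of_eq ?_)
    congr 2
    push_cast
    field_simp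
  · have h3 : ∀ ω : Wd d, Real.exp (s * ⟪x, (Real.sqrt (finrank ℝ Fᗮ))⁻¹ •
        signVec Fᗮ (coord ω 0)⟫_ℝ)
        = (fun ε : Fin d → Bool => Real.exp ((s * (Real.sqrt (finrank ℝ Fᗮ))⁻¹) *
          ⟪x, signVec Fᗮ ε⟫_ℝ)) (coord ω 0) := by
      intro ω
      simp only
      rw [inner_smul_right, mul_assoc]
    have h4 := avg_coord (α := Fin d → Bool) (by omega : 0 < 2 * d)
      (fun ε => Real.exp ((s * (Real.sqrt (finrank ℝ Fᗮ))⁻¹) * ⟪x, signVec Fᗮ ε⟫_ℝ))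
    rw [avg_congr h3, h4]
    refine (avg_exp_signVec _ _ _).trans ?_
    apply Real.exp_le_exp.mpr
    rw [mul_pow, inv_pow, Real.sq_sqrt h1.le]
    have h4 := pi2_nonneg F x
    have h5 : ‖Fᗮ.starProjection x‖ ^ 2 = pi2 F x := rfl
    rw [h5]
    have h6 : s ^ 2 * (finrank ℝ Fᗮ : ℝ)⁻¹ * pi2 F x / 2
        = s ^ 2 * (pi2 F x / finrank ℝ Fᗮ) / 2 := by field_simp
    rw [h6]
    have : 0 ≤ s ^ 2 * (pi2 F x / finrank ℝ Fᗮ) := by positivity
    linarith

theorem avg_ker_sq_ge (P : KP) (F : Submodule ℝ (V d)) (hF : 0 < finrank ℝ Fᗮ) (x : V d) :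
    pi2 F x / (4 * finrank ℝ Fᗮ) ≤ avg (fun ω : Wd d => ⟪x, ker P F ω⟫_ℝ ^ 2) := by
  have hd : 0 < d := lt_of_lt_of_le hF (finrank_le _)
  have hd1 : (0:ℝ) < d := by exact_mod_cast hd
  have h1 : (0:ℝ) < finrank ℝ Fᗮ := by exact_mod_cast hF
  unfold ker
  split_ifs with h
  · obtain ⟨hP, hG⟩ := h
    exact wm_ge (N := d) hd rfl hP.κpos hP.aD hP.lampos hP.aκ hG.sp hP.Lampos hG.up hP.p hP.D32 x
  · have h3 : ∀ ω : Wd d, ⟪x, (Real.sqrt (finrank ℝ Fᗮ))⁻¹ •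
        signVec Fᗮ (coord ω 0)⟫_ℝ ^ 2
        = (fun ε : Fin d → Bool => (finrank ℝ Fᗮ : ℝ)⁻¹ *
          ⟪x, signVec Fᗮ ε⟫_ℝ ^ 2) (coord ω 0) := by
      intro ω
      simp only
      rw [inner_smul_right, mul_pow, inv_pow, Real.sq_sqrt h1.le]
    have h4 := avg_coord (α := Fin d → Bool) (by omega : 0 < 2 * d)
      (fun ε => (finrank ℝ Fᗮ : ℝ)⁻¹ * ⟪x, signVec Fᗮ ε⟫_ℝ ^ 2)
    rw [avg_congr h3, h4]
    rw [avg_const_mul, avg_inner_signVec_sq]
    have h4 := pi2_nonneg F x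
    have h5 : ‖Fᗮ.starProjection x‖ ^ 2 = pi2 F x := rfl
    rw [h5, inv_mul_eq_div]
    apply div_le_div_of_nonneg_left h4 h1
    linarith

theorem ker_sup (P : KP) (F : Submodule ℝ (V d)) (hP : GoodP P d (finrank ℝ Fᗮ))
    (hG : GoodF P F) :
    avg (fun ω : Wd d => ind (∃ j, P.κ + Real.sqrt (1 / (2 * d)) < |ker P F ω j|))
      ≤ d.choose P.a * 2 ^ P.a *
        Real.exp (-(P.a * P.κ ^ 2 * finrank ℝ Fᗮ / (4 * P.Lam))) := by
  have hF : 0 < finrank ℝ Fᗮ := by have := hP.D32; omega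
  have hd : 0 < d := lt_of_lt_of_le hF (finrank_le _)
  have hd1 : (0:ℝ) < d := by exact_mod_cast hd
  have hk : ∀ ω : Wd d, ker P F ω = (wst F (1 / (2 * d)) P.κ P.a ω (2 * d)).1 := by
    intro ω
    unfold ker
    exact if_pos ⟨hP, hG⟩
  simp_rw [hk]
  refine walk_sup (M := 2 * d) (by positivity) hP.κpos hP.a1 hP.aD hP.Lampos hG.upf ?_
  push_cast
  rw [mul_one_div, div_self (by positivity)]

theorem ker_tail (P : KP) (F : Submodule ℝ (V d)) (hF : 0 < finrank ℝ Fᗮ) (x : V d) {L κ : ℝ}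
    (hL : 0 < L) (hx : pi2 F x ≤ L) (hκ : 0 ≤ κ) :
    avg (fun ω : Wd d => ind (κ ≤ |⟪x, ker P F ω⟫_ℝ|))
      ≤ 2 * Real.exp (-(κ ^ 2 * finrank ℝ Fᗮ / (4 * L))) := by
  have h1 : (0:ℝ) < finrank ℝ Fᗮ := by exact_mod_cast hF
  have h := avg_ind_abs_le_of_sg (fun ω : Wd d => ⟪x, ker P F ω⟫_ℝ) (B := L / finrank ℝ Fᗮ)
    (κ := κ) (by positivity) hκ ?_
  · refine h.trans (le_of_eq ?_)
    congr 3
    field_simp
  · intro s
    refine (avg_exp_ker P F hF x s).trans ?_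
    apply Real.exp_le_exp.mpr
    rw [mul_comm]
    apply mul_le_mul_of_nonneg_right _ (sq_nonneg s)
    gcongr

/-! ### the outer process -/

/-- one step of the outer process -/
noncomputable def ostep (P : ℕ → KP) (l : ℕ) (F : Submodule ℝ (V d)) (w : Wd d) :
    Submodule ℝ (V d) := F ⊔ Submodule.span ℝ {ker (P l) F w}

/-- the flag of the process -/
noncomputable def FF (P : ℕ → KP) (ξ : Fin d → Wd d) (l : ℕ) : Submodule ℝ (V d) :=
  run (ostep P) ⊥ ξ l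

/-- the vectors of the process -/
noncomputable def vv (P : ℕ → KP) (ξ : Fin d → Wd d) (l : ℕ) : V d :=
  ker (P l) (FF P ξ l) (coord ξ l)

theorem FF_succ (P : ℕ → KP) (ξ : Fin d → Wd d) (l : ℕ) :
    FF P ξ (l + 1) = FF P ξ l ⊔ Submodule.span ℝ {vv P ξ l} := rfl

theorem FF_zero (P : ℕ → KP) (ξ : Fin d → Wd d) : FF P ξ 0 = ⊥ := rfl

theorem finrank_sup_span {F : Submodule ℝ (V d)} {v : V d} (hv : v ∈ Fᗮ) (hv1 : ‖v‖ = 1) :
    finrank ℝ (F ⊔ Submodule.span ℝ {v} : Submodule ℝ (V d)) = finrank ℝ F + 1 := by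
  have h0 : v ≠ 0 := by
    intro h; rw [h, norm_zero] at hv1; norm_num at hv1
  have h1 := Submodule.finrank_sup_add_finrank_inf_eq F (Submodule.span ℝ {v})
  have h2 : F ⊓ Submodule.span ℝ {v} = ⊥ := by
    rw [eq_bot_iff]
    intro y hy
    rw [Submodule.mem_inf] at hy
    obtain ⟨hy1, hy2⟩ := hy
    have hy3 : y ∈ Fᗮ := by
      obtain ⟨c, rfl⟩ := Submodule.mem_span_singleton.mp hy2
      exact Submodule.smul_mem _ _ hv
    have := Submodule.inner_right_of_mem_orthogonal hy1 hy3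
    rw [inner_self_eq_zero] at this
    rw [this]; exact Submodule.zero_mem _
  rw [h2, finrank_bot, finrank_span_singleton h0] at h1
  omega

theorem finrank_FF (P : ℕ → KP) (ξ : Fin d → Wd d) (l : ℕ) (hl : l ≤ d) :
    finrank ℝ (FF P ξ l) = l := by
  induction l with
  | zero => rw [FF_zero]; exact finrank_bot _ _
  | succ l ih =>
    have h := ih (by omega)
    rw [FF_succ, finrank_sup_span, h]
    · exact ker_mem _ _ _
    · apply norm_ker
      have := finrank_orth (FF P ξ l)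
      omega

theorem finrank_FF_orth (P : ℕ → KP) (ξ : Fin d → Wd d) (l : ℕ) (hl : l ≤ d) :
    finrank ℝ (FF P ξ l)ᗮ = d - l := by
  have h1 := finrank_FF P ξ l hl
  have h2 := finrank_orth (FF P ξ l)
  omega

theorem vv_mem (P : ℕ → KP) (ξ : Fin d → Wd d) (l : ℕ) : vv P ξ l ∈ (FF P ξ l)ᗮ := ker_mem _ _ _

theorem norm_vv (P : ℕ → KP) (ξ : Fin d → Wd d) (l : ℕ) (hl : l < d) : ‖vv P ξ l‖ = 1 := by
  apply norm_ker
  rw [finrank_FF_orth P ξ l hl.le]
  omega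

theorem FF_mono (P : ℕ → KP) (ξ : Fin d → Wd d) {l m : ℕ} (h : l ≤ m) : FF P ξ l ≤ FF P ξ m := by
  induction m, h using Nat.le_induction with
  | base => exact le_refl _
  | succ m _ ih => exact ih.trans (by rw [FF_succ]; exact le_sup_left)

theorem vv_mem_FF (P : ℕ → KP) (ξ : Fin d → Wd d) {l m : ℕ} (h : l < m) :
    vv P ξ l ∈ FF P ξ m := by
  apply FF_mono P ξ (Nat.succ_le_of_lt h)
  rw [Nat.succ_eq_add_one, FF_succ]
  exact Submodule.mem_sup_right (Submodule.mem_span_singleton_self _)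

theorem inner_vv (P : ℕ → KP) (ξ : Fin d → Wd d) {l m : ℕ} (h : l < m) :
    ⟪vv P ξ l, vv P ξ m⟫_ℝ = 0 :=
  Submodule.inner_right_of_mem_orthogonal (vv_mem_FF P ξ h) (vv_mem P ξ m)

theorem orthonormal_vv (P : ℕ → KP) (ξ : Fin d → Wd d) :
    Orthonormal ℝ (fun i : Fin d => vv P ξ i) := by
  constructor
  · intro i; exact norm_vv P ξ i i.isLt
  · intro i j hij
    rcases lt_or_gt_of_ne (fun h => hij (Fin.ext h) : (i : ℕ) ≠ j) with h | h
    · exact inner_vv P ξ h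
    · simp only
      rw [real_inner_comm]; exact inner_vv P ξ h

theorem pi2_FF (P : ℕ → KP) (ξ : Fin d → Wd d) (x : V d) (l : ℕ) (hl : l < d) :
    pi2 (FF P ξ (l + 1)) x = pi2 (FF P ξ l) x - ⟪x, vv P ξ l⟫_ℝ ^ 2 := by
  rw [FF_succ]
  exact pi2_sup_span _ _ (vv_mem P ξ l) (norm_vv P ξ l hl)

end Pool.Agent.Helper50_RIP
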