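import Mathlib
import Pool.Agent.Helper50_RIP.Kernel

set_option autoImplicit false
set_option linter.unusedSectionVars false
set_option linter.unusedVariables false

/-!
# Upper and lower bounds for the residual projections
-/

namespace Pool.Agent.Helper50_RIP

open Pool.Agent.Helper50_Stretch Module
open scoped InnerProductSpace

theorem exp_neg_le_quad {y : ℝ} (hy : 0 ≤ y) : Real.exp (-y) ≤ 1 - y + y ^ 2 := by
  have h1 : 1 + y ≤ Real.exp y := by have := Real.add_one_le_exp y; linarith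
  rw [Real.exp_neg]
  have h2 : (Real.exp y)⁻¹ ≤ (1 + y)⁻¹ := inv_anti₀ (by linarith) h1
  refine h2.trans ?_
  rw [inv_le_iff_one_le_mul₀ (by linarith)]
  have h3 : (1 - y + y ^ 2) * (1 + y) = 1 + y ^ 3 := by ring
  rw [h3]
  have : 0 ≤ y ^ 3 := by positivity
  linarith

theorem one_sub_pow_le {u : ℝ} (hu0 : 0 ≤ u) (hu1 : u ≤ 1) (β : ℕ) :
    (1 - u) ^ β ≤ 1 - β * u + (β * u) ^ 2 := by
  have h1 : 1 - u ≤ Real.exp (-u) := by have := Real.add_one_le_exp (-u); linarith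
  calc (1 - u) ^ β ≤ (Real.exp (-u)) ^ β := pow_le_pow_left₀ (by linarith) h1 β
    _ = Real.exp (-(β * u)) := by rw [← Real.exp_nat_mul]; congr 1; ring
    _ ≤ _ := exp_neg_le_quad (by positivity)

variable {d : ℕ}

theorem pi2_ostep (P : ℕ → KP) (l : ℕ) (F : Submodule ℝ (V d)) (hF : 0 < finrank ℝ Fᗮ)
    (x : V d) (w : Wd d) :
    pi2 (ostep P l F w) x = pi2 F x - ⟪x, ker (P l) F w⟫_ℝ ^ 2 :=
  pi2_sup_span _ _ (ker_mem _ _ _) (norm_ker _ _ _ hF)

theorem avg_ker_four (P : KP) (F : Submodule ℝ (V d)) (hF : 0 < finrank ℝ Fᗮ) (x : V d) :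
    avg (fun w : Wd d => ⟪x, ker P F w⟫_ℝ ^ 4) ≤ 84 * (pi2 F x / finrank ℝ Fᗮ) ^ 2 := by
  apply avg_pow_four_le
  · have := pi2_nonneg F x; positivity
  · intro s
    refine (avg_exp_ker P F hF x s).trans (le_of_eq ?_)
    rw [mul_comm]

theorem claim1_step (P : ℕ → KP) (l : ℕ) (F : Submodule ℝ (V d)) (hF : 0 < finrank ℝ Fᗮ)
    (β : ℕ) (hβ : 672 * β ≤ finrank ℝ Fᗮ) (x : V d) :
    avg (fun w : Wd d => pi2 (ostep P l F w) x ^ β)
      ≤ Real.exp (-(β / (8 * finrank ℝ Fᗮ))) * pi2 F x ^ β := by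
  have hD : (0:ℝ) < finrank ℝ Fᗮ := by exact_mod_cast hF
  have hβ' : 672 * (β:ℝ) ≤ finrank ℝ Fᗮ := by exact_mod_cast hβ
  set D : ℝ := (finrank ℝ Fᗮ : ℝ) with hDdef
  have hπ := pi2_nonneg F x
  rcases Nat.eq_zero_or_pos β with hb | hb
  · subst hb
    simp only [pow_zero, CharP.cast_eq_zero, zero_div, neg_zero, Real.exp_zero, mul_one]
    rw [avg_const]
  rcases hπ.eq_or_lt with h0 | h0
  · have h1 : ∀ w : Wd d, pi2 (ostep P l F w) x ^ β ≤ 0 := by
      intro w
      have h2 : pi2 (ostep P l F w) x = 0 := by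
        apply le_antisymm
        · rw [h0]; exact pi2_anti le_sup_left x
        · exact pi2_nonneg _ _
      rw [h2, zero_pow hb.ne']
    have h3 := avg_mono h1
    rw [avg_const] at h3
    rw [← h0, zero_pow hb.ne', mul_zero]
    exact h3
  · set π := pi2 F x with hπdef
    have h1 : ∀ w : Wd d, pi2 (ostep P l F w) x ^ β
        ≤ π ^ β * (1 - β / π * ⟪x, ker (P l) F w⟫_ℝ ^ 2
          + (β / π) ^ 2 * ⟪x, ker (P l) F w⟫_ℝ ^ 4) := by
      intro w
      rw [pi2_ostep P l F hF x w]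
      have hy : ⟪x, ker (P l) F w⟫_ℝ ^ 2 ≤ π :=
        inner_sq_le_pi2 F x (ker_mem _ _ _) (norm_ker _ _ _ hF)
      set y := ⟪x, ker (P l) F w⟫_ℝ with hydef
      have e1 : π - y ^ 2 = π * (1 - y ^ 2 / π) := by field_simp
      rw [← hπdef, e1, mul_pow]
      apply mul_le_mul_of_nonneg_left _ (by positivity)
      refine (one_sub_pow_le (by positivity) (by rw [div_le_one h0]; exact hy) β).trans
        (le_of_eq ?_)
      ring
    refine (avg_mono h1).trans ?_
    rw [avg_const_mul, avg_add, avg_sub, avg_const, avg_const_mul, avg_const_mul, mul_comm]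
    apply mul_le_mul_of_nonneg_right _ (by positivity)
    have h2 := avg_ker_sq_ge (P l) F hF x
    have h3 := avg_ker_four (P l) F hF x
    rw [← hDdef, ← hπdef] at h2 h3
    have h4 : 1 - (β:ℝ) / (8 * D) ≤ Real.exp (-(β / (8 * D))) := by
      have := Real.add_one_le_exp (-((β:ℝ) / (8 * D))); linarith
    refine le_trans ?_ h4
    have h5 : (β:ℝ) / (4 * D) ≤ β / π * avg (fun w : Wd d => ⟪x, ker (P l) F w⟫_ℝ ^ 2) := by
      have := mul_le_mul_of_nonneg_left h2 (by positivity : 0 ≤ (β:ℝ) / π)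
      refine le_trans (le_of_eq ?_) this
      field_simp
    have h6 : (β / π) ^ 2 * avg (fun w : Wd d => ⟪x, ker (P l) F w⟫_ℝ ^ 4)
        ≤ 84 * β ^ 2 / D ^ 2 := by
      have := mul_le_mul_of_nonneg_left h3 (by positivity : 0 ≤ ((β:ℝ) / π) ^ 2)
      refine this.trans (le_of_eq ?_)
      field_simp
    have h7 : 84 * (β:ℝ) ^ 2 / D ^ 2 ≤ β / (8 * D) := by
      rw [div_le_div_iff₀ (by positivity) (by positivity)]
      have e1 : 84 * (β:ℝ) ^ 2 * (8 * D) = (672 * β) * (β * D) := by ring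
      rw [e1]
      have e2 : (β:ℝ) * D ^ 2 = D * (β * D) := by ring
      rw [e2]
      exact mul_le_mul_of_nonneg_right hβ' (by positivity)
    have h8 : (β:ℝ) / (4 * D) = β / (8 * D) + β / (8 * D) := by field_simp; ring
    linarith

theorem exp_neg_inv_le {n : ℝ} (hn : 0 < n) : Real.exp (-(1 / n)) ≤ n / (n + 1) := by
  rw [Real.exp_neg]
  have h1 : (n + 1) / n ≤ Real.exp (1 / n) := by
    have := Real.add_one_le_exp (1 / n)
    refine le_trans (le_of_eq ?_) this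
    field_simp
    ring
  have h2 : n / (n + 1) = ((n + 1) / n)⁻¹ := by rw [inv_div]
  rw [h2]
  exact inv_anti₀ (by positivity) h1

theorem prod1_le (d g : ℕ) : ∀ L : ℕ, L ≤ d →
    ∏ i ∈ Finset.range L, Real.exp (-((g:ℝ) / ((d - i : ℕ) : ℝ)))
      ≤ ((((d - L : ℕ) : ℝ) + 1) / (d + 1)) ^ g
  | 0, _ => by
    simp only [Finset.range_zero, Finset.prod_empty, Nat.sub_zero]
    rw [div_self (by positivity), one_pow]
  | L + 1, hL => by
    have ih := prod1_le d g L (by omega)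
    rw [Finset.prod_range_succ]
    obtain ⟨n, hn⟩ : ∃ n, d - L = n + 1 := ⟨d - L - 1, by omega⟩
    have h2 : d - (L + 1) = n := by omega
    rw [h2]
    rw [hn] at ih ⊢
    have h3 : Real.exp (-((g:ℝ) / ((n + 1 : ℕ) : ℝ))) ≤ ((n + 1) / (n + 1 + 1)) ^ g := by
      have := exp_neg_inv_le (n := (n:ℝ) + 1) (by positivity)
      calc Real.exp (-((g:ℝ) / ((n + 1 : ℕ) : ℝ))) = (Real.exp (-(1 / ((n:ℝ) + 1)))) ^ g := by
            rw [← Real.exp_nat_mul]; congr 1; push_cast; ring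
        _ ≤ _ := pow_le_pow_left₀ (Real.exp_pos _).le this g
    refine (mul_le_mul ih h3 (Real.exp_pos _).le (by positivity)).trans (le_of_eq ?_)
    rw [← mul_pow]
    congr 1
    push_cast
    field_simp

theorem inv_ostep (P : ℕ → KP) {l : ℕ} (F : Submodule ℝ (V d)) (w : Wd d) (hl : l < d)
    (h : finrank ℝ F = l) : finrank ℝ (ostep P l F w) = l + 1 := by
  have h1 := finrank_orth F
  unfold ostep
  rw [finrank_sup_span (ker_mem _ _ _) (norm_ker _ _ _ (by omega)), h]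

theorem claim1 (P : ℕ → KP) (x : V d) (L g : ℕ) (hL : L ≤ d) (hg : 5376 * g ≤ d - L) :
    avg (fun ξ : Fin d → Wd d => pi2 (FF P ξ L) x ^ (8 * g))
      ≤ ((((d - L : ℕ) : ℝ) + 1) / (d + 1)) ^ g * (‖x‖ ^ 2) ^ (8 * g) := by
  have h := avg_run_le (n := d) (ostep P) (⊥ : Submodule ℝ (V d))
    (fun l F => finrank ℝ F = l) L hL (finrank_bot _ _)
    (fun l F w hl hF => inv_ostep P F w (by omega) hF)
    (fun _ F => pi2 F x ^ (8 * g)) (fun l => Real.exp (-((g:ℝ) / ((d - l : ℕ) : ℝ))))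
    (fun l => (Real.exp_pos _).le) ?_ L (le_refl _)
  · refine h.trans ?_
    rw [pi2_bot]
    exact mul_le_mul_of_nonneg_right (prod1_le d g L hL) (by positivity)
  · intro l F hl hF
    have h1 := finrank_orth F
    have h2 : finrank ℝ Fᗮ = d - l := by omega
    have h3 := claim1_step P l F (by omega) (8 * g) (by omega) x
    refine h3.trans (le_of_eq ?_)
    rw [h2]
    congr 2
    push_cast
    ring

theorem claim1_prob (P : ℕ → KP) (x : V d) (hx : ‖x‖ ≤ 1) (L g : ℕ) (hL : L ≤ d)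
    (hg : 5376 * g ≤ d - L) :
    avg (fun ξ : Fin d → Wd d => ind (4 * (((d - L : ℕ) : ℝ) + 1) / (d + 1) < pi2 (FF P ξ L) x ^ 8))
      ≤ (1 / 4) ^ g := by
  set ρ : ℝ := (((d - L : ℕ) : ℝ) + 1) / (d + 1) with hρ
  have hρ0 : 0 < ρ := by positivity
  have h1 : ∀ ξ : Fin d → Wd d, ind (4 * (((d - L : ℕ) : ℝ) + 1) / (d + 1) < pi2 (FF P ξ L) x ^ 8)
      ≤ pi2 (FF P ξ L) x ^ (8 * g) * (1 / (4 * ρ)) ^ g := by
    intro ξ
    apply ind_le
    · have := pi2_nonneg (FF P ξ L) x; positivity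
    · intro hω
      rw [mul_div_assoc, ← hρ] at hω
      rw [pow_mul, ← mul_pow]
      apply one_le_pow₀
      rw [mul_one_div, le_div_iff₀ (by positivity), one_mul]
      exact hω.le
  refine (avg_mono h1).trans ?_
  rw [avg_mul_const]
  have h2 := claim1 P x L g hL hg
  have h3 : (‖x‖ ^ 2) ^ (8 * g) ≤ 1 := by
    apply pow_le_one₀ (by positivity)
    exact pow_le_one₀ (norm_nonneg _) hx
  have h4 : avg (fun ξ : Fin d → Wd d => pi2 (FF P ξ L) x ^ (8 * g)) ≤ ρ ^ g := by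
    refine h2.trans ?_
    have : 0 ≤ ρ ^ g := by positivity
    nlinarith
  refine (mul_le_mul_of_nonneg_right h4 (by positivity)).trans (le_of_eq ?_)
  rw [← mul_pow]
  congr 1
  field_simp

end Pool.Agent.Helper50_RIP
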