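import Mathlib
import Pool.Agent.Helper50_RIP.Outer

set_option autoImplicit false
set_option linter.unusedSectionVars false
set_option linter.unusedVariables false

/-!
# Lower bounds for the residual projections
-/

namespace Pool.Agent.Helper50_RIP

open Pool.Agent.Helper50_Stretch Module
open scoped InnerProductSpace

variable {d : ℕ}

theorem inv_one_sub_le {u : ℝ} (hu0 : 0 ≤ u) (hu : u ≤ 1/2) : (1 - u)⁻¹ ≤ Real.exp (2 * u) := by
  have h1 : 1 + 2 * u ≤ Real.exp (2 * u) := by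
    have := Real.add_one_le_exp (2 * u); linarith
  rw [inv_le_iff_one_le_mul₀ (by linarith)]
  have h2 : 1 ≤ (1 + 2 * u) * (1 - u) := by nlinarith
  nlinarith

theorem exp_add_le {a b : ℝ} (ha : 0 ≤ a) (hb : 0 ≤ b) : Real.exp a + b ≤ Real.exp (a + b) := by
  rw [Real.exp_add]
  have h1 := Real.one_le_exp ha
  have h2 := Real.add_one_le_exp b
  nlinarith [Real.exp_pos a]

/-- the potential of Claim 2 -/
noncomputable def Phi2 (lam0 : ℝ) (β : ℕ) (z : V d) (F : Submodule ℝ (V d)) : ℝ :=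
  (max (pi2 F z) lam0)⁻¹ ^ β

theorem claim2_step (P : ℕ → KP) (l : ℕ) (F : Submodule ℝ (V d)) (hF : 0 < finrank ℝ Fᗮ)
    (β : ℕ) (hβ : 16 * β ≤ finrank ℝ Fᗮ) (z : V d) (hz : ‖z‖ ≤ 1) {lam0 : ℝ} (hl0 : 0 < lam0)
    (hl1 : lam0 ≤ 1) (hlβ : lam0⁻¹ ^ β ≤ Real.exp (finrank ℝ Fᗮ / 16)) :
    avg (fun w : Wd d => Phi2 lam0 β z (ostep P l F w))
      ≤ Real.exp (8 * β / finrank ℝ Fᗮ + 2 * Real.exp (-(finrank ℝ Fᗮ / 16)))
        * Phi2 lam0 β z F := by
  have hD : (0:ℝ) < finrank ℝ Fᗮ := by exact_mod_cast hF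
  have hβ' : 16 * (β:ℝ) ≤ finrank ℝ Fᗮ := by exact_mod_cast hβ
  set D : ℝ := (finrank ℝ Fᗮ : ℝ) with hDdef
  have hπ1 : pi2 F z ≤ 1 := (pi2_le_norm_sq F z).trans (pow_le_one₀ (norm_nonneg _) hz)
  have hπ0 := pi2_nonneg F z
  have hfac : 1 ≤ Real.exp (8 * β / D + 2 * Real.exp (-(D / 16))) := by
    apply Real.one_le_exp; positivity
  rcases le_or_gt (pi2 F z) lam0 with hc | hc
  · have h1 : ∀ w : Wd d, Phi2 lam0 β z (ostep P l F w) ≤ Phi2 lam0 β z F := by
      intro w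
      have : pi2 (ostep P l F w) z ≤ pi2 F z := pi2_anti le_sup_left z
      unfold Phi2
      rw [max_eq_right hc, max_eq_right (this.trans hc)]
    refine (avg_mono h1).trans ?_
    rw [avg_const]
    have : 0 ≤ Phi2 lam0 β z F := by unfold Phi2; positivity
    nlinarith
  · set π := pi2 F z with hπdef
    have hπ : 0 < π := hl0.trans hc
    have hΦ : Phi2 lam0 β z F = π⁻¹ ^ β := by
      unfold Phi2; rw [← hπdef, max_eq_left hc.le]
    have hΦ1 : 1 ≤ π⁻¹ ^ β := one_le_pow₀ ((one_le_inv₀ hπ).mpr hπ1)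
    have h1 : ∀ w : Wd d, Phi2 lam0 β z (ostep P l F w)
        ≤ π⁻¹ ^ β * Real.exp ((2 * β / π) * ⟪z, ker (P l) F w⟫_ℝ ^ 2)
          + lam0⁻¹ ^ β * ind (Real.sqrt (π / 2) ≤ |⟪z, ker (P l) F w⟫_ℝ|) := by
      intro w
      unfold Phi2
      rw [pi2_ostep P l F hF z w, ← hπdef]
      have hy : ⟪z, ker (P l) F w⟫_ℝ ^ 2 ≤ π :=
        inner_sq_le_pi2 F z (ker_mem _ _ _) (norm_ker _ _ _ hF)
      set y := ⟪z, ker (P l) F w⟫_ℝ with hydef
      have hm : 0 < max (π - y ^ 2) lam0 := lt_max_of_lt_right hl0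
      rcases le_or_gt (Real.sqrt (π / 2)) |y| with hcase | hcase
      · rw [ind_true hcase, mul_one]
        have e1 : (max (π - y ^ 2) lam0)⁻¹ ^ β ≤ lam0⁻¹ ^ β := by
          apply pow_le_pow_left₀ (by positivity)
          exact inv_anti₀ hl0 (le_max_right _ _)
        have e2 : 0 ≤ π⁻¹ ^ β * Real.exp ((2 * β / π) * y ^ 2) := by positivity
        linarith
      · rw [ind_false (not_le.mpr hcase), mul_zero, add_zero]
        have e0 : y ^ 2 < π / 2 := by
          have := Real.lt_sqrt (abs_nonneg y) |>.mp hcase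
          rwa [sq_abs] at this
        have e1 : 0 < π - y ^ 2 := by linarith
        have e2 : (max (π - y ^ 2) lam0)⁻¹ ≤ π⁻¹ * Real.exp (2 * (y ^ 2 / π)) := by
          calc (max (π - y ^ 2) lam0)⁻¹ ≤ (π - y ^ 2)⁻¹ := inv_anti₀ e1 (le_max_left _ _)
            _ = π⁻¹ * (1 - y ^ 2 / π)⁻¹ := by
              rw [← mul_inv]; congr 1; field_simp
            _ ≤ _ := by
              apply mul_le_mul_of_nonneg_left _ (by positivity)
              apply inv_one_sub_le (by positivity)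
              rw [div_le_div_iff₀ hπ (by norm_num)]
              linarith
        calc (max (π - y ^ 2) lam0)⁻¹ ^ β ≤ (π⁻¹ * Real.exp (2 * (y ^ 2 / π))) ^ β :=
              pow_le_pow_left₀ (by positivity) e2 β
          _ = _ := by
              rw [mul_pow, ← Real.exp_nat_mul]
              congr 2
              ring
    refine (avg_mono h1).trans ?_
    rw [avg_add, avg_const_mul, avg_const_mul, hΦ]
    have h2 : avg (fun w : Wd d => Real.exp ((2 * β / π) * ⟪z, ker (P l) F w⟫_ℝ ^ 2))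
        ≤ Real.exp (8 * β / D) := by
      have := avg_exp_sq_le (fun w : Wd d => ⟪z, ker (P l) F w⟫_ℝ) (π / D) (by positivity) ?_
        (2 * β / π) (by positivity) ?_
      · refine this.trans (le_of_eq ?_)
        congr 1
        field_simp
        ring
      · intro s
        refine (avg_exp_ker (P l) F hF z s).trans (le_of_eq ?_)
        rw [mul_comm]
      · have : 4 * (2 * (β:ℝ) / π) * (π / D) = 8 * β / D := by field_simp; ring
        rw [this, div_le_div_iff₀ hD (by norm_num)]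
        linarith
    have h3 : avg (fun w : Wd d => ind (Real.sqrt (π / 2) ≤ |⟪z, ker (P l) F w⟫_ℝ|))
        ≤ 2 * Real.exp (-(D / 8)) := by
      have := ker_tail (P l) F hF z hπ (le_refl _) (Real.sqrt_nonneg (π / 2))
      refine this.trans (le_of_eq ?_)
      rw [Real.sq_sqrt (by positivity), ← hDdef]
      congr 3
      field_simp
      ring
    have h4 : lam0⁻¹ ^ β * avg (fun w : Wd d => ind (Real.sqrt (π / 2) ≤
        |⟪z, ker (P l) F w⟫_ℝ|)) ≤ 2 * Real.exp (-(D / 16)) := by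
      calc _ ≤ Real.exp (D / 16) * (2 * Real.exp (-(D / 8))) := by
            apply mul_le_mul hlβ h3 (avg_nonneg (fun _ => ind_nonneg _)) (Real.exp_pos _).le
        _ = 2 * (Real.exp (D / 16) * Real.exp (-(D / 8))) := by ring
        _ = _ := by rw [← Real.exp_add]; congr 2; ring
    have h5 := exp_add_le (a := 8 * β / D) (b := 2 * Real.exp (-(D / 16))) (by positivity)
      (by positivity)
    have h6 : 2 * Real.exp (-(D / 16)) ≤ π⁻¹ ^ β * (2 * Real.exp (-(D / 16))) := by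
      have : 0 ≤ 2 * Real.exp (-(D / 16)) := by positivity
      nlinarith
    calc _ ≤ π⁻¹ ^ β * Real.exp (8 * β / D) + π⁻¹ ^ β * (2 * Real.exp (-(D / 16))) := by
          have := mul_le_mul_of_nonneg_left h2 (by positivity : 0 ≤ π⁻¹ ^ β)
          linarith
      _ = π⁻¹ ^ β * (Real.exp (8 * β / D) + 2 * Real.exp (-(D / 16))) := by ring
      _ ≤ π⁻¹ ^ β * Real.exp (8 * β / D + 2 * Real.exp (-(D / 16))) :=
          mul_le_mul_of_nonneg_left h5 (by positivity)
      _ = _ := by ring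

theorem exp_inv_le {n : ℝ} (hn : 0 < n) : Real.exp (1 / (n + 1)) ≤ (n + 1) / n := by
  have h1 : n / (n + 1) ≤ Real.exp (-(1 / (n + 1))) := by
    have := Real.add_one_le_exp (-(1 / (n + 1)))
    refine le_trans (le_of_eq ?_) this
    field_simp
    ring
  have h2 : Real.exp (1 / (n + 1)) = (Real.exp (-(1 / (n + 1))))⁻¹ := by
    rw [Real.exp_neg, inv_inv]
  have h3 : (n + 1) / n = (n / (n + 1))⁻¹ := by rw [inv_div]
  rw [h2, h3]
  exact inv_anti₀ (by positivity) h1

theorem prod2_le (d β : ℕ) : ∀ L : ℕ, L < d →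
    ∏ i ∈ Finset.range L, Real.exp (8 * (β:ℝ) / ((d - i : ℕ) : ℝ)
        + 2 * Real.exp (-(((d - i : ℕ) : ℝ) / 16)))
      ≤ ((d:ℝ) / ((d - L : ℕ) : ℝ)) ^ (8 * β) * Real.exp (34 * Real.exp (-(((d - L : ℕ) : ℝ) / 16)))
  | 0, hd => by
    simp only [Finset.range_zero, Finset.prod_empty, Nat.sub_zero]
    have : (0:ℝ) < d := by exact_mod_cast hd
    rw [div_self this.ne', one_pow, one_mul]
    apply Real.one_le_exp; positivity
  | L + 1, hL => by
    have ih := prod2_le d β L (by omega)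
    rw [Finset.prod_range_succ]
    obtain ⟨n, hn⟩ : ∃ n, d - L = n + 2 := ⟨d - L - 2, by omega⟩
    have h2 : d - (L + 1) = n + 1 := by omega
    rw [h2]
    rw [hn] at ih ⊢
    have hd : (0:ℝ) < d := by exact_mod_cast (by omega : 0 < d)
    have h3 : Real.exp (8 * (β:ℝ) / ((n + 2 : ℕ) : ℝ)) ≤ ((n + 2) / (n + 1)) ^ (8 * β) := by
      have := exp_inv_le (n := (n:ℝ) + 1) (by positivity)
      calc Real.exp (8 * (β:ℝ) / ((n + 2 : ℕ) : ℝ))
          = (Real.exp (1 / ((n:ℝ) + 1 + 1))) ^ (8 * β) := by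
            rw [← Real.exp_nat_mul]; congr 1; push_cast; ring
        _ ≤ _ := by
            apply pow_le_pow_left₀ (Real.exp_pos _).le
            refine this.trans (le_of_eq ?_)
            ring
    have h4 : Real.exp (34 * Real.exp (-(((n + 2 : ℕ) : ℝ) / 16)))
        * Real.exp (2 * Real.exp (-(((n + 2 : ℕ) : ℝ) / 16)))
        ≤ Real.exp (34 * Real.exp (-(((n + 1 : ℕ) : ℝ) / 16))) := by
      rw [← Real.exp_add]
      apply Real.exp_le_exp.mpr
      have e1 : Real.exp (-(((n + 1 : ℕ) : ℝ) / 16))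
          = Real.exp (-(((n + 2 : ℕ) : ℝ) / 16)) * Real.exp (1 / 16) := by
        rw [← Real.exp_add]; congr 1; push_cast; ring
      rw [e1]
      have e2 := Real.add_one_le_exp (1 / 16)
      have e3 := Real.exp_pos (-(((n + 2 : ℕ) : ℝ) / 16))
      nlinarith
    rw [Real.exp_add]
    calc _ ≤ (((d:ℝ) / ((n + 2 : ℕ) : ℝ)) ^ (8 * β)
            * Real.exp (34 * Real.exp (-(((n + 2 : ℕ) : ℝ) / 16))))
          * (((n + 2) / (n + 1)) ^ (8 * β) * Real.exp (2 * Real.exp (-(((n + 2 : ℕ) : ℝ) / 16)))) := by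
          apply mul_le_mul ih _ (by positivity) (by positivity)
          exact mul_le_mul_of_nonneg_right h3 (Real.exp_pos _).le
      _ = (((d:ℝ) / ((n + 2 : ℕ) : ℝ)) * ((n + 2) / (n + 1))) ^ (8 * β)
          * (Real.exp (34 * Real.exp (-(((n + 2 : ℕ) : ℝ) / 16)))
            * Real.exp (2 * Real.exp (-(((n + 2 : ℕ) : ℝ) / 16)))) := by
          rw [mul_pow]; ring
      _ ≤ (((d:ℝ) / ((n + 2 : ℕ) : ℝ)) * ((n + 2) / (n + 1))) ^ (8 * β)
          * Real.exp (34 * Real.exp (-(((n + 1 : ℕ) : ℝ) / 16))) :=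
          mul_le_mul_of_nonneg_left h4 (by positivity)
      _ = _ := by
          congr 2
          push_cast
          field_simp

theorem claim2 (P : ℕ → KP) (z : V d) (hz : ‖z‖ = 1) (L β : ℕ) (hL : L < d)
    (hD : 64 ≤ d - L) (hβ : 16 * β ≤ d - L) {lam0 : ℝ} (hl0 : 0 < lam0) (hl1 : lam0 ≤ 1)
    (hlβ : lam0⁻¹ ^ β ≤ Real.exp (((d - L : ℕ) : ℝ) / 16)) :
    avg (fun ξ : Fin d → Wd d => Phi2 lam0 β z (FF P ξ L))
      ≤ ((d:ℝ) / ((d - L : ℕ) : ℝ)) ^ (8 * β) * Real.exp 1 := by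
  have h := avg_run_le (n := d) (ostep P) (⊥ : Submodule ℝ (V d))
    (fun l F => finrank ℝ F = l) L hL.le (finrank_bot _ _)
    (fun l F w hl hF => inv_ostep P F w (by omega) hF)
    (fun _ F => Phi2 lam0 β z F)
    (fun l => Real.exp (8 * (β:ℝ) / ((d - l : ℕ) : ℝ) + 2 * Real.exp (-(((d - l : ℕ) : ℝ) / 16))))
    (fun l => (Real.exp_pos _).le) ?_ L (le_refl _)
  · refine h.trans ?_
    have h1 : Phi2 lam0 β z (⊥ : Submodule ℝ (V d)) = 1 := by
      unfold Phi2
      rw [pi2_bot, hz, one_pow, max_eq_left hl1, inv_one, one_pow]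
    rw [h1, mul_one]
    refine (prod2_le d β L hL).trans ?_
    apply mul_le_mul_of_nonneg_left _ (by positivity)
    apply Real.exp_le_exp.mpr
    have h2 : Real.exp (-(((d - L : ℕ) : ℝ) / 16)) ≤ Real.exp (-4) := by
      apply Real.exp_le_exp.mpr
      have : (64:ℝ) ≤ ((d - L : ℕ) : ℝ) := by exact_mod_cast hD
      linarith
    have h3 : Real.exp (-4) ≤ 1 / 34 := by
      rw [Real.exp_neg, ← one_div]
      apply one_div_le_one_div_of_le (by norm_num)
      have e1 : Real.exp 4 = Real.exp 1 ^ 4 := by rw [← Real.exp_nat_mul]; norm_num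
      rw [e1]
      have e2 := Real.exp_one_gt_d9
      calc (34:ℝ) ≤ 2.7 ^ 4 := by norm_num
        _ ≤ _ := pow_le_pow_left₀ (by norm_num) (by linarith) 4
    linarith
  · intro l F hl hF
    have h1 := finrank_orth F
    have h2 : finrank ℝ Fᗮ = d - l := by omega
    have h3 := claim2_step P l F (by omega) β (by omega) z hz.le hl0 hl1 ?_
    · rw [h2] at h3; exact h3
    · rw [h2]
      refine hlβ.trans ?_
      apply Real.exp_le_exp.mpr
      have : ((d - L : ℕ) : ℝ) ≤ ((d - l : ℕ) : ℝ) := by exact_mod_cast (by omega : d - L ≤ d - l)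
      linarith

theorem claim2_prob (P : ℕ → KP) (z : V d) (hz : ‖z‖ = 1) (L β : ℕ) (hL : L < d)
    (hD : 64 ≤ d - L) (hβ : 16 * β ≤ d - L) {lam0 : ℝ} (hl0 : 0 < lam0) (hl1 : lam0 ≤ 1)
    (hlβ : lam0⁻¹ ^ β ≤ Real.exp (((d - L : ℕ) : ℝ) / 16)) :
    avg (fun ξ : Fin d → Wd d => ind (pi2 (FF P ξ L) z ≤ lam0))
      ≤ (lam0 * ((d:ℝ) / ((d - L : ℕ) : ℝ)) ^ 8) ^ β * Real.exp 1 := by
  have h1 : ∀ ξ : Fin d → Wd d, ind (pi2 (FF P ξ L) z ≤ lam0)
      ≤ lam0 ^ β * Phi2 lam0 β z (FF P ξ L) := by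
    intro ξ
    apply ind_le
    · unfold Phi2
      have : 0 < max (pi2 (FF P ξ L) z) lam0 := lt_max_of_lt_right hl0
      positivity
    · intro hω
      unfold Phi2
      rw [max_eq_right hω, ← mul_pow, mul_inv_cancel₀ hl0.ne', one_pow]
  refine (avg_mono h1).trans ?_
  rw [avg_const_mul]
  have h2 := claim2 P z hz L β hL hD hβ hl0 hl1 hlβ
  refine (mul_le_mul_of_nonneg_left h2 (by positivity)).trans (le_of_eq ?_)
  rw [mul_pow, ← pow_mul]
  ring

end Pool.Agent.Helper50_RIP
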