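import Mathlib
import Pool.Agent.Helper50_RIP.Outer2
import Pool.Agent.Helper50_RIP.Net

set_option autoImplicit false
set_option linter.unusedSectionVars false
set_option linter.unusedVariables false

/-!
# Probability of the good event
-/

namespace Pool.Agent.Helper50_RIP

open Pool.Agent.Helper50_Stretch Module
open scoped InnerProductSpace

variable {d : ℕ}

theorem flat_apply (A B : Finset (Fin d)) (i : Fin d) :
    flat A B i = if i ∈ A then (if i ∈ B then (1:ℝ) else -1) else 0 := by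
  rw [← inner_ee (flat A B) i, inner_flat]
  have h1 : ∀ j ∈ A, (if j ∈ B then (1:ℝ) else -1) * (ee i : V d) j
      = if i = j then (if j ∈ B then (1:ℝ) else -1) else 0 := by
    intro j _
    unfold ee
    rw [PiLp.single_apply]
    by_cases h : i = j
    · rw [if_pos h, if_pos h.symm, mul_one]
    · rw [if_neg h, if_neg (Ne.symm h), mul_zero]
  rw [Finset.sum_congr rfl h1, Finset.sum_ite_eq]

theorem norm_flat (A B : Finset (Fin d)) : ‖flat A B‖ ^ 2 = A.card := by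
  rw [EuclideanSpace.real_norm_sq_eq]
  have h1 : ∀ i : Fin d, flat A B i ^ 2 = if i ∈ A then 1 else 0 := by
    intro i
    rw [flat_apply]
    split_ifs <;> norm_num
  rw [Finset.sum_congr rfl (fun i _ => h1 i), Finset.sum_ite_mem, Finset.univ_inter]
  simp

theorem avg_ind_or_le {Ω : Type*} [Fintype Ω] {p q r : Ω → Prop} {b c : ℝ}
    (h : ∀ ω, r ω → p ω ∨ q ω) (hp : avg (fun ω => ind (p ω)) ≤ b)
    (hq : avg (fun ω => ind (q ω)) ≤ c) : avg (fun ω => ind (r ω)) ≤ b + c := by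
  have h1 : ∀ ω, ind (r ω) ≤ ind (p ω) + ind (q ω) := by
    intro ω
    apply ind_le (add_nonneg (ind_nonneg _) (ind_nonneg _))
    intro hr
    rcases h ω hr with h2 | h2
    · rw [ind_true h2]; linarith [ind_nonneg (q ω)]
    · rw [ind_true h2]; linarith [ind_nonneg (p ω)]
  refine (avg_mono h1).trans ?_
  rw [avg_add]
  linarith

theorem avg_ind_mono {Ω : Type*} [Fintype Ω] {p q : Ω → Prop} (h : ∀ ω, p ω → q ω) :
    avg (fun ω => ind (p ω)) ≤ avg (fun ω => ind (q ω)) := avg_mono (fun ω => ind_mono (h ω))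

/-- upper bound event for one vector -/
theorem up_prob (P : ℕ → KP) (x : V d) (hx : ‖x‖ ≤ 1) (L g : ℕ) (hL : L ≤ d)
    (hg : 5376 * g ≤ d - L) {Lam : ℝ} (hLam0 : 0 ≤ Lam)
    (hLam : 4 * (((d - L : ℕ) : ℝ) + 1) / (d + 1) ≤ Lam ^ 8) :
    avg (fun ξ : Fin d → Wd d => ind (¬ pi2 (FF P ξ L) x ≤ Lam)) ≤ (1 / 4) ^ g := by
  refine le_trans ?_ (claim1_prob P x hx L g hL hg)
  apply avg_ind_mono
  intro ξ h
  rw [not_le] at h
  refine lt_of_le_of_lt hLam ?_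
  exact pow_lt_pow_left₀ h hLam0 (by norm_num)

theorem up_prob_sq (P : ℕ → KP) (x : V d) (L g : ℕ) (hL : L ≤ d)
    (hg : 5376 * g ≤ d - L) {Lam : ℝ} (hLam0 : 0 ≤ Lam)
    (hLam : 4 * (((d - L : ℕ) : ℝ) + 1) / (d + 1) ≤ Lam ^ 8) :
    avg (fun ξ : Fin d → Wd d => ind (¬ pi2 (FF P ξ L) x ≤ Lam * ‖x‖ ^ 2)) ≤ (1 / 4) ^ g := by
  rcases eq_or_ne x 0 with h0 | h0
  · have h1 : ∀ ξ : Fin d → Wd d, ind (¬ pi2 (FF P ξ L) x ≤ Lam * ‖x‖ ^ 2) = 0 := by
      intro ξ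
      apply ind_false
      rw [not_not, h0]
      have := pi2_le_norm_sq (FF P ξ L) (0 : V d)
      rw [norm_zero] at this ⊢
      simpa using this
    rw [avg_congr h1, avg_zero]
    positivity
  · have hx0 : 0 < ‖x‖ := norm_pos_iff.mpr h0
    refine le_trans ?_ (up_prob P (‖x‖⁻¹ • x) (by
      rw [norm_smul, norm_inv, norm_norm, inv_mul_cancel₀ hx0.ne']) L g hL hg hLam0 hLam)
    apply avg_ind_mono
    intro ξ h h2
    apply h
    rw [pi2_smul, inv_pow, inv_mul_eq_div, div_le_iff₀ (by positivity)] at h2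
    exact h2

theorem low_prob (P : ℕ → KP) (z : V d) (L β : ℕ) (hL : L < d)
    (hD : 64 ≤ d - L) (hβ : 16 * β ≤ d - L) {lam0 : ℝ} (hl0 : 0 < lam0) (hl1 : lam0 ≤ 1)
    (hlβ : lam0⁻¹ ^ β ≤ Real.exp (((d - L : ℕ) : ℝ) / 16)) :
    avg (fun ξ : Fin d → Wd d => ind (¬ lam0 * ‖z‖ ^ 2 ≤ pi2 (FF P ξ L) z))
      ≤ (lam0 * ((d:ℝ) / ((d - L : ℕ) : ℝ)) ^ 8) ^ β * Real.exp 1 := by
  rcases eq_or_ne z 0 with h0 | h0
  · have h1 : ∀ ξ : Fin d → Wd d, ind (¬ lam0 * ‖z‖ ^ 2 ≤ pi2 (FF P ξ L) z) = 0 := by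
      intro ξ
      apply ind_false
      rw [not_not, h0, norm_zero]
      simpa using pi2_nonneg (FF P ξ L) (0 : V d)
    rw [avg_congr h1, avg_zero]
    positivity
  · have hx0 : 0 < ‖z‖ := norm_pos_iff.mpr h0
    refine le_trans ?_ (claim2_prob P (‖z‖⁻¹ • z) (by
      rw [norm_smul, norm_inv, norm_norm, inv_mul_cancel₀ hx0.ne']) L β hL hD hβ hl0 hl1 hlβ)
    apply avg_ind_mono
    intro ξ h
    rw [pi2_smul, inv_pow, inv_mul_eq_div, div_le_iff₀ (by positivity)]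
    exact (not_le.mp h).le

/-- probability that the good event fails -/
theorem good_prob (P : ℕ → KP) (Q : KP) (L g β : ℕ) (hL : L < d)
    (hg : 5376 * g ≤ d - L) (hLam0 : 0 ≤ Q.Lam)
    (hLam : 4 * (((d - L : ℕ) : ℝ) + 1) / (d + 1) ≤ Q.Lam ^ 8)
    (hD : 64 ≤ d - L) (hβ : 16 * β ≤ d - L) {lam0 : ℝ} (hl0 : 0 < lam0) (hl1 : lam0 ≤ 1)
    (hlβ : lam0⁻¹ ^ β ≤ Real.exp (((d - L : ℕ) : ℝ) / 16)) (hQl : Q.lam = lam0 / 4)
    (ha1 : 1 ≤ Q.a) (had : Q.a ≤ d) :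
    avg (fun ξ : Fin d → Wd d => ind (¬ GoodF Q (FF P ξ L)))
      ≤ d.choose Q.a * (176 / lam0) ^ Q.a *
          ((lam0 * ((d:ℝ) / ((d - L : ℕ) : ℝ)) ^ 8) ^ β * Real.exp 1)
        + (d * (1 / 4) ^ g + d.choose Q.a * 2 ^ Q.a * (1 / 4) ^ g) := by
  set δ := Real.sqrt (lam0 / 16) with hδ
  have hδ0 : 0 < δ := Real.sqrt_pos.mpr (by positivity)
  have hδ2 : δ ^ 2 = lam0 / 16 := Real.sq_sqrt (by positivity)
  have hδ1 : δ ≤ 1 := by
    rw [hδ]; apply Real.sqrt_le_one.mpr; linarith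
  obtain ⟨N, hN1, hN2⟩ := exists_net d Q.a ha1 hδ0 hδ1
  have hcard : (N.card : ℝ) ≤ d.choose Q.a * (176 / lam0) ^ Q.a := by
    refine hN1.trans (le_of_eq ?_)
    rw [hδ2]
    congr 2
    field_simp
    norm_num
  have hpow0 : 0 ≤ (lam0 * ((d:ℝ) / ((d - L : ℕ) : ℝ)) ^ 8) ^ β * Real.exp 1 := by positivity
  refine avg_ind_or_le (p := fun ξ => ∃ z ∈ N, ¬ lam0 * ‖z‖ ^ 2 ≤ pi2 (FF P ξ L) z)
    (q := fun ξ => (∃ j ∈ (Finset.univ : Finset (Fin d)), ¬ pi2 (FF P ξ L) (ee j) ≤ Q.Lam) ∨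
      (∃ p ∈ flatIdx d Q.a, ¬ pi2 (FF P ξ L) (flat p.1 p.2) ≤ Q.a * Q.Lam)) ?_ ?_ ?_
  · intro ξ h
    by_contra hcon
    push Not at hcon
    obtain ⟨h1, h2, h3⟩ := hcon
    apply h
    refine ⟨?_, fun j => h2 j (Finset.mem_univ j), h3⟩
    rw [hQl]
    exact sp_of_net had _ hl0 hl1 hδ0 (by rw [hδ2]; linarith) N hN2 h1
  · refine (avg_ind_exists_le N _ (fun z _ => low_prob P z L β hL hD hβ hl0 hl1 hlβ)).trans ?_
    exact mul_le_mul_of_nonneg_right hcard hpow0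
  · refine avg_ind_or_le (fun ξ h => h) ?_ ?_
    · refine (avg_ind_exists_le (Finset.univ : Finset (Fin d)) _ (fun j _ => up_prob P (ee j)
        (norm_ee j).le L g hL.le hg hLam0 hLam)).trans (le_of_eq ?_)
      rw [Finset.card_univ, Fintype.card_fin]
    · refine (avg_ind_exists_le (flatIdx d Q.a) _ (c := (1/4) ^ g) ?_).trans (le_of_eq ?_)
      · intro p hp
        have h1 := up_prob_sq P (flat p.1 p.2) L g hL.le hg hLam0 hLam
        rw [norm_flat, (mem_flatIdx.mp hp).1, mul_comm Q.Lam] at h1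
        exact h1
      · rw [card_flatIdx]; push_cast; ring

end Pool.Agent.Helper50_RIP
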