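import Mathlib
import Pool.Agent.Helper50_RIP.Good

set_option autoImplicit false
set_option linter.unusedSectionVars false
set_option linter.unusedVariables false

/-!
# Real estimates for the first phase
-/

namespace Pool.Agent.Helper50_RIP

open Pool.Agent.Helper50_Stretch Module
open scoped InnerProductSpace

theorem inv_le_exp_inv {t : ℝ} (ht : 0 < t) : t⁻¹ ≤ Real.exp t⁻¹ := by
  have := Real.add_one_le_exp t⁻¹; linarith

theorem inv_pow_le_exp {t : ℝ} (ht : 0 < t) (n : ℕ) : t⁻¹ ^ n ≤ Real.exp (n * t⁻¹) := by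
  calc t⁻¹ ^ n ≤ (Real.exp t⁻¹) ^ n := pow_le_pow_left₀ (by positivity) (inv_le_exp_inv ht) n
    _ = _ := by rw [← Real.exp_nat_mul]

theorem exp_one_nat_ge (n : ℕ) : (2.7:ℝ) ^ n ≤ Real.exp n := by
  have h1 : Real.exp (n:ℝ) = Real.exp 1 ^ n := by rw [← Real.exp_nat_mul, mul_one]
  rw [h1]
  apply pow_le_pow_left₀ (by norm_num)
  have := Real.exp_one_gt_d9; linarith

theorem choose_le_pow (d a : ℕ) (ha : 1 ≤ a) : (d.choose a : ℝ) ≤ (Real.exp 1 * (d / a)) ^ a := by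
  have h1 : (d.choose a : ℝ) ≤ (d:ℝ) ^ a / (a.factorial : ℝ) := Nat.choose_le_pow_div a d
  have h2 : (a:ℝ) ^ a / (a.factorial : ℝ) ≤ Real.exp a :=
    Real.pow_div_factorial_le_exp (a:ℝ) (by positivity) a
  have ha0 : (0:ℝ) < a := by exact_mod_cast ha
  have hf : (0:ℝ) < a.factorial := by exact_mod_cast Nat.factorial_pos a
  refine h1.trans ?_
  have h3 : (d:ℝ) ^ a / (a.factorial : ℝ) = (d / a) ^ a * ((a:ℝ) ^ a / (a.factorial : ℝ)) := by
    rw [div_pow]; field_simp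
  rw [h3, mul_pow, mul_comm (Real.exp 1 ^ a)]
  apply mul_le_mul_of_nonneg_left _ (by positivity)
  rwa [← Real.exp_nat_mul, mul_one]

/-- hypotheses of the first phase -/
structure Ph1 (d D a : ℕ) (t ℓ : ℝ) : Prop where
  t0 : 0 < t
  t1 : t ≤ 1
  d0 : (0:ℝ) < d
  tD : t ^ 16 * d = D
  ℓ1 : 0 ≤ ℓ
  big : 2 ^ 40 * (ℓ + 1) ≤ t ^ 144 * d
  dℓ : (d:ℝ) = Real.exp ℓ
  a_def : a = ⌊t ^ 144 * d / 2 ^ 22⌋₊

namespace Ph1
variable {d D a : ℕ} {t ℓ : ℝ}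

theorem tn (h : Ph1 d D a t ℓ) (n : ℕ) (hn : n ≤ 144) : 2 ^ 40 * (ℓ + 1) ≤ t ^ n * d := by
  refine h.big.trans ?_
  apply mul_le_mul_of_nonneg_right _ h.d0.le
  exact pow_le_pow_of_le_one h.t0.le h.t1 hn

theorem a_le (h : Ph1 d D a t ℓ) : (a:ℝ) ≤ t ^ 144 * d / 2 ^ 22 := by
  rw [h.a_def]
  apply Nat.floor_le
  have := h.t0; have := h.d0; positivity

theorem a_ge (h : Ph1 d D a t ℓ) : t ^ 144 * d / 2 ^ 23 ≤ a := by
  have h1 := Nat.lt_floor_add_one (t ^ 144 * d / 2 ^ 22)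
  rw [← h.a_def] at h1
  have h2 := h.big
  have h3 := h.ℓ1
  have h4 : (2:ℝ) ^ 40 ≤ t ^ 144 * d := by nlinarith
  have h5 : t ^ 144 * d / 2 ^ 22 = t ^ 144 * d / 2 ^ 23 + t ^ 144 * d / 2 ^ 23 := by ring
  have h6 : (1:ℝ) ≤ t ^ 144 * d / 2 ^ 23 := by
    rw [le_div_iff₀ (by positivity)]; linarith
  linarith

theorem a_big (h : Ph1 d D a t ℓ) : 2 ^ 17 * (ℓ + 1) ≤ a := by
  refine le_trans ?_ h.a_ge
  rw [le_div_iff₀ (by positivity)]
  have := h.big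
  linarith

theorem a_one (h : Ph1 d D a t ℓ) : 1 ≤ a := by
  have h1 := h.a_big
  have h2 := h.ℓ1
  have : (1:ℝ) ≤ a := by linarith
  exact_mod_cast this

theorem a_le_n (h : Ph1 d D a t ℓ) (n : ℕ) (hn : n ≤ 144) : (a:ℝ) ≤ t ^ n * d / 2 ^ 22 := by
  refine h.a_le.trans ?_
  have h0 := h.d0
  have := pow_le_pow_of_le_one h.t0.le h.t1 hn
  gcongr

theorem aD (h : Ph1 d D a t ℓ) : 2 * (a + 1) ≤ D := by
  have h1 := h.a_le_n 16 (by norm_num)
  have h2 := h.tn 16 (by norm_num)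
  have h3 := h.ℓ1
  rw [h.tD] at h1 h2
  have : 2 * ((a:ℝ) + 1) ≤ D := by
    rw [le_div_iff₀ (by positivity)] at h1
    nlinarith
  exact_mod_cast this

theorem D32 (h : Ph1 d D a t ℓ) : 2 ^ 30 ≤ D := by
  have h2 := h.tn 16 (by norm_num)
  have h3 := h.ℓ1
  rw [h.tD] at h2
  have : (2:ℝ) ^ 30 ≤ D := by nlinarith
  exact_mod_cast this

theorem D_le (h : Ph1 d D a t ℓ) : D ≤ d := by
  have h1 := h.tD
  have h2 : t ^ 16 ≤ 1 := pow_le_one₀ h.t0.le h.t1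
  have : (D:ℝ) ≤ d := by rw [← h1]; nlinarith [h.d0]
  exact_mod_cast this

/-- the main combinatorial bound -/
theorem choose_bd (h : Ph1 d D a t ℓ) :
    (d.choose a : ℝ) * 2 ^ a ≤ Real.exp (162 * a * t⁻¹) := by
  have ht := h.t0
  have ha0 : (0:ℝ) < a := by exact_mod_cast h.a_one
  have h1 := choose_le_pow d a h.a_one
  have h2 : (d:ℝ) / a ≤ 2 ^ 23 * t⁻¹ ^ 144 := by
    rw [div_le_iff₀ ha0]
    have := h.a_ge
    rw [div_le_iff₀ (by positivity)] at this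
    have e : 2 ^ 23 * t⁻¹ ^ 144 * (a:ℝ) = (a * 2 ^ 23) * t⁻¹ ^ 144 := by ring
    rw [e]
    calc (d:ℝ) = (t ^ 144 * d) * t⁻¹ ^ 144 := by
          rw [inv_pow]; field_simp
      _ ≤ _ := mul_le_mul_of_nonneg_right this (by positivity)
  have h3 : Real.exp 1 * ((d:ℝ) / a) * 2 ≤ Real.exp (162 * t⁻¹) := by
    have e1 := inv_pow_le_exp ht 144
    have e2 : Real.exp 1 * 2 ^ 24 ≤ Real.exp (18 : ℕ) := by
      refine le_trans ?_ (exp_one_nat_ge 18)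
      have := Real.exp_one_lt_d9
      calc Real.exp 1 * 2 ^ 24 ≤ 2.72 * 2 ^ 24 := by
            apply mul_le_mul_of_nonneg_right _ (by positivity); linarith
        _ ≤ _ := by norm_num
    have e3 : Real.exp ((18:ℕ):ℝ) ≤ Real.exp (18 * t⁻¹) := by
      apply Real.exp_le_exp.mpr
      have : 1 ≤ t⁻¹ := (one_le_inv₀ ht).mpr h.t1
      push_cast; linarith
    calc Real.exp 1 * ((d:ℝ) / a) * 2 ≤ Real.exp 1 * (2 ^ 23 * t⁻¹ ^ 144) * 2 := by gcongr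
      _ = (Real.exp 1 * 2 ^ 24) * t⁻¹ ^ 144 := by ring
      _ ≤ Real.exp (18 * t⁻¹) * Real.exp ((144:ℕ) * t⁻¹) :=
          mul_le_mul (e2.trans e3) e1 (by positivity) (Real.exp_pos _).le
      _ = _ := by rw [← Real.exp_add]; congr 1; push_cast; ring
  calc (d.choose a : ℝ) * 2 ^ a ≤ (Real.exp 1 * (d / a)) ^ a * 2 ^ a :=
        mul_le_mul_of_nonneg_right h1 (by positivity)
    _ = (Real.exp 1 * ((d:ℝ) / a) * 2) ^ a := by rw [← mul_pow]
    _ ≤ (Real.exp (162 * t⁻¹)) ^ a := pow_le_pow_left₀ (by positivity) h3 a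
    _ = _ := by rw [← Real.exp_nat_mul]; congr 1; ring

theorem choose_bd2 (h : Ph1 d D a t ℓ) :
    (d.choose a : ℝ) * (176 / (t ^ 128 * Real.exp (-1))) ^ a ≤ Real.exp (296 * a * t⁻¹) := by
  have ht := h.t0
  have ha0 : (0:ℝ) < a := by exact_mod_cast h.a_one
  have h1 := choose_le_pow d a h.a_one
  have h2 : (d:ℝ) / a ≤ 2 ^ 23 * t⁻¹ ^ 144 := by
    rw [div_le_iff₀ ha0]
    have := h.a_ge
    rw [div_le_iff₀ (by positivity)] at this
    have e : 2 ^ 23 * t⁻¹ ^ 144 * (a:ℝ) = (a * 2 ^ 23) * t⁻¹ ^ 144 := by ring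
    rw [e]
    calc (d:ℝ) = (t ^ 144 * d) * t⁻¹ ^ 144 := by
          rw [inv_pow]; field_simp
      _ ≤ _ := mul_le_mul_of_nonneg_right this (by positivity)
  have h3 : Real.exp 1 * ((d:ℝ) / a) * (176 / (t ^ 128 * Real.exp (-1))) ≤ Real.exp (296 * t⁻¹) := by
    have e1 := inv_pow_le_exp ht 272
    have e2 : Real.exp 1 * Real.exp 1 * 176 * 2 ^ 23 ≤ Real.exp (24 : ℕ) := by
      refine le_trans ?_ (exp_one_nat_ge 24)
      have h5 := Real.exp_one_lt_d9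
      have h6 := Real.exp_pos 1
      calc Real.exp 1 * Real.exp 1 * 176 * 2 ^ 23 ≤ 2.72 * 2.72 * 176 * 2 ^ 23 := by
            have : Real.exp 1 ≤ 2.72 := by linarith
            gcongr
        _ ≤ _ := by norm_num
    have e3 : Real.exp ((24:ℕ):ℝ) ≤ Real.exp (24 * t⁻¹) := by
      apply Real.exp_le_exp.mpr
      have : 1 ≤ t⁻¹ := (one_le_inv₀ ht).mpr h.t1
      push_cast; linarith
    have e4 : (176 / (t ^ 128 * Real.exp (-1))) = 176 * Real.exp 1 * t⁻¹ ^ 128 := by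
      rw [Real.exp_neg, inv_pow]; field_simp
    rw [e4]
    calc Real.exp 1 * ((d:ℝ) / a) * (176 * Real.exp 1 * t⁻¹ ^ 128)
        ≤ Real.exp 1 * (2 ^ 23 * t⁻¹ ^ 144) * (176 * Real.exp 1 * t⁻¹ ^ 128) := by gcongr
      _ = (Real.exp 1 * Real.exp 1 * 176 * 2 ^ 23) * t⁻¹ ^ 272 := by
          have : t⁻¹ ^ 272 = t⁻¹ ^ 144 * t⁻¹ ^ 128 := by rw [← pow_add]
          rw [this]; ring
      _ ≤ Real.exp (24 * t⁻¹) * Real.exp ((272:ℕ) * t⁻¹) :=
          mul_le_mul (e2.trans e3) e1 (by positivity) (Real.exp_pos _).le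
      _ = _ := by rw [← Real.exp_add]; congr 1; push_cast; ring
  calc (d.choose a : ℝ) * (176 / (t ^ 128 * Real.exp (-1))) ^ a
      ≤ (Real.exp 1 * (d / a)) ^ a * (176 / (t ^ 128 * Real.exp (-1))) ^ a :=
        mul_le_mul_of_nonneg_right h1 (by positivity)
    _ = (Real.exp 1 * ((d:ℝ) / a) * (176 / (t ^ 128 * Real.exp (-1)))) ^ a := by rw [← mul_pow]
    _ ≤ (Real.exp (296 * t⁻¹)) ^ a := pow_le_pow_left₀ (by positivity) h3 a
    _ = _ := by rw [← Real.exp_nat_mul]; congr 1; ring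

end Ph1

end Pool.Agent.Helper50_RIP
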