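import Mathlib
import Pool.Agent.Helper50_RIP.Bdd1

set_option autoImplicit false
set_option linter.unusedSectionVars false
set_option linter.unusedVariables false

/-!
# Probability estimates in the first phase
-/

namespace Pool.Agent.Helper50_RIP

open Pool.Agent.Helper50_Stretch Module
open scoped InnerProductSpace

/-- parameters in the first phase -/
noncomputable def Q1 (d : ℕ) (t : ℝ) : KP where
  a := ⌊t ^ 144 * d / 2 ^ 22⌋₊
  κ := Real.sqrt (4096 / (t ^ 15 * d))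
  lam := t ^ 128 * Real.exp (-1) / 4
  Lam := 2 * t ^ 2

namespace Ph1
variable {d D a : ℕ} {t ℓ : ℝ}

theorem kappa_sq (h : Ph1 d D a t ℓ) : (Q1 d t).κ ^ 2 = 4096 / (t ^ 15 * d) := by
  have := h.t0; have := h.d0
  exact Real.sq_sqrt (by positivity)

theorem kappa_pos (h : Ph1 d D a t ℓ) : 0 < (Q1 d t).κ := by
  have := h.t0; have := h.d0
  exact Real.sqrt_pos.mpr (by positivity)

theorem sqrt_le_kappa (h : Ph1 d D a t ℓ) : Real.sqrt (1 / (2 * d)) ≤ (Q1 d t).κ := by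
  have h0 := h.t0; have h2 := h.d0
  apply Real.sqrt_le_sqrt
  rw [div_le_div_iff₀ (by positivity) (by positivity)]
  have h1 : t ^ 15 ≤ 1 := pow_le_one₀ h.t0.le h.t1
  nlinarith

theorem kD (h : Ph1 d D a t ℓ) : (Q1 d t).κ ^ 2 * D / (4 * (Q1 d t).Lam) = 512 * t⁻¹ := by
  have h0 := h.t0; have h2 := h.d0
  rw [h.kappa_sq, ← h.tD]
  show 4096 / (t ^ 15 * d) * (t ^ 16 * d) / (4 * (2 * t ^ 2)) = 512 * t⁻¹
  field_simp
  ring

theorem goodP (h : Ph1 d D a t ℓ) : GoodP (Q1 d t) d D := by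
  have ht := h.t0; have hd := h.d0
  have ha : (Q1 d t).a = a := h.a_def.symm
  refine ⟨by rw [ha]; exact h.a_one, by rw [ha]; exact h.aD, by have := h.D32; omega,
    h.kappa_pos, ?_, ?_, ?_, ?_⟩
  · show 0 < t ^ 128 * Real.exp (-1) / 4
    positivity
  · show 0 < 2 * t ^ 2
    positivity
  · rw [ha]
    show (a:ℝ) * ((Q1 d t).κ + Real.sqrt (1 / (2 * d))) ^ 2 ≤ t ^ 128 * Real.exp (-1) / 4 / 8
    have h1 := h.sqrt_le_kappa
    have h2 := h.kappa_sq
    have h3 := h.kappa_pos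
    have h4 := Real.sqrt_nonneg (1 / (2 * (d:ℝ)))
    have h5 : ((Q1 d t).κ + Real.sqrt (1 / (2 * d))) ^ 2 ≤ 4 * (4096 / (t ^ 15 * d)) := by
      rw [← h2]
      calc _ ≤ ((Q1 d t).κ + (Q1 d t).κ) ^ 2 :=
            pow_le_pow_left₀ (by positivity) (by linarith) 2
        _ = _ := by ring
    calc (a:ℝ) * ((Q1 d t).κ + Real.sqrt (1 / (2 * d))) ^ 2
        ≤ (t ^ 144 * d / 2 ^ 22) * (4 * (4096 / (t ^ 15 * d))) :=
          mul_le_mul h.a_le h5 (sq_nonneg _) (by positivity)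
      _ = t ^ 129 / 256 := by field_simp; norm_num
      _ ≤ t ^ 128 / 256 := by
          have := pow_le_pow_of_le_one ht.le h.t1 (by norm_num : 128 ≤ 129)
          linarith
      _ ≤ _ := by
          have e1 : (1:ℝ) / 3 ≤ Real.exp (-1) := by
            rw [Real.exp_neg, ← one_div]
            apply one_div_le_one_div_of_le (Real.exp_pos _)
            have := Real.exp_one_lt_d9; linarith
          have e2 : 0 < t ^ 128 := by positivity
          nlinarith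
  · rw [h.kD]
    show 2 * Real.exp (-(512 * t⁻¹)) ≤ t ^ 128 * Real.exp (-1) / 4 / 8
    have e1 := inv_pow_le_exp ht 128
    have e2 : (64:ℝ) ≤ Real.exp (5:ℕ) := by
      refine le_trans ?_ (exp_one_nat_ge 5)
      norm_num
    have e3 : 1 ≤ t⁻¹ := (one_le_inv₀ ht).mpr h.t1
    have e4 : 64 * Real.exp 1 * t⁻¹ ^ 128 ≤ Real.exp (512 * t⁻¹) := by
      calc 64 * Real.exp 1 * t⁻¹ ^ 128 ≤ Real.exp (5:ℕ) * Real.exp 1 * Real.exp ((128:ℕ) * t⁻¹) := by
            gcongr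
        _ = Real.exp (6 + 128 * t⁻¹) := by
            rw [← Real.exp_add, ← Real.exp_add]; congr 1; push_cast; ring
        _ ≤ _ := by
            apply Real.exp_le_exp.mpr
            linarith
    have e5 : t ^ 128 * Real.exp (-1) / 4 / 8 = 2 * (64 * Real.exp 1 * t⁻¹ ^ 128)⁻¹ := by
      rw [Real.exp_neg, inv_pow]
      field_simp
      norm_num
    rw [e5, Real.exp_neg]
    apply mul_le_mul_of_nonneg_left _ (by norm_num)
    exact inv_anti₀ (by positivity) e4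

theorem sup_bd (h : Ph1 d D a t ℓ) :
    (d.choose a : ℝ) * 2 ^ a * Real.exp (-(a * (Q1 d t).κ ^ 2 * D / (4 * (Q1 d t).Lam)))
      ≤ Real.exp (-(3 * ℓ) - 3) := by
  have ht := h.t0
  have h1 := h.kD
  have h2 : (a:ℝ) * (Q1 d t).κ ^ 2 * D / (4 * (Q1 d t).Lam) = a * (512 * t⁻¹) := by
    rw [← h1]; ring
  rw [h2]
  refine (mul_le_mul_of_nonneg_right h.choose_bd (Real.exp_pos _).le).trans ?_
  rw [← Real.exp_add]
  apply Real.exp_le_exp.mpr
  have e3 : 1 ≤ t⁻¹ := (one_le_inv₀ ht).mpr h.t1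
  have h3 := h.a_big
  have h4 := h.ℓ1
  have h5 : (a:ℝ) ≤ a * t⁻¹ := by
    have : (0:ℝ) ≤ a := Nat.cast_nonneg a
    nlinarith
  nlinarith

theorem nat_div_ge (D n : ℕ) (hn : 0 < n) : (D:ℝ) / n - 1 ≤ ((D / n : ℕ) : ℝ) := by
  have h1 := Nat.lt_div_mul_add (a := D) hn
  have h2 : (D:ℝ) < ((D / n : ℕ) : ℝ) * n + n := by exact_mod_cast h1
  have hn0 : (0:ℝ) < n := by exact_mod_cast hn
  rw [sub_le_iff_le_add, div_le_iff₀ hn0]
  linarith

theorem quarter_pow_le (g : ℕ) : ((1:ℝ) / 4) ^ g ≤ Real.exp (-g) := by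
  have h1 : (1:ℝ) / 4 ≤ Real.exp (-1) := by
    rw [Real.exp_neg, ← one_div]
    apply one_div_le_one_div_of_le (Real.exp_pos _)
    have := Real.exp_one_lt_d9; linarith
  calc ((1:ℝ) / 4) ^ g ≤ (Real.exp (-1)) ^ g := pow_le_pow_left₀ (by norm_num) h1 g
    _ = _ := by rw [← Real.exp_nat_mul]; congr 1; ring

theorem up_bd (h : Ph1 d D a t ℓ) :
    (d:ℝ) * (1 / 4) ^ (D / 5376) ≤ Real.exp (-(3 * ℓ) - 3) := by
  have h1 := nat_div_ge D 5376 (by norm_num)
  have h2 := quarter_pow_le (D / 5376)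
  have h3 := h.tn 16 (by norm_num)
  rw [h.tD] at h3
  have h4 := h.ℓ1
  calc (d:ℝ) * (1 / 4) ^ (D / 5376) ≤ Real.exp ℓ * Real.exp (-((D / 5376 : ℕ) : ℝ)) := by
        rw [h.dℓ]; exact mul_le_mul_of_nonneg_left h2 (Real.exp_pos _).le
    _ = Real.exp (ℓ + -((D / 5376 : ℕ) : ℝ)) := by rw [Real.exp_add]
    _ ≤ _ := by
        apply Real.exp_le_exp.mpr
        push_cast at h1
        have e1 : 5376 * (5 * (ℓ + 1)) ≤ (D:ℝ) := by nlinarith
        have e2 : 5 * (ℓ + 1) ≤ (D:ℝ) / 5376 := by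
          rw [le_div_iff₀ (by norm_num)]; linarith
        linarith

theorem upf_bd (h : Ph1 d D a t ℓ) :
    (d.choose a : ℝ) * 2 ^ a * (1 / 4) ^ (D / 5376) ≤ Real.exp (-(3 * ℓ) - 3) := by
  have ht := h.t0
  have h1 := nat_div_ge D 5376 (by norm_num)
  have h2 := quarter_pow_le (D / 5376)
  have h3 := h.tn 16 (by norm_num)
  have h4 := h.ℓ1
  have h5 : (a:ℝ) * t⁻¹ ≤ t ^ 16 * d / 2 ^ 22 := by
    have e1 := h.a_le_n 17 (by norm_num)
    calc (a:ℝ) * t⁻¹ ≤ (t ^ 17 * d / 2 ^ 22) * t⁻¹ :=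
          mul_le_mul_of_nonneg_right e1 (by positivity)
      _ = _ := by field_simp
  rw [h.tD] at h3 h5
  calc _ ≤ Real.exp (162 * a * t⁻¹) * Real.exp (-((D / 5376 : ℕ) : ℝ)) :=
        mul_le_mul h.choose_bd h2 (by positivity) (Real.exp_pos _).le
    _ = Real.exp (162 * a * t⁻¹ + -((D / 5376 : ℕ) : ℝ)) := by rw [Real.exp_add]
    _ ≤ _ := by
        apply Real.exp_le_exp.mpr
        push_cast at h1
        have e0 : (D:ℝ) / 5376 = D * (1 / 5376) := by ring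
        rw [e0] at h1
        rw [le_div_iff₀ (by positivity)] at h5
        nlinarith

/-- number of moments in Claim 2 -/
noncomputable def bet (D : ℕ) (t : ℝ) : ℕ := ⌊D * t / 2064⌋₊

theorem bet_le (h : Ph1 d D a t ℓ) : (bet D t : ℝ) ≤ D * t / 2064 := by
  have := h.t0
  exact Nat.floor_le (by positivity)

theorem bet_ge (h : Ph1 d D a t ℓ) : (D:ℝ) * t / 2064 - 1 ≤ bet D t := by
  have := Nat.lt_floor_add_one ((D:ℝ) * t / 2064)
  unfold bet
  linarith

theorem bet16 (h : Ph1 d D a t ℓ) : 16 * bet D t ≤ D := by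
  have h1 := h.bet_le
  have h2 := h.t1
  have h3 := h.t0
  have : 16 * (bet D t : ℝ) ≤ D := by
    have : (D:ℝ) * t ≤ D := by
      have : (0:ℝ) ≤ D := Nat.cast_nonneg D
      nlinarith
    have : (0:ℝ) ≤ D := Nat.cast_nonneg D
    linarith
  exact_mod_cast this

theorem bet_exp (h : Ph1 d D a t ℓ) :
    (t ^ 128 * Real.exp (-1))⁻¹ ^ (bet D t) ≤ Real.exp (D / 16) := by
  have ht := h.t0
  have e3 : 1 ≤ t⁻¹ := (one_le_inv₀ ht).mpr h.t1
  have h1 : (t ^ 128 * Real.exp (-1))⁻¹ ≤ Real.exp (129 * t⁻¹) := by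
    rw [mul_inv, Real.exp_neg, inv_inv, ← inv_pow]
    calc t⁻¹ ^ 128 * Real.exp 1 ≤ Real.exp ((128:ℕ) * t⁻¹) * Real.exp 1 :=
          mul_le_mul_of_nonneg_right (inv_pow_le_exp ht 128) (Real.exp_pos _).le
      _ = Real.exp ((128:ℕ) * t⁻¹ + 1) := by rw [Real.exp_add]
      _ ≤ _ := by
          apply Real.exp_le_exp.mpr
          push_cast; linarith
  calc _ ≤ (Real.exp (129 * t⁻¹)) ^ (bet D t) := pow_le_pow_left₀ (by positivity) h1 _
    _ = Real.exp (bet D t * (129 * t⁻¹)) := by rw [← Real.exp_nat_mul]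
    _ ≤ _ := by
        apply Real.exp_le_exp.mpr
        have := h.bet_le
        calc (bet D t : ℝ) * (129 * t⁻¹) ≤ (D * t / 2064) * (129 * t⁻¹) :=
              mul_le_mul_of_nonneg_right this (by positivity)
          _ = D / 16 := by field_simp; ring

theorem low_bd (h : Ph1 d D a t ℓ) :
    (d.choose a : ℝ) * (176 / (t ^ 128 * Real.exp (-1))) ^ a *
      ((t ^ 128 * Real.exp (-1) * ((d:ℝ) / D) ^ 8) ^ (bet D t) * Real.exp 1)
      ≤ Real.exp (-(3 * ℓ) - 3) := by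
  have ht := h.t0
  have hd := h.d0
  have h1 : t ^ 128 * Real.exp (-1) * ((d:ℝ) / D) ^ 8 = Real.exp (-1) := by
    rw [← h.tD]
    field_simp
  rw [h1]
  have h2 : Real.exp (-1) ^ (bet D t) = Real.exp (-(bet D t)) := by
    rw [← Real.exp_nat_mul]; congr 1; ring
  rw [h2]
  have h3 := h.choose_bd2
  have h5 : (a:ℝ) * t⁻¹ ≤ t ^ 17 * d / 2 ^ 22 := by
    have e1 := h.a_le_n 18 (by norm_num)
    calc (a:ℝ) * t⁻¹ ≤ (t ^ 18 * d / 2 ^ 22) * t⁻¹ :=
          mul_le_mul_of_nonneg_right e1 (by positivity)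
      _ = _ := by field_simp
  have h6 : (D:ℝ) * t = t ^ 17 * d := by rw [← h.tD]; ring
  have h7 := h.bet_ge
  rw [h6] at h7
  have h8 := h.tn 17 (by norm_num)
  have h4 := h.ℓ1
  calc _ ≤ Real.exp (296 * a * t⁻¹) * (Real.exp (-(bet D t)) * Real.exp 1) :=
        mul_le_mul_of_nonneg_right h3 (by positivity)
    _ = Real.exp (296 * a * t⁻¹ + (-(bet D t) + 1)) := by rw [Real.exp_add, Real.exp_add]
    _ ≤ _ := by
        apply Real.exp_le_exp.mpr
        have e0 : t ^ 17 * (d:ℝ) / 2064 = (t ^ 17 * d) * (1 / 2064) := by ring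
        rw [e0] at h7
        rw [le_div_iff₀ (by positivity)] at h5
        nlinarith

theorem lam_le (h : Ph1 d D a t ℓ) : 4 * ((D:ℝ) + 1) / (d + 1) ≤ (Q1 d t).Lam ^ 8 := by
  have ht := h.t0
  have hd := h.d0
  have h1 : (Q1 d t).Lam ^ 8 = 256 * t ^ 16 := by
    show (2 * t ^ 2) ^ 8 = _
    ring
  rw [h1, div_le_iff₀ (by positivity)]
  have h2 := h.tD
  have h3 : (1:ℝ) ≤ D := by
    have := h.D32
    exact_mod_cast (by omega : 1 ≤ D)
  nlinarith [pow_pos ht 16]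

end Ph1

end Pool.Agent.Helper50_RIP
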