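import Mathlib
import Pool.Agent.Helper50_RIP.Bdd2

set_option autoImplicit false
set_option linter.unusedSectionVars false
set_option linter.unusedVariables false

/-!
# The process is bounded with high probability
-/

namespace Pool.Agent.Helper50_RIP

open Pool.Agent.Helper50_Stretch Module
open scoped InnerProductSpace

/-- sixteenth root of the codimension ratio -/
noncomputable def tt (d D : ℕ) : ℝ := ((D:ℝ) / d) ^ ((1:ℝ) / 16)

theorem tt_pow (d D : ℕ) : tt d D ^ 16 = (D:ℝ) / d := by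
  unfold tt
  rw [← Real.rpow_natCast, ← Real.rpow_mul (by positivity)]
  norm_num

theorem tt_nonneg (d D : ℕ) : 0 ≤ tt d D := by unfold tt; positivity

theorem tt_pos {d D : ℕ} (hd : 0 < d) (hD : 0 < D) : 0 < tt d D := by
  unfold tt
  have : (0:ℝ) < d := by exact_mod_cast hd
  have : (0:ℝ) < D := by exact_mod_cast hD
  positivity

theorem tt_le_one {d D : ℕ} (h : D ≤ d) : tt d D ≤ 1 := by
  unfold tt
  apply Real.rpow_le_one (by positivity) _ (by norm_num)
  apply div_le_one_of_le₀ _ (by positivity)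
  exact_mod_cast h

theorem tt_mono {d D E : ℕ} (h : D ≤ E) : tt d D ≤ tt d E := by
  unfold tt
  apply Real.rpow_le_rpow (by positivity) _ (by norm_num)
  have : (D:ℝ) ≤ E := by exact_mod_cast h
  gcongr

/-- the parameters of the process -/
noncomputable def PP (d : ℕ) (l : ℕ) : KP :=
  if 1 ≤ tt d (d - l) * Real.log d then Q1 d (tt d (d - l)) else ⟨0, 0, 0, 0⟩

/-- largeness of the dimension -/
structure BigD (d : ℕ) : Prop where
  d3 : 3 ≤ d
  big1 : 2 ^ 40 * (Real.log d + 1) * Real.log d ^ 144 ≤ d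
  big2 : 5376 * (4 * Real.log d + 2) ≤ (⌊(d:ℝ) ^ ((1:ℝ) / 17)⌋₊ : ℝ)

variable {d : ℕ}

theorem BigD.log_ge (h : BigD d) : 1 ≤ Real.log d := by
  rw [Real.le_log_iff_exp_le (by have := h.d3; positivity)]
  have h1 : (3:ℝ) ≤ d := by exact_mod_cast h.d3
  have := Real.exp_one_lt_d9
  linarith

theorem BigD.dpos (h : BigD d) : (0:ℝ) < d := by
  have h1 : (3:ℝ) ≤ d := by exact_mod_cast h.d3
  linarith

theorem BigD.exp_log (h : BigD d) : (d:ℝ) = Real.exp (Real.log d) :=
  (Real.exp_log h.dpos).symm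

theorem BigD.ph1 (h : BigD d) {l : ℕ} (hl : l < d) (ht : 1 ≤ tt d (d - l) * Real.log d) :
    Ph1 d (d - l) ⌊tt d (d - l) ^ 144 * d / 2 ^ 22⌋₊ (tt d (d - l)) (Real.log d) := by
  have hd := h.dpos
  have hℓ := h.log_ge
  refine ⟨tt_pos (by omega) (by omega), tt_le_one (by omega), hd, ?_, by linarith, ?_, h.exp_log,
    rfl⟩
  · rw [tt_pow]; field_simp
  · set t := tt d (d - l) with htdef
    have ht0 : 0 < t := tt_pos (by omega) (by omega)
    have h1 : 1 ≤ (t * Real.log d) ^ 144 := one_le_pow₀ ht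
    have h2 := h.big1
    have h3 : 0 < Real.log d ^ 144 := by positivity
    have h4 : (2 ^ 40 * (Real.log d + 1)) * Real.log d ^ 144 ≤ (t ^ 144 * d) * Real.log d ^ 144 := by
      refine h2.trans ?_
      rw [mul_pow] at h1
      have e : t ^ 144 * (d:ℝ) * Real.log d ^ 144 = d * (t ^ 144 * Real.log d ^ 144) := by ring
      rw [e]
      nlinarith
    exact le_of_mul_le_mul_right h4 h3

theorem avg_vv (P : ℕ → KP) {l : ℕ} (hl : l < d) (H : Submodule ℝ (V d) → Wd d → ℝ) :
    avg (fun ξ : Fin d → Wd d => H (FF P ξ l) (coord ξ l))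
      = avg (fun ξ : Fin d → Wd d => avg (fun w => H (FF P ξ l) w)) := by
  rw [avg_update ⟨l, hl⟩ (fun ξ : Fin d → Wd d => H (FF P ξ l) (coord ξ l))]
  apply avg_congr
  intro ξ
  apply avg_congr
  intro w
  have h1 := run_update (ostep P) ⊥ ξ ⟨l, hl⟩ w l (le_refl _)
  have h2 := coord_update_same ξ ⟨l, hl⟩ w
  simp only at h2
  unfold FF
  rw [h1, h2]

theorem avg_step_le (P : ℕ → KP) {l : ℕ} (hl : l < d) (G : Submodule ℝ (V d) → Prop)
    (R : Submodule ℝ (V d) → Wd d → Prop) {c : ℝ} (hc : 0 ≤ c)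
    (h : ∀ F : Submodule ℝ (V d), finrank ℝ F = l → G F → avg (fun w => ind (R F w)) ≤ c) :
    avg (fun ξ : Fin d → Wd d => ind (R (FF P ξ l) (coord ξ l)))
      ≤ avg (fun ξ : Fin d → Wd d => ind (¬ G (FF P ξ l))) + c := by
  rw [avg_vv P hl (fun F w => ind (R F w))]
  have h1 : ∀ ξ : Fin d → Wd d, avg (fun w => ind (R (FF P ξ l) w))
      ≤ ind (¬ G (FF P ξ l)) + c := by
    intro ξ
    by_cases hG : G (FF P ξ l)
    · have := h _ (finrank_FF P ξ l hl.le) hG
      linarith [ind_nonneg (¬ G (FF P ξ l))]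
    · rw [ind_true hG]
      have : avg (fun w => ind (R (FF P ξ l) w)) ≤ avg (fun _ : Wd d => (1:ℝ)) :=
        avg_mono (fun w => ind_le_one _)
      rw [avg_const] at this
      linarith
  refine (avg_mono h1).trans ?_
  rw [avg_add, avg_const]

/-- boundedness of one vector -/
def Bd (ξ : Fin d → Wd d) (l : ℕ) : Prop :=
  ∀ j, tt d (d - l) ^ 15 * d * (vv (PP d) ξ l j) ^ 2 ≤ 16384

theorem bd_phase1 (h : BigD d) {l : ℕ} (hl : l < d) (ht : 1 ≤ tt d (d - l) * Real.log d) :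
    avg (fun ξ : Fin d → Wd d => ind (¬ Bd ξ l)) ≤ 3 * Real.exp (-(3 * Real.log d)) := by
  have hp := h.ph1 hl ht
  set t := tt d (d - l) with htdef
  set D := d - l with hDdef
  have ht0 := hp.t0
  have hd := h.dpos
  have hP := hp.goodP
  have hPl : PP d l = Q1 d t := by
    unfold PP; rw [if_pos ht]
  have hgood := good_prob (PP d) (Q1 d t) l (D / 5376) (Ph1.bet D t) hl
    (by have := Nat.div_mul_le_self D 5376; omega) hP.Lampos.le hp.lam_le
    (by have := hp.D32; omega) hp.bet16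
    (lam0 := t ^ 128 * Real.exp (-1)) (by positivity) (by
      have h1 : t ^ 128 ≤ 1 := pow_le_one₀ ht0.le hp.t1
      have h2 : Real.exp (-1) ≤ 1 := Real.exp_le_one_iff.mpr (by norm_num)
      have h3 := Real.exp_pos (-1)
      nlinarith) hp.bet_exp rfl hp.a_one (by
      have h1 := hp.aD
      have h2 := hp.D_le
      show ⌊t ^ 144 * d / 2 ^ 22⌋₊ ≤ d
      omega)
  have e1 := hp.low_bd
  have e2 := hp.up_bd
  have e3 := hp.upf_bd
  have e4 := hp.sup_bd
  have hstep := avg_step_le (PP d) hl (fun F => GoodF (Q1 d t) F)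
    (fun F w => ¬ ∀ j, t ^ 15 * d * (ker (PP d l) F w j) ^ 2 ≤ 16384)
    (c := Real.exp (-(3 * Real.log d) - 3)) (Real.exp_pos _).le ?_
  · have hfin : avg (fun ξ : Fin d → Wd d => ind (¬ Bd ξ l)) ≤
        (Real.exp (-(3 * Real.log d) - 3) + (Real.exp (-(3 * Real.log d) - 3)
        + Real.exp (-(3 * Real.log d) - 3))) + Real.exp (-(3 * Real.log d) - 3) := by
      refine hstep.trans ?_
      refine add_le_add_left (hgood.trans ?_) _
      exact add_le_add e1 (add_le_add e2 e3)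
    refine hfin.trans ?_
    have e5 : Real.exp (-(3 * Real.log d) - 3) = Real.exp (-(3 * Real.log d)) * Real.exp (-3) := by
      rw [← Real.exp_add]; congr 1
    have e6 : Real.exp (-3) ≤ 1 / 2 := by
      rw [Real.exp_neg, ← one_div]
      apply one_div_le_one_div_of_le (by norm_num)
      have := Real.add_one_le_exp 3
      linarith
    have e7 := Real.exp_pos (-(3 * Real.log (d:ℝ)))
    rw [e5]
    nlinarith
  · intro F hF hG
    have hFo : finrank ℝ Fᗮ = D := by
      have := finrank_orth F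
      omega
    have h1 := ker_sup (Q1 d t) F (by rw [hFo]; exact hP) hG
    rw [hFo] at h1
    refine le_trans ?_ (h1.trans e4)
    rw [hPl]
    apply avg_ind_mono
    intro w hw
    rw [not_forall] at hw
    obtain ⟨j, hj⟩ := hw
    refine ⟨j, ?_⟩
    by_contra hcon
    apply hj
    rw [not_lt] at hcon
    have h2 := hp.sqrt_le_kappa
    have h3 := hp.kappa_sq
    have h4 : |ker (Q1 d t) F w j| ≤ 2 * (Q1 d t).κ := by linarith
    have h5 : (ker (Q1 d t) F w j) ^ 2 ≤ 4 * (4096 / (t ^ 15 * d)) := by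
      rw [← h3, ← sq_abs]
      calc _ ≤ (2 * (Q1 d t).κ) ^ 2 := pow_le_pow_left₀ (abs_nonneg _) h4 2
        _ = _ := by ring
    calc t ^ 15 * d * (ker (Q1 d t) F w j) ^ 2 ≤ t ^ 15 * d * (4 * (4096 / (t ^ 15 * d))) :=
          mul_le_mul_of_nonneg_left h5 (by positivity)
      _ = 16384 := by field_simp; norm_num

/-- threshold dimension of the last phase -/
noncomputable def D2 (d : ℕ) : ℕ := ⌊(d:ℝ) ^ ((1:ℝ) / 17)⌋₊

theorem BigD.D2_pow (h : BigD d) : (D2 d : ℝ) ^ 17 ≤ d := by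
  have h1 : (D2 d : ℝ) ≤ (d:ℝ) ^ ((1:ℝ) / 17) := Nat.floor_le (by positivity)
  calc (D2 d : ℝ) ^ 17 ≤ ((d:ℝ) ^ ((1:ℝ) / 17)) ^ 17 := pow_le_pow_left₀ (by positivity) h1 17
    _ = d := by
      rw [← Real.rpow_natCast, ← Real.rpow_mul (by positivity)]
      norm_num

theorem BigD.D2_big (h : BigD d) : 5376 * (4 * Real.log d + 2) ≤ (D2 d : ℝ) := h.big2

theorem BigD.D2_pos (h : BigD d) : 1000 ≤ D2 d := by
  have h1 := h.D2_big
  have h2 := h.log_ge
  have : (1000:ℝ) ≤ D2 d := by linarith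
  exact_mod_cast this

theorem BigD.D2_le (h : BigD d) : D2 d ≤ d := by
  have h1 := h.D2_pow
  have h2 : (1:ℝ) ≤ D2 d := by exact_mod_cast (by have := h.D2_pos; omega : 1 ≤ D2 d)
  have h3 : (D2 d : ℝ) ≤ (D2 d : ℝ) ^ 17 := le_self_pow₀ h2 (by norm_num)
  exact_mod_cast h3.trans h1

theorem BigD.quarter (h : BigD d) :
    ((1:ℝ) / 4) ^ (D2 d / 5376) ≤ Real.exp (-(4 * Real.log d)) := by
  refine (Ph1.quarter_pow_le _).trans ?_
  apply Real.exp_le_exp.mpr
  have h1 := Ph1.nat_div_ge (D2 d) 5376 (by norm_num)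
  have h2 := h.D2_big
  push_cast at h1
  have h3 : 4 * Real.log d + 2 ≤ (D2 d : ℝ) / 5376 := by
    rw [le_div_iff₀ (by norm_num)]; linarith
  linarith

theorem lam_le2 {D : ℕ} (hD : 1 ≤ D) (hDd : D ≤ d) :
    4 * ((D:ℝ) + 1) / (d + 1) ≤ (2 * tt d D ^ 2) ^ 8 := by
  have hd : (0:ℝ) < d := by exact_mod_cast (by omega : 0 < d)
  have h1 : (2 * tt d D ^ 2) ^ 8 = 256 * tt d D ^ 16 := by ring
  have hD' : (1:ℝ) ≤ D := by exact_mod_cast hD
  rw [h1, tt_pow, div_le_iff₀ (by positivity)]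
  have h2 : 256 * ((D:ℝ) / d) * (d + 1) = 256 * D + 256 * D / d := by field_simp
  rw [h2]
  have : 0 ≤ 256 * (D:ℝ) / d := by positivity
  linarith

theorem bd_phase2 (h : BigD d) {l : ℕ} (hl : l < d) (ht : tt d (d - l) * Real.log d < 1)
    (hD : D2 d ≤ d - l) :
    avg (fun ξ : Fin d → Wd d => ind (¬ Bd ξ l)) ≤ 3 * Real.exp (-(3 * Real.log d)) := by
  set t := tt d (d - l) with htdef
  set D := d - l with hDdef
  have hD1 : 1 ≤ D := by omega
  have ht0 : 0 < t := tt_pos (by omega) (by omega)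
  have hd := h.dpos
  have hℓ := h.log_ge
  have htD : t ^ 16 * d = D := by rw [htdef, tt_pow]; field_simp
  have hbd : ∀ j : Fin d, avg (fun ξ : Fin d → Wd d =>
      ind (¬ t ^ 15 * d * (vv (PP d) ξ l j) ^ 2 ≤ 16384))
      ≤ 3 * Real.exp (-(4 * Real.log d)) := by
    intro j
    have hstep := avg_step_le (PP d) hl (fun F => pi2 F (ee j) ≤ 2 * t ^ 2)
      (fun F w => ¬ t ^ 15 * d * (ker (PP d l) F w j) ^ 2 ≤ 16384)
      (c := 2 * Real.exp (-(2048 * t⁻¹))) (by positivity) ?_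
    · refine hstep.trans ?_
      have h1 := up_prob (PP d) (ee j) (norm_ee j).le l (D2 d / 5376) hl.le
        (by have := Nat.div_mul_le_self (D2 d) 5376; omega)
        (Lam := 2 * t ^ 2) (by positivity) (lam_le2 hD1 (by omega))
      have h2 := h.quarter
      have h3 : Real.exp (-(2048 * t⁻¹)) ≤ Real.exp (-(4 * Real.log d)) := by
        apply Real.exp_le_exp.mpr
        have : Real.log d ≤ t⁻¹ := by
          rw [← one_div, le_div_iff₀ ht0]; linarith
        linarith
      linarith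
    · intro F hF hG
      have hFo : finrank ℝ Fᗮ = D := by
        have := finrank_orth F
        omega
      have h1 := ker_tail (PP d l) F (by omega) (ee j) (L := 2 * t ^ 2)
        (κ := Real.sqrt (16384 / (t ^ 15 * d))) (by positivity) hG (Real.sqrt_nonneg _)
      rw [hFo, Real.sq_sqrt (by positivity)] at h1
      have e1 : 16384 / (t ^ 15 * d) * (D:ℝ) / (4 * (2 * t ^ 2)) = 2048 * t⁻¹ := by
        rw [← htD]; field_simp; norm_num
      rw [e1] at h1
      refine le_trans ?_ h1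
      apply avg_ind_mono
      intro w hw
      rw [not_le] at hw
      rw [inner_ee', ← Real.sqrt_sq_eq_abs]
      apply Real.sqrt_le_sqrt
      rw [div_le_iff₀ (by positivity)]
      linarith
  have h1 := avg_ind_exists_le (Ω := Fin d → Wd d) (Finset.univ : Finset (Fin d))
    (fun ξ j => ¬ t ^ 15 * d * (vv (PP d) ξ l j) ^ 2 ≤ 16384) (fun j _ => hbd j)
  rw [Finset.card_univ, Fintype.card_fin] at h1
  refine le_trans ?_ (h1.trans (le_of_eq ?_))
  · apply avg_ind_mono
    intro ξ hξ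
    unfold Bd at hξ
    rw [not_forall] at hξ
    obtain ⟨j, hj⟩ := hξ
    exact ⟨j, Finset.mem_univ j, hj⟩
  · have : (d:ℝ) * (3 * Real.exp (-(4 * Real.log d)))
        = 3 * (Real.exp (Real.log d) * Real.exp (-(4 * Real.log d))) := by
      rw [Real.exp_log hd]; ring
    rw [this, ← Real.exp_add]
    congr 2
    ring

/-- in the last phase the trivial bound suffices -/
theorem bd_phase3 (h : BigD d) {l : ℕ} (hl : l < d) (hD : d - l < D2 d) (ξ : Fin d → Wd d)
    (hup : ∀ j, pi2 (FF (PP d) ξ (d - D2 d)) (ee j) ≤ 2 * tt d (D2 d) ^ 2) : Bd ξ l := by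
  intro j
  have hd := h.dpos
  have hD2 := h.D2_le
  set t := tt d (d - l) with htdef
  set t2 := tt d (D2 d) with ht2def
  have ht0 : 0 ≤ t := tt_nonneg _ _
  have htt : t ≤ t2 := tt_mono hD.le
  have ht20 : 0 ≤ t2 := tt_nonneg _ _
  have h1 : (vv (PP d) ξ l j) ^ 2 ≤ 2 * t2 ^ 2 := by
    rw [← inner_ee' (vv (PP d) ξ l) j]
    refine (inner_sq_le_pi2 _ _ (vv_mem (PP d) ξ l) (norm_vv (PP d) ξ l hl)).trans ?_
    exact (pi2_anti (FF_mono (PP d) ξ (by omega : d - D2 d ≤ l)) _).trans (hup j)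
  have h2 : t2 ^ 17 * d ≤ 1 := by
    have e1 : (t2 ^ 17 * d) ^ 16 ≤ 1 ^ 16 := by
      have e2 : (t2 ^ 17 * (d:ℝ)) ^ 16 = (t2 ^ 16) ^ 17 * d ^ 16 := by ring
      rw [e2, ht2def, tt_pow, div_pow, one_pow]
      have e3 : (D2 d : ℝ) ^ 17 / d ^ 17 * d ^ 16 = (D2 d : ℝ) ^ 17 / d := by
        field_simp
      rw [e3, div_le_one hd]
      exact h.D2_pow
    exact (pow_le_pow_iff_left₀ (by positivity) (by norm_num) (by norm_num)).mp e1
  calc t ^ 15 * d * (vv (PP d) ξ l j) ^ 2 ≤ t2 ^ 15 * d * (2 * t2 ^ 2) := by gcongr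
    _ = 2 * (t2 ^ 17 * d) := by ring
    _ ≤ 16384 := by linarith

theorem bdd_prob (h : BigD d) :
    avg (fun ξ : Fin d → Wd d => ind (¬ ∀ l, l < d → Bd ξ l)) ≤ 4 / d ^ 2 := by
  have hd := h.dpos
  have h1 : avg (fun ξ : Fin d → Wd d => ind (∃ l ∈ (Finset.range d).filter
      (fun l => D2 d ≤ d - l), ¬ Bd ξ l)) ≤ 3 / d ^ 2 := by
    refine (avg_ind_exists_le _ (fun (ξ : Fin d → Wd d) l => ¬ Bd ξ l)
      (c := 3 * Real.exp (-(3 * Real.log d))) ?_).trans ?_
    · intro l hl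
      rw [Finset.mem_filter, Finset.mem_range] at hl
      rcases le_or_gt 1 (tt d (d - l) * Real.log d) with ht | ht
      · exact bd_phase1 h hl.1 ht
      · exact bd_phase2 h hl.1 ht hl.2
    · have e1 : (((Finset.range d).filter (fun l => D2 d ≤ d - l)).card : ℝ) ≤ d := by
        have := Finset.card_filter_le (Finset.range d) (fun l => D2 d ≤ d - l)
        rw [Finset.card_range] at this
        exact_mod_cast this
      refine (mul_le_mul_of_nonneg_right e1 (by positivity)).trans (le_of_eq ?_)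
      have e2 : Real.exp (-(3 * Real.log d)) = ((d:ℝ) ^ 3)⁻¹ := by
        rw [Real.exp_neg, mul_comm, Real.exp_mul, Real.exp_log hd]
        norm_cast
      rw [e2]
      field_simp
  have h2 : avg (fun ξ : Fin d → Wd d => ind (∃ j ∈ (Finset.univ : Finset (Fin d)),
      ¬ pi2 (FF (PP d) ξ (d - D2 d)) (ee j) ≤ 2 * tt d (D2 d) ^ 2)) ≤ 1 / d ^ 2 := by
    have hD2 := h.D2_le
    have hD2' := h.D2_pos
    have e0 : d - (d - D2 d) = D2 d := by omega
    refine (avg_ind_exists_le _ _ (c := Real.exp (-(4 * Real.log d))) ?_).trans ?_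
    · intro j _
      refine (up_prob (PP d) (ee j) (norm_ee j).le (d - D2 d) (D2 d / 5376) (by omega)
        (by rw [e0]; have := Nat.div_mul_le_self (D2 d) 5376; omega) (by positivity)
        (by rw [e0]; exact lam_le2 (by omega) hD2)).trans h.quarter
    · rw [Finset.card_univ, Fintype.card_fin]
      have e2 : Real.exp (-(4 * Real.log d)) = ((d:ℝ) ^ 4)⁻¹ := by
        rw [Real.exp_neg, mul_comm, Real.exp_mul, Real.exp_log hd]
        norm_cast
      rw [e2]
      have h3 : (1:ℝ) ≤ d := by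
        have : (3:ℝ) ≤ d := by exact_mod_cast h.d3
        linarith
      have e3 : (d:ℝ) * ((d:ℝ) ^ 4)⁻¹ = 1 / d ^ 3 := by field_simp
      rw [e3]
      apply one_div_le_one_div_of_le (by positivity)
      exact pow_le_pow_right₀ h3 (by norm_num)
  have h3 := avg_ind_or_le (r := fun ξ : Fin d → Wd d => ¬ ∀ l, l < d → Bd ξ l) ?_ h1 h2
  · refine h3.trans (le_of_eq ?_)
    ring
  · intro ξ hξ
    by_contra hcon
    push Not at hcon
    obtain ⟨h4, h5⟩ := hcon
    apply hξ
    intro l hl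
    rcases le_or_gt (D2 d) (d - l) with hc | hc
    · exact h4 l (Finset.mem_filter.mpr ⟨Finset.mem_range.mpr hl, hc⟩)
    · exact bd_phase3 h hl hc ξ (fun j => h5 j (Finset.mem_univ j))

end Pool.Agent.Helper50_RIP
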