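import Mathlib

set_option autoImplicit false
set_option linter.unusedSectionVars false
set_option linter.unusedVariables false

/-!
# Haar matrices and mixing of the rows
-/

namespace Pool.Agent.Helper50_RIP

theorem exists_haar (s : ℕ) : ∀ (ι : Type) [Fintype ι] [DecidableEq ι] (i0 : ι),
    Fintype.card ι = 2 ^ s → ∃ H : ι → ι → ℝ,
      (∀ i i', ∑ j, H i j * H i' j = if i = i' then 1 else 0) ∧
      (∀ i, H i i0 ^ 2 = 1 / 2 ^ s) ∧ (∀ i, ∑ j, |H i j| ≤ 3) := by
  induction s with
  | zero =>
    intro ι _ _ i0 hc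
    rw [pow_zero] at hc
    have : Subsingleton ι := Fintype.card_le_one_iff_subsingleton.mp hc.le
    have : Unique ι := { default := i0, uniq := fun a => Subsingleton.elim _ _ }
    refine ⟨fun _ _ => 1, ?_, ?_, ?_⟩
    · intro i i'
      rw [if_pos (Subsingleton.elim i i')]
      simp
    · intro i; norm_num
    · intro i; simp
  | succ s ih =>
    intro ι _ _ i0 hc
    obtain ⟨H, h1, h2, h3⟩ := ih (Fin (2 ^ s)) ⟨0, by positivity⟩ (Fintype.card_fin _)
    have hcard : Fintype.card ι = Fintype.card (Fin (2 ^ s) × Bool) := by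
      rw [hc, Fintype.card_prod, Fintype.card_fin, Fintype.card_bool, pow_succ]
    obtain ⟨e0⟩ : Nonempty (ι ≃ Fin (2 ^ s) × Bool) := ⟨Fintype.equivOfCardEq hcard⟩
    set p0 : Fin (2 ^ s) × Bool := (⟨0, by positivity⟩, false) with hp0
    set e : ι ≃ Fin (2 ^ s) × Bool := e0.trans (Equiv.swap (e0 i0) p0) with he
    have hei0 : e i0 = p0 := by rw [he]; simp
    set G : Fin (2 ^ s) × Bool → Fin (2 ^ s) × Bool → ℝ := fun p q =>
      (if q.2 then (if p.1 = q.1 then (if p.2 then -1 else 1) else 0) else H p.1 q.1) / Real.sqrt 2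
      with hG
    have hs2 : Real.sqrt 2 * Real.sqrt 2 = 2 := Real.mul_self_sqrt (by norm_num)
    have hs0 : 0 < Real.sqrt 2 := Real.sqrt_pos.mpr (by norm_num)
    have hs1 : (4:ℝ) / 3 ≤ Real.sqrt 2 := by
      apply Real.le_sqrt_of_sq_le; norm_num
    refine ⟨fun i j => G (e i) (e j), ?_, ?_, ?_⟩
    · intro i i'
      rw [Equiv.sum_comp e (fun q => G (e i) q * G (e i') q)]
      have key : ∀ p p' : Fin (2 ^ s) × Bool, ∑ q, G p q * G p' q = if p = p' then 1 else 0 := by
        intro p p'
        rw [Fintype.sum_prod_type_right, Fintype.sum_bool]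
        have e1 : ∑ x, G p (x, true) * G p' (x, true)
            = (if p.1 = p'.1 then (if p.2 then -1 else 1) * (if p'.2 then -1 else 1) else 0) / 2 := by
          have : ∀ x, G p (x, true) * G p' (x, true) = if p.1 = x then
              ((if p.1 = p'.1 then (if p.2 then (-1:ℝ) else 1) * (if p'.2 then -1 else 1) else 0) / 2)
              else 0 := by
            intro x
            simp only [hG, if_true]
            rw [div_mul_div_comm, hs2]
            by_cases c1 : p.1 = x
            · rw [if_pos c1, if_pos c1]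
              subst c1
              by_cases c2 : p'.1 = p.1
              · rw [if_pos c2, if_pos c2.symm]
              · have c3 : ¬ p.1 = p'.1 := fun h => c2 h.symm
                simp [c2, c3]
            · rw [if_neg c1, if_neg c1]; simp
          rw [Finset.sum_congr rfl (fun x _ => this x), Finset.sum_ite_eq]
          simp
        have e2 : ∑ x, G p (x, false) * G p' (x, false) = (if p.1 = p'.1 then 1 else 0) / 2 := by
          have : ∀ x, G p (x, false) * G p' (x, false) = (H p.1 x * H p'.1 x) / 2 := by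
            intro x
            simp only [hG, Bool.false_eq_true, if_false]
            rw [div_mul_div_comm, hs2]
          rw [Finset.sum_congr rfl (fun x _ => this x), ← Finset.sum_div, h1]
        rw [e1, e2]
        obtain ⟨p1, b⟩ := p
        obtain ⟨p1', b'⟩ := p'
        by_cases c : p1 = p1'
        · subst c
          cases b <;> cases b' <;> simp <;> norm_num
        · have : ¬ ((p1, b) = (p1', b')) := by
            intro h; exact c (congrArg Prod.fst h)
          rw [if_neg this]
          simp [c]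
      rw [key]
      simp [e.injective.eq_iff]
    · intro i
      simp only [hei0]
      have : G (e i) p0 ^ 2 = (H (e i).1 ⟨0, by positivity⟩) ^ 2 / 2 := by
        simp only [hG, hp0, Bool.false_eq_true, if_false]
        rw [div_pow, sq (Real.sqrt 2), hs2]
      rw [this, h2, pow_succ]
      field_simp
    · intro i
      rw [Equiv.sum_comp e (fun q => |G (e i) q|)]
      rw [Fintype.sum_prod_type_right, Fintype.sum_bool]
      have e1 : ∑ x, |G (e i) (x, true)| = 1 / Real.sqrt 2 := by
        have : ∀ x, |G (e i) (x, true)| = if (e i).1 = x then 1 / Real.sqrt 2 else 0 := by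
          intro x
          simp only [hG, if_true]
          rw [abs_div, abs_of_pos hs0]
          by_cases c1 : (e i).1 = x
          · rw [if_pos c1, if_pos c1]
            cases (e i).2 <;> simp
          · rw [if_neg c1, if_neg c1]; simp
        rw [Finset.sum_congr rfl (fun x _ => this x), Finset.sum_ite_eq]
        simp
      have e2 : ∑ x, |G (e i) (x, false)| ≤ 3 / Real.sqrt 2 := by
        have : ∀ x, |G (e i) (x, false)| = |H (e i).1 x| / Real.sqrt 2 := by
          intro x
          simp only [hG, Bool.false_eq_true, if_false]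
          rw [abs_div, abs_of_pos hs0]
        rw [Finset.sum_congr rfl (fun x _ => this x), ← Finset.sum_div]
        gcongr
        exact h3 _
      rw [e1]
      have : 1 / Real.sqrt 2 + 3 / Real.sqrt 2 ≤ 3 := by
        rw [← add_div, div_le_iff₀ hs0]; linarith
      linarith

open Classical in
/-- grouping of the bad rows with good rows -/
theorem exists_groups {d : ℕ} (B : Finset (Fin d)) (N : Fin d → ℕ) (hN : ∀ b, 1 ≤ N b)
    (hsum : ∑ b ∈ B, (N b - 1) ≤ Bᶜ.card) :
    ∃ γ : Fin d → Fin d, (∀ b ∈ B, γ b = b) ∧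
      (∀ b ∈ B, (Finset.univ.filter (fun l => γ l = b)).card = N b) ∧
      (∀ l, γ l ∉ B → γ l = l) := by
  have hcard : Fintype.card (Σ b : B, Fin (N b - 1)) ≤ Fintype.card (↥(Bᶜ : Finset (Fin d))) := by
    rw [Fintype.card_sigma, Fintype.card_coe]
    simp only [Fintype.card_fin]
    rw [Finset.sum_coe_sort B (fun b => N b - 1)]
    exact hsum
  obtain ⟨φ⟩ := Function.Embedding.nonempty_of_card_le hcard
  have hφB : ∀ p, ((φ p : ↥(Bᶜ : Finset (Fin d))) : Fin d) ∉ B := fun p =>
    Finset.mem_compl.mp (φ p).2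
  refine ⟨fun l => if l ∈ B then l else if h : ∃ p, ((φ p : ↥(Bᶜ : Finset (Fin d))) : Fin d) = l
    then (h.choose.1 : Fin d) else l, ?_, ?_, ?_⟩
  · intro b hb; simp only; rw [if_pos hb]
  · intro b hb
    have himg : Finset.univ.filter (fun l => (if l ∈ B then l else
        if h : ∃ p, ((φ p : ↥(Bᶜ : Finset (Fin d))) : Fin d) = l
        then (h.choose.1 : Fin d) else l) = b)
        = insert b ((Finset.univ : Finset (Fin (N b - 1))).image
          (fun i => ((φ ⟨⟨b, hb⟩, i⟩ : ↥(Bᶜ : Finset (Fin d))) : Fin d))) := by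
      ext l
      rw [Finset.mem_filter, Finset.mem_insert, Finset.mem_image]
      simp only [Finset.mem_univ, true_and]
      constructor
      · intro h
        by_cases c1 : l ∈ B
        · rw [if_pos c1] at h; left; exact h
        · rw [if_neg c1] at h
          by_cases c2 : ∃ p, ((φ p : ↥(Bᶜ : Finset (Fin d))) : Fin d) = l
          · rw [dif_pos c2] at h
            right
            have hs := c2.choose_spec
            rcases hcc : c2.choose with ⟨⟨b', hb'⟩, i⟩
            rw [hcc] at h hs
            simp only at h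
            subst h
            exact ⟨i, hs⟩
          · rw [dif_neg c2] at h
            left; exact h
      · rintro (h | ⟨i, hi⟩)
        · subst h; rw [if_pos hb]
        · have c1 : l ∉ B := by rw [← hi]; exact hφB _
          rw [if_neg c1]
          have c2 : ∃ p, ((φ p : ↥(Bᶜ : Finset (Fin d))) : Fin d) = l := ⟨_, hi⟩
          rw [dif_pos c2]
          have hs := c2.choose_spec
          have : c2.choose = ⟨⟨b, hb⟩, i⟩ := by
            apply φ.injective
            apply Subtype.ext
            rw [hs, hi]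
          rw [this]
    rw [himg, Finset.card_insert_of_notMem, Finset.card_image_of_injective, Finset.card_univ,
      Fintype.card_fin]
    · have := hN b
      show N b - 1 + 1 = N b
      omega
    · intro i j hij
      have := φ.injective (Subtype.ext hij)
      simpa using this
    · rw [Finset.mem_image]
      rintro ⟨i, -, hi⟩
      exact hφB _ (hi ▸ hb)
  · intro l hl
    simp only at hl ⊢
    by_cases c1 : l ∈ B
    · rw [if_pos c1]
    · rw [if_neg c1] at hl ⊢
      by_cases c2 : ∃ p, ((φ p : ↥(Bᶜ : Finset (Fin d))) : Fin d) = l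
      · rw [dif_pos c2] at hl
        exact absurd (c2.choose.1).2 hl
      · rw [dif_neg c2]

open Classical in
/-- the mixing matrix -/
theorem exists_mix {d : ℕ} (B : Finset (Fin d)) (s : Fin d → ℕ)
    (hsum : ∑ b ∈ B, (2 ^ s b - 1) ≤ Bᶜ.card) :
    ∃ (O : Fin d → Fin d → ℝ) (γ : Fin d → Fin d),
      (∀ l l', ∑ j, O l j * O l' j = if l = l' then 1 else 0) ∧
      (∀ l, ∑ j, |O l j| ≤ 3) ∧
      (∀ b ∈ B, ∀ l, O l b ^ 2 = if γ l = b then 1 / 2 ^ s b else 0) ∧
      (∀ b ∈ B, (Finset.univ.filter (fun l => γ l = b)).card = 2 ^ s b) := by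
  obtain ⟨γ, g1, g2, g3⟩ := exists_groups B (fun b => 2 ^ s b) (fun b => Nat.one_le_two_pow) hsum
  have hH : ∀ c, ∀ hc : c ∈ B, ∃ H : {l // γ l = c} → {l // γ l = c} → ℝ,
      (∀ i i', ∑ j, H i j * H i' j = if i = i' then 1 else 0) ∧
      (∀ i, H i ⟨c, g1 c hc⟩ ^ 2 = 1 / 2 ^ s c) ∧ (∀ i, ∑ j, |H i j| ≤ 3) := by
    intro c hc
    apply exists_haar
    rw [Fintype.card_subtype]
    exact g2 c hc
  choose H h1 h2 h3 using hH
  set O : Fin d → Fin d → ℝ := fun l j =>
    if h : γ l ∈ B then (if h' : γ j = γ l then H (γ l) h ⟨l, rfl⟩ ⟨j, h'⟩ else 0)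
    else (if l = j then 1 else 0) with hO
  have hO1 : ∀ c (hc : c ∈ B) (l j : Fin d) (hl : γ l = c) (hj : γ j = c),
      O l j = H c hc ⟨l, hl⟩ ⟨j, hj⟩ := by
    intro c hc l j hl hj
    subst hl
    simp only [hO]
    rw [dif_pos hc, dif_pos hj]
  have hO0 : ∀ l j, γ j ≠ γ l → O l j = 0 := by
    intro l j h
    simp only [hO]
    by_cases c1 : γ l ∈ B
    · rw [dif_pos c1, dif_neg h]
    · rw [dif_neg c1, if_neg]
      intro h'; subst h'; exact h rfl
  have hO2 : ∀ l j, γ l ∉ B → O l j = if l = j then 1 else 0 := by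
    intro l j h
    simp only [hO]
    rw [dif_neg h]
  have hsub : ∀ (c : Fin d) (f : Fin d → ℝ), (∀ j, γ j ≠ c → f j = 0) →
      ∑ j, f j = ∑ x : {j // γ j = c}, f x := by
    intro c f hf
    rw [← Finset.sum_subtype (Finset.univ.filter (fun j => γ j = c)) (by simp) f]
    symm
    apply Finset.sum_subset (Finset.subset_univ _)
    intro j _ hj
    apply hf
    intro h
    exact hj (Finset.mem_filter.mpr ⟨Finset.mem_univ j, h⟩)
  refine ⟨O, γ, ?_, ?_, ?_, g2⟩
  · intro l l'
    by_cases hc : γ l = γ l'
    · by_cases c1 : γ l ∈ B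
      · rw [hsub (γ l) _ (fun j hj => by rw [hO0 l j hj, zero_mul])]
        have e1 : ∀ x : {j // γ j = γ l}, O l x * O l' x
            = H (γ l) c1 ⟨l, rfl⟩ x * H (γ l) c1 ⟨l', hc.symm⟩ x := by
          intro x
          rw [hO1 (γ l) c1 l x rfl x.2, hO1 (γ l) c1 l' x hc.symm x.2]
        rw [Finset.sum_congr rfl (fun x _ => e1 x), h1]
        simp
      · have e1 : l = l' := by
          rw [← g3 l c1, ← g3 l' (hc ▸ c1), hc]
        subst e1
        rw [Finset.sum_eq_single l]
        · rw [hO2 l l c1]; simp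
        · intro j _ hj
          rw [hO2 l j c1, if_neg (Ne.symm hj)]; simp
        · simp
    · have hne : l ≠ l' := fun h => hc (by rw [h])
      rw [if_neg hne]
      apply Finset.sum_eq_zero
      intro j _
      by_cases c1 : γ j = γ l
      · rw [hO0 l' j (fun h => hc (c1.symm.trans h)), mul_zero]
      · rw [hO0 l j c1, zero_mul]
  · intro l
    by_cases c1 : γ l ∈ B
    · rw [hsub (γ l) _ (fun j hj => by rw [hO0 l j hj, abs_zero])]
      have e1 : ∀ x : {j // γ j = γ l}, |O l x| = |H (γ l) c1 ⟨l, rfl⟩ x| := by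
        intro x
        rw [hO1 (γ l) c1 l x rfl x.2]
      rw [Finset.sum_congr rfl (fun x _ => e1 x)]
      exact h3 _ _ _
    · rw [Finset.sum_eq_single l]
      · rw [hO2 l l c1]; simp
      · intro j _ hj
        rw [hO2 l j c1, if_neg (Ne.symm hj)]; simp
      · simp
  · intro b hb l
    by_cases hc : γ l = b
    · rw [if_pos hc, hO1 b hb l b hc (g1 b hb)]
      exact h2 b hb _
    · rw [if_neg hc, hO0 l b (by rw [g1 b hb]; exact fun h => hc h.symm)]
      norm_num

end Pool.Agent.Helper50_RIP
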