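import Mathlib
import Pool.Agent.Helper50_RIP.Bdd3
import Pool.Agent.Helper50_RIP.Haar

set_option autoImplicit false
set_option linter.unusedSectionVars false
set_option linter.unusedVariables false

/-!
# Sizes of the groups
-/

namespace Pool.Agent.Helper50_RIP

open Pool.Agent.Helper50_Stretch Module

theorem pow_sub_pow_le {x y : ℝ} (hy : 0 ≤ y) (hxy : y ≤ x) :
    ∀ n : ℕ, x ^ (n + 1) - y ^ (n + 1) ≤ (n + 1) * x ^ n * (x - y)
  | 0 => by simp
  | n + 1 => by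
    have ih := pow_sub_pow_le hy hxy n
    have hx : 0 ≤ x := hy.trans hxy
    have h1 := mul_le_mul_of_nonneg_left ih hx
    have h2 : y ^ (n + 1) * (x - y) ≤ x ^ (n + 1) * (x - y) :=
      mul_le_mul_of_nonneg_right (pow_le_pow_left₀ hy hxy _) (by linarith)
    have h3 : x ^ (n + 1 + 1) - y ^ (n + 1 + 1)
        = x * (x ^ (n + 1) - y ^ (n + 1)) + y ^ (n + 1) * (x - y) := by ring
    rw [h3]
    push_cast
    have h4 : x * ((n + 1) * x ^ n * (x - y)) = (n + 1) * x ^ (n + 1) * (x - y) := by ring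
    linarith

variable {d : ℕ}

theorem tt_sum15 (hd : 0 < d) : ∀ N : ℕ,
    ∑ i ∈ Finset.range N, (tt d (i + 1))⁻¹ ^ 15 ≤ 16 * d * tt d N
  | 0 => by simp; have := tt_nonneg d 0; positivity
  | N + 1 => by
    have ih := tt_sum15 hd N
    rw [Finset.sum_range_succ]
    have hd0 : (0:ℝ) < d := by exact_mod_cast hd
    have ht : 0 < tt d (N + 1) := tt_pos hd (by omega)
    have h1 := pow_sub_pow_le (tt_nonneg d N) (tt_mono (d := d) (by omega : N ≤ N + 1)) 15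
    norm_num at h1
    rw [tt_pow, tt_pow] at h1
    have h2 : ((N + 1 : ℕ) : ℝ) / d - N / d = 1 / d := by push_cast; ring
    have h1 : 1 / (d:ℝ) ≤ 16 * tt d (N + 1) ^ 15 * (tt d (N + 1) - tt d N) := by linarith
    rw [div_le_iff₀ hd0] at h1
    have h3 : (tt d (N + 1))⁻¹ ^ 15 ≤ 16 * d * (tt d (N + 1) - tt d N) := by
      rw [inv_pow, inv_le_iff_one_le_mul₀ (by positivity)]
      calc 1 ≤ 16 * tt d (N + 1) ^ 15 * (tt d (N + 1) - tt d N) * d := h1
        _ = _ := by ring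
    linarith

theorem tt_sum14 (hd : 0 < d) : ∀ N : ℕ,
    ∑ i ∈ Finset.range N, (tt d (i + 1))⁻¹ ^ 14 ≤ 8 * d * tt d N ^ 2
  | 0 => by simp; positivity
  | N + 1 => by
    have ih := tt_sum14 hd N
    rw [Finset.sum_range_succ]
    have hd0 : (0:ℝ) < d := by exact_mod_cast hd
    have ht : 0 < tt d (N + 1) := tt_pos hd (by omega)
    have h0 : tt d N ^ 2 ≤ tt d (N + 1) ^ 2 :=
      pow_le_pow_left₀ (tt_nonneg d N) (tt_mono (d := d) (by omega : N ≤ N + 1)) 2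
    have h1 := pow_sub_pow_le (sq_nonneg (tt d N)) h0 7
    norm_num at h1
    rw [← pow_mul, ← pow_mul, ← pow_mul] at h1
    norm_num at h1
    rw [tt_pow, tt_pow] at h1
    have h2 : ((N + 1 : ℕ) : ℝ) / d - N / d = 1 / d := by push_cast; ring
    have h1 : 1 / (d:ℝ) ≤ 8 * tt d (N + 1) ^ 14 * (tt d (N + 1) ^ 2 - tt d N ^ 2) := by linarith
    rw [div_le_iff₀ hd0] at h1
    have h3 : (tt d (N + 1))⁻¹ ^ 14 ≤ 8 * d * (tt d (N + 1) ^ 2 - tt d N ^ 2) := by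
      rw [inv_pow, inv_le_iff_one_le_mul₀ (by positivity)]
      calc 1 ≤ 8 * tt d (N + 1) ^ 14 * (tt d (N + 1) ^ 2 - tt d N ^ 2) * d := h1
        _ = _ := by ring
    linarith

/-- number of bad vectors -/
def n0 (d : ℕ) : ℕ := (d - 1) / 2 ^ 128

theorem n0_lt (hd : 0 < d) : 2 ^ 128 * n0 d < d := by
  have h := Nat.mul_div_le (d - 1) (2 ^ 128)
  unfold n0
  omega

theorem n0_le (hd : 0 < d) : n0 d ≤ d := by
  have := n0_lt hd
  omega

theorem lt_n0_succ (d : ℕ) : d ≤ 2 ^ 128 * (n0 d + 1) := by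
  have h := Nat.lt_mul_div_succ (d - 1) (by positivity : 0 < 2 ^ 128)
  unfold n0
  omega

theorem tt_n0 (hd : 0 < d) {n : ℕ} (hn : n ≤ n0 d) : tt d n ≤ 1 / 256 := by
  have hd0 : (0:ℝ) < d := by exact_mod_cast hd
  have h1 : tt d n ^ 16 ≤ (1 / 256) ^ 16 := by
    rw [tt_pow, div_le_iff₀ hd0]
    have h2 := n0_lt hd
    have h3 : ((2 ^ 128 * n0 d : ℕ) : ℝ) ≤ d := by exact_mod_cast h2.le
    have h4 : (n:ℝ) ≤ n0 d := by exact_mod_cast hn
    push_cast at h3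
    have h5 : ((1:ℝ) / 256) ^ 16 * 2 ^ 128 = 1 := by norm_num
    nlinarith
  exact (pow_le_pow_iff_left₀ (tt_nonneg _ _) (by norm_num) (by norm_num)).mp h1

theorem tt_good (hd : 0 < d) {n : ℕ} (hn : n0 d < n) : 1 / 256 ≤ tt d n := by
  have hd0 : (0:ℝ) < d := by exact_mod_cast hd
  have h1 : (1 / 256) ^ 16 ≤ tt d n ^ 16 := by
    rw [tt_pow, le_div_iff₀ hd0]
    have h2 := lt_n0_succ d
    have h3 : (d:ℝ) ≤ ((2 ^ 128 * (n0 d + 1) : ℕ) : ℝ) := by exact_mod_cast h2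
    have h4 : ((n0 d + 1 : ℕ) : ℝ) ≤ n := by exact_mod_cast hn
    push_cast at h3 h4
    have h5 : ((1:ℝ) / 256) ^ 16 * 2 ^ 128 = 1 := by norm_num
    nlinarith
  exact (pow_le_pow_iff_left₀ (by norm_num) (tt_nonneg _ _) (by norm_num)).mp h1

/-- bad indices -/
def badS (d : ℕ) : Finset (Fin d) := Finset.univ.filter (fun b => d - n0 d ≤ (b:ℕ))

theorem mem_badS {b : Fin d} : b ∈ badS d ↔ d - n0 d ≤ (b:ℕ) := by
  unfold badS; simp

theorem sum_badS (hd : 0 < d) (g : ℕ → ℝ) :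
    ∑ b ∈ badS d, g (d - b) = ∑ i ∈ Finset.range (n0 d), g (i + 1) := by
  symm
  have hn := n0_le hd
  refine Finset.sum_bij (fun i hi => (⟨d - 1 - i, by
    rw [Finset.mem_range] at hi; omega⟩ : Fin d)) ?_ ?_ ?_ ?_
  · intro i hi
    rw [Finset.mem_range] at hi
    rw [mem_badS]
    show d - n0 d ≤ d - 1 - i
    omega
  · intro i hi j hj h
    rw [Finset.mem_range] at hi hj
    have := congrArg Fin.val h
    simp only at this
    omega
  · intro b hb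
    rw [mem_badS] at hb
    have := b.isLt
    refine ⟨d - 1 - b, ?_, ?_⟩
    · rw [Finset.mem_range]; omega
    · apply Fin.ext
      show d - 1 - (d - 1 - (b:ℕ)) = b
      omega
  · intro i hi
    rw [Finset.mem_range] at hi
    show g (i + 1) = g (d - (d - 1 - i))
    congr 1
    omega

theorem card_badS (hd : 0 < d) : (badS d).card = n0 d := by
  have h := sum_badS hd (fun _ => (1:ℝ))
  simp only [Finset.sum_const, nsmul_eq_mul, mul_one, Finset.card_range] at h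
  exact_mod_cast h

/-- group exponents -/
noncomputable def sx (d : ℕ) (b : Fin d) : ℕ := Nat.clog 2 ⌈(tt d (d - b))⁻¹ ^ 15⌉₊

theorem sx_ge (b : Fin d) : (tt d (d - b))⁻¹ ^ 15 ≤ 2 ^ sx d b := by
  have h1 := Nat.le_pow_clog (b := 2) (by norm_num) ⌈(tt d (d - b))⁻¹ ^ 15⌉₊
  have h2 : ((⌈(tt d (d - b))⁻¹ ^ 15⌉₊ : ℕ) : ℝ) ≤ ((2 ^ sx d b : ℕ) : ℝ) := by
    exact_mod_cast h1
  push_cast at h2
  exact (Nat.le_ceil _).trans h2

theorem sx_le (b : Fin d) : (2:ℝ) ^ sx d b ≤ 4 * (tt d (d - b))⁻¹ ^ 15 := by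
  have hd : 0 < d := by have := b.isLt; omega
  have ht : 0 < tt d (d - b) := tt_pos hd (by have := b.isLt; omega)
  have ht1 : tt d (d - b) ≤ 1 := tt_le_one (by omega)
  set y := (tt d (d - b))⁻¹ ^ 15 with hy
  have hy1 : 1 ≤ y := one_le_pow₀ ((one_le_inv₀ ht).mpr ht1)
  have hc : ((⌈y⌉₊ : ℕ) : ℝ) ≤ 2 * y := by
    have := Nat.ceil_lt_add_one (by linarith : 0 ≤ y)
    linarith
  rcases le_or_gt ⌈y⌉₊ 1 with h | h
  · have : sx d b = 0 := by
      unfold sx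
      rw [← hy]
      exact Nat.clog_of_right_le_one h 2
    rw [this, pow_zero]; linarith
  · have h1 := Nat.pow_pred_clog_lt_self (b := 2) (by norm_num) h
    have h2 : 0 < Nat.clog 2 ⌈y⌉₊ := Nat.clog_pos (by norm_num) h
    have h3 : (2:ℝ) ^ (Nat.clog 2 ⌈y⌉₊ - 1) ≤ (⌈y⌉₊ : ℝ) := by exact_mod_cast h1.le
    have h4 : (2:ℝ) ^ sx d b = 2 * 2 ^ (Nat.clog 2 ⌈y⌉₊ - 1) := by
      unfold sx
      rw [← hy, ← pow_succ']
      congr 1
      omega
    rw [h4]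
    linarith

theorem groups_fit (hd : 0 < d) : ∑ b ∈ badS d, (2 ^ sx d b - 1) ≤ ((badS d)ᶜ).card := by
  have hd0 : (0:ℝ) < d := by exact_mod_cast hd
  have h1 : ((∑ b ∈ badS d, (2 ^ sx d b - 1) : ℕ) : ℝ) ≤ d / 4 := by
    calc ((∑ b ∈ badS d, (2 ^ sx d b - 1) : ℕ) : ℝ) ≤ ∑ b ∈ badS d, (2:ℝ) ^ sx d b := by
          push_cast
          apply Finset.sum_le_sum
          intro b _
          have : ((2 ^ sx d b - 1 : ℕ) : ℝ) ≤ ((2 ^ sx d b : ℕ) : ℝ) := by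
            exact_mod_cast Nat.sub_le _ _
          push_cast at this ⊢
          exact this
      _ ≤ ∑ b ∈ badS d, 4 * (tt d (d - b))⁻¹ ^ 15 := Finset.sum_le_sum (fun b _ => sx_le b)
      _ = 4 * ∑ i ∈ Finset.range (n0 d), (tt d (i + 1))⁻¹ ^ 15 := by
          rw [← Finset.mul_sum, sum_badS hd (fun n => (tt d n)⁻¹ ^ 15)]
      _ ≤ 4 * (16 * d * tt d (n0 d)) := by
          have := tt_sum15 hd (n0 d); linarith
      _ ≤ d / 4 := by
          have := tt_n0 hd (le_refl (n0 d))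
          nlinarith
  have h2 : ((badS d)ᶜ).card = d - n0 d := by
    rw [Finset.card_compl, Fintype.card_fin, card_badS hd]
  rw [h2]
  have h3 := n0_lt hd
  have h4 : (d:ℝ) / 4 ≤ ((d - n0 d : ℕ) : ℝ) := by
    rw [Nat.cast_sub (n0_le hd)]
    have h5 : ((2 ^ 128 * n0 d : ℕ) : ℝ) ≤ d := by exact_mod_cast h3.le
    push_cast at h5
    have h6 : (0:ℝ) ≤ n0 d := Nat.cast_nonneg _
    nlinarith
  exact_mod_cast h1.trans h4

end Pool.Agent.Helper50_RIP
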