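import Mathlib
import Pool.Agent.Helper50_RIP.Bdd3

set_option autoImplicit false
set_option linter.unusedSectionVars false
set_option linter.unusedVariables false

/-!
# Exponential moments of the process
-/

namespace Pool.Agent.Helper50_RIP

open Pool.Agent.Helper50_Stretch Module
open scoped InnerProductSpace

variable {d : ℕ}

theorem FF_update (P : ℕ → KP) (ξ : Fin d → Wd d) (i : Fin d) (w : Wd d) {l : ℕ} (hl : l ≤ i) :
    FF P (Function.update ξ i w) l = FF P ξ l := run_update (ostep P) ⊥ ξ i w l hl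

theorem vv_update (P : ℕ → KP) (ξ : Fin d → Wd d) (i : Fin d) (w : Wd d) {l : ℕ} (hl : l < i) :
    vv P (Function.update ξ i w) l = vv P ξ l := by
  unfold vv
  rw [FF_update P ξ i w hl.le, coord_update_ne ξ i w hl.ne]

theorem avg_mul_step (P : ℕ → KP) {l : ℕ} (hl : l < d) (G : (Fin d → Wd d) → ℝ)
    (hG : ∀ ξ w, G (Function.update ξ ⟨l, hl⟩ w) = G ξ) (H : Submodule ℝ (V d) → Wd d → ℝ) :
    avg (fun ξ : Fin d → Wd d => G ξ * H (FF P ξ l) (coord ξ l))
      = avg (fun ξ : Fin d → Wd d => G ξ * avg (fun w => H (FF P ξ l) w)) := by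
  rw [avg_update ⟨l, hl⟩ (fun ξ : Fin d → Wd d => G ξ * H (FF P ξ l) (coord ξ l))]
  apply avg_congr
  intro ξ
  rw [← avg_const_mul]
  apply avg_congr
  intro w
  have h2 := coord_update_same ξ ⟨l, hl⟩ w
  simp only at h2
  rw [hG, FF_update P ξ ⟨l, hl⟩ w (le_refl _), h2]

/-- linear exponential moments -/
theorem avg_exp_lin (P : ℕ → KP) (x : V d) (hx : ‖x‖ ≤ 1) (c : ℕ → ℝ) :
    ∀ L : ℕ, L ≤ d → avg (fun ξ : Fin d → Wd d =>
      Real.exp (∑ j ∈ Finset.range L, c j * ⟪x, vv P ξ j⟫_ℝ))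
      ≤ Real.exp (∑ j ∈ Finset.range L, c j ^ 2 / ((d - j : ℕ) : ℝ))
  | 0, _ => by
    simp only [Finset.range_zero, Finset.sum_empty]
    rw [avg_const]
  | L + 1, hL => by
    have ih := avg_exp_lin P x hx c L (by omega)
    have h1 : ∀ ξ : Fin d → Wd d, Real.exp (∑ j ∈ Finset.range (L + 1), c j * ⟪x, vv P ξ j⟫_ℝ)
        = Real.exp (∑ j ∈ Finset.range L, c j * ⟪x, vv P ξ j⟫_ℝ)
          * (fun F w => Real.exp (c L * ⟪x, ker (P L) F w⟫_ℝ)) (FF P ξ L) (coord ξ L) := by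
      intro ξ
      rw [Finset.sum_range_succ, Real.exp_add]
      rfl
    rw [avg_congr h1, avg_mul_step P (by omega : L < d)
      (fun ξ => Real.exp (∑ j ∈ Finset.range L, c j * ⟪x, vv P ξ j⟫_ℝ)) ?_
      (fun F w => Real.exp (c L * ⟪x, ker (P L) F w⟫_ℝ))]
    · have h2 : ∀ ξ : Fin d → Wd d, Real.exp (∑ j ∈ Finset.range L, c j * ⟪x, vv P ξ j⟫_ℝ)
          * avg (fun w => Real.exp (c L * ⟪x, ker (P L) (FF P ξ L) w⟫_ℝ))
          ≤ Real.exp (∑ j ∈ Finset.range L, c j * ⟪x, vv P ξ j⟫_ℝ)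
            * Real.exp (c L ^ 2 / ((d - L : ℕ) : ℝ)) := by
        intro ξ
        apply mul_le_mul_of_nonneg_left _ (Real.exp_pos _).le
        have hfr := finrank_FF_orth P ξ L (by omega)
        refine (avg_exp_ker (P L) (FF P ξ L) (by omega) x (c L)).trans ?_
        apply Real.exp_le_exp.mpr
        rw [hfr, ← mul_div_assoc]
        have h3 : pi2 (FF P ξ L) x ≤ 1 :=
          (pi2_le_norm_sq _ x).trans (pow_le_one₀ (norm_nonneg _) hx)
        have h4 := pi2_nonneg (FF P ξ L) x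
        gcongr
        nlinarith [sq_nonneg (c L)]
      refine (avg_mono h2).trans ?_
      rw [avg_mul_const, Finset.sum_range_succ, Real.exp_add]
      exact mul_le_mul_of_nonneg_right ih (Real.exp_pos _).le
    · intro ξ w
      congr 1
      apply Finset.sum_congr rfl
      intro j hj
      rw [Finset.mem_range] at hj
      rw [vv_update P ξ ⟨L, _⟩ w hj]

/-- quadratic exponential moments on the event that the residual projections are small -/
theorem avg_exp_quad (P : ℕ → KP) (x : V d) (ρ u : ℕ → ℝ) (hρ : ∀ j, 0 ≤ ρ j)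
    (hu : ∀ j, 0 ≤ u j) (L : ℕ) (hL : L ≤ d)
    (h : ∀ j, j < L → 4 * ρ j * (u j / ((d - j : ℕ) : ℝ)) ≤ 1 / 2) :
    avg (fun ξ : Fin d → Wd d =>
      ∏ j ∈ Finset.range L, (Real.exp (ρ j * ⟪x, vv P ξ j⟫_ℝ ^ 2)
        * ind (pi2 (FF P ξ j) x ≤ u j)))
      ≤ Real.exp (∑ j ∈ Finset.range L, 4 * ρ j * (u j / ((d - j : ℕ) : ℝ))) := by
  induction L with
  | zero =>
    simp only [Finset.range_zero, Finset.prod_empty, Finset.sum_empty, Real.exp_zero]
    rw [avg_const]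
  | succ L ih =>
    have ih := ih (by omega) (fun j hj => h j (by omega))
    have h1 : ∀ ξ : Fin d → Wd d, ∏ j ∈ Finset.range (L + 1), (Real.exp (ρ j * ⟪x, vv P ξ j⟫_ℝ ^ 2)
        * ind (pi2 (FF P ξ j) x ≤ u j))
        = (∏ j ∈ Finset.range L, (Real.exp (ρ j * ⟪x, vv P ξ j⟫_ℝ ^ 2)
        * ind (pi2 (FF P ξ j) x ≤ u j)))
          * (fun F w => Real.exp (ρ L * ⟪x, ker (P L) F w⟫_ℝ ^ 2)
            * ind (pi2 F x ≤ u L)) (FF P ξ L) (coord ξ L) := by
      intro ξ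
      rw [Finset.prod_range_succ]
      rfl
    rw [avg_congr h1, avg_mul_step P (by omega : L < d)
      (fun ξ => ∏ j ∈ Finset.range L, (Real.exp (ρ j * ⟪x, vv P ξ j⟫_ℝ ^ 2)
        * ind (pi2 (FF P ξ j) x ≤ u j))) ?_
      (fun F w => Real.exp (ρ L * ⟪x, ker (P L) F w⟫_ℝ ^ 2) * ind (pi2 F x ≤ u L))]
    · have hprod : ∀ ξ : Fin d → Wd d, 0 ≤ ∏ j ∈ Finset.range L,
          (Real.exp (ρ j * ⟪x, vv P ξ j⟫_ℝ ^ 2) * ind (pi2 (FF P ξ j) x ≤ u j)) := by
        intro ξ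
        apply Finset.prod_nonneg
        intro j _
        exact mul_nonneg (Real.exp_pos _).le (ind_nonneg _)
      have h2 : ∀ ξ : Fin d → Wd d, (∏ j ∈ Finset.range L,
          (Real.exp (ρ j * ⟪x, vv P ξ j⟫_ℝ ^ 2) * ind (pi2 (FF P ξ j) x ≤ u j)))
          * avg (fun w => Real.exp (ρ L * ⟪x, ker (P L) (FF P ξ L) w⟫_ℝ ^ 2)
            * ind (pi2 (FF P ξ L) x ≤ u L))
          ≤ (∏ j ∈ Finset.range L,
          (Real.exp (ρ j * ⟪x, vv P ξ j⟫_ℝ ^ 2) * ind (pi2 (FF P ξ j) x ≤ u j)))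
            * Real.exp (4 * ρ L * (u L / ((d - L : ℕ) : ℝ))) := by
        intro ξ
        apply mul_le_mul_of_nonneg_left _ (hprod ξ)
        by_cases hc : pi2 (FF P ξ L) x ≤ u L
        · simp only [ind_true hc, mul_one]
          have hfr := finrank_FF_orth P ξ L (by omega)
          have hD : (0:ℝ) < ((d - L : ℕ) : ℝ) := by exact_mod_cast (by omega : 0 < d - L)
          refine avg_exp_sq_le (fun w : Wd d => ⟪x, ker (P L) (FF P ξ L) w⟫_ℝ)
            (u L / ((d - L : ℕ) : ℝ)) (by have := hu L; positivity) ?_ (ρ L) (hρ L)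
            (h L (by omega))
          intro s
          refine (avg_exp_ker (P L) (FF P ξ L) (by omega) x s).trans ?_
          apply Real.exp_le_exp.mpr
          rw [hfr, mul_comm]
          apply mul_le_mul_of_nonneg_right _ (sq_nonneg _)
          gcongr
        · simp only [ind_false hc, mul_zero]
          rw [avg_zero]
          exact (Real.exp_pos _).le
      refine (avg_mono h2).trans ?_
      rw [avg_mul_const, Finset.sum_range_succ, Real.exp_add]
      exact mul_le_mul_of_nonneg_right ih (Real.exp_pos _).le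
    · intro ξ w
      apply Finset.prod_congr rfl
      intro j hj
      rw [Finset.mem_range] at hj
      rw [vv_update P ξ ⟨L, _⟩ w hj, FF_update P ξ ⟨L, _⟩ w hj.le]

/-! ### the mixed rows -/

/-- good part of the transformed vector -/
noncomputable def zg (P : ℕ → KP) (O : Fin d → Fin d → ℝ) (L0 : ℕ) (x : V d)
    (ξ : Fin d → Wd d) (l : Fin d) : ℝ :=
  Real.sqrt d * ∑ j : Fin d, (if (j:ℕ) < L0 then O l j * ⟪x, vv P ξ j⟫_ℝ else 0)

theorem sum_fin_lt {L0 : ℕ} (hL : L0 ≤ d) (f : ℕ → ℝ) :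
    ∑ j : Fin d, (if (j:ℕ) < L0 then f j else 0) = ∑ j ∈ Finset.range L0, f j := by
  rw [Fin.sum_univ_eq_sum_range (fun j => if j < L0 then f j else 0) d]
  rw [← Finset.sum_filter]
  congr 1
  ext j
  simp
  omega

theorem col_orth {O : Fin d → Fin d → ℝ}
    (hO : ∀ l l', ∑ j, O l j * O l' j = if l = l' then 1 else 0) (j j' : Fin d) :
    ∑ l, O l j * O l j' = if j = j' then 1 else 0 := by
  have h1 : (Matrix.of O) * (Matrix.of O).transpose = 1 := by
    ext l l'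
    rw [Matrix.mul_apply, Matrix.one_apply]
    exact hO l l'
  have h2 : (Matrix.of O).transpose * (Matrix.of O) = 1 := mul_eq_one_comm.mp h1
  have h3 := congrFun (congrFun h2 j) j'
  rw [Matrix.mul_apply, Matrix.one_apply] at h3
  exact h3

theorem sum_Ot_sq {O : Fin d → Fin d → ℝ}
    (hO : ∀ l l', ∑ j, O l j * O l' j = if l = l' then 1 else 0) (a : Fin d → ℝ) :
    ∑ j, (∑ l, a l * O l j) ^ 2 = ∑ l, a l ^ 2 := by
  have h1 : ∀ j, (∑ l, a l * O l j) ^ 2 = ∑ l, ∑ l', a l * a l' * (O l j * O l' j) := by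
    intro j
    rw [sq, Finset.sum_mul_sum]
    apply Finset.sum_congr rfl; intro l _
    apply Finset.sum_congr rfl; intro l' _
    ring
  rw [Finset.sum_congr rfl (fun j _ => h1 j), Finset.sum_comm]
  apply Finset.sum_congr rfl
  intro l _
  rw [Finset.sum_comm]
  have h2 : ∀ l', ∑ j, a l * a l' * (O l j * O l' j) = if l = l' then a l * a l' else 0 := by
    intro l'
    rw [← Finset.mul_sum, hO l l']
    split_ifs <;> ring
  rw [Finset.sum_congr rfl (fun l' _ => h2 l'), Finset.sum_ite_eq]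
  simp
  ring

theorem avg_exp_zg_lin (P : ℕ → KP) {O : Fin d → Fin d → ℝ}
    (hO : ∀ l l', ∑ j, O l j * O l' j = if l = l' then 1 else 0) {L0 : ℕ} (hL : L0 ≤ d)
    {B : ℝ} (hB : ∀ j, j < L0 → (d:ℝ) ≤ B * ((d - j : ℕ) : ℝ)) (hB0 : 0 ≤ B)
    (x : V d) (hx : ‖x‖ ≤ 1) (a : Fin d → ℝ) :
    avg (fun ξ : Fin d → Wd d => Real.exp (∑ l, a l * zg P O L0 x ξ l))
      ≤ Real.exp (B * ∑ l, a l ^ 2) := by
  set c : ℕ → ℝ := fun j => if h : j < d then Real.sqrt d * ∑ l, a l * O l ⟨j, h⟩ else 0 with hc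
  have hcj : ∀ j : Fin d, c j = Real.sqrt d * ∑ l, a l * O l j := by
    intro j
    simp only [hc]
    rw [dif_pos j.isLt]
  have h1 : ∀ ξ : Fin d → Wd d, ∑ l, a l * zg P O L0 x ξ l
      = ∑ j ∈ Finset.range L0, c j * ⟪x, vv P ξ j⟫_ℝ := by
    intro ξ
    rw [← sum_fin_lt hL (fun j => c j * ⟪x, vv P ξ j⟫_ℝ)]
    unfold zg
    have e1 : ∀ l, a l * (Real.sqrt d * ∑ j : Fin d, (if (j:ℕ) < L0 then O l j * ⟪x, vv P ξ j⟫_ℝ
        else 0)) = ∑ j : Fin d, (if (j:ℕ) < L0 then Real.sqrt d * (a l * O l j)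
          * ⟪x, vv P ξ j⟫_ℝ else 0) := by
      intro l
      rw [Finset.mul_sum, Finset.mul_sum]
      apply Finset.sum_congr rfl
      intro j _
      split_ifs <;> ring
    rw [Finset.sum_congr rfl (fun l _ => e1 l), Finset.sum_comm]
    apply Finset.sum_congr rfl
    intro j _
    split_ifs with hj
    · rw [hcj, ← Finset.sum_mul, ← Finset.mul_sum]
    · simp
  have h2 : ∀ ξ : Fin d → Wd d, Real.exp (∑ l, a l * zg P O L0 x ξ l)
      = Real.exp (∑ j ∈ Finset.range L0, c j * ⟪x, vv P ξ j⟫_ℝ) := by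
    intro ξ; rw [h1]
  rw [avg_congr h2]
  refine (avg_exp_lin P x hx c L0 hL).trans ?_
  apply Real.exp_le_exp.mpr
  have h3 : ∀ j ∈ Finset.range L0, c j ^ 2 / ((d - j : ℕ) : ℝ) ≤ B * (c j ^ 2 / d) := by
    intro j hj
    rw [Finset.mem_range] at hj
    have e1 := hB j hj
    have e2 : (0:ℝ) < ((d - j : ℕ) : ℝ) := by exact_mod_cast (by omega : 0 < d - j)
    have e3 : (0:ℝ) < d := by exact_mod_cast (by omega : 0 < d)
    rw [div_le_iff₀ e2]
    have e4 : B * (c j ^ 2 / d) * ((d - j : ℕ) : ℝ) = c j ^ 2 * ((B * ((d - j : ℕ) : ℝ)) / d) := by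
      ring
    rw [e4]
    have e5 : 1 ≤ (B * ((d - j : ℕ) : ℝ)) / d := by rw [le_div_iff₀ e3]; linarith
    nlinarith [sq_nonneg (c j)]
  refine (Finset.sum_le_sum h3).trans ?_
  rw [← Finset.mul_sum]
  apply mul_le_mul_of_nonneg_left _ hB0
  rw [← sum_fin_lt hL (fun j => c j ^ 2 / d), ← sum_Ot_sq hO a]
  apply Finset.sum_le_sum
  intro j _
  split_ifs with hj
  · have e3 : (0:ℝ) < d := by exact_mod_cast (by omega : 0 < d)
    rw [hcj, mul_pow, Real.sq_sqrt e3.le]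
    field_simp
    exact le_refl _
  · exact sq_nonneg _

/-- quadratic moments of the good part over a set of rows -/
theorem avg_exp_zg_sq (P : ℕ → KP) {O : Fin d → Fin d → ℝ}
    (hO : ∀ l l', ∑ j, O l j * O l' j = if l = l' then 1 else 0) {L0 : ℕ} (hL : L0 ≤ d)
    {B : ℝ} (hB : ∀ j, j < L0 → (d:ℝ) ≤ B * ((d - j : ℕ) : ℝ)) (hB0 : 0 ≤ B)
    (x : V d) (hx : ‖x‖ ≤ 1) (S : Finset (Fin d)) {r : ℝ} (hr : 0 ≤ r) (hrB : 4 * r * B ≤ 1 / 2) :
    avg (fun ξ : Fin d → Wd d => Real.exp (r * ∑ l ∈ S, zg P O L0 x ξ l ^ 2))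
      ≤ Real.exp (S.card / 2) := by
  classical
  have h := avg_exp_sum_sq_le (J := S) (fun (ξ : Fin d → Wd d) (l : S) => zg P O L0 x ξ l) B hB0 ?_
    r hr hrB
  · have h1 : ∀ ξ : Fin d → Wd d, Real.exp (r * ∑ l ∈ S, zg P O L0 x ξ l ^ 2)
        = Real.exp (r * ∑ l : S, zg P O L0 x ξ l ^ 2) := by
      intro ξ
      rw [Finset.sum_coe_sort S (fun l => zg P O L0 x ξ l ^ 2)]
    rw [avg_congr h1]
    refine h.trans ?_
    apply Real.exp_le_exp.mpr
    rw [Fintype.card_coe]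
    have : (0:ℝ) ≤ S.card := Nat.cast_nonneg _
    nlinarith
  · intro a
    set a' : Fin d → ℝ := fun l => if h : l ∈ S then a ⟨l, h⟩ else 0 with ha'
    have h1 := avg_exp_zg_lin P hO hL hB hB0 x hx a'
    have h2 : ∀ (f : Fin d → ℝ → ℝ), (∀ l, f l 0 = 0) →
        ∑ l, f l (a' l) = ∑ l : S, f l (a l) := by
      intro f hf
      have e1 : ∑ l : S, f l (a l) = ∑ l : S, f l (a' l) := by
        apply Finset.sum_congr rfl
        intro l _
        simp only [ha']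
        rw [dif_pos l.2]
      rw [e1, Finset.sum_coe_sort S (fun l => f l (a' l))]
      symm
      apply Finset.sum_subset (Finset.subset_univ _)
      intro l _ hl
      simp only [ha']
      rw [dif_neg hl, hf]
    rw [h2 (fun _ y => y ^ 2) (by simp)] at h1
    refine le_trans (le_of_eq ?_) h1
    apply avg_congr
    intro ξ
    rw [h2 (fun l y => y * zg P O L0 x ξ l) (by simp)]

/-- excess over the truncation level -/
noncomputable def exc (T z : ℝ) : ℝ := max (z - T) 0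

theorem avg_exp_exc (P : ℕ → KP) {O : Fin d → Fin d → ℝ}
    (hO : ∀ l l', ∑ j, O l j * O l' j = if l = l' then 1 else 0) {L0 : ℕ} (hL : L0 ≤ d)
    {B : ℝ} (hB : ∀ j, j < L0 → (d:ℝ) ≤ B * ((d - j : ℕ) : ℝ)) (hB0 : 0 ≤ B)
    (x : V d) (hx : ‖x‖ ≤ 1) (S : Finset (Fin d)) {r : ℝ} (hr : 0 ≤ r) (hrB : 4 * r * B ≤ 1 / 2)
    (T : ℝ) :
    avg (fun ξ : Fin d → Wd d => Real.exp (r * ∑ l ∈ S, exc T (zg P O L0 x ξ l ^ 2)))
      ≤ Real.exp (S.card * Real.exp (1 / 2 - r * T)) := by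
  classical
  set q := Real.exp (1 / 2 - r * T) with hq
  have h1 : ∀ ξ : Fin d → Wd d, Real.exp (r * ∑ l ∈ S, exc T (zg P O L0 x ξ l ^ 2))
      ≤ ∑ J ∈ S.powerset, Real.exp (-(r * T) * J.card)
        * Real.exp (r * ∑ l ∈ J, zg P O L0 x ξ l ^ 2) := by
    intro ξ
    rw [Finset.mul_sum, Real.exp_sum]
    have e1 : ∏ l ∈ S, Real.exp (r * exc T (zg P O L0 x ξ l ^ 2))
        ≤ ∏ l ∈ S, (1 + Real.exp (r * (zg P O L0 x ξ l ^ 2 - T))) := by
      apply Finset.prod_le_prod (fun l _ => (Real.exp_pos _).le)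
      intro l _
      unfold exc
      rcases le_total (zg P O L0 x ξ l ^ 2 - T) 0 with hc | hc
      · rw [max_eq_right hc, mul_zero, Real.exp_zero]
        have := Real.exp_pos (r * (zg P O L0 x ξ l ^ 2 - T))
        linarith
      · rw [max_eq_left hc]; linarith
    refine e1.trans (le_of_eq ?_)
    rw [Finset.prod_one_add]
    apply Finset.sum_congr rfl
    intro J _
    rw [← Real.exp_sum, ← Real.exp_add]
    congr 1
    rw [← Finset.mul_sum, Finset.sum_sub_distrib, Finset.sum_const, nsmul_eq_mul]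
    ring
  refine (avg_mono h1).trans ?_
  rw [avg_sum]
  have h2 : ∀ J ∈ S.powerset, avg (fun ξ : Fin d → Wd d => Real.exp (-(r * T) * J.card)
        * Real.exp (r * ∑ l ∈ J, zg P O L0 x ξ l ^ 2)) ≤ ∏ l ∈ J, q := by
    intro J _
    rw [avg_const_mul]
    have e1 := avg_exp_zg_sq P hO hL hB hB0 x hx J hr hrB
    calc _ ≤ Real.exp (-(r * T) * J.card) * Real.exp (J.card / 2) :=
          mul_le_mul_of_nonneg_left e1 (Real.exp_pos _).le
      _ = _ := by
          rw [Finset.prod_const, hq, ← Real.exp_nat_mul, ← Real.exp_add]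
          congr 1; ring
  refine (Finset.sum_le_sum h2).trans ?_
  rw [← Finset.prod_one_add, Finset.prod_const, Real.exp_nat_mul]
  apply pow_le_pow_left₀ (by rw [hq]; positivity)
  have := Real.add_one_le_exp q
  linarith

theorem exc_prob (P : ℕ → KP) {O : Fin d → Fin d → ℝ}
    (hO : ∀ l l', ∑ j, O l j * O l' j = if l = l' then 1 else 0) {L0 : ℕ} (hL : L0 ≤ d)
    {B : ℝ} (hB : ∀ j, j < L0 → (d:ℝ) ≤ B * ((d - j : ℕ) : ℝ)) (hB0 : 0 ≤ B)
    (x : V d) (hx : ‖x‖ ≤ 1) (S : Finset (Fin d)) {r : ℝ} (hr : 0 ≤ r) (hrB : 4 * r * B ≤ 1 / 2)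
    {T η : ℝ} (hT : Real.exp (1 / 2 - r * T) ≤ r * η / 2) :
    avg (fun ξ : Fin d → Wd d => ind (η * S.card ≤ ∑ l ∈ S, exc T (zg P O L0 x ξ l ^ 2)))
      ≤ Real.exp (-(r * η / 2 * S.card)) := by
  have h1 : ∀ ξ : Fin d → Wd d, ind (η * S.card ≤ ∑ l ∈ S, exc T (zg P O L0 x ξ l ^ 2))
      ≤ Real.exp (-(r * (η * S.card))) * Real.exp (r * ∑ l ∈ S, exc T (zg P O L0 x ξ l ^ 2)) := by
    intro ξ
    rw [← Real.exp_add]
    apply ind_le (Real.exp_pos _).le
    intro hω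
    apply Real.one_le_exp
    have := mul_le_mul_of_nonneg_left hω hr
    linarith
  refine (avg_mono h1).trans ?_
  rw [avg_const_mul]
  refine (mul_le_mul_of_nonneg_left (avg_exp_exc P hO hL hB hB0 x hx S hr hrB T)
    (Real.exp_pos _).le).trans ?_
  rw [← Real.exp_add]
  apply Real.exp_le_exp.mpr
  have : (0:ℝ) ≤ S.card := Nat.cast_nonneg _
  nlinarith

end Pool.Agent.Helper50_RIP
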