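import Mathlib
import Pool.Agent.Helper50_RIP.Good

set_option autoImplicit false
set_option linter.unusedSectionVars false
set_option linter.unusedVariables false

/-!
# Random subsets of fixed size
-/

namespace Pool.Agent.Helper50_RIP

open Pool.Agent.Helper50_Stretch Module

/-- subsets of size `k` -/
abbrev Om (d k : ℕ) := {s : Finset (Fin d) // s.card = k}

variable {d k : ℕ}

theorem card_Om (d k : ℕ) : Fintype.card (Om d k) = d.choose k := by
  classical
  rw [Fintype.card_of_subtype (Finset.powersetCard k (Finset.univ : Finset (Fin d)))]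
  · rw [Finset.card_powersetCard, Finset.card_univ, Fintype.card_fin]
  · intro s; rw [Finset.mem_powersetCard]; simp

theorem avg_Om (f : Finset (Fin d) → ℝ) :
    avg (fun Ω : Om d k => f Ω.1)
      = (∑ Ω ∈ Finset.powersetCard k (Finset.univ : Finset (Fin d)), f Ω) / d.choose k := by
  unfold avg
  rw [card_Om]
  congr 1
  rw [← Finset.sum_subtype (Finset.powersetCard k (Finset.univ : Finset (Fin d)))
    (by intro s; rw [Finset.mem_powersetCard]; simp) f]

theorem nonempty_Om (h : k ≤ d) : Nonempty (Om d k) := by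
  rw [← Fintype.card_pos_iff, card_Om]
  exact Nat.choose_pos h

theorem bern_le {a S : ℝ} (ha : 0 ≤ a) (hS : 0 ≤ S) (k : ℕ) :
    S ^ (k + 1) + (k + 1) * a * S ^ k ≤ (a + S) ^ (k + 1) := by
  induction k with
  | zero => simp; linarith
  | succ k ih =>
    have h1 := mul_le_mul_of_nonneg_left ih (by positivity : 0 ≤ a + S)
    have h2 : (a + S) * (S ^ (k + 1) + (k + 1) * a * S ^ k)
        = S ^ (k + 1 + 1) + ((k + 1 : ℕ) + 1) * a * S ^ (k + 1) + (k + 1) * a ^ 2 * S ^ k := by
      push_cast; ring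
    have h3 : 0 ≤ (k + 1) * a ^ 2 * S ^ k := by positivity
    have h4 : (a + S) ^ (k + 1 + 1) = (a + S) * (a + S) ^ (k + 1) := by ring
    rw [h4]
    linarith

/-- elementary symmetric sums -/
theorem esymm_le (a : Fin d → ℝ) (ha : ∀ l, 0 ≤ a l) (s : Finset (Fin d)) :
    ∀ k : ℕ, (∑ t ∈ Finset.powersetCard k s, ∏ l ∈ t, a l) * k.factorial ≤ (∑ l ∈ s, a l) ^ k := by
  classical
  induction s using Finset.induction_on with
  | empty =>
    intro k
    rcases k with _ | k
    · simp
    · rw [Finset.powersetCard_eq_empty.mpr (by simp)]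
      simp
  | insert x s hx ih =>
    intro k
    rcases k with _ | k
    · simp
    · have hS : 0 ≤ ∑ l ∈ s, a l := Finset.sum_nonneg (fun l _ => ha l)
      rw [Finset.powersetCard_succ_insert hx, Finset.sum_union, Finset.sum_image]
      · have h1 : ∑ t ∈ Finset.powersetCard k s, ∏ l ∈ insert x t, a l
            = a x * ∑ t ∈ Finset.powersetCard k s, ∏ l ∈ t, a l := by
          rw [Finset.mul_sum]
          apply Finset.sum_congr rfl
          intro t ht
          rw [Finset.prod_insert]
          intro h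
          exact hx ((Finset.mem_powersetCard.mp ht).1 h)
        rw [h1, Finset.sum_insert hx]
        set S := ∑ l ∈ s, a l with hSdef
        have h2 := ih (k + 1)
        have h3 := ih k
        have h4 : S ^ (k + 1) + (k + 1) * a x * S ^ k ≤ (a x + S) ^ (k + 1) :=
          bern_le (ha x) hS k
        rw [Nat.factorial_succ] at h2 ⊢
        push_cast at h2 ⊢
        have h5 : a x * (∑ t ∈ Finset.powersetCard k s, ∏ l ∈ t, a l) * ((k + 1) * k.factorial)
            ≤ (k + 1) * a x * S ^ k := by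
          have := mul_le_mul_of_nonneg_left h3 (by have := ha x; positivity :
            0 ≤ ((k:ℝ) + 1) * a x)
          calc _ = ((k:ℝ) + 1) * a x * ((∑ t ∈ Finset.powersetCard k s, ∏ l ∈ t, a l)
                * k.factorial) := by ring
            _ ≤ _ := this
        calc _ = (∑ t ∈ Finset.powersetCard (k + 1) s, ∏ l ∈ t, a l) * ((k + 1) * k.factorial)
              + a x * (∑ t ∈ Finset.powersetCard k s, ∏ l ∈ t, a l)
                * ((k + 1) * k.factorial) := by ring
          _ ≤ S ^ (k + 1) + (k + 1) * a x * S ^ k := add_le_add h2 h5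
          _ ≤ _ := h4
      · intro t1 ht1 t2 ht2 h
        have e1 : x ∉ t1 := fun h => hx ((Finset.mem_powersetCard.mp ht1).1 h)
        have e2 : x ∉ t2 := fun h => hx ((Finset.mem_powersetCard.mp ht2).1 h)
        calc t1 = (insert x t1).erase x := (Finset.erase_insert e1).symm
          _ = (insert x t2).erase x := by rw [h]
          _ = t2 := Finset.erase_insert e2
      · rw [Finset.disjoint_left]
        intro t ht ht2
        rw [Finset.mem_image] at ht2
        obtain ⟨t', -, rfl⟩ := ht2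
        exact hx ((Finset.mem_powersetCard.mp ht).1 (Finset.mem_insert_self _ _))

theorem choose_ge (h : 2 * k ≤ d) (hd : 0 < d) :
    ((d:ℝ) * Real.exp (-(2 * k / d))) ^ k ≤ d.choose k * k.factorial := by
  have h1 : ((d - k : ℕ) : ℝ) ^ k ≤ d.choose k * k.factorial := by
    have h2 := Nat.pow_sub_le_descFactorial d k
    have h3 := Nat.descFactorial_eq_factorial_mul_choose d k
    have h4 : (d - k) ^ k ≤ (d + 1 - k) ^ k := Nat.pow_le_pow_left (by omega) k
    have h5 : (d - k) ^ k ≤ d.choose k * k.factorial := by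
      rw [mul_comm, ← h3]; exact h4.trans h2
    exact_mod_cast h5
  refine le_trans ?_ h1
  have hd0 : (0:ℝ) < d := by exact_mod_cast hd
  apply pow_le_pow_left₀ (by positivity)
  have hk : 2 * (k:ℝ) ≤ d := by exact_mod_cast h
  have h2 : Real.exp (-(2 * k / d)) ≤ 1 - k / d := by
    have e0 : (0:ℝ) ≤ k / d := by positivity
    have e1 : (k:ℝ) / d ≤ 1 / 2 := by rw [div_le_div_iff₀ hd0 (by norm_num)]; linarith
    have e2 := inv_one_sub_le e0 e1
    rw [Real.exp_neg]
    have e3 : (0:ℝ) < 1 - k / d := by linarith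
    rw [inv_le_comm₀ (Real.exp_pos _) e3]
    refine e2.trans (le_of_eq ?_)
    congr 1; ring
  calc (d:ℝ) * Real.exp (-(2 * k / d)) ≤ d * (1 - k / d) :=
        mul_le_mul_of_nonneg_left h2 hd0.le
    _ = d - k := by field_simp
    _ = _ := by rw [Nat.cast_sub (by omega)]

/-- products over random subsets -/
theorem avg_prod_le (h : 2 * k ≤ d) (hd : 0 < d) (a : Fin d → ℝ) (ha : ∀ l, 0 ≤ a l) :
    avg (fun Ω : Om d k => ∏ l ∈ Ω.1, a l) ≤ ((∑ l, a l) / d) ^ k * Real.exp (2 * k ^ 2 / d) := by
  rw [avg_Om (fun Ω => ∏ l ∈ Ω, a l)]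
  have hd0 : (0:ℝ) < d := by exact_mod_cast hd
  have h1 := esymm_le a ha Finset.univ k
  have h2 := choose_ge h hd
  have hc : (0:ℝ) < d.choose k := by exact_mod_cast Nat.choose_pos (by omega)
  have hf : (0:ℝ) < k.factorial := by exact_mod_cast Nat.factorial_pos k
  have hS : 0 ≤ ∑ l, a l := Finset.sum_nonneg (fun l _ => ha l)
  rw [div_le_iff₀ hc]
  have h3 : ((∑ l, a l) / d) ^ k * Real.exp (2 * k ^ 2 / d) * ((d:ℝ) * Real.exp (-(2 * k / d))) ^ k
      = (∑ l, a l) ^ k := by
    rw [mul_pow, ← Real.exp_nat_mul, div_pow]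
    have e1 : (k:ℝ) * -(2 * k / d) = -(2 * k ^ 2 / d) := by ring
    rw [e1]
    calc _ = (∑ l, a l) ^ k * (Real.exp (2 * k ^ 2 / d) * Real.exp (-(2 * k ^ 2 / d))) := by
          field_simp
      _ = _ := by rw [← Real.exp_add]; simp
  have h4 : ((∑ l, a l) / d) ^ k * Real.exp (2 * k ^ 2 / d) * ((d:ℝ) * Real.exp (-(2 * k / d))) ^ k
      ≤ ((∑ l, a l) / d) ^ k * Real.exp (2 * k ^ 2 / d) * (d.choose k * k.factorial) :=
    mul_le_mul_of_nonneg_left h2 (by positivity)
  rw [h3] at h4
  have h5 := h1.trans h4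
  have h6 : ((∑ l, a l) / d) ^ k * Real.exp (2 * k ^ 2 / d) * (d.choose k * k.factorial)
      = (((∑ l, a l) / d) ^ k * Real.exp (2 * k ^ 2 / d) * d.choose k) * k.factorial := by ring
  rw [h6] at h5
  exact le_of_mul_le_mul_right h5 hf

/-- probability of containing a set -/
theorem card_superset_le (J : Finset (Fin d)) (hJ : J.card ≤ k) :
    ((Finset.powersetCard k (Finset.univ : Finset (Fin d))).filter (fun Ω => J ⊆ Ω)).card
      ≤ (d - J.card).choose (k - J.card) := by
  classical
  have h1 : ((Finset.powersetCard k (Finset.univ : Finset (Fin d))).filter (fun Ω => J ⊆ Ω)).card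
      ≤ (Finset.powersetCard (k - J.card) (Finset.univ \ J)).card := by
    apply Finset.card_le_card_of_injOn (fun Ω => Ω \ J)
    · intro Ω hΩ
      rw [Finset.mem_coe, Finset.mem_filter, Finset.mem_powersetCard] at hΩ
      rw [Finset.mem_coe, Finset.mem_powersetCard]
      refine ⟨Finset.sdiff_subset_sdiff (Finset.subset_univ _) (Finset.Subset.refl _), ?_⟩
      rw [Finset.card_sdiff_of_subset hΩ.2, hΩ.1.2]
    · intro Ω1 h1 Ω2 h2 h
      rw [Finset.mem_coe, Finset.mem_filter] at h1 h2
      simp only at h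
      rw [← Finset.sdiff_union_of_subset h1.2, h, Finset.sdiff_union_of_subset h2.2]
  refine h1.trans (le_of_eq ?_)
  rw [Finset.card_powersetCard, Finset.card_sdiff_of_subset (Finset.subset_univ _),
    Finset.card_univ, Fintype.card_fin]

theorem choose_ratio (hk : k ≤ d) (hd : 0 < d) : ∀ r : ℕ, r ≤ k →
    ((d - r).choose (k - r) : ℝ) ≤ ((k:ℝ) / d) ^ r * d.choose k
  | 0, _ => by simp
  | r + 1, hr => by
    have ih := choose_ratio hk hd r (by omega)
    have hd0 : (0:ℝ) < d := by exact_mod_cast hd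
    obtain ⟨n, hn⟩ : ∃ n, d - r = n + 1 := ⟨d - r - 1, by omega⟩
    obtain ⟨m, hm⟩ : ∃ m, k - r = m + 1 := ⟨k - r - 1, by omega⟩
    have e1 : d - (r + 1) = n := by omega
    have e2 : k - (r + 1) = m := by omega
    rw [e1, e2]
    rw [hn, hm] at ih
    have h1 : ((n:ℝ) + 1) * n.choose m = (n + 1).choose (m + 1) * (m + 1) := by
      exact_mod_cast Nat.add_one_mul_choose_eq n m
    have h2 : ((m:ℝ) + 1) * d ≤ k * (n + 1) := by
      have hn' : (d:ℝ) - r = n + 1 := by
        rw [← Nat.cast_sub (by omega), hn]; push_cast; ring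
      have hm' : (k:ℝ) - r = m + 1 := by
        rw [← Nat.cast_sub (by omega), hm]; push_cast; ring
      rw [← hn', ← hm']
      have h3 : (k:ℝ) ≤ d := by exact_mod_cast hk
      have h4 : (0:ℝ) ≤ r := Nat.cast_nonneg r
      nlinarith
    have h3 : (n.choose m : ℝ) ≤ (n + 1).choose (m + 1) * (k / d) := by
      have e3 : (n.choose m : ℝ) = (n + 1).choose (m + 1) * ((m + 1) / (n + 1)) := by
        field_simp; linarith
      rw [e3]
      apply mul_le_mul_of_nonneg_left _ (by positivity)
      rw [div_le_div_iff₀ (by positivity) hd0]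
      exact h2
    calc (n.choose m : ℝ) ≤ (n + 1).choose (m + 1) * (k / d) := h3
      _ ≤ (((k:ℝ) / d) ^ r * d.choose k) * (k / d) :=
          mul_le_mul_of_nonneg_right ih (by positivity)
      _ = _ := by ring

theorem avg_superset_le (hk : k ≤ d) (hd : 0 < d) (J : Finset (Fin d)) :
    avg (fun Ω : Om d k => ind (J ⊆ Ω.1)) ≤ ((k:ℝ) / d) ^ J.card := by
  classical
  have hc : (0:ℝ) < d.choose k := by exact_mod_cast Nat.choose_pos hk
  rw [avg_Om (fun Ω => ind (J ⊆ Ω)), div_le_iff₀ hc]
  have h0 : ∑ Ω ∈ Finset.powersetCard k (Finset.univ : Finset (Fin d)), ind (J ⊆ Ω)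
      = ((Finset.powersetCard k (Finset.univ : Finset (Fin d))).filter (fun Ω => J ⊆ Ω)).card := by
    rw [Finset.card_filter]
    push_cast
    apply Finset.sum_congr rfl
    intro Ω _
    by_cases hc : J ⊆ Ω
    · rw [ind_true hc, if_pos hc]
    · rw [ind_false hc, if_neg hc]
  rw [h0]
  rcases le_or_gt J.card k with hJ | hJ
  · refine le_trans ?_ (choose_ratio hk hd J.card hJ)
    exact_mod_cast card_superset_le J hJ
  · have : (Finset.powersetCard k (Finset.univ : Finset (Fin d))).filter (fun Ω => J ⊆ Ω) = ∅ := by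
      rw [Finset.filter_eq_empty_iff]
      intro Ω hΩ h
      rw [Finset.mem_powersetCard] at hΩ
      have := Finset.card_le_card h
      omega
    rw [this]
    simp only [Finset.card_empty, Nat.cast_zero]
    positivity

theorem avg_card_inter_le (hk : k ≤ d) (hd : 0 < d) (G : Finset (Fin d)) :
    avg (fun Ω : Om d k => ((G ∩ Ω.1).card : ℝ)) ≤ G.card * (k / d) := by
  classical
  have h1 : ∀ Ω : Om d k, ((G ∩ Ω.1).card : ℝ) = ∑ l ∈ G, ind ({l} ⊆ Ω.1) := by
    intro Ω
    rw [← Finset.filter_mem_eq_inter, Finset.card_filter]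
    push_cast
    apply Finset.sum_congr rfl
    intro l _
    by_cases h : l ∈ Ω.1
    · rw [if_pos h, ind_true (by simpa using h)]
    · rw [if_neg h, ind_false (by simpa using h)]
  rw [avg_congr h1, avg_sum]
  refine (Finset.sum_le_sum (fun l _ => avg_superset_le hk hd {l})).trans (le_of_eq ?_)
  simp

theorem avg_ind_inter_ge_le (hk : k ≤ d) (hd : 0 < d) (G : Finset (Fin d)) (r : ℕ) :
    avg (fun Ω : Om d k => ind (r ≤ (G ∩ Ω.1).card)) ≤ G.card.choose r * ((k:ℝ) / d) ^ r := by
  classical
  have h1 : ∀ Ω : Om d k, ind (r ≤ (G ∩ Ω.1).card)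
      ≤ ind (∃ J ∈ Finset.powersetCard r G, J ⊆ Ω.1) := by
    intro Ω
    apply ind_mono
    intro h
    obtain ⟨J, hJ1, hJ2⟩ := Finset.exists_subset_card_eq h
    refine ⟨J, ?_, hJ1.trans Finset.inter_subset_right⟩
    rw [Finset.mem_powersetCard]
    exact ⟨hJ1.trans Finset.inter_subset_left, hJ2⟩
  refine (avg_mono h1).trans ?_
  refine (avg_ind_exists_le (Finset.powersetCard r G) _ (c := ((k:ℝ) / d) ^ r) ?_).trans ?_
  · intro J hJ
    have := avg_superset_le hk hd J
    rwa [(Finset.mem_powersetCard.mp hJ).2] at this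
  · rw [Finset.card_powersetCard]

/-- lower tail for sums over random subsets -/
theorem lower_tail (h : 2 * k ≤ d) (hd : 0 < d) (w : Fin d → ℝ) {T η : ℝ} (hT : 0 < T)
    (hη : 0 < η) (hη1 : η ≤ 1) (hw0 : ∀ l, 0 ≤ w l) (hwT : ∀ l, w l ≤ T)
    (hs : (∑ l, w l) / d ≤ 1) :
    avg (fun Ω : Om d k => ind (∑ l ∈ Ω.1, w l ≤ ((∑ l, w l) / d - 2 * η) * k))
      ≤ Real.exp (-(η ^ 2 / T * k) + 2 * k ^ 2 / d) := by
  have := nonempty_Om (d := d) (k := k) (by omega)
  have hd0 : (0:ℝ) < d := by exact_mod_cast hd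
  set s := (∑ l, w l) / d with hsdef
  have hs0 : 0 ≤ s := by
    have := Finset.sum_nonneg (fun l (_ : l ∈ Finset.univ) => hw0 l); positivity
  set r := η / T with hr
  have hr0 : 0 < r := by positivity
  have hrT : r * T = η := by rw [hr]; field_simp
  have h1 : ∀ Ω : Om d k, ind (∑ l ∈ Ω.1, w l ≤ (s - 2 * η) * k)
      ≤ Real.exp (r * ((s - 2 * η) * k)) * ∏ l ∈ Ω.1, Real.exp (-(r * w l)) := by
    intro Ω
    rw [← Real.exp_sum, ← Real.exp_add]
    apply ind_le (Real.exp_pos _).le
    intro hω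
    apply Real.one_le_exp
    rw [Finset.sum_neg_distrib, ← Finset.mul_sum]
    nlinarith
  refine (avg_mono h1).trans ?_
  rw [avg_const_mul]
  have h2 := avg_prod_le h hd (fun l => Real.exp (-(r * w l))) (fun l => (Real.exp_pos _).le)
  have h3 : (∑ l, Real.exp (-(r * w l))) / d ≤ Real.exp (-(r * (1 - η) * s)) := by
    have e1 : ∀ l, Real.exp (-(r * w l)) ≤ 1 - r * (1 - η) * w l := by
      intro l
      refine (exp_neg_le_quad (by have := hw0 l; positivity)).trans ?_
      have e2 : (r * w l) ^ 2 ≤ r * η * w l := by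
        have : (r * w l) ^ 2 = r * w l * (r * w l) := by ring
        rw [this]
        have e3 : r * w l ≤ η := by
          rw [← hrT]; exact mul_le_mul_of_nonneg_left (hwT l) hr0.le
        have e4 : 0 ≤ r * w l := by have := hw0 l; positivity
        nlinarith
      linarith
    calc (∑ l, Real.exp (-(r * w l))) / d ≤ (∑ l, (1 - r * (1 - η) * w l)) / d := by
          gcongr with l _; exact e1 l
      _ = 1 - r * (1 - η) * s := by
          rw [Finset.sum_sub_distrib, ← Finset.mul_sum, hsdef]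
          simp only [Finset.sum_const, Finset.card_univ, Fintype.card_fin, nsmul_eq_mul, mul_one]
          field_simp
      _ ≤ _ := by
          have := Real.add_one_le_exp (-(r * (1 - η) * s)); linarith
  have h4 : ((∑ l, Real.exp (-(r * w l))) / d) ^ k ≤ Real.exp (k * (-(r * (1 - η) * s))) := by
    rw [Real.exp_nat_mul]
    apply pow_le_pow_left₀ _ h3
    have := Finset.sum_nonneg (fun l (_ : l ∈ Finset.univ) => (Real.exp_pos (-(r * w l))).le)
    positivity
  calc _ ≤ Real.exp (r * ((s - 2 * η) * k)) *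
        (Real.exp (k * (-(r * (1 - η) * s))) * Real.exp (2 * k ^ 2 / d)) := by
        apply mul_le_mul_of_nonneg_left _ (Real.exp_pos _).le
        exact h2.trans (mul_le_mul_of_nonneg_right h4 (Real.exp_pos _).le)
    _ = Real.exp (r * ((s - 2 * η) * k) + (k * (-(r * (1 - η) * s)) + 2 * k ^ 2 / d)) := by
        rw [Real.exp_add, Real.exp_add]
    _ ≤ _ := by
        apply Real.exp_le_exp.mpr
        have e1 : η ^ 2 / T = r * η := by rw [hr]; ring
        rw [e1]
        have e2 : r * ((s - 2 * η) * k) + (k * (-(r * (1 - η) * s)) + 2 * (k:ℝ) ^ 2 / d)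
            = -(r * η * k) + 2 * (k:ℝ) ^ 2 / d - r * η * k * (1 - s) := by ring
        rw [e2]
        have e3 : 0 ≤ r * η * k * (1 - s) := by
          have : 0 ≤ 1 - s := by linarith
          positivity
        linarith

/-- upper tail for sums over random subsets -/
theorem upper_tail (h : 2 * k ≤ d) (hd : 0 < d) (w : Fin d → ℝ) {T η : ℝ} (hT : 0 < T)
    (hη : 0 < η) (hη1 : η ≤ 1) (hw0 : ∀ l, 0 ≤ w l) (hwT : ∀ l, w l ≤ T)
    (hs : (∑ l, w l) / d ≤ 1) :
    avg (fun Ω : Om d k => ind (((∑ l, w l) / d + 2 * η) * k ≤ ∑ l ∈ Ω.1, w l))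
      ≤ Real.exp (-(η ^ 2 / T * k) + 2 * k ^ 2 / d) := by
  have := nonempty_Om (d := d) (k := k) (by omega)
  have hd0 : (0:ℝ) < d := by exact_mod_cast hd
  set s := (∑ l, w l) / d with hsdef
  have hs0 : 0 ≤ s := by
    have := Finset.sum_nonneg (fun l (_ : l ∈ Finset.univ) => hw0 l); positivity
  set r := η / T with hr
  have hr0 : 0 < r := by positivity
  have hrT : r * T = η := by rw [hr]; field_simp
  have h1 : ∀ Ω : Om d k, ind ((s + 2 * η) * k ≤ ∑ l ∈ Ω.1, w l)
      ≤ Real.exp (-(r * ((s + 2 * η) * k))) * ∏ l ∈ Ω.1, Real.exp (r * w l) := by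
    intro Ω
    rw [← Real.exp_sum, ← Real.exp_add]
    apply ind_le (Real.exp_pos _).le
    intro hω
    apply Real.one_le_exp
    rw [← Finset.mul_sum]
    nlinarith
  refine (avg_mono h1).trans ?_
  rw [avg_const_mul]
  have h2 := avg_prod_le h hd (fun l => Real.exp (r * w l)) (fun l => (Real.exp_pos _).le)
  have h3 : (∑ l, Real.exp (r * w l)) / d ≤ Real.exp (r * (1 + η) * s) := by
    have e1 : ∀ l, Real.exp (r * w l) ≤ 1 + r * (1 + η) * w l := by
      intro l
      have e3 : r * w l ≤ η := by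
        rw [← hrT]; exact mul_le_mul_of_nonneg_left (hwT l) hr0.le
      have e4 : 0 ≤ r * w l := by have := hw0 l; positivity
      have e5 := Real.abs_exp_sub_one_sub_id_le (x := r * w l)
        (by rw [abs_of_nonneg e4]; linarith)
      have e6 := (abs_le.mp e5).2
      have e7 : (r * w l) ^ 2 ≤ η * (r * w l) := by nlinarith
      nlinarith
    calc (∑ l, Real.exp (r * w l)) / d ≤ (∑ l, (1 + r * (1 + η) * w l)) / d := by
          gcongr with l _; exact e1 l
      _ = 1 + r * (1 + η) * s := by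
          rw [Finset.sum_add_distrib, ← Finset.mul_sum, hsdef]
          simp only [Finset.sum_const, Finset.card_univ, Fintype.card_fin, nsmul_eq_mul, mul_one]
          field_simp
      _ ≤ _ := by
          have := Real.add_one_le_exp (r * (1 + η) * s); linarith
  have h4 : ((∑ l, Real.exp (r * w l)) / d) ^ k ≤ Real.exp (k * (r * (1 + η) * s)) := by
    rw [Real.exp_nat_mul]
    apply pow_le_pow_left₀ _ h3
    have := Finset.sum_nonneg (fun l (_ : l ∈ Finset.univ) => (Real.exp_pos (r * w l)).le)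
    positivity
  calc _ ≤ Real.exp (-(r * ((s + 2 * η) * k))) *
        (Real.exp (k * (r * (1 + η) * s)) * Real.exp (2 * k ^ 2 / d)) := by
        apply mul_le_mul_of_nonneg_left _ (Real.exp_pos _).le
        exact h2.trans (mul_le_mul_of_nonneg_right h4 (Real.exp_pos _).le)
    _ = Real.exp (-(r * ((s + 2 * η) * k)) + (k * (r * (1 + η) * s) + 2 * k ^ 2 / d)) := by
        rw [Real.exp_add, Real.exp_add]
    _ ≤ _ := by
        apply Real.exp_le_exp.mpr
        have e1 : η ^ 2 / T = r * η := by rw [hr]; ring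
        rw [e1]
        have e2 : -(r * ((s + 2 * η) * k)) + (k * (r * (1 + η) * s) + 2 * (k:ℝ) ^ 2 / d)
            = -(r * η * k) + 2 * (k:ℝ) ^ 2 / d - r * η * k * (1 - s) := by ring
        rw [e2]
        have e3 : 0 ≤ r * η * k * (1 - s) := by
          have : 0 ≤ 1 - s := by linarith
          positivity
        linarith

end Pool.Agent.Helper50_RIP
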