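import Mathlib
import Pool.Agent.Helper50_RIP.Groups
import Pool.Agent.Helper50_RIP.Omega
import Pool.Agent.Helper50_RIP.MGF

set_option autoImplicit false
set_option linter.unusedSectionVars false
set_option linter.unusedVariables false

/-!
# Regularity of the random row set
-/

namespace Pool.Agent.Helper50_RIP

open Pool.Agent.Helper50_Stretch Module

variable {d k : ℕ}

/-- group of a bad index -/
def grp (γ : Fin d → Fin d) (b : Fin d) : Finset (Fin d) := Finset.univ.filter (fun l => γ l = b)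

/-- relative number of chosen rows in a group -/
noncomputable def om (γ : Fin d → Fin d) (Ω : Finset (Fin d)) (b : Fin d) : ℝ :=
  ((grp γ b ∩ Ω).card : ℝ) / 2 ^ sx d b

theorem om_nonneg (γ : Fin d → Fin d) (Ω : Finset (Fin d)) (b : Fin d) : 0 ≤ om γ Ω b := by
  unfold om; positivity

/-- regularity of the row set -/
structure Reg (γ : Fin d → Fin d) (k R0 : ℕ) (Ω : Finset (Fin d)) : Prop where
  R1 : ∀ b ∈ badS d, ((grp γ b ∩ Ω).card : ℝ) ≤ R0 * (1 + 2 ^ sx d b * tt d k ^ 15)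
  R2 : ∑ b ∈ badS d, om γ Ω b * (tt d (d - b))⁻¹ ^ 14 ≤ k / 1024

theorem r1_prob (hd : 0 < d) (hk1 : 1 ≤ k) (hk : k ≤ d) (G : Finset (Fin d)) (R0 : ℕ)
    (hR0 : 3 ≤ R0) :
    avg (fun Ω : Om d k => ind (¬ ((G ∩ Ω.1).card : ℝ) ≤ R0 * (1 + G.card * tt d k ^ 15)))
      ≤ tt d k ^ R0 := by
  have hq0 : 0 < tt d k := tt_pos hd (by omega)
  have hq1 : tt d k ≤ 1 := tt_le_one hk
  set q := tt d k with hq
  set y : ℝ := R0 * (1 + G.card * q ^ 15) with hy
  have hR0' : (3:ℝ) ≤ R0 := by exact_mod_cast hR0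
  have hy0 : 0 ≤ y := by rw [hy]; positivity
  set r := ⌊y⌋₊ + 1 with hr
  have hry : y < r := by rw [hr]; push_cast; exact Nat.lt_floor_add_one y
  have hR0y : (R0:ℝ) ≤ y := by
    rw [hy]
    have : 0 ≤ (G.card:ℝ) * q ^ 15 := by positivity
    nlinarith
  have hR0r : R0 ≤ r := by
    have : (R0:ℝ) < r := lt_of_le_of_lt hR0y hry
    exact_mod_cast this.le
  have h1 : avg (fun Ω : Om d k => ind (¬ ((G ∩ Ω.1).card : ℝ) ≤ y))
      ≤ avg (fun Ω : Om d k => ind (r ≤ (G ∩ Ω.1).card)) := by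
    apply avg_ind_mono
    intro Ω hΩ
    rw [not_le] at hΩ
    rw [hr, Nat.succ_le_iff]
    exact (Nat.floor_lt hy0).mpr hΩ
  refine h1.trans ?_
  refine (avg_ind_inter_ge_le hk hd G r).trans ?_
  have hr0 : (0:ℝ) < r := by exact_mod_cast (by omega : 0 < r)
  have h2 := choose_le_pow G.card r (by omega)
  have h3 : ((k:ℝ) / d) = q ^ 16 := (tt_pow d k).symm
  rw [h3]
  calc (G.card.choose r : ℝ) * (q ^ 16) ^ r ≤ (Real.exp 1 * (G.card / r)) ^ r * (q ^ 16) ^ r :=
        mul_le_mul_of_nonneg_right h2 (by positivity)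
    _ = (Real.exp 1 * (G.card / r) * q ^ 16) ^ r := by rw [← mul_pow]
    _ ≤ q ^ r := by
        apply pow_le_pow_left₀ (by positivity)
        have h4 : 3 * ((G.card:ℝ) * q ^ 15) ≤ r := by
          refine le_trans ?_ hry.le
          rw [hy]
          have : 0 ≤ (G.card:ℝ) * q ^ 15 := by positivity
          nlinarith
        have h5 : (G.card:ℝ) / r * q ^ 15 ≤ 1 / 3 := by
          rw [div_mul_eq_mul_div, div_le_div_iff₀ hr0 (by norm_num)]
          linarith
        have h6 := Real.exp_one_lt_d9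
        have h7 : 0 ≤ (G.card:ℝ) / r * q ^ 15 := by positivity
        calc Real.exp 1 * (G.card / r) * q ^ 16 = (Real.exp 1 * (G.card / r * q ^ 15)) * q := by
              ring
          _ ≤ 1 * q := by
              apply mul_le_mul_of_nonneg_right _ hq0.le
              nlinarith [Real.exp_pos 1]
          _ = q := one_mul q
    _ ≤ q ^ R0 := pow_le_pow_of_le_one hq0.le hq1 hR0r

theorem reg_prob (hd : 0 < d) (hk1 : 1 ≤ k) (hk : k ≤ d) (γ : Fin d → Fin d)
    (hγ : ∀ b ∈ badS d, (grp γ b).card = 2 ^ sx d b) (R0 : ℕ) (hR0 : 3 ≤ R0)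
    (hq : 8 * d * tt d k ^ R0 ≤ 1) :
    avg (fun Ω : Om d k => ind (¬ Reg γ k R0 Ω.1)) ≤ 1 / 4 := by
  have hd0 : (0:ℝ) < d := by exact_mod_cast hd
  have hk0 : (0:ℝ) < k := by exact_mod_cast hk1
  have h1 : avg (fun Ω : Om d k => ind (∃ b ∈ badS d, ¬ ((grp γ b ∩ Ω.1).card : ℝ)
      ≤ R0 * (1 + 2 ^ sx d b * tt d k ^ 15))) ≤ 1 / 8 := by
    refine (avg_ind_exists_le (badS d) _ (c := tt d k ^ R0) ?_).trans ?_
    · intro b hb
      have h := r1_prob hd hk1 hk (grp γ b) R0 hR0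
      rw [hγ b hb] at h
      push_cast at h
      exact h
    · have h2 : ((badS d).card : ℝ) ≤ d := by
        rw [card_badS hd]; exact_mod_cast n0_le hd
      have h3 : 0 ≤ tt d k ^ R0 := by have := tt_nonneg d k; positivity
      nlinarith
  have h2 : avg (fun Ω : Om d k => ind (¬ ∑ b ∈ badS d, om γ Ω.1 b * (tt d (d - b))⁻¹ ^ 14
      ≤ k / 1024)) ≤ 1 / 8 := by
    have e1 : ∀ Ω : Om d k, ind (¬ ∑ b ∈ badS d, om γ Ω.1 b * (tt d (d - b))⁻¹ ^ 14 ≤ k / 1024)
        ≤ (1024 / k) * ∑ b ∈ badS d, om γ Ω.1 b * (tt d (d - b))⁻¹ ^ 14 := by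
      intro Ω
      apply ind_le
      · have : 0 ≤ ∑ b ∈ badS d, om γ Ω.1 b * (tt d (d - b))⁻¹ ^ 14 := by
          apply Finset.sum_nonneg
          intro b _
          have := om_nonneg γ Ω.1 b
          have := tt_nonneg d (d - b)
          positivity
        positivity
      · intro h
        rw [not_le, div_lt_iff₀ (by norm_num)] at h
        rw [div_mul_eq_mul_div, le_div_iff₀ hk0]
        linarith
    refine (avg_mono e1).trans ?_
    rw [avg_const_mul, avg_sum]
    have e2 : ∀ b ∈ badS d, avg (fun Ω : Om d k => om γ Ω.1 b * (tt d (d - b))⁻¹ ^ 14)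
        ≤ (k / d) * (tt d (d - b))⁻¹ ^ 14 := by
      intro b hb
      rw [avg_mul_const]
      have ht := tt_nonneg d (d - b)
      apply mul_le_mul_of_nonneg_right _ (by positivity)
      unfold om
      rw [avg_div_const, div_le_iff₀ (by positivity)]
      have := avg_card_inter_le hk hd (grp γ b)
      rw [hγ b hb] at this
      push_cast at this
      linarith
    have e3 := Finset.sum_le_sum e2
    rw [← Finset.mul_sum, sum_badS hd (fun n => (tt d n)⁻¹ ^ 14)] at e3
    have e4 := tt_sum14 hd (n0 d)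
    have e5 := tt_n0 hd (le_refl (n0 d))
    have e6 : tt d (n0 d) ^ 2 ≤ (1 / 256) ^ 2 := pow_le_pow_left₀ (tt_nonneg _ _) e5 2
    have e7 : (k / d) * ∑ i ∈ Finset.range (n0 d), (tt d (i + 1))⁻¹ ^ 14 ≤ k / 8192 := by
      calc _ ≤ ((k:ℝ) / d) * (8 * d * (1 / 256) ^ 2) := by
            apply mul_le_mul_of_nonneg_left _ (by positivity)
            refine e4.trans ?_
            exact mul_le_mul_of_nonneg_left e6 (by positivity)
        _ = k / 8192 := by field_simp; norm_num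
    calc _ ≤ (1024 / (k:ℝ)) * (k / 8192) :=
          mul_le_mul_of_nonneg_left (e3.trans e7) (by positivity)
      _ = 1 / 8 := by field_simp; norm_num
  have h3 := avg_ind_or_le (r := fun Ω : Om d k => ¬ Reg γ k R0 Ω.1) ?_ h1 h2
  · linarith
  · intro Ω hΩ
    by_contra hcon
    push Not at hcon
    obtain ⟨h4, h5⟩ := hcon
    exact hΩ ⟨h4, h5⟩

/-- consequence for the weights -/
theorem Reg.om_le {γ : Fin d → Fin d} {R0 : ℕ} {Ω : Finset (Fin d)} (h : Reg γ k R0 Ω)
    {b : Fin d} (hb : b ∈ badS d) :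
    om γ Ω b ≤ R0 * (tt d (d - b) ^ 15 + tt d k ^ 15) := by
  have hd : 0 < d := by have := b.isLt; omega
  have ht : 0 < tt d (d - b) := tt_pos hd (by have := b.isLt; omega)
  have h1 := h.R1 b hb
  have h2 := sx_ge b
  have hN : (0:ℝ) < 2 ^ sx d b := by positivity
  unfold om
  rw [div_le_iff₀ hN]
  refine h1.trans ?_
  rw [mul_assoc]
  apply mul_le_mul_of_nonneg_left _ (by positivity)
  rw [add_mul]
  have h3 : 1 ≤ tt d (d - b) ^ 15 * 2 ^ sx d b := by
    calc (1:ℝ) = tt d (d - b) ^ 15 * (tt d (d - b))⁻¹ ^ 15 := by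
          rw [← mul_pow, mul_inv_cancel₀ ht.ne', one_pow]
      _ ≤ _ := mul_le_mul_of_nonneg_left h2 (by positivity)
  linarith

end Pool.Agent.Helper50_RIP
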