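import Mathlib
import Pool.Agent.Helper50_RIP.Reg

set_option autoImplicit false
set_option linter.unusedSectionVars false
set_option linter.unusedVariables false

/-!
# Energy of a fixed vector on the chosen rows: deterministic part
-/

namespace Pool.Agent.Helper50_RIP

open Pool.Agent.Helper50_Stretch Module
open scoped InnerProductSpace

variable {d k : ℕ}

theorem sum_sq_range (P : ℕ → KP) (ξ : Fin d → Wd d) (x : V d) : ∀ L : ℕ, L ≤ d →
    ∑ j ∈ Finset.range L, ⟪x, vv P ξ j⟫_ℝ ^ 2 = ‖x‖ ^ 2 - pi2 (FF P ξ L) x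
  | 0, _ => by rw [FF_zero, pi2_bot]; simp
  | L + 1, hL => by
    rw [Finset.sum_range_succ, sum_sq_range P ξ x L (by omega), pi2_FF P ξ x L (by omega)]
    ring

/-- rows of the matrix -/
noncomputable def uu (P : ℕ → KP) (O : Fin d → Fin d → ℝ) (ξ : Fin d → Wd d) (l : Fin d) : V d :=
  ∑ j, O l j • vv P ξ j

theorem inner_uu (P : ℕ → KP) (O : Fin d → Fin d → ℝ) (ξ : Fin d → Wd d) (l : Fin d) (x : V d) :
    ⟪x, uu P O ξ l⟫_ℝ = ∑ j, O l j * ⟪x, vv P ξ j⟫_ℝ := by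
  unfold uu
  rw [inner_sum]
  apply Finset.sum_congr rfl
  intro j _
  rw [inner_smul_right]

/-- bad part of the transformed vector -/
noncomputable def zb (P : ℕ → KP) (O : Fin d → Fin d → ℝ) (L0 : ℕ) (x : V d)
    (ξ : Fin d → Wd d) (l : Fin d) : ℝ :=
  Real.sqrt d * ∑ j : Fin d, (if (j:ℕ) < L0 then 0 else O l j * ⟪x, vv P ξ j⟫_ℝ)

theorem zg_add_zb (P : ℕ → KP) (O : Fin d → Fin d → ℝ) (L0 : ℕ) (x : V d)
    (ξ : Fin d → Wd d) (l : Fin d) :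
    Real.sqrt d * ⟪x, uu P O ξ l⟫_ℝ = zg P O L0 x ξ l + zb P O L0 x ξ l := by
  unfold zg zb
  rw [inner_uu, ← mul_add, ← Finset.sum_add_distrib]
  congr 1
  apply Finset.sum_congr rfl
  intro j _
  split_ifs <;> ring

/-- energy on the chosen rows -/
noncomputable def ff (P : ℕ → KP) (O : Fin d → Fin d → ℝ) (ξ : Fin d → Wd d)
    (Ω : Finset (Fin d)) (x : V d) : ℝ := ∑ l ∈ Ω, d * ⟪x, uu P O ξ l⟫_ℝ ^ 2

theorem ff_eq (P : ℕ → KP) (O : Fin d → Fin d → ℝ) (L0 : ℕ) (ξ : Fin d → Wd d)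
    (Ω : Finset (Fin d)) (x : V d) :
    ff P O ξ Ω x = ∑ l ∈ Ω, (zg P O L0 x ξ l + zb P O L0 x ξ l) ^ 2 := by
  unfold ff
  apply Finset.sum_congr rfl
  intro l _
  rw [← zg_add_zb, mul_pow, Real.sq_sqrt (by positivity)]

theorem sum_zg_sq (P : ℕ → KP) {O : Fin d → Fin d → ℝ}
    (hO : ∀ l l', ∑ j, O l j * O l' j = if l = l' then 1 else 0) {L0 : ℕ} (hL : L0 ≤ d)
    (x : V d) (ξ : Fin d → Wd d) :
    ∑ l, zg P O L0 x ξ l ^ 2 = d * (‖x‖ ^ 2 - pi2 (FF P ξ L0) x) := by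
  have h1 := sum_Ot_sq (O := fun j l => O l j) (fun j j' => col_orth hO j j')
    (fun j : Fin d => if (j:ℕ) < L0 then ⟪x, vv P ξ j⟫_ℝ else 0)
  have h2 : ∀ l, zg P O L0 x ξ l ^ 2
      = d * (∑ j : Fin d, (if (j:ℕ) < L0 then ⟪x, vv P ξ j⟫_ℝ else 0) * O l j) ^ 2 := by
    intro l
    unfold zg
    rw [mul_pow, Real.sq_sqrt (by positivity)]
    congr 2
    apply Finset.sum_congr rfl
    intro j _
    split_ifs <;> ring
  rw [Finset.sum_congr rfl (fun l _ => h2 l), ← Finset.mul_sum, h1, ← sum_sq_range P ξ x L0 hL]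
  congr 1
  rw [← sum_fin_lt hL (fun j => ⟪x, vv P ξ j⟫_ℝ ^ 2)]
  apply Finset.sum_congr rfl
  intro j _
  split_ifs <;> ring

theorem sq_sum_of_disjoint {ι : Type*} [Fintype ι] [DecidableEq ι] (a : ι → ℝ)
    (h : ∀ i j, i ≠ j → a i * a j = 0) : (∑ i, a i) ^ 2 = ∑ i, a i ^ 2 := by
  rw [sq, Finset.sum_mul_sum]
  apply Finset.sum_congr rfl
  intro i _
  rw [Finset.sum_eq_single i]
  · ring
  · intro j _ hj
    exact h i j (Ne.symm hj)
  · simp

/-- weight of a bad vector -/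
noncomputable def wt (γ : Fin d → Fin d) (Ω : Finset (Fin d)) (j : ℕ) : ℝ :=
  if h : j < d then (if d - n0 d ≤ j then d * om γ Ω ⟨j, h⟩ else 0) else 0

theorem wt_nonneg (γ : Fin d → Fin d) (Ω : Finset (Fin d)) (j : ℕ) : 0 ≤ wt γ Ω j := by
  unfold wt
  split_ifs
  · exact mul_nonneg (Nat.cast_nonneg _) (om_nonneg _ _ _)
  · exact le_refl _
  · exact le_refl _

theorem wt_fin (γ : Fin d → Fin d) (Ω : Finset (Fin d)) (j : Fin d) :
    wt γ Ω j = if d - n0 d ≤ (j:ℕ) then d * om γ Ω j else 0 := by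
  unfold wt
  rw [dif_pos j.isLt]

theorem sum_zb_sq (P : ℕ → KP) {O : Fin d → Fin d → ℝ} {γ : Fin d → Fin d}
    (hO3 : ∀ b ∈ badS d, ∀ l, O l b ^ 2 = if γ l = b then 1 / 2 ^ sx d b else 0)
    (Ω : Finset (Fin d)) (x : V d) (ξ : Fin d → Wd d) :
    ∑ l ∈ Ω, zb P O (d - n0 d) x ξ l ^ 2
      = ∑ j ∈ Finset.range d, wt γ Ω j * ⟪x, vv P ξ j⟫_ℝ ^ 2 := by
  classical
  have h0 : ∀ l j : Fin d, d - n0 d ≤ (j:ℕ) → γ l ≠ j → O l j = 0 := by
    intro l j hj hγ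
    have := hO3 j (mem_badS.mpr hj) l
    rw [if_neg hγ] at this
    exact pow_eq_zero_iff (two_ne_zero) |>.mp this
  have h1 : ∀ l, zb P O (d - n0 d) x ξ l ^ 2
      = d * ∑ j : Fin d, (if (j:ℕ) < d - n0 d then 0 else O l j ^ 2 * ⟪x, vv P ξ j⟫_ℝ ^ 2) := by
    intro l
    unfold zb
    rw [mul_pow, Real.sq_sqrt (by positivity), sq_sum_of_disjoint]
    · congr 1
      apply Finset.sum_congr rfl
      intro j _
      split_ifs <;> ring
    · intro i j hij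
      by_cases ci : (i:ℕ) < d - n0 d
      · rw [if_pos ci]; ring
      · by_cases cj : (j:ℕ) < d - n0 d
        · rw [if_pos cj]; ring
        · rw [if_neg ci, if_neg cj]
          by_cases c : γ l = i
          · have : γ l ≠ j := fun h => hij (c.symm.trans h)
            rw [h0 l j (not_lt.mp cj) this]; ring
          · rw [h0 l i (not_lt.mp ci) c]; ring
  rw [Finset.sum_congr rfl (fun l _ => h1 l), ← Finset.mul_sum, Finset.sum_comm, Finset.mul_sum,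
    ← Fin.sum_univ_eq_sum_range (fun j => wt γ Ω j * ⟪x, vv P ξ j⟫_ℝ ^ 2) d]
  apply Finset.sum_congr rfl
  intro j _
  rw [wt_fin]
  by_cases cj : (j:ℕ) < d - n0 d
  · rw [if_neg (not_le.mpr cj)]
    simp [cj]
  · rw [if_pos (not_lt.mp cj)]
    simp only [cj, if_false]
    rw [← Finset.sum_mul, ← mul_assoc]
    congr 2
    have hb : j ∈ badS d := mem_badS.mpr (not_lt.mp cj)
    rw [Finset.sum_congr rfl (fun l _ => hO3 j hb l)]
    unfold om grp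
    rw [← Finset.sum_filter, Finset.sum_const, nsmul_eq_mul, mul_one_div]
    congr 2
    rw [← Finset.filter_mem_eq_inter, Finset.filter_comm, Finset.filter_univ_mem]

/-- combination of a good and a bad part -/
theorem combine {ι : Type*} (S : Finset ι) (a b : ι → ℝ) {k : ℝ} (hk : 0 ≤ k)
    (ha1 : (15 / 16) * k ≤ ∑ l ∈ S, a l ^ 2) (ha2 : ∑ l ∈ S, a l ^ 2 ≤ (67 / 64) * k)
    (hb : ∑ l ∈ S, b l ^ 2 ≤ k / 32) :
    (9 / 16) * k ≤ ∑ l ∈ S, (a l + b l) ^ 2 ∧ ∑ l ∈ S, (a l + b l) ^ 2 ≤ (3 / 2) * k := by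
  have h1 : ∑ l ∈ S, (a l + b l) ^ 2 = ∑ l ∈ S, a l ^ 2 + 2 * ∑ l ∈ S, a l * b l
      + ∑ l ∈ S, b l ^ 2 := by
    rw [Finset.mul_sum, ← Finset.sum_add_distrib, ← Finset.sum_add_distrib]
    apply Finset.sum_congr rfl
    intro l _
    ring
  have h2 := Finset.sum_mul_sq_le_sq_mul_sq S a b
  have h3 : 0 ≤ ∑ l ∈ S, b l ^ 2 := Finset.sum_nonneg (fun l _ => sq_nonneg _)
  have h4 : 0 ≤ ∑ l ∈ S, a l ^ 2 := Finset.sum_nonneg (fun l _ => sq_nonneg _)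
  have h5 : (∑ l ∈ S, a l * b l) ^ 2 ≤ ((181 / 1000) * k) ^ 2 := by
    refine h2.trans ?_
    calc _ ≤ ((67 / 64) * k) * (k / 32) := mul_le_mul ha2 hb h3 (by positivity)
      _ ≤ _ := by nlinarith [sq_nonneg k]
  have h6 := abs_le_of_sq_le_sq h5 (by positivity)
  obtain ⟨h7, h8⟩ := abs_le.mp h6
  rw [h1]
  constructor <;> linarith

end Pool.Agent.Helper50_RIP
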