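import Mathlib
import Pool.Agent.Helper50_RIP.Rip1

set_option autoImplicit false
set_option linter.unusedSectionVars false
set_option linter.unusedVariables false

/-!
# Energy of a fixed vector on the chosen rows: events
-/

namespace Pool.Agent.Helper50_RIP

open Pool.Agent.Helper50_Stretch Module
open scoped InnerProductSpace

variable {d k : ℕ}

/-- truncation level -/
noncomputable def TT : ℝ := 2 ^ 140

/-- truncated squares -/
noncomputable def ww (P : ℕ → KP) (O : Fin d → Fin d → ℝ) (x : V d) (ξ : Fin d → Wd d)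
    (l : Fin d) : ℝ := min (zg P O (d - n0 d) x ξ l ^ 2) TT

theorem ww_add_exc (P : ℕ → KP) (O : Fin d → Fin d → ℝ) (x : V d) (ξ : Fin d → Wd d)
    (l : Fin d) : ww P O x ξ l + exc TT (zg P O (d - n0 d) x ξ l ^ 2)
      = zg P O (d - n0 d) x ξ l ^ 2 := by
  unfold ww exc
  rcases le_total (zg P O (d - n0 d) x ξ l ^ 2) TT with h | h
  · rw [min_eq_left h, max_eq_right (by linarith)]; ring
  · rw [min_eq_right h, max_eq_left (by linarith)]; ring

theorem ww_nonneg (P : ℕ → KP) (O : Fin d → Fin d → ℝ) (x : V d) (ξ : Fin d → Wd d)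
    (l : Fin d) : 0 ≤ ww P O x ξ l := le_min (sq_nonneg _) (by unfold TT; positivity)

theorem ww_le (P : ℕ → KP) (O : Fin d → Fin d → ℝ) (x : V d) (ξ : Fin d → Wd d)
    (l : Fin d) : ww P O x ξ l ≤ TT := min_le_right _ _

theorem exc_nonneg (T z : ℝ) : 0 ≤ exc T z := le_max_right _ _

/-- residual projections are small -/
def EvUp (P : ℕ → KP) (k : ℕ) (x : V d) (ξ : Fin d → Wd d) : Prop :=
  ∀ n, k ≤ n → n ≤ n0 d → pi2 (FF P ξ (d - n)) x ≤ 2 * tt d n ^ 2

/-- small excess on the set `S` -/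
def EvE (P : ℕ → KP) (O : Fin d → Fin d → ℝ) (x : V d) (ξ : Fin d → Wd d)
    (S : Finset (Fin d)) : Prop :=
  ¬ ((1 / 64 : ℝ) * S.card ≤ ∑ l ∈ S, exc TT (zg P O (d - n0 d) x ξ l ^ 2))

/-- concentration of the truncated energy -/
def EvW (P : ℕ → KP) (O : Fin d → Fin d → ℝ) (k : ℕ) (x : V d) (ξ : Fin d → Wd d)
    (Ω : Finset (Fin d)) : Prop :=
  ¬ (∑ l ∈ Ω, ww P O x ξ l ≤ ((∑ l, ww P O x ξ l) / d - 2 * (1 / 64)) * k) ∧
  ¬ (((∑ l, ww P O x ξ l) / d + 2 * (1 / 64)) * k ≤ ∑ l ∈ Ω, ww P O x ξ l)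

/-- the bad part is small -/
def EvB (P : ℕ → KP) (γ : Fin d → Fin d) (k : ℕ) (x : V d) (ξ : Fin d → Wd d)
    (Ω : Finset (Fin d)) : Prop :=
  ∑ j ∈ Finset.range (d - k), wt γ Ω j * ⟪x, vv P ξ j⟫_ℝ ^ 2 ≤ k / 64

theorem mean_le_one (P : ℕ → KP) {O : Fin d → Fin d → ℝ}
    (hO : ∀ l l', ∑ j, O l j * O l' j = if l = l' then 1 else 0) (hd : 0 < d)
    (x : V d) (hx : ‖x‖ = 1) (ξ : Fin d → Wd d) : (∑ l, ww P O x ξ l) / d ≤ 1 := by
  have hd0 : (0:ℝ) < d := by exact_mod_cast hd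
  rw [div_le_one hd0]
  have h1 := sum_zg_sq P hO (by omega : d - n0 d ≤ d) x ξ
  have h2 : ∑ l, ww P O x ξ l ≤ ∑ l, zg P O (d - n0 d) x ξ l ^ 2 :=
    Finset.sum_le_sum (fun l _ => min_le_left _ _)
  have h3 := pi2_nonneg (FF P ξ (d - n0 d)) x
  rw [hx] at h1
  nlinarith

/-- on the intersection of all the events the energy is right -/
theorem energy_ok (P : ℕ → KP) {O : Fin d → Fin d → ℝ} {γ : Fin d → Fin d}
    (hO : ∀ l l', ∑ j, O l j * O l' j = if l = l' then 1 else 0)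
    (hO3 : ∀ b ∈ badS d, ∀ l, O l b ^ 2 = if γ l = b then 1 / 2 ^ sx d b else 0)
    (hd : 0 < d) (hk1 : 1 ≤ k) (hkn : k ≤ n0 d) {R0 : ℕ}
    (hlate : 4 * (R0:ℝ) * tt d k ≤ 1 / 64)
    (x : V d) (hx : ‖x‖ = 1) (ξ : Fin d → Wd d) (Ω : Finset (Fin d)) (hΩ : Ω.card = k)
    (hReg : Reg γ k R0 Ω) (h1 : EvUp P k x ξ) (h2 : EvE P O x ξ Ω)
    (h3 : EvE P O x ξ Finset.univ) (h4 : EvW P O k x ξ Ω) (h5 : EvB P γ k x ξ Ω) :
    (9 / 16) * (k:ℝ) ≤ ff P O ξ Ω x ∧ ff P O ξ Ω x ≤ (3 / 2) * k := by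
  have hd0 : (0:ℝ) < d := by exact_mod_cast hd
  have hk0 : (0:ℝ) < k := by exact_mod_cast hk1
  have hn0 := n0_le hd
  rw [ff_eq P O (d - n0 d) ξ Ω x]
  -- the total truncated energy
  have e1 := sum_zg_sq P hO (by omega : d - n0 d ≤ d) x ξ
  rw [hx] at e1
  have e2 : ∑ l, zg P O (d - n0 d) x ξ l ^ 2
      = ∑ l, ww P O x ξ l + ∑ l, exc TT (zg P O (d - n0 d) x ξ l ^ 2) := by
    rw [← Finset.sum_add_distrib]
    exact Finset.sum_congr rfl (fun l _ => (ww_add_exc P O x ξ l).symm)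
  have e3 : ∑ l ∈ Ω, zg P O (d - n0 d) x ξ l ^ 2
      = ∑ l ∈ Ω, ww P O x ξ l + ∑ l ∈ Ω, exc TT (zg P O (d - n0 d) x ξ l ^ 2) := by
    rw [← Finset.sum_add_distrib]
    exact Finset.sum_congr rfl (fun l _ => (ww_add_exc P O x ξ l).symm)
  have e4 : ∑ l ∈ Ω, exc TT (zg P O (d - n0 d) x ξ l ^ 2) ≤ k / 64 := by
    unfold EvE at h2
    rw [hΩ] at h2
    linarith [not_le.mp h2]
  have e4' : 0 ≤ ∑ l ∈ Ω, exc TT (zg P O (d - n0 d) x ξ l ^ 2) :=
    Finset.sum_nonneg (fun l _ => exc_nonneg _ _)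
  have e5 : ∑ l, exc TT (zg P O (d - n0 d) x ξ l ^ 2) ≤ d / 64 := by
    unfold EvE at h3
    rw [Finset.card_univ, Fintype.card_fin] at h3
    linarith [not_le.mp h3]
  have e6 : pi2 (FF P ξ (d - n0 d)) x ≤ 1 / 128 := by
    have := h1 (n0 d) hkn (le_refl _)
    have h6 := tt_n0 hd (le_refl (n0 d))
    have h7 := tt_nonneg d (n0 d)
    nlinarith
  have e7 : 1 - 1 / 128 - 1 / 64 ≤ (∑ l, ww P O x ξ l) / d := by
    rw [le_div_iff₀ hd0]
    nlinarith
  have e8 := mean_le_one P hO hd x hx ξ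
  obtain ⟨h41, h42⟩ := h4
  rw [not_le] at h41 h42
  -- bad part
  have e9 := sum_zb_sq P hO3 Ω x ξ
  have e10 : ∑ j ∈ Finset.range d, wt γ Ω j * ⟪x, vv P ξ j⟫_ℝ ^ 2
      = ∑ j ∈ Finset.range (d - k), wt γ Ω j * ⟪x, vv P ξ j⟫_ℝ ^ 2
        + ∑ j ∈ Finset.Ico (d - k) d, wt γ Ω j * ⟪x, vv P ξ j⟫_ℝ ^ 2 := by
    rw [Finset.range_eq_Ico, Finset.range_eq_Ico]
    exact (Finset.sum_Ico_consecutive _ (Nat.zero_le _) (Nat.sub_le _ _)).symm
  have hq0 := tt_nonneg d k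
  have e11 : ∑ j ∈ Finset.Ico (d - k) d, wt γ Ω j * ⟪x, vv P ξ j⟫_ℝ ^ 2 ≤ k / 64 := by
    have f1 : ∀ j ∈ Finset.Ico (d - k) d, wt γ Ω j * ⟪x, vv P ξ j⟫_ℝ ^ 2
        ≤ (d * (2 * R0 * tt d k ^ 15)) * ⟪x, vv P ξ j⟫_ℝ ^ 2 := by
      intro j hj
      rw [Finset.mem_Ico] at hj
      apply mul_le_mul_of_nonneg_right _ (sq_nonneg _)
      have f2 := wt_fin γ Ω ⟨j, hj.2⟩
      simp only at f2
      rw [f2]
      split_ifs with hc
      · apply mul_le_mul_of_nonneg_left _ hd0.le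
        refine (hReg.om_le (mem_badS.mpr hc)).trans ?_
        have f3 : tt d (d - j) ^ 15 ≤ tt d k ^ 15 :=
          pow_le_pow_left₀ (tt_nonneg _ _) (tt_mono (by omega)) 15
        have f4 : (0:ℝ) ≤ R0 := Nat.cast_nonneg _
        simp only
        nlinarith
      · positivity
    have f2 : ∑ j ∈ Finset.Ico (d - k) d, ⟪x, vv P ξ j⟫_ℝ ^ 2 ≤ 2 * tt d k ^ 2 := by
      have g1 := sum_sq_range P ξ x d (le_refl _)
      have g2 := sum_sq_range P ξ x (d - k) (Nat.sub_le _ _)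
      have g3 : ∑ j ∈ Finset.range d, ⟪x, vv P ξ j⟫_ℝ ^ 2
          = ∑ j ∈ Finset.range (d - k), ⟪x, vv P ξ j⟫_ℝ ^ 2
            + ∑ j ∈ Finset.Ico (d - k) d, ⟪x, vv P ξ j⟫_ℝ ^ 2 := by
        rw [Finset.range_eq_Ico, Finset.range_eq_Ico]
        exact (Finset.sum_Ico_consecutive _ (Nat.zero_le _) (Nat.sub_le _ _)).symm
      have g4 := pi2_nonneg (FF P ξ d) x
      have g5 := h1 k (le_refl _) hkn
      linarith
    refine (Finset.sum_le_sum f1).trans ?_
    rw [← Finset.mul_sum]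
    calc _ ≤ (d * (2 * R0 * tt d k ^ 15)) * (2 * tt d k ^ 2) :=
          mul_le_mul_of_nonneg_left f2 (by positivity)
      _ = (4 * R0 * tt d k) * (tt d k ^ 16 * d) := by ring
      _ = (4 * R0 * tt d k) * k := by rw [tt_pow]; field_simp
      _ ≤ (1 / 64) * k := mul_le_mul_of_nonneg_right hlate hk0.le
      _ = k / 64 := by ring
  have e12 : ∑ l ∈ Ω, zb P O (d - n0 d) x ξ l ^ 2 ≤ k / 32 := by
    rw [e9, e10]
    unfold EvB at h5
    linarith
  apply combine Ω _ _ hk0.le _ _ e12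
  · rw [e3]
    nlinarith
  · rw [e3]
    nlinarith

/-! ### probabilities of the events -/

theorem evUp_prob (P : ℕ → KP) (hd : 0 < d) (hk1 : 1 ≤ k) (x : V d) (hx : ‖x‖ = 1) :
    avg (fun ξ : Fin d → Wd d => ind (¬ EvUp P k x ξ)) ≤ d * (1 / 4) ^ (k / 5376) := by
  have hn0 := n0_le hd
  have h1 : avg (fun ξ : Fin d → Wd d => ind (∃ n ∈ Finset.Icc k (n0 d),
      ¬ pi2 (FF P ξ (d - n)) x ≤ 2 * tt d n ^ 2)) ≤ d * (1 / 4) ^ (k / 5376) := by
    refine (avg_ind_exists_le _ _ (c := (1 / 4) ^ (k / 5376)) ?_).trans ?_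
    · intro n hn
      rw [Finset.mem_Icc] at hn
      have e0 : d - (d - n) = n := by omega
      have e1 := Nat.div_mul_le_self k 5376
      have ht := tt_nonneg d n
      exact up_prob P x hx.le (d - n) (k / 5376) (by omega) (by rw [e0]; omega)
        (by positivity) (by rw [e0]; exact lam_le2 (by omega) (by omega))
    · apply mul_le_mul_of_nonneg_right _ (by positivity)
      rw [Nat.card_Icc]
      exact_mod_cast (by omega : n0 d + 1 - k ≤ d)
  refine le_trans ?_ h1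
  apply avg_ind_mono
  intro ξ hξ
  unfold EvUp at hξ
  push Not at hξ
  obtain ⟨n, hn1, hn2, hn3⟩ := hξ
  exact ⟨n, Finset.mem_Icc.mpr ⟨hn1, hn2⟩, not_le.mpr hn3⟩

theorem evE_prob (P : ℕ → KP) {O : Fin d → Fin d → ℝ}
    (hO : ∀ l l', ∑ j, O l j * O l' j = if l = l' then 1 else 0) (hd : 0 < d)
    (x : V d) (hx : ‖x‖ = 1) (S : Finset (Fin d)) :
    avg (fun ξ : Fin d → Wd d => ind (¬ EvE P O x ξ S))
      ≤ Real.exp (-(S.card / 2 ^ 138)) := by
  have hn0 := n0_le hd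
  have h := exc_prob P hO (by omega : d - n0 d ≤ d) (B := 2 ^ 128) ?_ (by positivity) x hx.le S
    (r := 1 / 2 ^ 131) (by positivity) (by norm_num) (T := TT) (η := 1 / 64) ?_
  · refine le_trans ?_ (h.trans (le_of_eq ?_))
    · apply avg_ind_mono
      intro ξ hξ
      unfold EvE at hξ
      exact not_not.mp hξ
    · congr 1
      ring
  · intro j hj
    have h1 := lt_n0_succ d
    have h2 : d ≤ 2 ^ 128 * (d - j) :=
      h1.trans (Nat.mul_le_mul_left _ (by omega))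
    exact_mod_cast h2
  · have e1 : (1:ℝ) / 2 - 1 / 2 ^ 131 * TT = -(511.5) := by
      unfold TT; norm_num
    rw [e1, Real.exp_neg]
    have e2 : (2:ℝ) ^ 138 ≤ Real.exp 511.5 := by
      calc (2:ℝ) ^ 138 ≤ 2.7 ^ 138 := pow_le_pow_left₀ (by norm_num) (by norm_num) 138
        _ ≤ Real.exp (138:ℕ) := exp_one_nat_ge 138
        _ ≤ _ := Real.exp_le_exp.mpr (by norm_num)
    calc (Real.exp 511.5)⁻¹ ≤ ((2:ℝ) ^ 138)⁻¹ := inv_anti₀ (by positivity) e2
      _ = _ := by norm_num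

theorem evW_prob (P : ℕ → KP) {O : Fin d → Fin d → ℝ}
    (hO : ∀ l l', ∑ j, O l j * O l' j = if l = l' then 1 else 0) (hd : 0 < d)
    (hkd : 2 * k ≤ d) (x : V d) (hx : ‖x‖ = 1) (ξ : Fin d → Wd d) :
    avg (fun Ω : Om d k => ind (¬ EvW P O k x ξ Ω.1))
      ≤ 2 * Real.exp (-(k / 2 ^ 152) + 2 * k ^ 2 / d) := by
  have hs := mean_le_one P hO hd x hx ξ
  have hT : (0:ℝ) < TT := by unfold TT; positivity
  have h1 := lower_tail hkd hd (ww P O x ξ) hT (η := 1 / 64) (by norm_num) (by norm_num)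
    (ww_nonneg P O x ξ) (ww_le P O x ξ) hs
  have h2 := upper_tail hkd hd (ww P O x ξ) hT (η := 1 / 64) (by norm_num) (by norm_num)
    (ww_nonneg P O x ξ) (ww_le P O x ξ) hs
  have e1 : -((1 / 64) ^ 2 / TT * (k:ℝ)) + 2 * (k:ℝ) ^ 2 / d = -(k / 2 ^ 152) + 2 * k ^ 2 / d := by
    unfold TT; norm_num; ring
  rw [e1] at h1 h2
  have h3 := avg_ind_or_le (r := fun Ω : Om d k => ¬ EvW P O k x ξ Ω.1) ?_ h1 h2
  · linarith
  · intro Ω hΩ
    unfold EvW at hΩ
    rw [not_and_or, not_not, not_not] at hΩ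
    exact hΩ

/-- the bad part -/
theorem evB_prob (P : ℕ → KP) (γ : Fin d → Fin d) (hd : 0 < d) (hk1 : 1 ≤ k) (hkd : k ≤ d)
    {R0 : ℕ} (hR0 : 1 ≤ R0) (x : V d) (hx : ‖x‖ = 1) (Ω : Finset (Fin d))
    (hReg : Reg γ k R0 Ω) :
    avg (fun ξ : Fin d → Wd d => ind (EvUp P k x ξ ∧ ¬ EvB P γ k x ξ Ω))
      ≤ Real.exp (-(k / (4096 * R0))) := by
  have hd0 : (0:ℝ) < d := by exact_mod_cast hd
  have hk0 : (0:ℝ) < k := by exact_mod_cast hk1
  have hR : (0:ℝ) < R0 := by exact_mod_cast hR0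
  have hn0 := n0_le hd
  set r : ℝ := 1 / (32 * R0) with hr
  have hr0 : 0 < r := by positivity
  set u : ℕ → ℝ := fun j => if d - n0 d ≤ j then 2 * tt d (d - j) ^ 2 else 1 with hu
  have hu0 : ∀ j, 0 ≤ u j := by
    intro j; simp only [hu]
    have := tt_nonneg d (d - j)
    split_ifs
    · positivity
    · norm_num
  -- value of the exponents
  have hterm : ∀ j : ℕ, j < d → 4 * (r * wt γ Ω j) * (u j / ((d - j : ℕ) : ℝ))
      = if h : j < d then (if d - n0 d ≤ j then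
        8 * r * (om γ Ω ⟨j, h⟩ * (tt d (d - j))⁻¹ ^ 14) else 0) else 0 := by
    intro j hj
    rw [dif_pos hj]
    unfold wt
    rw [dif_pos hj]
    simp only [hu]
    split_ifs with hc
    · have ht : 0 < tt d (d - j) := tt_pos hd (by omega)
      have hD : ((d - j : ℕ) : ℝ) = tt d (d - j) ^ 16 * d := by
        rw [tt_pow]; field_simp
      rw [hD]
      field_simp
      ring
    · ring
  have hsmall : ∀ j : ℕ, j < d - k → 4 * (r * wt γ Ω j) * (u j / ((d - j : ℕ) : ℝ)) ≤ 1 / 2 := by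
    intro j hj
    rw [hterm j (by omega), dif_pos (by omega : j < d)]
    split_ifs with hc
    · have hjd : j < d := by omega
      have ht : 0 < tt d (d - j) := tt_pos hd (by omega)
      have ht1 : tt d (d - j) ≤ 1 := tt_le_one (by omega)
      have hq : tt d k ≤ tt d (d - j) := tt_mono (by omega)
      have f1 := hReg.om_le (b := ⟨j, hjd⟩) (mem_badS.mpr hc)
      simp only at f1
      have f2 : tt d k ^ 15 ≤ tt d (d - j) ^ 15 := pow_le_pow_left₀ (tt_nonneg _ _) hq 15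
      have f3 : om γ Ω ⟨j, hjd⟩ * (tt d (d - j))⁻¹ ^ 14 ≤ 2 * R0 := by
        calc _ ≤ (R0 * (tt d (d - j) ^ 15 + tt d (d - j) ^ 15)) * (tt d (d - j))⁻¹ ^ 14 := by
              apply mul_le_mul_of_nonneg_right _ (by positivity)
              refine f1.trans ?_
              apply mul_le_mul_of_nonneg_left _ hR.le
              linarith
          _ = 2 * R0 * tt d (d - j) := by
              rw [inv_pow]; field_simp; ring
          _ ≤ _ := by nlinarith
      calc 8 * r * (om γ Ω ⟨j, hjd⟩ * (tt d (d - j))⁻¹ ^ 14) ≤ 8 * r * (2 * R0) :=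
            mul_le_mul_of_nonneg_left f3 (by positivity)
        _ = 1 / 2 := by rw [hr]; field_simp; norm_num
    · norm_num
  have hmain := avg_exp_quad P x (fun j => r * wt γ Ω j) u
    (fun j => mul_nonneg hr0.le (wt_nonneg γ Ω j)) hu0 (d - k) (by omega) hsmall
  have hsum : ∑ j ∈ Finset.range (d - k), 4 * (r * wt γ Ω j) * (u j / ((d - j : ℕ) : ℝ))
      ≤ r * k / 128 := by
    have g1 : ∑ j ∈ Finset.range (d - k), 4 * (r * wt γ Ω j) * (u j / ((d - j : ℕ) : ℝ))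
        ≤ ∑ j ∈ Finset.range d, 4 * (r * wt γ Ω j) * (u j / ((d - j : ℕ) : ℝ)) := by
      apply Finset.sum_le_sum_of_subset_of_nonneg
      · exact Finset.range_mono (by omega)
      · intro j _ _
        have := wt_nonneg γ Ω j
        have := hu0 j
        positivity
    refine g1.trans ?_
    have g2 : ∑ j ∈ Finset.range d, 4 * (r * wt γ Ω j) * (u j / ((d - j : ℕ) : ℝ))
        = ∑ b ∈ badS d, 8 * r * (om γ Ω b * (tt d (d - b))⁻¹ ^ 14) := by
      rw [Finset.sum_congr rfl (fun j hj => hterm j (Finset.mem_range.mp hj)),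
        ← Fin.sum_univ_eq_sum_range (fun j => if h : j < d then (if d - n0 d ≤ j then
        8 * r * (om γ Ω ⟨j, h⟩ * (tt d (d - j))⁻¹ ^ 14) else 0) else 0) d]
      unfold badS
      rw [Finset.sum_filter]
      apply Finset.sum_congr rfl
      intro b _
      rw [dif_pos b.isLt]
    rw [g2, ← Finset.mul_sum]
    have g3 := hReg.R2
    calc _ ≤ 8 * r * (k / 1024) := mul_le_mul_of_nonneg_left g3 (by positivity)
      _ = _ := by ring
  have h1 : ∀ ξ : Fin d → Wd d, ind (EvUp P k x ξ ∧ ¬ EvB P γ k x ξ Ω)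
      ≤ Real.exp (-(r * (k / 64))) * ∏ j ∈ Finset.range (d - k),
        (Real.exp (r * wt γ Ω j * ⟪x, vv P ξ j⟫_ℝ ^ 2) * ind (pi2 (FF P ξ j) x ≤ u j)) := by
    intro ξ
    apply ind_le
    · apply mul_nonneg (Real.exp_pos _).le
      apply Finset.prod_nonneg
      intro j _
      exact mul_nonneg (Real.exp_pos _).le (ind_nonneg _)
    · rintro ⟨hup, hB⟩
      unfold EvB at hB
      rw [not_le] at hB
      have f1 : ∏ j ∈ Finset.range (d - k),
          (Real.exp (r * wt γ Ω j * ⟪x, vv P ξ j⟫_ℝ ^ 2) * ind (pi2 (FF P ξ j) x ≤ u j))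
          = Real.exp (∑ j ∈ Finset.range (d - k), r * wt γ Ω j * ⟪x, vv P ξ j⟫_ℝ ^ 2) := by
        rw [Real.exp_sum]
        apply Finset.prod_congr rfl
        intro j hj
        rw [Finset.mem_range] at hj
        rw [ind_true, mul_one]
        simp only [hu]
        split_ifs with hc
        · have := hup (d - j) (by omega) (by omega)
          rwa [show d - (d - j) = j by omega] at this
        · refine (pi2_le_norm_sq _ _).trans ?_
          rw [hx]; norm_num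
      rw [f1, ← Real.exp_add]
      apply Real.one_le_exp
      have f2 : ∑ j ∈ Finset.range (d - k), r * wt γ Ω j * ⟪x, vv P ξ j⟫_ℝ ^ 2
          = r * ∑ j ∈ Finset.range (d - k), wt γ Ω j * ⟪x, vv P ξ j⟫_ℝ ^ 2 := by
        rw [Finset.mul_sum]
        apply Finset.sum_congr rfl
        intro j _; ring
      rw [f2]
      nlinarith
  refine (avg_mono h1).trans ?_
  rw [avg_const_mul]
  calc _ ≤ Real.exp (-(r * (k / 64))) * Real.exp (r * k / 128) := by
        apply mul_le_mul_of_nonneg_left _ (Real.exp_pos _).le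
        exact hmain.trans (Real.exp_le_exp.mpr hsum)
    _ = Real.exp (-(r * (k / 64)) + r * k / 128) := by rw [Real.exp_add]
    _ ≤ _ := by
        apply Real.exp_le_exp.mpr
        have : -(r * ((k:ℝ) / 64)) + r * k / 128 = -(k / (4096 * R0)) := by
          rw [hr]; field_simp; norm_num
        rw [this]

end Pool.Agent.Helper50_RIP
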