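import Mathlib
import Pool.Agent.Helper50_RIP.Rip2

set_option autoImplicit false
set_option linter.unusedSectionVars false
set_option linter.unusedVariables false

/-!
# From one vector to all sparse vectors
-/

namespace Pool.Agent.Helper50_RIP

open Pool.Agent.Helper50_Stretch Module
open scoped InnerProductSpace

variable {d k : ℕ}

/-- the energy of `x` is right -/
def EOK (P : ℕ → KP) (O : Fin d → Fin d → ℝ) (k : ℕ) (ξ : Fin d → Wd d) (Ω : Finset (Fin d))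
    (x : V d) : Prop :=
  (9 / 16) * (k:ℝ) * ‖x‖ ^ 2 ≤ ff P O ξ Ω x ∧ ff P O ξ Ω x ≤ (3 / 2) * k * ‖x‖ ^ 2

theorem ff_smul (P : ℕ → KP) (O : Fin d → Fin d → ℝ) (ξ : Fin d → Wd d) (Ω : Finset (Fin d))
    (c : ℝ) (x : V d) : ff P O ξ Ω (c • x) = c ^ 2 * ff P O ξ Ω x := by
  unfold ff
  rw [Finset.mul_sum]
  apply Finset.sum_congr rfl
  intro l _
  rw [inner_smul_left]
  simp only [conj_trivial]
  ring

/-- the bound for one vector -/
noncomputable def Ef (d k R0 : ℕ) : ℝ :=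
  d * (1 / 4) ^ (k / 5376) + Real.exp (-(k / 2 ^ 138)) + Real.exp (-(d / 2 ^ 138))
    + 2 * Real.exp (-(k / 2 ^ 152) + 2 * k ^ 2 / d) + Real.exp (-(k / (4096 * R0)))

theorem fixed_fail (P : ℕ → KP) {O : Fin d → Fin d → ℝ} {γ : Fin d → Fin d}
    (hO : ∀ l l', ∑ j, O l j * O l' j = if l = l' then 1 else 0)
    (hO3 : ∀ b ∈ badS d, ∀ l, O l b ^ 2 = if γ l = b then 1 / 2 ^ sx d b else 0)
    (hd : 0 < d) (hk1 : 1 ≤ k) (hkn : k ≤ n0 d) (hkd : 2 * k ≤ d) {R0 : ℕ} (hR0 : 1 ≤ R0)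
    (hlate : 4 * (R0:ℝ) * tt d k ≤ 1 / 64) (x : V d) (hx : ‖x‖ = 1) :
    avg (fun Ω : Om d k => avg (fun ξ : Fin d → Wd d =>
      ind (Reg γ k R0 Ω.1 ∧ ¬ EOK P O k ξ Ω.1 x))) ≤ Ef d k R0 := by
  have hne := nonempty_Om (d := d) (k := k) (by omega)
  have h1 : ∀ (Ω : Om d k) (ξ : Fin d → Wd d), ind (Reg γ k R0 Ω.1 ∧ ¬ EOK P O k ξ Ω.1 x)
      ≤ ind (¬ EvUp P k x ξ) + ind (¬ EvE P O x ξ Ω.1) + ind (¬ EvE P O x ξ Finset.univ)
        + ind (¬ EvW P O k x ξ Ω.1)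
        + ind (Reg γ k R0 Ω.1 ∧ EvUp P k x ξ ∧ ¬ EvB P γ k x ξ Ω.1) := by
    intro Ω ξ
    have n1 := ind_nonneg (¬ EvUp P k x ξ)
    have n2 := ind_nonneg (¬ EvE P O x ξ Ω.1)
    have n3 := ind_nonneg (¬ EvE P O x ξ Finset.univ)
    have n4 := ind_nonneg (¬ EvW P O k x ξ Ω.1)
    have n5 := ind_nonneg (Reg γ k R0 Ω.1 ∧ EvUp P k x ξ ∧ ¬ EvB P γ k x ξ Ω.1)
    apply ind_le (by linarith)
    rintro ⟨hReg, hE⟩
    by_cases c1 : EvUp P k x ξ
    · by_cases c2 : EvE P O x ξ Ω.1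
      · by_cases c3 : EvE P O x ξ Finset.univ
        · by_cases c4 : EvW P O k x ξ Ω.1
          · by_cases c5 : EvB P γ k x ξ Ω.1
            · exfalso
              apply hE
              have := energy_ok P hO hO3 hd hk1 hkn hlate x hx ξ Ω.1 Ω.2 hReg c1 c2 c3 c4 c5
              unfold EOK
              rw [hx]
              simpa using this
            · rw [ind_true (⟨hReg, c1, c5⟩ : Reg γ k R0 Ω.1 ∧ EvUp P k x ξ ∧
                ¬ EvB P γ k x ξ Ω.1)]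
              linarith
          · rw [ind_true c4]; linarith
        · rw [ind_true c3]; linarith
      · rw [ind_true c2]; linarith
    · rw [ind_true c1]; linarith
  refine (avg_mono (fun Ω => avg_mono (fun ξ => h1 Ω ξ))).trans ?_
  simp only [avg_add]
  have e1 : avg (fun _ : Om d k => avg (fun ξ : Fin d → Wd d => ind (¬ EvUp P k x ξ)))
      ≤ d * (1 / 4) ^ (k / 5376) := by
    rw [avg_const]; exact evUp_prob P hd hk1 x hx
  have e2 : avg (fun Ω : Om d k => avg (fun ξ : Fin d → Wd d => ind (¬ EvE P O x ξ Ω.1)))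
      ≤ Real.exp (-(k / 2 ^ 138)) := by
    have : ∀ Ω : Om d k, avg (fun ξ : Fin d → Wd d => ind (¬ EvE P O x ξ Ω.1))
        ≤ Real.exp (-(k / 2 ^ 138)) := by
      intro Ω
      have := evE_prob P hO hd x hx Ω.1
      rwa [Ω.2] at this
    refine (avg_mono this).trans ?_
    rw [avg_const]
  have e3 : avg (fun _ : Om d k => avg (fun ξ : Fin d → Wd d =>
      ind (¬ EvE P O x ξ Finset.univ))) ≤ Real.exp (-(d / 2 ^ 138)) := by
    rw [avg_const]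
    have := evE_prob P hO hd x hx Finset.univ
    rwa [Finset.card_univ, Fintype.card_fin] at this
  have e4 : avg (fun Ω : Om d k => avg (fun ξ : Fin d → Wd d => ind (¬ EvW P O k x ξ Ω.1)))
      ≤ 2 * Real.exp (-(k / 2 ^ 152) + 2 * k ^ 2 / d) := by
    rw [avg_comm]
    refine (avg_mono (fun ξ => evW_prob P hO hd hkd x hx ξ)).trans ?_
    rw [avg_const]
  have e5 : avg (fun Ω : Om d k => avg (fun ξ : Fin d → Wd d =>
      ind (Reg γ k R0 Ω.1 ∧ EvUp P k x ξ ∧ ¬ EvB P γ k x ξ Ω.1)))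
      ≤ Real.exp (-(k / (4096 * R0))) := by
    have : ∀ Ω : Om d k, avg (fun ξ : Fin d → Wd d =>
        ind (Reg γ k R0 Ω.1 ∧ EvUp P k x ξ ∧ ¬ EvB P γ k x ξ Ω.1))
        ≤ Real.exp (-(k / (4096 * R0))) := by
      intro Ω
      by_cases c : Reg γ k R0 Ω.1
      · refine le_trans (avg_ind_mono (fun ξ h => h.2)) ?_
        exact evB_prob P γ hd hk1 (by omega) hR0 x hx Ω.1 c
      · have h0 : ∀ ξ : Fin d → Wd d,
            ind (Reg γ k R0 Ω.1 ∧ EvUp P k x ξ ∧ ¬ EvB P γ k x ξ Ω.1) = 0 :=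
          fun ξ => ind_false (fun h => c h.1)
        rw [avg_congr h0, avg_zero]
        exact (Real.exp_pos _).le
    refine (avg_mono this).trans ?_
    rw [avg_const]
  unfold Ef
  linarith

theorem net_fail (P : ℕ → KP) {O : Fin d → Fin d → ℝ} {γ : Fin d → Fin d}
    (hO : ∀ l l', ∑ j, O l j * O l' j = if l = l' then 1 else 0)
    (hO3 : ∀ b ∈ badS d, ∀ l, O l b ^ 2 = if γ l = b then 1 / 2 ^ sx d b else 0)
    (hd : 0 < d) (hk1 : 1 ≤ k) (hkn : k ≤ n0 d) (hkd : 2 * k ≤ d) {R0 : ℕ} (hR0 : 1 ≤ R0)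
    (hlate : 4 * (R0:ℝ) * tt d k ≤ 1 / 64) (N : Finset (V d)) :
    avg (fun Ω : Om d k => avg (fun ξ : Fin d → Wd d =>
      ind (Reg γ k R0 Ω.1 ∧ ∃ z ∈ N, ¬ EOK P O k ξ Ω.1 z))) ≤ N.card * Ef d k R0 := by
  have hEf : 0 ≤ Ef d k R0 := by unfold Ef; positivity
  have h1 : ∀ (Ω : Om d k) (ξ : Fin d → Wd d),
      ind (Reg γ k R0 Ω.1 ∧ ∃ z ∈ N, ¬ EOK P O k ξ Ω.1 z)
      ≤ ∑ z ∈ N, ind (Reg γ k R0 Ω.1 ∧ ¬ EOK P O k ξ Ω.1 z) := by
    intro Ω ξ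
    refine le_trans (ind_mono ?_) (ind_exists_le N _)
    rintro ⟨hR, z, hz, hE⟩
    exact ⟨z, hz, hR, hE⟩
  refine (avg_mono (fun Ω => avg_mono (fun ξ => h1 Ω ξ))).trans ?_
  simp only [avg_sum]
  have h2 : ∀ z ∈ N, avg (fun Ω : Om d k => avg (fun ξ : Fin d → Wd d =>
      ind (Reg γ k R0 Ω.1 ∧ ¬ EOK P O k ξ Ω.1 z))) ≤ Ef d k R0 := by
    intro z _
    rcases eq_or_ne z 0 with h0 | h0
    · have : ∀ (Ω : Om d k) (ξ : Fin d → Wd d),
          ind (Reg γ k R0 Ω.1 ∧ ¬ EOK P O k ξ Ω.1 z) = 0 := by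
        intro Ω ξ
        apply ind_false
        rintro ⟨-, hE⟩
        apply hE
        unfold EOK ff
        rw [h0]
        simp
      rw [avg_congr (fun Ω => (avg_congr (fun ξ => this Ω ξ)).trans avg_zero), avg_zero]
      exact hEf
    · have hz0 : 0 < ‖z‖ := norm_pos_iff.mpr h0
      refine le_trans ?_ (fixed_fail P hO hO3 hd hk1 hkn hkd hR0 hlate (‖z‖⁻¹ • z) (by
        rw [norm_smul, norm_inv, norm_norm, inv_mul_cancel₀ hz0.ne']))
      apply avg_mono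
      intro Ω
      apply avg_ind_mono
      intro ξ hh
      refine ⟨hh.1, fun hE => hh.2 ?_⟩
      unfold EOK at hE ⊢
      rw [ff_smul, norm_smul, norm_inv, norm_norm, inv_mul_cancel₀ hz0.ne', one_pow, mul_one,
        inv_pow, inv_mul_eq_div, le_div_iff₀ (by positivity), div_le_iff₀ (by positivity),
        mul_one] at hE
      exact hE
  refine (Finset.sum_le_sum h2).trans (le_of_eq ?_)
  rw [Finset.sum_const, nsmul_eq_mul]

/-! ### the restricted operator -/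

/-- the map `x ↦ (√d ⟨x,u_l⟩)_{l ∈ Ω}` -/
noncomputable def Tm (P : ℕ → KP) (O : Fin d → Fin d → ℝ) (ξ : Fin d → Wd d)
    (Ω : Finset (Fin d)) : V d →ₗ[ℝ] V d where
  toFun x := WithLp.toLp 2 (fun l => if l ∈ Ω then Real.sqrt d * ⟪x, uu P O ξ l⟫_ℝ else 0)
  map_add' x y := by
    ext l
    rw [PiLp.add_apply]
    simp only
    split_ifs
    · rw [inner_add_left]; ring
    · simp
  map_smul' c x := by
    ext l
    rw [PiLp.smul_apply]
    simp only [RingHom.id_apply]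
    split_ifs
    · rw [inner_smul_left]
      simp only [conj_trivial, smul_eq_mul]
      ring
    · simp

theorem norm_Tm (P : ℕ → KP) (O : Fin d → Fin d → ℝ) (ξ : Fin d → Wd d)
    (Ω : Finset (Fin d)) (x : V d) : ‖Tm P O ξ Ω x‖ ^ 2 = ff P O ξ Ω x := by
  rw [EuclideanSpace.real_norm_sq_eq]
  unfold ff
  have h1 : ∀ l, (Tm P O ξ Ω x) l ^ 2
      = if l ∈ Ω then d * ⟪x, uu P O ξ l⟫_ℝ ^ 2 else 0 := by
    intro l
    show (if l ∈ Ω then Real.sqrt d * ⟪x, uu P O ξ l⟫_ℝ else 0) ^ 2 = _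
    split_ifs
    · rw [mul_pow, Real.sq_sqrt (by positivity)]
    · norm_num
  rw [Finset.sum_congr rfl (fun l _ => h1 l), Finset.sum_ite_mem, Finset.univ_inter]

/-- abstract net argument -/
theorem net_extend {E : Type*} [NormedAddCommGroup E] [NormedSpace ℝ E] (T : V d →ₗ[ℝ] E)
    (A : Submodule ℝ (V d)) (N : Finset (V d)) {K C : ℝ} (hK : 0 ≤ K)
    (hC : ∀ z, ‖T z‖ ≤ C * ‖z‖)
    (hN : ∀ z ∈ A, ‖z‖ ≤ 1 → ∃ z' ∈ N, z' ∈ A ∧ ‖z - z'‖ ≤ 1 / 64)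
    (h : ∀ z ∈ N, (3 / 4) * K * ‖z‖ ≤ ‖T z‖ ∧ ‖T z‖ ≤ (5 / 4) * K * ‖z‖) :
    ∀ z ∈ A, (7 / 10) * K * ‖z‖ ≤ ‖T z‖ ∧ ‖T z‖ ≤ (13 / 10) * K * ‖z‖ := by
  set S : Set ℝ := {y | ∃ z ∈ A, ‖z‖ ≤ 1 ∧ ‖T z‖ = y} with hS
  have hSb : BddAbove S := by
    refine ⟨|C|, ?_⟩
    rintro y ⟨z, hz, hz1, rfl⟩
    refine (hC z).trans ?_
    have h1 : C ≤ |C| := le_abs_self C
    have h2 := norm_nonneg z
    have h3 := abs_nonneg C
    nlinarith
  have hS0 : (0:ℝ) ∈ S := ⟨0, A.zero_mem, by simp, by simp⟩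
  set M := sSup S with hM
  have hM0 : 0 ≤ M := le_csSup hSb hS0
  have hball : ∀ z ∈ A, ‖z‖ ≤ 1 → ‖T z‖ ≤ M := fun z hz hz1 => le_csSup hSb ⟨z, hz, hz1, rfl⟩
  have hlin : ∀ z ∈ A, ‖T z‖ ≤ M * ‖z‖ := by
    intro z hz
    rcases eq_or_ne z 0 with h0 | h0
    · rw [h0]; simp
    · have hz0 : 0 < ‖z‖ := norm_pos_iff.mpr h0
      have := hball (‖z‖⁻¹ • z) (A.smul_mem _ hz) (by
        rw [norm_smul, norm_inv, norm_norm, inv_mul_cancel₀ hz0.ne'])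
      rw [map_smul, norm_smul, norm_inv, norm_norm, inv_mul_le_iff₀ hz0] at this
      linarith
  have hstep : ∀ z ∈ A, ‖z‖ ≤ 1 → ‖T z‖ ≤ (5 / 4) * K * (65 / 64) + M / 64 := by
    intro z hz hz1
    obtain ⟨z', hz', hzA, hzd⟩ := hN z hz hz1
    have h1 : T z = T z' + T (z - z') := by rw [← map_add]; congr 1; abel
    have h2 := hlin (z - z') (A.sub_mem hz hzA)
    have h3 := (h z' hz').2
    have h4 : ‖z'‖ ≤ 65 / 64 := by
      have e1 : z' = z - (z - z') := by abel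
      rw [e1]
      refine (norm_sub_le _ _).trans ?_
      linarith
    rw [h1]
    refine (norm_add_le _ _).trans ?_
    have h5 : M * ‖z - z'‖ ≤ M / 64 := by nlinarith
    have h6 : (5 / 4) * K * ‖z'‖ ≤ (5 / 4) * K * (65 / 64) := by
      apply mul_le_mul_of_nonneg_left h4 (by positivity)
    linarith
  have hM1 : M ≤ (5 / 4) * K * (65 / 64) + M / 64 := by
    apply csSup_le ⟨0, hS0⟩
    rintro y ⟨z, hz, hz1, rfl⟩
    exact hstep z hz hz1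
  have hM2 : M ≤ (13 / 10) * K := by linarith
  intro z hz
  refine ⟨?_, (hlin z hz).trans (mul_le_mul_of_nonneg_right hM2 (norm_nonneg _))⟩
  rcases eq_or_ne z 0 with h0 | h0
  · rw [h0]; simp
  · have hz0 : 0 < ‖z‖ := norm_pos_iff.mpr h0
    have hunit : ‖‖z‖⁻¹ • z‖ = 1 := by
      rw [norm_smul, norm_inv, norm_norm, inv_mul_cancel₀ hz0.ne']
    obtain ⟨z', hz', hzA, hzd⟩ := hN (‖z‖⁻¹ • z) (A.smul_mem _ hz) hunit.le
    set y := ‖z‖⁻¹ • z with hy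
    have h1 : T y = T z' + T (y - z') := by rw [← map_add]; congr 1; abel
    have h2 := hlin (y - z') (A.sub_mem (A.smul_mem _ hz) hzA)
    have h3 := (h z' hz').1
    have h4 : 63 / 64 ≤ ‖z'‖ := by
      have e1 := norm_sub_norm_le y z'
      linarith
    have h5 : ‖T z'‖ - ‖T (y - z')‖ ≤ ‖T y‖ := by
      rw [h1]
      have := norm_sub_le (T z' + T (y - z')) (T (y - z'))
      rw [add_sub_cancel_right] at this
      linarith
    have h6 : (7 / 10) * K ≤ ‖T y‖ := by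
      have h7 : ‖T (y - z')‖ ≤ (13 / 10) * K / 64 := by
        refine h2.trans ?_
        calc M * ‖y - z'‖ ≤ (13 / 10 * K) * (1 / 64) :=
              mul_le_mul hM2 hzd (norm_nonneg _) (by positivity)
          _ = _ := by ring
      have h8 : (3 / 4) * K * (63 / 64) ≤ (3 / 4) * K * ‖z'‖ :=
        mul_le_mul_of_nonneg_left h4 (by positivity)
      linarith
    have h7 : ‖T y‖ = ‖z‖⁻¹ * ‖T z‖ := by
      rw [hy, map_smul, norm_smul, norm_inv, norm_norm]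
    rw [h7, inv_mul_eq_div, le_div_iff₀ hz0] at h6
    exact h6

/-- restricted isometry on `m`-sparse vectors -/
def Good2 (P : ℕ → KP) (O : Fin d → Fin d → ℝ) (k m : ℕ) (ξ : Fin d → Wd d)
    (Ω : Finset (Fin d)) : Prop :=
  ∀ A : Finset (Fin d), A.card ≤ m → ∀ z ∈ cspan A,
    (7 / 10) * Real.sqrt k * ‖z‖ ≤ ‖Tm P O ξ Ω z‖ ∧ ‖Tm P O ξ Ω z‖ ≤ (13 / 10) * Real.sqrt k * ‖z‖

theorem good2_of_net (P : ℕ → KP) (O : Fin d → Fin d → ℝ) {m : ℕ} (hmd : m ≤ d)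
    (ξ : Fin d → Wd d) (Ω : Finset (Fin d)) (N : Finset (V d))
    (hN : ∀ A : Finset (Fin d), A.card = m → ∀ z ∈ cspan A, ‖z‖ ≤ 1 →
        ∃ z' ∈ N, z' ∈ cspan A ∧ ‖z - z'‖ ≤ 1 / 64)
    (h : ∀ z ∈ N, EOK P O k ξ Ω z) : Good2 P O k m ξ Ω := by
  intro A hA z hz
  obtain ⟨B, hAB, -, hB⟩ := Finset.exists_subsuperset_card_eq (Finset.subset_univ A) hA
    (by rw [Finset.card_univ, Fintype.card_fin]; exact hmd)
  have hk : (0:ℝ) ≤ k := Nat.cast_nonneg k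
  have hsk : Real.sqrt k ^ 2 = k := Real.sq_sqrt hk
  refine net_extend (Tm P O ξ Ω) (cspan B) N (K := Real.sqrt k)
    (C := ‖(Tm P O ξ Ω).toContinuousLinearMap‖) (Real.sqrt_nonneg _) ?_ (hN B hB) ?_ z
    (cspan_mono hAB hz)
  · intro y
    exact (Tm P O ξ Ω).toContinuousLinearMap.le_opNorm y
  · intro y hy
    obtain ⟨h1, h2⟩ := h y hy
    rw [← norm_Tm] at h1 h2
    constructor
    · apply le_of_sq_le_sq _ (norm_nonneg _)
      refine le_trans (le_of_eq ?_) h1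
      rw [mul_pow, mul_pow, hsk]; norm_num
    · apply le_of_sq_le_sq _ (by positivity)
      refine h2.trans ?_
      rw [mul_pow, mul_pow, hsk]
      have : 0 ≤ (k:ℝ) * ‖y‖ ^ 2 := by positivity
      nlinarith

/-- the conclusion for one sparsity level -/
theorem level_prob (P : ℕ → KP) {O : Fin d → Fin d → ℝ} {γ : Fin d → Fin d}
    (hO : ∀ l l', ∑ j, O l j * O l' j = if l = l' then 1 else 0)
    (hO3 : ∀ b ∈ badS d, ∀ l, O l b ^ 2 = if γ l = b then 1 / 2 ^ sx d b else 0)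
    (hγ : ∀ b ∈ badS d, (grp γ b).card = 2 ^ sx d b)
    (hd : 0 < d) (hk1 : 1 ≤ k) (hkn : k ≤ n0 d) (hkd : 2 * k ≤ d) {R0 : ℕ} (hR0 : 3 ≤ R0)
    (hlate : 4 * (R0:ℝ) * tt d k ≤ 1 / 64) (hq : 8 * d * tt d k ^ R0 ≤ 1)
    {m : ℕ} (hm : 1 ≤ m) (hmd : m ≤ d) :
    avg (fun ξ : Fin d → Wd d => ind (¬ (1 / 2 ≤ avg (fun Ω : Om d k =>
      ind (Good2 P O k m ξ Ω.1))))) ≤ 4 * (d.choose m * 45056 ^ m * Ef d k R0) := by
  have hne := nonempty_Om (d := d) (k := k) (by omega)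
  obtain ⟨N, hN1, hN2⟩ := exists_net d m hm (δ := 1 / 64) (by norm_num) (by norm_num)
  have hN1' : (N.card : ℝ) ≤ d.choose m * 45056 ^ m := by
    refine hN1.trans (le_of_eq ?_)
    congr 2
    norm_num
  have hEf : 0 ≤ Ef d k R0 := by unfold Ef; positivity
  have h1 := net_fail P hO hO3 hd hk1 hkn hkd (by omega : 1 ≤ R0) hlate N
  have h2 := reg_prob hd hk1 (by omega) γ hγ R0 hR0 hq
  rw [avg_comm] at h1
  set g : (Fin d → Wd d) → ℝ := fun ξ => avg (fun Ω : Om d k =>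
    ind (Reg γ k R0 Ω.1 ∧ ∃ z ∈ N, ¬ EOK P O k ξ Ω.1 z)) with hg
  have hg0 : ∀ ξ, 0 ≤ g ξ := fun ξ => avg_nonneg (fun Ω => ind_nonneg _)
  have h3 : ∀ ξ : Fin d → Wd d, ind (¬ (1 / 2 ≤ avg (fun Ω : Om d k =>
      ind (Good2 P O k m ξ Ω.1)))) ≤ 4 * g ξ := by
    intro ξ
    apply ind_le (by have := hg0 ξ; positivity)
    intro hlt
    rw [not_le] at hlt
    have h4 : ∀ Ω : Om d k, 1 ≤ ind (Good2 P O k m ξ Ω.1) + ind (¬ Reg γ k R0 Ω.1)
        + ind (Reg γ k R0 Ω.1 ∧ ∃ z ∈ N, ¬ EOK P O k ξ Ω.1 z) := by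
      intro Ω
      have n1 := ind_nonneg (Good2 P O k m ξ Ω.1)
      have n2 := ind_nonneg (¬ Reg γ k R0 Ω.1)
      have n3 := ind_nonneg (Reg γ k R0 Ω.1 ∧ ∃ z ∈ N, ¬ EOK P O k ξ Ω.1 z)
      by_cases c1 : Reg γ k R0 Ω.1
      · by_cases c2 : ∃ z ∈ N, ¬ EOK P O k ξ Ω.1 z
        · rw [ind_true (⟨c1, c2⟩ : Reg γ k R0 Ω.1 ∧ ∃ z ∈ N, ¬ EOK P O k ξ Ω.1 z)]
          linarith
        · push Not at c2
          rw [ind_true (good2_of_net P O hmd ξ Ω.1 N hN2 c2)]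
          linarith
      · rw [ind_true c1]; linarith
    have h5 := avg_mono h4
    rw [avg_const, avg_add, avg_add] at h5
    have h6 : avg (fun Ω : Om d k => ind (Reg γ k R0 Ω.1 ∧ ∃ z ∈ N, ¬ EOK P O k ξ Ω.1 z))
        = g ξ := rfl
    rw [h6] at h5
    linarith
  refine (avg_mono h3).trans ?_
  rw [avg_const_mul]
  apply mul_le_mul_of_nonneg_left _ (by norm_num)
  refine h1.trans ?_
  exact mul_le_mul_of_nonneg_right hN1' hEf

end Pool.Agent.Helper50_RIP
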