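import Mathlib
import Pool.Agent.Helper50_RIP.Rip3

set_option autoImplicit false
set_option linter.unusedSectionVars false
set_option linter.unusedVariables false

/-!
# Choice of the number of rows
-/

namespace Pool.Agent.Helper50_RIP

open Pool.Agent.Helper50_Stretch Module Filter

/-- the constant in the number of rows -/
noncomputable def AA (R0 : ℕ) : ℝ := 2 ^ 157 + 2 ^ 16 * R0

variable {d k : ℕ}

theorem level_bound (h : BigD d) {m R0 : ℕ} (hm : 1 ≤ m) (hR0 : 1 ≤ R0)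
    (hk : AA R0 * m * Real.log d ≤ k) (hkd : k ≤ d) (hkd2 : 2 * (k:ℝ) / d ≤ 1 / 2 ^ 153) :
    4 * (d.choose m * 45056 ^ m * Ef d k R0) ≤ 24 / d ^ 3 := by
  have hd := h.dpos
  have hℓ := h.log_ge
  set ℓ := Real.log d with hℓdef
  have hdexp : (d:ℝ) = Real.exp ℓ := h.exp_log
  have hm1 : (1:ℝ) ≤ m := by exact_mod_cast hm
  have hR : (1:ℝ) ≤ R0 := by exact_mod_cast hR0
  have hmℓ : 1 ≤ m * ℓ := by nlinarith
  set X : ℝ := m * ℓ with hX
  have hkX : (2 ^ 157 + 2 ^ 16 * (R0:ℝ)) * X ≤ k := by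
    unfold AA at hk
    calc _ = (2 ^ 157 + 2 ^ 16 * (R0:ℝ)) * m * ℓ := by rw [hX]; ring
      _ ≤ _ := hk
  have hk157 : 2 ^ 157 * X ≤ (k:ℝ) := by
    have : 0 ≤ 2 ^ 16 * (R0:ℝ) * X := by positivity
    linarith
  have hkR : 2 ^ 16 * (R0:ℝ) * X ≤ (k:ℝ) := by
    have : 0 ≤ 2 ^ 157 * X := by positivity
    linarith
  have hkd' : (k:ℝ) ≤ d := by exact_mod_cast hkd
  -- entropy
  have h1 : (d.choose m : ℝ) * 45056 ^ m ≤ Real.exp (12 * X) := by
    have e1 : (d.choose m : ℝ) ≤ (d:ℝ) ^ m := by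
      have := Nat.choose_le_pow d m
      exact_mod_cast this
    have e2 : (45056:ℝ) ≤ Real.exp (11 : ℕ) := by
      refine le_trans ?_ (exp_one_nat_ge 11)
      norm_num
    calc (d.choose m : ℝ) * 45056 ^ m ≤ (d:ℝ) ^ m * Real.exp (11:ℕ) ^ m := by gcongr
      _ = Real.exp (m * ℓ + m * 11) := by
          rw [hdexp, ← Real.exp_nat_mul, ← Real.exp_nat_mul, ← Real.exp_add]
          congr 1
      _ ≤ _ := by
          apply Real.exp_le_exp.mpr
          have : (m:ℝ) * 11 ≤ 11 * (m * ℓ) := by nlinarith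
          rw [hX]
          linarith
  -- the terms
  have t1 : (d:ℝ) * (1 / 4) ^ (k / 5376) ≤ Real.exp (-(15 * X)) := by
    have e1 := Ph1.nat_div_ge k 5376 (by norm_num)
    have e2 := Ph1.quarter_pow_le (k / 5376)
    have e3 : ℓ ≤ X := by rw [hX]; nlinarith
    calc (d:ℝ) * (1 / 4) ^ (k / 5376) ≤ Real.exp ℓ * Real.exp (-((k / 5376 : ℕ) : ℝ)) := by
          rw [hdexp]; exact mul_le_mul_of_nonneg_left e2 (Real.exp_pos _).le
      _ = Real.exp (ℓ + -((k / 5376 : ℕ) : ℝ)) := by rw [Real.exp_add]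
      _ ≤ _ := by
          apply Real.exp_le_exp.mpr
          push_cast at e1
          have e4 : 17 * X ≤ (k:ℝ) / 5376 := by
            rw [le_div_iff₀ (by norm_num)]
            have : 0 ≤ X := by linarith
            nlinarith
          linarith
  have t2 : Real.exp (-((k:ℝ) / 2 ^ 138)) ≤ Real.exp (-(15 * X)) := by
    apply Real.exp_le_exp.mpr
    have : 15 * X ≤ (k:ℝ) / 2 ^ 138 := by
      rw [le_div_iff₀ (by positivity)]
      have : 0 ≤ X := by linarith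
      nlinarith
    linarith
  have t3 : Real.exp (-((d:ℝ) / 2 ^ 138)) ≤ Real.exp (-(15 * X)) := by
    refine le_trans ?_ t2
    apply Real.exp_le_exp.mpr
    have : (k:ℝ) / 2 ^ 138 ≤ d / 2 ^ 138 := by gcongr
    linarith
  have t4 : Real.exp (-((k:ℝ) / 2 ^ 152) + 2 * k ^ 2 / d) ≤ Real.exp (-(15 * X)) := by
    apply Real.exp_le_exp.mpr
    have e1 : 2 * (k:ℝ) ^ 2 / d = (2 * k / d) * k := by ring
    have hk0 : (0:ℝ) ≤ k := Nat.cast_nonneg k
    have e2 : (2 * (k:ℝ) / d) * k ≤ (1 / 2 ^ 153) * k := mul_le_mul_of_nonneg_right hkd2 hk0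
    have e3 : 15 * X ≤ (k:ℝ) / 2 ^ 153 := by
      rw [le_div_iff₀ (by positivity)]
      have : 0 ≤ X := by linarith
      nlinarith
    have e4 : (k:ℝ) / 2 ^ 152 = k / 2 ^ 153 + k / 2 ^ 153 := by ring
    have e5 : (1 / 2 ^ 153) * (k:ℝ) = k / 2 ^ 153 := by ring
    linarith
  have t5 : Real.exp (-((k:ℝ) / (4096 * R0))) ≤ Real.exp (-(15 * X)) := by
    apply Real.exp_le_exp.mpr
    have : 15 * X ≤ (k:ℝ) / (4096 * R0) := by
      rw [le_div_iff₀ (by positivity)]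
      have : 0 ≤ X := by linarith
      have : 0 ≤ X * R0 := by positivity
      nlinarith
    linarith
  have hE : Ef d k R0 ≤ 6 * Real.exp (-(15 * X)) := by
    unfold Ef
    linarith
  have hE0 : 0 ≤ Ef d k R0 := by unfold Ef; positivity
  calc 4 * (d.choose m * 45056 ^ m * Ef d k R0)
      ≤ 4 * (Real.exp (12 * X) * (6 * Real.exp (-(15 * X)))) := by gcongr
    _ = 24 * (Real.exp (12 * X) * Real.exp (-(15 * X))) := by ring
    _ = 24 * Real.exp (-(3 * X)) := by rw [← Real.exp_add]; congr 2; ring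
    _ ≤ 24 * Real.exp (-(3 * ℓ)) := by
        apply mul_le_mul_of_nonneg_left _ (by norm_num)
        apply Real.exp_le_exp.mpr
        rw [hX]; nlinarith
    _ = 24 / d ^ 3 := by
        have e2 : Real.exp (-(3 * ℓ)) = ((d:ℝ) ^ 3)⁻¹ := by
          rw [Real.exp_neg, hdexp, ← Real.exp_nat_mul]
          norm_cast
        rw [e2]; rfl

/-! ### large dimension -/

theorem ev_log_pow (C : ℝ) (n : ℕ) {r : ℝ} (hr : 0 < r) :
    ∀ᶠ x : ℝ in atTop, C * Real.log x ^ n ≤ x ^ r := by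
  have h := (isLittleO_log_rpow_rpow_atTop (n:ℝ) hr).bound
    (by positivity : (0:ℝ) < 1 / (|C| + 1))
  filter_upwards [h, eventually_gt_atTop 1] with x hx h1
  have hl : 0 < Real.log x := Real.log_pos h1
  have hx0 : (0:ℝ) < x := by linarith
  rw [Real.rpow_natCast, Real.norm_of_nonneg (by positivity),
    Real.norm_of_nonneg (by positivity)] at hx
  have e1 : C * Real.log x ^ n ≤ |C| * Real.log x ^ n :=
    mul_le_mul_of_nonneg_right (le_abs_self C) (by positivity)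
  refine e1.trans ?_
  have e2 : |C| * Real.log x ^ n ≤ |C| * (1 / (|C| + 1) * x ^ r) :=
    mul_le_mul_of_nonneg_left hx (abs_nonneg C)
  refine e2.trans ?_
  have e3 : |C| * (1 / (|C| + 1)) ≤ 1 := by
    rw [mul_one_div, div_le_one (by positivity)]; linarith
  have e4 : 0 < x ^ r := by positivity
  nlinarith

theorem ev_bigD : ∀ᶠ d : ℕ in atTop, BigD d := by
  have h1 := (tendsto_natCast_atTop_atTop (R := ℝ)).eventually
    (ev_log_pow (2 ^ 41) 145 (r := 1) one_pos)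
  have h2 := (tendsto_natCast_atTop_atTop (R := ℝ)).eventually
    (ev_log_pow (5376 * 7) 1 (r := 1 / 17) (by norm_num))
  filter_upwards [h1, h2, eventually_ge_atTop 3] with d hd1 hd2 hd3
  have hℓ : 1 ≤ Real.log d := by
    rw [Real.le_log_iff_exp_le (by positivity)]
    have h1 : (3:ℝ) ≤ d := by exact_mod_cast hd3
    have := Real.exp_one_lt_d9
    linarith
  refine ⟨hd3, ?_, ?_⟩
  · rw [Real.rpow_one] at hd1
    refine le_trans ?_ hd1
    calc 2 ^ 40 * (Real.log d + 1) * Real.log d ^ 144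
        ≤ 2 ^ 40 * (Real.log d + Real.log d) * Real.log d ^ 144 := by gcongr
      _ = 2 ^ 41 * Real.log d ^ 145 := by ring
  · rw [pow_one] at hd2
    have h3 := Nat.lt_floor_add_one ((d:ℝ) ^ ((1:ℝ) / 17))
    linarith

theorem ev_level (i : ℕ) (hi : 1 ≤ i) : ∀ᶠ d : ℕ in atTop, ∀ m k : ℕ, 1 ≤ m →
    (m:ℝ) ≤ (d:ℝ) ^ (1 - 1 / (i:ℝ)) → k = ⌈AA (64 * i) * m * Real.log d⌉₊ →
    k ≤ n0 d ∧ 2 * k ≤ d ∧ 4 * ((64 * i : ℕ) : ℝ) * tt d k ≤ 1 / 64 ∧
      8 * d * tt d k ^ (64 * i) ≤ 1 ∧ 2 * (k:ℝ) / d ≤ 1 / 2 ^ 153 := by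
  have hi0 : (0:ℝ) < i := by exact_mod_cast hi
  set δ : ℝ := min (1 / 2 ^ 154) ((1 / (256 * ((64 * i : ℕ) : ℝ))) ^ 16) with hδ
  have hδ0 : 0 < δ := by
    rw [hδ]
    apply lt_min (by positivity)
    have : (0:ℝ) < ((64 * i : ℕ) : ℝ) := by exact_mod_cast (by omega : 0 < 64 * i)
    positivity
  have h1 := (tendsto_natCast_atTop_atTop (R := ℝ)).eventually
    (ev_log_pow (2 * AA (64 * i)) 1 (r := 1 / (2 * i)) (by positivity))
  have h2 := (tendsto_natCast_atTop_atTop (R := ℝ)).eventually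
    ((tendsto_rpow_atTop (y := 1 / (2 * (i:ℝ))) (by positivity)).eventually_ge_atTop δ⁻¹)
  filter_upwards [h1, h2, eventually_ge_atTop (2 ^ 130)] with d hd1 hd2 hd3
  intro m k hm hmd hk
  have hd0 : (0:ℝ) < d := by
    have : 0 < d := lt_of_lt_of_le (by positivity) hd3
    exact_mod_cast this
  have hdn : 0 < d := by exact_mod_cast hd0
  have hd130 : (2:ℝ) ^ 130 ≤ d := by exact_mod_cast hd3
  have hℓ : 1 ≤ Real.log d := by
    rw [Real.le_log_iff_exp_le hd0]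
    have := Real.exp_one_lt_d9
    linarith
  have hA : 1 ≤ AA (64 * i) := by
    unfold AA
    have : 0 ≤ 2 ^ 16 * (((64 * i : ℕ)) : ℝ) := by positivity
    linarith
  have hm1 : (1:ℝ) ≤ m := by exact_mod_cast hm
  have hAm : 1 ≤ AA (64 * i) * m * Real.log d := by
    have : 1 ≤ AA (64 * i) * m := by nlinarith
    nlinarith
  have hk2 : (k:ℝ) ≤ 2 * AA (64 * i) * m * Real.log d := by
    have := Nat.ceil_lt_add_one (by linarith : 0 ≤ AA (64 * i) * m * Real.log d)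
    rw [← hk] at this
    linarith
  set y : ℝ := (d:ℝ) ^ (1 / (2 * (i:ℝ))) with hy
  have hy0 : 0 < y := by positivity
  have hyy : (d:ℝ) ^ (1 - 1 / (i:ℝ)) * y * y = d := by
    rw [hy, ← Real.rpow_add hd0, ← Real.rpow_add hd0]
    have : 1 - 1 / (i:ℝ) + 1 / (2 * i) + 1 / (2 * i) = 1 := by field_simp; ring
    rw [this, Real.rpow_one]
  -- main bound
  have hmain : (k:ℝ) * y ≤ d := by
    rw [pow_one] at hd1
    have e1 : 2 * AA (64 * i) * m * Real.log d ≤ (d:ℝ) ^ (1 - 1 / (i:ℝ)) * y := by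
      calc 2 * AA (64 * i) * m * Real.log d = m * (2 * AA (64 * i) * Real.log d) := by ring
        _ ≤ (d:ℝ) ^ (1 - 1 / (i:ℝ)) * y := mul_le_mul hmd hd1 (by positivity) (by positivity)
    calc (k:ℝ) * y ≤ ((d:ℝ) ^ (1 - 1 / (i:ℝ)) * y) * y :=
          mul_le_mul_of_nonneg_right (hk2.trans e1) hy0.le
      _ = d := hyy
  have hkd : (k:ℝ) / d ≤ y⁻¹ := by
    rw [div_le_iff₀ hd0, inv_mul_eq_div, le_div_iff₀ hy0]; exact hmain
  have hyδ : y⁻¹ ≤ δ := by
    rw [inv_le_comm₀ hy0 hδ0]; exact hd2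
  have hkδ : (k:ℝ) / d ≤ δ := hkd.trans hyδ
  have hk154 : (k:ℝ) / d ≤ 1 / 2 ^ 154 := hkδ.trans (min_le_left _ _)
  have hk154' : (k:ℝ) * 2 ^ 154 ≤ d := by
    rw [div_le_div_iff₀ hd0 (by positivity)] at hk154
    linarith
  have hknat : k * 2 ^ 154 ≤ d := by exact_mod_cast hk154'
  refine ⟨?_, ?_, ?_, ?_, ?_⟩
  · unfold n0
    rw [Nat.le_div_iff_mul_le (by positivity)]
    have e1 : k * 2 ^ 128 * 2 ≤ k * 2 ^ 154 := by
      rw [mul_assoc]
      apply Nat.mul_le_mul_left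
      norm_num
    have hk1 : 0 < k := by
      rw [hk]
      exact Nat.ceil_pos.mpr (by linarith)
    have e0 : 0 < k * 2 ^ 128 := Nat.mul_pos hk1 (by positivity)
    have e2 : k * 2 ^ 128 * 2 ≤ d := e1.trans hknat
    generalize k * 2 ^ 128 = a at e0 e2 ⊢
    omega
  · have e1 : 2 * k ≤ k * 2 ^ 154 := by
      rw [mul_comm]
      apply Nat.mul_le_mul_left
      norm_num
    exact e1.trans hknat
  · have hR : (0:ℝ) < ((64 * i : ℕ) : ℝ) := by exact_mod_cast (by omega : 0 < 64 * i)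
    have e1 : tt d k ≤ 1 / (256 * ((64 * i : ℕ) : ℝ)) := by
      have e2 : tt d k ^ 16 ≤ (1 / (256 * ((64 * i : ℕ) : ℝ))) ^ 16 := by
        rw [tt_pow]
        exact hkδ.trans (min_le_right _ _)
      exact (pow_le_pow_iff_left₀ (tt_nonneg _ _) (by positivity) (by norm_num)).mp e2
    calc 4 * ((64 * i : ℕ) : ℝ) * tt d k
        ≤ 4 * ((64 * i : ℕ) : ℝ) * (1 / (256 * ((64 * i : ℕ) : ℝ))) :=
          mul_le_mul_of_nonneg_left e1 (by positivity)
      _ = 1 / 64 := by field_simp; norm_num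
  · have e1 : tt d k ^ (64 * i) = ((k:ℝ) / d) ^ (4 * i) := by
      rw [← tt_pow, ← pow_mul]; congr 1; ring
    have e2 : ((k:ℝ) / d) ^ (4 * i) ≤ (y⁻¹) ^ (4 * i) := pow_le_pow_left₀ (by positivity) hkd _
    have e3 : y ^ (4 * i) = d ^ 2 := by
      rw [hy, ← Real.rpow_natCast, ← Real.rpow_mul hd0.le]
      have : 1 / (2 * (i:ℝ)) * ((4 * i : ℕ) : ℝ) = 2 := by push_cast; field_simp; norm_num
      rw [this]
      norm_cast
    rw [e1]
    rw [inv_pow, e3] at e2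
    calc 8 * (d:ℝ) * ((k:ℝ) / d) ^ (4 * i) ≤ 8 * d * ((d:ℝ) ^ 2)⁻¹ :=
          mul_le_mul_of_nonneg_left e2 (by positivity)
      _ = 8 / d := by field_simp
      _ ≤ 1 := by
          rw [div_le_one hd0]
          refine le_trans ?_ hd130
          norm_num
  · calc 2 * (k:ℝ) / d = 2 * (k / d) := by ring
      _ ≤ 2 * (1 / 2 ^ 154) := by linarith
      _ = 1 / 2 ^ 153 := by norm_num

end Pool.Agent.Helper50_RIP
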