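import Mathlib
import Pool.Agent.Helper50_RIP.Rip4

set_option autoImplicit false
set_option linter.unusedSectionVars false
set_option linter.unusedVariables false

/-!
# The matrix
-/

namespace Pool.Agent.Helper50_RIP

open Pool.Agent.Helper50_Stretch Module Filter
open scoped InnerProductSpace

variable {d k : ℕ}

theorem inner_uu_uu (P : ℕ → KP) {O : Fin d → Fin d → ℝ}
    (hO : ∀ l l', ∑ j, O l j * O l' j = if l = l' then 1 else 0) (ξ : Fin d → Wd d)
    (l l' : Fin d) : ⟪uu P O ξ l, uu P O ξ l'⟫_ℝ = if l = l' then 1 else 0 := by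
  unfold uu
  rw [(orthonormal_vv P ξ).inner_sum]
  simp only [conj_trivial]
  exact hO l l'

/-- entries of the rows are bounded -/
theorem uu_bound (h : BigD d) {O : Fin d → Fin d → ℝ} {γ : Fin d → Fin d}
    (hO2 : ∀ l, ∑ j, |O l j| ≤ 3)
    (hO3 : ∀ b ∈ badS d, ∀ l, O l b ^ 2 = if γ l = b then 1 / 2 ^ sx d b else 0)
    (ξ : Fin d → Wd d) (hB : ∀ l, l < d → Bd ξ l) (l i : Fin d) :
    |uu (PP d) O ξ l i| ≤ 2 ^ 69 / Real.sqrt d := by
  have hd0 := h.dpos
  have hd : 0 < d := by exact_mod_cast hd0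
  have hsd : 0 < Real.sqrt d := Real.sqrt_pos.mpr hd0
  have hsd2 : Real.sqrt d ^ 2 = d := Real.sq_sqrt hd0.le
  have h1 : uu (PP d) O ξ l i = ∑ j, O l j * (vv (PP d) ξ j) i := by
    unfold uu
    rw [WithLp.ofLp_sum, Finset.sum_apply]
    apply Finset.sum_congr rfl
    intro j _
    rfl
  rw [h1]
  have h2 : ∀ j : Fin d, |O l j * (vv (PP d) ξ j) i|
      ≤ 2 ^ 67 / Real.sqrt d * |O l j| + (if γ l = j then 128 / Real.sqrt d else 0) := by
    intro j
    have hBj := hB j j.isLt i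
    have ht : 0 < tt d (d - j) := tt_pos hd (by have := j.isLt; omega)
    set v := (vv (PP d) ξ j) i with hv
    by_cases hb : j ∈ badS d
    · -- bad vector
      have e1 : 0 ≤ 2 ^ 67 / Real.sqrt d * |O l j| := by positivity
      by_cases hγ : γ l = j
      · rw [if_pos hγ]
        have e2 := hO3 j hb l
        rw [if_pos hγ] at e2
        have e3 : (O l j * v) ^ 2 ≤ (128 / Real.sqrt d) ^ 2 := by
          rw [mul_pow, e2, div_pow, hsd2]
          have e4 := sx_ge j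
          have e5 : v ^ 2 ≤ 16384 / d * (tt d (d - j))⁻¹ ^ 15 := by
            rw [inv_pow, ← div_eq_mul_inv, div_div, le_div_iff₀ (by positivity)]
            calc v ^ 2 * (d * tt d (d - j) ^ 15) = tt d (d - j) ^ 15 * d * v ^ 2 := by ring
              _ ≤ 16384 := hBj
          have e6 : (0:ℝ) < 2 ^ sx d j := by positivity
          rw [one_div, inv_mul_le_iff₀ e6]
          calc v ^ 2 ≤ 16384 / d * (tt d (d - j))⁻¹ ^ 15 := e5
            _ ≤ 16384 / d * 2 ^ sx d j := mul_le_mul_of_nonneg_left e4 (by positivity)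
            _ = _ := by norm_num; ring
        have e4 := abs_le_of_sq_le_sq e3 (by positivity)
        linarith
      · have e2 := hO3 j hb l
        rw [if_neg hγ] at e2
        have e3 : O l j = 0 := pow_eq_zero_iff (two_ne_zero) |>.mp e2
        rw [e3, if_neg hγ]
        simp
    · -- good vector
      have hg : n0 d < d - j := by
        rw [mem_badS] at hb
        have := j.isLt
        omega
      have e1 := tt_good hd hg
      have e2 : v ^ 2 ≤ (2 ^ 67 / Real.sqrt d) ^ 2 := by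
        rw [div_pow, hsd2, le_div_iff₀ hd0]
        have e3 : (1 / 256 : ℝ) ^ 15 ≤ tt d (d - j) ^ 15 := pow_le_pow_left₀ (by norm_num) e1 15
        have e4 : (1 / 256 : ℝ) ^ 15 * (d * v ^ 2) ≤ 16384 := by
          refine le_trans ?_ hBj
          calc (1 / 256 : ℝ) ^ 15 * (d * v ^ 2) ≤ tt d (d - j) ^ 15 * (d * v ^ 2) :=
                mul_le_mul_of_nonneg_right e3 (by positivity)
            _ = _ := by ring
        have e5 : (1 / 256 : ℝ) ^ 15 * 2 ^ 120 = 1 := by norm_num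
        nlinarith
      have e3 := abs_le_of_sq_le_sq e2 (by positivity)
      rw [abs_mul, mul_comm]
      have e4 : 0 ≤ (if γ l = j then 128 / Real.sqrt d else 0) := by
        split_ifs
        · positivity
        · exact le_refl _
      have e5 := mul_le_mul_of_nonneg_right e3 (abs_nonneg (O l j))
      linarith
  refine (Finset.abs_sum_le_sum_abs _ _).trans ?_
  refine (Finset.sum_le_sum (fun j _ => h2 j)).trans ?_
  rw [Finset.sum_add_distrib, ← Finset.mul_sum, Finset.sum_ite_eq]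
  simp only [Finset.mem_univ, if_true]
  calc 2 ^ 67 / Real.sqrt d * ∑ j, |O l j| + 128 / Real.sqrt d
      ≤ 2 ^ 67 / Real.sqrt d * 3 + 128 / Real.sqrt d := by
        have := mul_le_mul_of_nonneg_left (hO2 l) (by positivity : 0 ≤ 2 ^ 67 / Real.sqrt d)
        linarith
    _ = (2 ^ 67 * 3 + 128) / Real.sqrt d := by ring
    _ ≤ _ := by
        apply div_le_div_of_nonneg_right _ hsd.le
        norm_num

/-- averages over many events: existence of a good point -/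
theorem exists_of_avg_lt_one {Ω : Type*} [Fintype Ω] [Nonempty Ω] {p : Ω → Prop}
    (h : avg (fun ω => ind (¬ p ω)) < 1) : ∃ ω, p ω := by
  by_contra hcon
  push Not at hcon
  have h1 : ∀ ω, ind (¬ p ω) = 1 := fun ω => ind_true (hcon ω)
  rw [avg_congr h1, avg_const] at h
  exact lt_irrefl _ h

/-- the number of rows -/
noncomputable def kk (i m d : ℕ) : ℕ := ⌈AA (64 * i) * m * Real.log d⌉₊

/-- the good property of a seed at level `i` -/
def SG (O : Fin d → Fin d → ℝ) (i : ℕ) (ξ : Fin d → Wd d) : Prop :=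
  ∀ m : ℕ, 1 ≤ m → m ≤ d → (m:ℝ) ≤ (d:ℝ) ^ (1 - 1 / (i:ℝ)) →
    1 / 2 ≤ avg (fun Ω : Om d (kk i m d) => ind (Good2 (PP d) O (kk i m d) m ξ Ω.1))

/-- largeness at level `i` -/
structure BigI (i d : ℕ) : Prop where
  bd : BigD d
  lv : ∀ m k : ℕ, 1 ≤ m →
    (m:ℝ) ≤ (d:ℝ) ^ (1 - 1 / (i:ℝ)) → k = ⌈AA (64 * i) * m * Real.log d⌉₊ →
    k ≤ n0 d ∧ 2 * k ≤ d ∧ 4 * ((64 * i : ℕ) : ℝ) * tt d k ≤ 1 / 64 ∧
      8 * d * tt d k ^ (64 * i) ≤ 1 ∧ 2 * (k:ℝ) / d ≤ 1 / 2 ^ 153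
  sm : 24 / (d:ℝ) ^ 2 ≤ (1 / 2) ^ (i + 2)

theorem ev_bigI (i : ℕ) (hi : 1 ≤ i) : ∀ᶠ d : ℕ in atTop, BigI i d := by
  have h1 : ∀ᶠ d : ℕ in atTop, 24 / (d:ℝ) ^ 2 ≤ (1 / 2) ^ (i + 2) := by
    filter_upwards [eventually_ge_atTop (24 * 2 ^ (i + 2))] with d hd
    have hd1 : (24:ℝ) * 2 ^ (i + 2) ≤ d := by exact_mod_cast hd
    have hd2 : (1:ℝ) ≤ d := by
      refine le_trans ?_ hd1
      have : (1:ℝ) ≤ 2 ^ (i + 2) := one_le_pow₀ (by norm_num)
      linarith
    rw [div_le_iff₀ (by positivity), one_div, inv_pow, inv_mul_eq_div,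
      le_div_iff₀ (by positivity)]
    nlinarith
  filter_upwards [ev_bigD, ev_level i hi, h1] with d h2 h3 h4
  exact ⟨h2, h3, h4⟩

theorem sg_prob {i : ℕ} (hi : 1 ≤ i) (h : BigI i d) {O : Fin d → Fin d → ℝ}
    {γ : Fin d → Fin d}
    (hO : ∀ l l', ∑ j, O l j * O l' j = if l = l' then 1 else 0)
    (hO3 : ∀ b ∈ badS d, ∀ l, O l b ^ 2 = if γ l = b then 1 / 2 ^ sx d b else 0)
    (hγ : ∀ b ∈ badS d, (grp γ b).card = 2 ^ sx d b) :
    avg (fun ξ : Fin d → Wd d => ind (¬ SG O i ξ)) ≤ (1 / 2) ^ (i + 2) := by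
  classical
  have hd0 := h.bd.dpos
  have hd : 0 < d := by exact_mod_cast hd0
  have h1 : avg (fun ξ : Fin d → Wd d => ind (∃ m ∈ (Finset.Icc 1 d).filter
      (fun m : ℕ => (m:ℝ) ≤ (d:ℝ) ^ (1 - 1 / (i:ℝ))), ¬ (1 / 2 ≤ avg (fun Ω : Om d (kk i m d) =>
        ind (Good2 (PP d) O (kk i m d) m ξ Ω.1))))) ≤ (1 / 2) ^ (i + 2) := by
    refine (avg_ind_exists_le _ _ (c := 24 / d ^ 3) ?_).trans ?_
    · intro m hm
      rw [Finset.mem_filter, Finset.mem_Icc] at hm
      obtain ⟨e1, e2, e3, e4, e5⟩ := h.lv m (kk i m d) hm.1.1 hm.2 rfl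
      have hk : AA (64 * i) * m * Real.log d ≤ kk i m d := Nat.le_ceil _
      have hk1 : 1 ≤ kk i m d := by
        rw [Nat.one_le_iff_ne_zero, ← Nat.pos_iff_ne_zero]
        apply Nat.ceil_pos.mpr
        have f1 := h.bd.log_ge
        have f2 : (1:ℝ) ≤ m := by exact_mod_cast hm.1.1
        have f3 : 0 < AA (64 * i) := by unfold AA; positivity
        positivity
      refine (level_prob (PP d) hO hO3 hγ hd hk1 e1 e2 (by omega : 3 ≤ 64 * i) e3 e4
        hm.1.1 hm.1.2).trans ?_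
      exact level_bound h.bd hm.1.1 (by omega) hk (by omega) e5
    · have e1 : (((Finset.Icc 1 d).filter (fun m : ℕ => (m:ℝ) ≤ (d:ℝ) ^ (1 - 1 / (i:ℝ)))).card : ℝ)
          ≤ d := by
        have := Finset.card_filter_le (Finset.Icc 1 d)
          (fun m : ℕ => (m:ℝ) ≤ (d:ℝ) ^ (1 - 1 / (i:ℝ)))
        rw [Nat.card_Icc, Nat.add_sub_cancel] at this
        exact_mod_cast this
      refine le_trans ?_ h.sm
      calc _ ≤ (d:ℝ) * (24 / d ^ 3) := mul_le_mul_of_nonneg_right e1 (by positivity)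
        _ = 24 / d ^ 2 := by field_simp
  refine le_trans ?_ h1
  apply avg_ind_mono
  intro ξ hξ
  unfold SG at hξ
  push Not at hξ
  obtain ⟨m, hm1, hm2, hm3, hm4⟩ := hξ
  exact ⟨m, Finset.mem_filter.mpr ⟨Finset.mem_Icc.mpr ⟨hm1, hm2⟩, hm3⟩, not_le.mpr hm4⟩

/-- one seed good for all the levels -/
theorem exists_seed (h : BigD d) {O : Fin d → Fin d → ℝ} {γ : Fin d → Fin d}
    (hO : ∀ l l', ∑ j, O l j * O l' j = if l = l' then 1 else 0)
    (hO3 : ∀ b ∈ badS d, ∀ l, O l b ^ 2 = if γ l = b then 1 / 2 ^ sx d b else 0)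
    (hγ : ∀ b ∈ badS d, (grp γ b).card = 2 ^ sx d b) (d0 : ℕ → ℕ)
    (hd0 : ∀ i, 1 ≤ i → ∀ d, d0 i ≤ d → BigI i d) :
    ∃ ξ : Fin d → Wd d, (∀ l, l < d → Bd ξ l) ∧
      ∀ i, 1 ≤ i → i ≤ d → d0 i ≤ d → SG O i ξ := by
  classical
  have hdpos := h.dpos
  have hd3 : (3:ℝ) ≤ d := by exact_mod_cast h.d3
  apply exists_of_avg_lt_one
  have h1 := bdd_prob h
  have h2 : avg (fun ξ : Fin d → Wd d => ind (∃ i ∈ (Finset.Icc 1 d).filter
      (fun i => d0 i ≤ d), ¬ SG O i ξ)) ≤ 1 / 4 := by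
    refine (avg_mono (fun ξ => ind_exists_le _ _)).trans ?_
    rw [avg_sum]
    have e1 : ∀ i ∈ (Finset.Icc 1 d).filter (fun i => d0 i ≤ d),
        avg (fun ξ : Fin d → Wd d => ind (¬ SG O i ξ)) ≤ (1 / 2) ^ (i + 2) := by
      intro i hi
      rw [Finset.mem_filter, Finset.mem_Icc] at hi
      exact sg_prob hi.1.1 (hd0 i hi.1.1 d hi.2) hO hO3 hγ
    refine (Finset.sum_le_sum e1).trans ?_
    have e2 : ∑ i ∈ (Finset.Icc 1 d).filter (fun i => d0 i ≤ d), ((1:ℝ) / 2) ^ (i + 2)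
        ≤ ∑ i ∈ Finset.Icc 1 d, ((1:ℝ) / 2) ^ (i + 2) :=
      Finset.sum_le_sum_of_subset_of_nonneg (Finset.filter_subset _ _)
        (fun i _ _ => by positivity)
    refine e2.trans ?_
    have e3 : ∀ n : ℕ, ∑ i ∈ Finset.Icc 1 n, ((1:ℝ) / 2) ^ (i + 2) = 1 / 4 - (1 / 2) ^ (n + 2) := by
      intro n
      induction n with
      | zero => norm_num
      | succ n ih =>
        rw [Finset.sum_Icc_succ_top (by omega), ih]
        ring
    rw [e3]
    have : (0:ℝ) ≤ (1 / 2) ^ (d + 2) := by positivity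
    linarith
  have h3 := avg_ind_or_le (r := fun ξ : Fin d → Wd d => ¬ ((∀ l, l < d → Bd ξ l) ∧
      ∀ i, 1 ≤ i → i ≤ d → d0 i ≤ d → SG O i ξ)) ?_ h1 h2
  · refine lt_of_le_of_lt h3 ?_
    have : 4 / (d:ℝ) ^ 2 ≤ 4 / 9 := by
      apply div_le_div_of_nonneg_left (by norm_num) (by norm_num)
      nlinarith
    linarith
  · intro ξ hξ
    rw [not_and_or] at hξ
    rcases hξ with hξ | hξ
    · left; exact hξ
    · right
      push Not at hξ
      obtain ⟨i, hi1, hi2, hi3, hi4⟩ := hξ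
      exact ⟨i, Finset.mem_filter.mpr ⟨Finset.mem_Icc.mpr ⟨hi1, hi2⟩, hi3⟩, hi4⟩

end Pool.Agent.Helper50_RIP
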